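import Pool.Agent.Lib.AB474.Basic

/-!
# Digraphs, good pairs, elimination instances, hub instances, the closure test
-/

namespace Pool.Agent.Lib.AB474

open Relation

variable {V : Type*}

/-! ### Digraphs -/

/-- Adjacency in the underlying graph. -/
def Adj (D : V → V → Prop) (u v : V) : Prop := D u v ∨ D v u

/-- No three pairwise nonadjacent vertices. -/
def Alpha2 (D : V → V → Prop) : Prop :=
  ∀ a b c, a ≠ b → a ≠ c → b ≠ c → Adj D a b ∨ Adj D a c ∨ Adj D b c

/-- The arcs of `D` can be divided into two classes such that everything is reached from `s` in the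
first class and everything leads to `t` in the second. -/
def GoodPair (D : V → V → Prop) (s t : V) : Prop :=
  ∃ X : V → V → Prop, (∀ v, ReflTransGen (fun a b => D a b ∧ X a b) s v) ∧
    (∀ v, ReflTransGen (fun a b => D a b ∧ ¬ X a b) v t)

/-- Arc-disjoint out-branching (parent function `f`, root `s`) and in-branching (parent function
`g`, root `t`). -/
structure Br (D : V → V → Prop) (s t : V) (f g : V → V) : Prop where
  fs : f s = s
  gt : g t = t
  fD : ∀ v, v ≠ s → D (f v) v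
  gD : ∀ v, v ≠ t → D v (g v)
  fr : ∀ v, ∃ n, f^[n] v = s
  gr : ∀ v, ∃ n, g^[n] v = t
  dis : ∀ u v, u ≠ t → v ≠ s → g u = v → f v ≠ u

/-- Four different pairwise adjacent vertices. -/
structure K4 (D : V → V → Prop) (a b c d : V) : Prop where
  ab : a ≠ b
  ac : a ≠ c
  ad : a ≠ d
  bc : b ≠ c
  bd : b ≠ d
  cd : c ≠ d
  Aab : Adj D a b
  Aac : Adj D a c
  Aad : Adj D a d
  Abc : Adj D b c
  Abd : Adj D b d
  Acd : Adj D c d

/-- `s` and `t` lie in a common 4-clique. -/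
def InK4 (D : V → V → Prop) (s t : V) : Prop := ∃ b c d, K4 D s b c d ∧ (t = s ∨ t = b)

/-- Cliques. -/
def Clq (D : V → V → Prop) (K : V → Prop) : Prop := ∀ u v, K u → K v → u ≠ v → Adj D u v

/-- Maximal cliques. -/
def MaxClq (D : V → V → Prop) (K : V → Prop) : Prop :=
  Clq D K ∧ ∀ v, ¬ K v → ∃ k, K k ∧ ¬ Adj D k v

/-! ### Elimination of a set `E` -/

/-- Plus arcs arising by passing through `E`. -/
def Pe (D : V → V → Prop) (E : V → Prop) (Fp Fm : V → V → Prop) (u v : V) : Prop :=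
  ∃ e, E e ∧ TransGen Fp u e ∧ D e v ∧ ¬ Fm e v

/-- Minus arcs arising by passing through `E`. -/
def Me (D : V → V → Prop) (E : V → Prop) (Fp Fm : V → V → Prop) (u v : V) : Prop :=
  ∃ e, E e ∧ TransGen Fm e v ∧ D u e ∧ ¬ Fp u e

/-- The instance obtained by eliminating `E`, where the plus side uses the arcs `Fp` to enter the
vertices of `E` and the minus side uses the arcs `Fm` to leave them. -/
def elimX (D : V → V → Prop) (E : V → Prop) (Fp Fm : V → V → Prop) (s t : V) : Inst V where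
  S v := ¬ E v ∧ ∃ e, E e ∧ ReflTransGen Fp s e ∧ D e v ∧ ¬ Fm e v
  T v := ¬ E v ∧ ∃ e, E e ∧ ReflTransGen Fm e t ∧ D v e ∧ ¬ Fp v e
  Gp u v := ¬ E u ∧ ¬ E v ∧ (D u v ∨ Pe D E Fp Fm u v)
  Gm u v := ¬ E u ∧ ¬ E v ∧ (D u v ∨ Me D E Fp Fm u v)
  K u v := D u v ∧ ¬ Pe D E Fp Fm u v ∧ ¬ Me D E Fp Fm u v

/-- Admissible data for the elimination. -/
structure ElimOK (D : V → V → Prop) (E : V → Prop) (Fp Fm : V → V → Prop) (s t : V) : Prop where
  Es : E s
  Et : E t
  FpD : ∀ u v, Fp u v → D u v ∧ E v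
  FmD : ∀ u v, Fm u v → D u v ∧ E u
  dj : ∀ u v, Fp u v → ¬ Fm u v
  rp : ∀ e, E e → ReflTransGen Fp s e ∨ ∃ u, ¬ E u ∧ TransGen Fp u e
  rm : ∀ e, E e → ReflTransGen Fm e t ∨ ∃ u, ¬ E u ∧ TransGen Fm e u

/-- The arcs of the out-branching entering `E`. -/
def FpOf (E : V → Prop) (s : V) (f : V → V) (u v : V) : Prop := E v ∧ v ≠ s ∧ f v = u

/-- The arcs of the in-branching leaving `E`. -/
def FmOf (E : V → Prop) (t : V) (g : V → V) (u v : V) : Prop := E u ∧ u ≠ t ∧ g u = v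

/-- The hub instance of a clique `K`. -/
def hubX (D : V → V → Prop) (K : V → Prop) : Inst V where
  S v := ¬ K v ∧ ∃ k, K k ∧ D k v
  T v := ¬ K v ∧ ∃ k, K k ∧ D v k
  Gp u v := ¬ K u ∧ ¬ K v ∧ D u v
  Gm u v := ¬ K u ∧ ¬ K v ∧ D u v
  K _ _ := True

namespace Inst

/-! ### Instances inside a vertex set -/

/-- All sources, sinks and arcs lie in `X`. -/
structure Inside (I : Inst V) (X : V → Prop) : Prop where
  S : ∀ v, I.S v → X v
  T : ∀ v, I.T v → X v
  Gp : ∀ u v, I.Gp u v → X u ∧ X v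
  Gm : ∀ u v, I.Gm u v → X u ∧ X v

/-- Solvability inside `X`. -/
def SolvX (I : Inst V) (X : V → Prop) : Prop := ∃ Y : V → V → Prop,
  (∀ v, X v → Rch (fun a b => I.Gp a b ∧ (I.K a b → Y a b)) I.S v) ∧
  (∀ v, X v → Col (fun a b => I.Gm a b ∧ (I.K a b → ¬ Y a b)) I.T v)

/-- One round of the closure: conflict arcs critical for one side are taken from the other side. -/
def step (I : Inst V) (X : V → Prop) : Inst V :=
  { I with
    Gp := fun u v => I.Gp u v ∧ ¬ (I.Cf u v ∧ ∃ w, X w ∧ ¬ Col (Del I.Gm u v) I.T w)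
    Gm := fun u v => I.Gm u v ∧ ¬ (I.Cf u v ∧ ∃ w, X w ∧ ¬ Rch (Del I.Gp u v) I.S w) }

/-- The closure after `m` rounds. -/
def clos (I : Inst V) (X : V → Prop) : ℕ → Inst V
  | 0 => I
  | m + 1 => (clos I X m).step X

/-- The test. -/
structure Pass (I : Inst V) (X : V → Prop) : Prop where
  rp : ∀ v, X v → Rch I.Gp I.S v
  cm : ∀ v, X v → Col I.Gm I.T v
  cov : (∀ v, X v → I.R v ∨ I.L v) ∨ Four (fun v => X v ∧ ¬ I.R v ∧ ¬ I.L v)
  good : ∀ n v, X n → X v → ¬ I.R n → ¬ I.L n → v ≠ n → I.Good n v ∨ I.Good v n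

end Inst

/-- The relation given by a list of pairs. -/
def lrel (l : List (V × V)) (u v : V) : Prop := (u, v) ∈ l

end Pool.Agent.Lib.AB474
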