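import Pool.Agent.Lib.AB474.Defs

/-!
# Basic facts on labelling instances: duality, induction principle, labels
-/

namespace Pool.Agent.Lib.AB474

open Relation

variable {V : Type*}

theorem rtmono {A B : V → V → Prop} {u v : V} (h : ReflTransGen A u v)
    (hA : ∀ a b, A a b → B a b) : ReflTransGen B u v := by
  induction h with
  | refl => exact ReflTransGen.refl
  | tail _ h1 ih => exact ih.tail (hA _ _ h1)

theorem col_iff_rch {A : V → V → Prop} {T : V → Prop} {v : V} :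
    Col A T v ↔ Rch (fun a b => A b a) T v := by
  constructor
  · rintro ⟨t, ht, h⟩
    refine ⟨t, ht, ?_⟩
    exact h.swap
  · rintro ⟨t, ht, h⟩
    refine ⟨t, ht, ?_⟩
    exact h.swap

theorem rch_iff_col {A : V → V → Prop} {T : V → Prop} {v : V} :
    Rch A T v ↔ Col (fun a b => A b a) T v := by
  rw [col_iff_rch]

theorem Rch.mono {A B : V → V → Prop} {S S' : V → Prop} {v : V} (h : Rch A S v)
    (hA : ∀ a b, A a b → B a b) (hS : ∀ s, S s → S' s) : Rch B S' v := by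
  obtain ⟨s, hs, h⟩ := h
  exact ⟨s, hS s hs, rtmono h hA⟩

theorem Col.mono {A B : V → V → Prop} {S S' : V → Prop} {v : V} (h : Col A S v)
    (hA : ∀ a b, A a b → B a b) (hS : ∀ s, S s → S' s) : Col B S' v := by
  obtain ⟨s, hs, h⟩ := h
  exact ⟨s, hS s hs, rtmono h hA⟩

theorem Rch.base {A : V → V → Prop} {S : V → Prop} {v : V} (h : S v) : Rch A S v :=
  ⟨v, h, ReflTransGen.refl⟩

theorem Col.base {A : V → V → Prop} {S : V → Prop} {v : V} (h : S v) : Col A S v :=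
  ⟨v, h, ReflTransGen.refl⟩

theorem Rch.step {A : V → V → Prop} {S : V → Prop} {u v : V} (h : Rch A S u) (huv : A u v) :
    Rch A S v := by
  obtain ⟨s, hs, h⟩ := h
  exact ⟨s, hs, h.tail huv⟩

theorem Rch.steps {A : V → V → Prop} {S : V → Prop} {u v : V} (h : Rch A S u)
    (huv : ReflTransGen A u v) : Rch A S v := by
  obtain ⟨s, hs, h⟩ := h
  exact ⟨s, hs, h.trans huv⟩

theorem Col.step {A : V → V → Prop} {S : V → Prop} {u v : V} (h : Col A S v) (huv : A u v) :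
    Col A S u := by
  obtain ⟨s, hs, h⟩ := h
  exact ⟨s, hs, ReflTransGen.head huv h⟩

theorem Col.steps {A : V → V → Prop} {S : V → Prop} {u v : V} (h : Col A S v)
    (huv : ReflTransGen A u v) : Col A S u := by
  obtain ⟨s, hs, h⟩ := h
  exact ⟨s, hs, huv.trans h⟩

/-- If a set is reached from `S`, it is entered from outside (or meets `S`). -/
theorem Rch.enter {A : V → V → Prop} {S : V → Prop} {w : V} (h : Rch A S w) (X : V → Prop)
    (hw : X w) (hS : ∀ s, S s → ¬ X s) : ∃ u v, A u v ∧ ¬ X u ∧ X v ∧ Rch A S u := by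
  obtain ⟨s, hs, h⟩ := h
  induction h with
  | refl => exact absurd hw (hS _ hs)
  | @tail b c hb hbc ih =>
    by_cases hX : X b
    · exact ih hX
    · exact ⟨b, c, hbc, hX, hw, s, hs, hb⟩

/-- If a set leads to `T`, it is left (or meets `T`). -/
theorem Col.exit {A : V → V → Prop} {T : V → Prop} {w : V} (h : Col A T w) (X : V → Prop)
    (hw : X w) (hT : ∀ s, T s → ¬ X s) : ∃ u v, A u v ∧ X u ∧ ¬ X v ∧ Col A T v := by
  obtain ⟨u, v, h1, h2, h3, h4⟩ := (col_iff_rch.1 h).enter X hw hT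
  exact ⟨v, u, h1, h3, h2, col_iff_rch.2 h4⟩

namespace Inst

variable {I : Inst V}

@[simp] theorem dual_dual : I.dual.dual = I := rfl

@[simp] theorem dual_S {v : V} : I.dual.S v ↔ I.T v := Iff.rfl
@[simp] theorem dual_T {v : V} : I.dual.T v ↔ I.S v := Iff.rfl
@[simp] theorem dual_Gp {u v : V} : I.dual.Gp u v ↔ I.Gm v u := Iff.rfl
@[simp] theorem dual_Gm {u v : V} : I.dual.Gm u v ↔ I.Gp v u := Iff.rfl
@[simp] theorem dual_K {u v : V} : I.dual.K u v ↔ I.K v u := Iff.rfl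

theorem dual_Cf {u v : V} : I.dual.Cf u v ↔ I.Cf v u := by
  simp only [Cf, dual_Gp, dual_Gm, dual_K]
  tauto

theorem dual_N {v : V} : I.dual.N v ↔ I.N v := by
  simp only [N, dual_S, dual_T]
  tauto

theorem RL.toDual {b : Bool} {v : V} (h : I.RL b v) : I.dual.RL (!b) v := by
  induction h with
  | s h => exact RL.t h
  | t h => exact RL.s h
  | rp _ h1 h2 ih => exact RL.lm ih h1 (fun h => h2 (dual_Cf.1 h))
  | rc _ _ h1 ih1 ih2 => exact RL.lc ih1 ih2 h1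
  | lm _ h1 h2 ih => exact RL.rp ih h1 (fun h => h2 (dual_Cf.1 h))
  | lc _ _ h1 ih1 ih2 => exact RL.rc ih1 ih2 h1

theorem dual_RL {b : Bool} {v : V} : I.dual.RL b v ↔ I.RL (!b) v := by
  constructor
  · intro h
    exact h.toDual
  · intro h
    simpa using h.toDual

theorem dual_R {v : V} : I.dual.R v ↔ I.L v := dual_RL
theorem dual_L {v : V} : I.dual.L v ↔ I.R v := dual_RL

theorem Solvable.toDual (h : I.Solvable) : I.dual.Solvable := by
  obtain ⟨X, h1, h2⟩ := h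
  refine ⟨fun a b => ¬ X b a, fun v => ?_, fun v => ?_⟩
  · have := h2 v
    rw [col_iff_rch] at this
    exact this
  · have := h1 v
    rw [rch_iff_col] at this
    refine this.mono (fun a b hab => ?_) (fun s hs => hs)
    exact ⟨hab.1, fun hk hn => hn (hab.2 hk)⟩

theorem dual_Solvable : I.dual.Solvable ↔ I.Solvable :=
  ⟨fun h => by simpa using h.toDual, fun h => h.toDual⟩

theorem Closed.toDual (h : I.Closed) : I.dual.Closed := by
  refine ⟨fun v => ?_, fun v => ?_, fun u v huv w => ?_, fun u v huv w => ?_⟩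
  · exact col_iff_rch.1 (h.cm v)
  · exact rch_iff_col.1 (h.rp v)
  · have := col_iff_rch.1 (h.nm v u (dual_Cf.1 huv) w)
    refine this.mono (fun a b hab => ?_) (fun s hs => hs)
    exact ⟨hab.1, fun hh => hab.2 ⟨hh.2, hh.1⟩⟩
  · have := rch_iff_col.1 (h.np v u (dual_Cf.1 huv) w)
    refine this.mono (fun a b hab => ?_) (fun s hs => hs)
    exact ⟨hab.1, fun hh => hab.2 ⟨hh.2, hh.1⟩⟩

theorem rch_del_dual {u v w : V} : Rch (Del I.dual.Gp u v) I.dual.S w ↔ Col (Del I.Gm v u) I.T w := by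
  rw [col_iff_rch]
  constructor
  · intro h
    exact h.mono (fun a b hab => ⟨hab.1, fun hh => hab.2 ⟨hh.2, hh.1⟩⟩) (fun s hs => hs)
  · intro h
    exact h.mono (fun a b hab => ⟨hab.1, fun hh => hab.2 ⟨hh.2, hh.1⟩⟩) (fun s hs => hs)

theorem col_del_dual {u v w : V} : Col (Del I.dual.Gm u v) I.dual.T w ↔ Rch (Del I.Gp v u) I.S w := by
  rw [rch_iff_col]
  constructor
  · intro h
    exact h.mono (fun a b hab => ⟨hab.1, fun hh => hab.2 ⟨hh.2, hh.1⟩⟩) (fun s hs => hs)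
  · intro h
    exact h.mono (fun a b hab => ⟨hab.1, fun hh => hab.2 ⟨hh.2, hh.1⟩⟩) (fun s hs => hs)

theorem dual_Good {u v : V} : I.dual.Good u v ↔ I.Good v u := by
  simp only [Good, rch_del_dual, col_del_dual, dual_Gp, dual_Gm]
  tauto

theorem Norm.toDual (h : I.Norm) : I.dual.Norm := by
  refine ⟨h.toClosed.toDual, fun v h1 h2 => h.dj v h2 h1, fun u v h1 h2 h3 => ?_,
    fun u v h1 h2 h3 => ?_, fun n v hn hv => ?_⟩
  · exact h.tm v u h1 h2 (fun hh => h3 (dual_Cf.2 hh))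
  · exact h.sp v u h1 h2 (fun hh => h3 (dual_Cf.2 hh))
  · rw [dual_Good, dual_Good]
    exact (h.good n v (dual_N.1 hn) hv).symm

/-! ### Labels -/

variable {Lp Lm : V → V → Prop}

@[simp] theorem lab_S {v : V} : (I.lab Lp Lm).S v ↔ I.S v := Iff.rfl
@[simp] theorem lab_T {v : V} : (I.lab Lp Lm).T v ↔ I.T v := Iff.rfl
@[simp] theorem lab_Gp {u v : V} : (I.lab Lp Lm).Gp u v ↔ I.Gp u v ∧ ¬ Lm u v := Iff.rfl
@[simp] theorem lab_Gm {u v : V} : (I.lab Lp Lm).Gm u v ↔ I.Gm u v ∧ ¬ Lp u v := Iff.rfl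

theorem lab_Cf {u v : V} : (I.lab Lp Lm).Cf u v ↔ I.Cf u v ∧ ¬ Lp u v ∧ ¬ Lm u v := by
  simp only [Cf, lab_Gp, lab_Gm]
  simp only [lab]
  tauto

theorem lab_dual : (I.lab Lp Lm).dual = I.dual.lab (fun u v => Lm v u) (fun u v => Lp v u) := rfl

theorem solvable_of_lab (h : (I.lab Lp Lm).Solvable) : I.Solvable := by
  obtain ⟨X, h1, h2⟩ := h
  refine ⟨fun u v => X u v ∧ ¬ Lm u v, fun v => (h1 v).mono (fun a b hab => ?_) (fun _ h => h),
    fun v => (h2 v).mono (fun a b hab => ?_) (fun _ h => h)⟩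
  · exact ⟨hab.1.1, fun hk => ⟨hab.2 hk, hab.1.2⟩⟩
  · exact ⟨hab.1.1, fun hk hh => hab.2 hk hh.1⟩

/-! ### The fixpoint -/

/-- Induction principle for the fixpoint. -/
theorem RL_ind (X Y : V → Prop) (hS : ∀ v, I.S v → X v) (hT : ∀ v, I.T v → Y v)
    (hrp : ∀ u v, I.R u → I.R v → X u → I.Gp u v → ¬ I.Cf u v → X v)
    (hrc : ∀ u v, I.R u → I.L u → I.R v → X u → Y u → I.Gp u v → X v)
    (hlm : ∀ u v, I.L v → I.L u → Y v → I.Gm u v → ¬ I.Cf u v → Y u)
    (hlc : ∀ u v, I.L v → I.R v → I.L u → Y v → X v → I.Gm u v → Y u) :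
    (∀ v, I.R v → X v) ∧ (∀ v, I.L v → Y v) := by
  have key : ∀ b v, I.RL b v → (b = true → X v) ∧ (b = false → Y v) := by
    intro b v h
    induction h with
    | s h => exact ⟨fun _ => hS _ h, fun h => by simp at h⟩
    | t h => exact ⟨fun h => by simp at h, fun _ => hT _ h⟩
    | rp h0 h1 h2 ih =>
      exact ⟨fun _ => hrp _ _ h0 (RL.rp h0 h1 h2) (ih.1 rfl) h1 h2, fun h => by simp at h⟩
    | rc h0 h0' h1 ih1 ih2 =>
      exact ⟨fun _ => hrc _ _ h0 h0' (RL.rc h0 h0' h1) (ih1.1 rfl) (ih2.2 rfl) h1,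
        fun h => by simp at h⟩
    | lm h0 h1 h2 ih =>
      exact ⟨fun h => by simp at h, fun _ => hlm _ _ h0 (RL.lm h0 h1 h2) (ih.2 rfl) h1 h2⟩
    | lc h0 h0' h1 ih1 ih2 =>
      exact ⟨fun h => by simp at h,
        fun _ => hlc _ _ h0 h0' (RL.lc h0 h0' h1) (ih1.2 rfl) (ih2.1 rfl) h1⟩
  exact ⟨fun v h => (key true v h).1 rfl, fun v h => (key false v h).2 rfl⟩

/-- Every vertex of `R` is reached from `S` inside `R`. -/
theorem R_inside {v : V} (h : I.R v) :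
    ∃ s, I.S s ∧ ReflTransGen (fun a b => I.Gp a b ∧ I.R a ∧ I.R b) s v := by
  refine (RL_ind (I := I) (fun v => ∃ s, I.S s ∧
    ReflTransGen (fun a b => I.Gp a b ∧ I.R a ∧ I.R b) s v) (fun _ => True)
    (fun v hv => ⟨v, hv, ReflTransGen.refl⟩) (fun _ _ => trivial) ?_ ?_
    (fun _ _ _ _ _ _ _ => trivial) (fun _ _ _ _ _ _ _ _ => trivial)).1 v h
  · rintro u v hu hv ⟨s, hs, hsu⟩ h1 _
    exact ⟨s, hs, hsu.tail ⟨h1, hu, hv⟩⟩
  · rintro u v hu _ hv ⟨s, hs, hsu⟩ _ h1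
    exact ⟨s, hs, hsu.tail ⟨h1, hu, hv⟩⟩

/-- Every vertex of `L` leads to `T` inside `L`. -/
theorem L_inside {v : V} (h : I.L v) :
    ∃ t, I.T t ∧ ReflTransGen (fun a b => I.Gm a b ∧ I.L a ∧ I.L b) v t := by
  obtain ⟨t, ht, h⟩ := R_inside (dual_R.2 h)
  refine ⟨t, ht, rtmono h.swap ?_⟩
  rintro a b ⟨h1, h2, h3⟩
  exact ⟨h1, dual_R.1 h3, dual_R.1 h2⟩

/-- A vertex of `R` is reached without arcs having an end outside `R`. -/
theorem rch_del_of_R {v a b : V} (h : I.R v) (hab : ¬ I.R a ∨ ¬ I.R b) :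
    Rch (Del I.Gp a b) I.S v := by
  obtain ⟨s, hs, h⟩ := R_inside h
  refine ⟨s, hs, rtmono h ?_⟩
  rintro x y ⟨h1, h2, h3⟩
  refine ⟨h1, ?_⟩
  rintro ⟨rfl, rfl⟩
  rcases hab with h | h
  · exact h h2
  · exact h h3

/-- A vertex of `L` leads to `T` without arcs having an end outside `L`. -/
theorem col_del_of_L {v a b : V} (h : I.L v) (hab : ¬ I.L a ∨ ¬ I.L b) :
    Col (Del I.Gm a b) I.T v := by
  obtain ⟨s, hs, h⟩ := L_inside h
  refine ⟨s, hs, rtmono h ?_⟩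
  rintro x y ⟨h1, h2, h3⟩
  refine ⟨h1, ?_⟩
  rintro ⟨rfl, rfl⟩
  rcases hab with h | h
  · exact h h2
  · exact h h3

theorem lab_R_reach {v : V} (h : (I.lab Lp Lm).R v) : Rch I.Gp I.S v := by
  obtain ⟨s, hs, h⟩ := R_inside h
  exact ⟨s, hs, rtmono h (fun a b hab => hab.1.1)⟩

theorem lab_L_reach {v : V} (h : (I.lab Lp Lm).L v) : Col I.Gm I.T v := by
  obtain ⟨s, hs, h⟩ := L_inside h
  exact ⟨s, hs, rtmono h (fun a b hab => hab.1.1)⟩

end Inst

end Pool.Agent.Lib.AB474
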