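import Pool.Agent.Lib.AB474.ADefs

/-!
# MODULE BrMove: pairs of branchings given by parent functions; elementary moves (about 1.5 h)

(1) br_of_goodPair.  GoodPair with X.  For v /= s choose f v = the vertex before v on a shortest
   walk from s to v in A = (D and X), f s = s.  Then A (f v) v and dist (f v) < dist v, so iterates
   reach s.  g similarly with (D and not X) towards t.  dis: g u = v means D u v, not X u v; f v = u means X u v.
(2) Br.goodPair: X a b := (b /= s and f b = a).
(3) Br.rev: trivial.
(4) reparent: f' = update f v u with v /= s, D u v, (u = t or g u /= v), and v not an f-ancestor of u.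
   Iterates of f' from u are those of f (they never meet v), so u reaches s; a vertex x either never meets
   v (same iterates) or meets v first at step n, then u, then s.
(5) rootS: D v s, v /= s, (v = t or g v /= s): f' = update (update f s v) v v, new root v.  Every x: the
   f-iterates reach s; take the first n with f^[n] x in {s, v}; then f' reaches v.  dis: for the head
   w = s: f' s = v and g v /= s.
The versions for g are obtained by reversal (rev) or directly.
-/

namespace Pool.Agent.Lib.AB474

open Relation

variable {V : Type*} [DecidableEq V]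

/-- Reached from `s` by a walk of length `n`. -/
def BrMoveP (A : V → V → Prop) (s : V) : ℕ → V → Prop
  | 0, v => v = s
  | n + 1, v => ∃ u, BrMoveP A s n u ∧ A u v

omit [DecidableEq V] in
/-- A parent function for a relation reaching everything. -/
theorem BrMove_parent (A : V → V → Prop) (s : V) (h : ∀ v, ReflTransGen A s v) :
    ∃ f : V → V, f s = s ∧ (∀ v, v ≠ s → A (f v) v) ∧ ∀ v, ∃ n, f^[n] v = s := by
  classical
  set P : ℕ → V → Prop := BrMoveP A s with hPdef
  have P0 : ∀ v, P 0 v ↔ v = s := fun v => Iff.rfl
  have PS : ∀ n v, P (n + 1) v ↔ ∃ u, P n u ∧ A u v := fun n v => Iff.rfl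
  have hP : ∀ v, ∃ n, P n v := by
    intro v
    induction h v with
    | refl => exact ⟨0, rfl⟩
    | @tail b c _ hbc ih =>
      obtain ⟨n, hn⟩ := ih
      exact ⟨n + 1, (PS n c).2 ⟨b, hn, hbc⟩⟩
  have hstep : ∀ v, v ≠ s → ∃ u : V, A u v ∧ Nat.find (hP u) < Nat.find (hP v) := by
    intro v hv
    have h1 := Nat.find_spec (hP v)
    obtain ⟨m, hm⟩ : ∃ m, Nat.find (hP v) = m + 1 := by
      rcases Nat.eq_zero_or_pos (Nat.find (hP v)) with h0 | h0
      · rw [h0] at h1
        exact absurd ((P0 v).1 h1) hv
      · exact ⟨Nat.find (hP v) - 1, by omega⟩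
    rw [hm] at h1
    obtain ⟨u, hu, huv⟩ := (PS m v).1 h1
    refine ⟨u, huv, ?_⟩
    rw [hm]
    exact Nat.lt_succ_of_le (Nat.find_min' (hP u) hu)
  choose! F hF using hstep
  refine ⟨fun v => if v = s then s else F v, by simp, ?_, ?_⟩
  · intro v hv
    simp only [hv, if_false]
    exact (hF v hv).1
  · have key : ∀ m v, Nat.find (hP v) ≤ m → ∃ n, (fun v => if v = s then s else F v)^[n] v = s := by
      intro m
      induction m with
      | zero =>
        intro v hv
        have h1 := Nat.find_spec (hP v)
        rw [Nat.le_zero.1 hv] at h1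
        exact ⟨0, (P0 v).1 h1⟩
      | succ m ih =>
        intro v hv
        by_cases hvs : v = s
        · exact ⟨0, hvs⟩
        · obtain ⟨n, hn⟩ := ih (F v) (by have := (hF v hvs).2; omega)
          refine ⟨n + 1, ?_⟩
          rw [Function.iterate_succ_apply]
          simp only [hvs, if_false]
          exact hn
    exact fun v => key _ v le_rfl

omit [DecidableEq V] in
theorem br_of_goodPair [Finite V] {D : V → V → Prop} {s t : V} (h : GoodPair D s t) :
    ∃ f g, Br D s t f g := by
  obtain ⟨X, h1, h2⟩ := h
  obtain ⟨f, f1, f2, f3⟩ := BrMove_parent (fun a b => D a b ∧ X a b) s h1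
  obtain ⟨g, g1, g2, g3⟩ := BrMove_parent (fun a b => D b a ∧ ¬ X b a) t (fun v => (h2 v).swap)
  refine ⟨f, g, ⟨f1, g1, fun v hv => (f2 v hv).1, fun v hv => (g2 v hv).1, f3, g3, ?_⟩⟩
  rintro u v hu hv rfl hf
  have h3 := (f2 _ hv).2
  rw [hf] at h3
  exact (g2 u hu).2 h3

omit [DecidableEq V] in
theorem Br.goodPair {D : V → V → Prop} {s t : V} {f g : V → V} (h : Br D s t f g) :
    GoodPair D s t := by
  refine ⟨fun a b => b ≠ s ∧ f b = a, ?_, ?_⟩
  · have key : ∀ n v, f^[n] v = s →
        ReflTransGen (fun a b => D a b ∧ (b ≠ s ∧ f b = a)) s v := by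
      intro n
      induction n with
      | zero =>
        intro v hv
        have : v = s := hv
        subst this
        exact ReflTransGen.refl
      | succ n ih =>
        intro v hv
        by_cases hvs : v = s
        · subst hvs
          exact ReflTransGen.refl
        · rw [Function.iterate_succ_apply] at hv
          exact (ih _ hv).tail ⟨h.fD v hvs, hvs, rfl⟩
    intro v
    obtain ⟨n, hn⟩ := h.fr v
    exact key n v hn
  · have key : ∀ n v, g^[n] v = t →
        ReflTransGen (fun a b => D a b ∧ ¬ (b ≠ s ∧ f b = a)) v t := by
      intro n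
      induction n with
      | zero =>
        intro v hv
        have : v = t := hv
        subst this
        exact ReflTransGen.refl
      | succ n ih =>
        intro v hv
        by_cases hvs : v = t
        · subst hvs
          exact ReflTransGen.refl
        · rw [Function.iterate_succ_apply] at hv
          refine ReflTransGen.head ⟨h.gD v hvs, ?_⟩ (ih _ hv)
          rintro ⟨h1, h2⟩
          exact h.dis v (g v) hvs h1 rfl h2
    intro v
    obtain ⟨n, hn⟩ := h.gr v
    exact key n v hn

omit [DecidableEq V] in
theorem Br.rev {D : V → V → Prop} {s t : V} {f g : V → V} (h : Br D s t f g) :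
    Br (fun a b => D b a) t s g f :=
  ⟨h.gt, h.fs, h.gD, h.fD, h.gr, h.fr, fun u v hu hv h1 h2 => h.dis v u hv hu h2 h1⟩

theorem Br.reparentF {D : V → V → Prop} {s t : V} {f g : V → V} (h : Br D s t f g) {u v : V}
    (hv : v ≠ s) (huv : D u v) (hg : u = t ∨ g u ≠ v) (hanc : ∀ n, f^[n] u ≠ v) :
    Br D s t (Function.update f v u) g := by
  have hiter : ∀ n, (Function.update f v u)^[n] u = f^[n] u := by
    intro n
    induction n with
    | zero => rfl
    | succ n ih =>
      rw [Function.iterate_succ_apply', Function.iterate_succ_apply', ih,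
        Function.update_of_ne (hanc n)]
  obtain ⟨N, hN⟩ := h.fr u
  refine ⟨?_, h.gt, ?_, h.gD, ?_, h.gr, ?_⟩
  · rw [Function.update_of_ne hv.symm]
    exact h.fs
  · intro w hw
    by_cases hwv : w = v
    · subst hwv
      rw [Function.update_self]
      exact huv
    · rw [Function.update_of_ne hwv]
      exact h.fD w hw
  · have key : ∀ m x, f^[m] x = s → ∃ n, (Function.update f v u)^[n] x = s := by
      intro m
      induction m with
      | zero => exact fun x hx => ⟨0, hx⟩
      | succ m ih =>
        intro x hx
        rw [Function.iterate_succ_apply] at hx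
        obtain ⟨n, hn⟩ := ih _ hx
        by_cases hxv : x = v
        · subst hxv
          refine ⟨N + 1, ?_⟩
          rw [Function.iterate_succ_apply, Function.update_self, hiter]
          exact hN
        · refine ⟨n + 1, ?_⟩
          rw [Function.iterate_succ_apply, Function.update_of_ne hxv]
          exact hn
    intro x
    obtain ⟨m, hm⟩ := h.fr x
    exact key m x hm
  · intro a b ha hb hab
    by_cases hbv : b = v
    · subst hbv
      rw [Function.update_self]
      rintro rfl
      rcases hg with h1 | h1
      · exact ha h1
      · exact h1 hab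
    · rw [Function.update_of_ne hbv]
      exact h.dis a b ha hb hab

theorem Br.reparentG {D : V → V → Prop} {s t : V} {f g : V → V} (h : Br D s t f g) {u v : V}
    (hv : v ≠ t) (huv : D v u) (hg : u = s ∨ f u ≠ v) (hanc : ∀ n, g^[n] u ≠ v) :
    Br D s t f (Function.update g v u) :=
  (h.rev.reparentF hv huv hg hanc).rev

theorem Br.rootS {D : V → V → Prop} {s t : V} {f g : V → V} (h : Br D s t f g) {v : V}
    (hv : v ≠ s) (hvs : D v s) (hg : v = t ∨ g v ≠ s) :
    Br D v t (Function.update (Function.update f s v) v v) g := by
  have e1 : Function.update (Function.update f s v) v v v = v := Function.update_self _ _ _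
  have e2 : Function.update (Function.update f s v) v v s = v := by
    rw [Function.update_of_ne hv.symm, Function.update_self]
  have e3 : ∀ x, x ≠ v → x ≠ s → Function.update (Function.update f s v) v v x = f x := by
    intro x h1 h2
    rw [Function.update_of_ne h1, Function.update_of_ne h2]
  set F := Function.update (Function.update f s v) v v with hF
  refine ⟨e1, h.gt, ?_, h.gD, ?_, h.gr, ?_⟩
  · intro x hx
    by_cases hxs : x = s
    · subst hxs
      rw [e2]
      exact hvs
    · rw [e3 x hx hxs]
      exact h.fD x hxs
  · have key : ∀ m x, f^[m] x = s → ∃ n, F^[n] x = v := by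
      intro m
      induction m with
      | zero =>
        intro x hx
        have hx' : x = s := hx
        subst hx'
        exact ⟨1, e2⟩
      | succ m ih =>
        intro x hx
        rw [Function.iterate_succ_apply] at hx
        obtain ⟨n, hn⟩ := ih _ hx
        by_cases hxv : x = v
        · exact ⟨0, hxv⟩
        · by_cases hxs : x = s
          · subst hxs
            exact ⟨1, e2⟩
          · refine ⟨n + 1, ?_⟩
            rw [Function.iterate_succ_apply, e3 x hxv hxs]
            exact hn
    intro x
    obtain ⟨m, hm⟩ := h.fr x
    exact key m x hm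
  · intro a b ha hb hab
    by_cases hbs : b = s
    · subst hbs
      rw [e2]
      rintro rfl
      rcases hg with h1 | h1
      · exact ha h1
      · exact h1 hab
    · rw [e3 b hb hbs]
      exact h.dis a b ha hbs hab

theorem Br.rootT {D : V → V → Prop} {s t : V} {f g : V → V} (h : Br D s t f g) {v : V}
    (hv : v ≠ t) (hvs : D t v) (hg : v = s ∨ f v ≠ t) :
    Br D s v f (Function.update (Function.update g t v) v v) :=
  (h.rev.rootS hv hvs hg).rev

end Pool.Agent.Lib.AB474
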