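import Pool.Agent.Lib.AB474.Lang
import Pool.Agent.Lib.AB474.BrMove

/-!
# MODULE BranchEq: branchings as subdigraphs versus parent functions
-/

namespace Pool.Agent.Lib.AB474

open Relation

namespace BranchEqAux

/-- in a branching everything is reached from the root -/
theorem reach {V : Type} (s : V) (R : V → V → Prop)
    (hc : (SimpleGraph.fromRel R).Connected) (root : ∀ u, ¬ R u s)
    (deg : ∀ v, v ≠ s → ∃! u, R u v) (v : V) : ReflTransGen R s v := by
  have h1 : (SimpleGraph.fromRel R).Reachable s v := hc.preconnected s v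
  rw [SimpleGraph.reachable_iff_reflTransGen] at h1
  induction h1 with
  | refl => exact .refl
  | @tail a b _ hab ih =>
    rw [SimpleGraph.fromRel_adj] at hab
    rcases hab.2 with h | h
    · exact ih.tail h
    · have hne : a ≠ s := by
        rintro rfl
        exact root b h
      rcases ReflTransGen.cases_tail ih with h' | ⟨w, hw, hwa⟩
      · exact (hne h').elim
      · have : w = b := (deg a hne).unique hwa h
        rwa [← this]

theorem fromRel_swap {V : Type} (R : V → V → Prop) :
    SimpleGraph.fromRel (fun a b => R b a) = SimpleGraph.fromRel R := by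
  ext a b
  simp only [SimpleGraph.fromRel_adj]
  tauto

/-- the branching of a parent function -/
theorem isTree {V : Type} [Finite V] (s : V) (f : V → V) (fr : ∀ v, ∃ n, f^[n] v = s) :
    (SimpleGraph.fromRel fun u v => v ≠ s ∧ f v = u).IsTree := by
  classical
  have : Fintype V := Fintype.ofFinite V
  set G : SimpleGraph V := SimpleGraph.fromRel fun u v => v ≠ s ∧ f v = u with hG
  have hreach : ∀ n v, f^[n] v = s → G.Reachable v s := by
    intro n
    induction n with
    | zero =>
      intro v hv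
      have : v = s := hv
      rw [this]
    | succ n ih =>
      intro v hv
      rw [Function.iterate_succ_apply] at hv
      have h1 := ih (f v) hv
      by_cases hvs : v = s
      · rw [hvs]
      · by_cases hfv : f v = v
        · rwa [hfv] at h1
        · have h2 : G.Adj v (f v) := by
            rw [hG, SimpleGraph.fromRel_adj]
            exact ⟨fun h => hfv h.symm, Or.inr ⟨hvs, rfl⟩⟩
          exact h2.reachable.trans h1
  have hconn : G.Connected := by
    have : Nonempty V := ⟨s⟩
    refine ⟨fun u v => ?_⟩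
    obtain ⟨n, hn⟩ := fr u
    obtain ⟨m, hm⟩ := fr v
    exact (hreach n u hn).trans (hreach m v hm).symm
  rw [SimpleGraph.isTree_iff_connected_and_card]
  refine ⟨hconn, le_antisymm ?_ hconn.card_vert_le_card_edgeSet_add_one⟩
  -- edges are at most `card V - 1`
  let φ : {v : V // v ≠ s} → Sym2 V := fun v => s(f v.1, v.1)
  have hsub : G.edgeSet ⊆ Set.range φ := by
    intro e he
    induction e using Sym2.ind with
    | _ a b =>
      rw [SimpleGraph.mem_edgeSet, hG, SimpleGraph.fromRel_adj] at he
      rcases he.2 with ⟨h1, h2⟩ | ⟨h1, h2⟩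
      · exact ⟨⟨b, h1⟩, by simp only [φ, h2]⟩
      · exact ⟨⟨a, h1⟩, by simp only [φ, h2]; exact Sym2.eq_swap⟩
  have h1 : Nat.card G.edgeSet ≤ Nat.card (Set.range φ) :=
    Nat.card_mono (Set.finite_range φ) hsub
  have h2 : Nat.card (Set.range φ) ≤ Nat.card {v : V // v ≠ s} := Finite.card_range_le φ
  have h3 : Nat.card {v : V // v ≠ s} + 1 = Nat.card V := by
    rw [Nat.card_eq_fintype_card, Nat.card_eq_fintype_card]
    have := Fintype.card_subtype_compl (fun v : V => v = s)
    rw [Fintype.card_subtype_eq] at this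
    have hpos : 0 < Fintype.card V := Fintype.card_pos_iff.2 ⟨s⟩
    have h4 : Fintype.card {v : V // v ≠ s} = Fintype.card V - 1 := this
    omega
  omega

/-- no two-cycles -/
theorem anti {V : Type} {s : V} {f : V → V} (fr : ∀ v, ∃ n, f^[n] v = s) {u v : V} (hv : v ≠ s)
    (hu : u ≠ s) (h1 : f v = u) (h2 : f u = v) : False := by
  have : ∀ n, f^[n] u = u ∨ f^[n] u = v := by
    intro n
    induction n with
    | zero => exact Or.inl rfl
    | succ n ih =>
      rw [Function.iterate_succ_apply']
      rcases ih with h | h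
      · right; rw [h, h2]
      · left; rw [h, h1]
  obtain ⟨n, hn⟩ := fr u
  rcases this n with h | h
  · exact hu (h.symm.trans hn)
  · exact hv (h.symm.trans hn)

end BranchEqAux

open BranchEqAux

theorem hasPair_iff (D : DG) : D.HasPair ↔ ∃ s t, GoodPair D.Arc s t := by
  constructor
  · rintro ⟨s, t, B, B', hB, hB', hd⟩
    refine ⟨s, t, fun a b => (a, b) ∈ B, fun v => ?_, fun v => ?_⟩
    · have h1 := reach s (fun a b => (a, b) ∈ B) hB.tree.1 hB.root hB.deg v
      exact rtmono h1 fun a b h => ⟨hB.sub (a, b) h, h⟩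
    · have h1 := reach t (fun a b => (b, a) ∈ B')
        (by rw [fromRel_swap (fun a b => (a, b) ∈ B')]; exact hB'.tree.1) hB'.root hB'.deg v
      have h2 : ReflTransGen (fun a b => (a, b) ∈ B') v t := h1.swap
      exact rtmono h2 fun a b h => ⟨hB'.sub (a, b) h, fun hb => Set.disjoint_left.1 hd hb h⟩
  · rintro ⟨s, t, h⟩
    obtain ⟨f, g, hbr⟩ := br_of_goodPair h
    refine ⟨s, t, {p | p.2 ≠ s ∧ f p.2 = p.1}, {p | p.1 ≠ t ∧ g p.1 = p.2}, ?_, ?_, ?_⟩
    · refine ⟨?_, ?_, ?_, ?_, ?_⟩
      · rintro ⟨a, b⟩ ⟨h1, h2⟩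
        have := hbr.fD b h1
        simp only at h2 ⊢
        rwa [h2] at this
      · rintro u v ⟨h1, h2⟩ ⟨h3, h4⟩
        exact anti hbr.fr h1 h3 h2 h4
      · exact isTree s f hbr.fr
      · rintro u ⟨h1, -⟩
        exact h1 rfl
      · intro v hv
        exact ⟨f v, ⟨hv, rfl⟩, fun u hu => hu.2.symm⟩
    · refine ⟨?_, ?_, ?_, ?_, ?_⟩
      · rintro ⟨a, b⟩ ⟨h1, h2⟩
        have := hbr.gD a h1
        simp only at h2 ⊢
        rwa [h2] at this
      · rintro u v ⟨h1, h2⟩ ⟨h3, h4⟩
        exact anti hbr.gr h3 h1 h4 h2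
      · have h1 := isTree t g hbr.gr
        rw [← fromRel_swap] at h1
        exact h1
      · rintro u ⟨h1, -⟩
        exact h1 rfl
      · intro v hv
        exact ⟨g v, ⟨hv, rfl⟩, fun u hu => hu.2.symm⟩
    · rw [Set.disjoint_left]
      rintro ⟨u, v⟩ ⟨h1, h2⟩ ⟨h3, h4⟩
      exact hbr.dis u v h3 h1 h4 h2

end Pool.Agent.Lib.AB474
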