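import Pool.Agent.Lib.AB474.Sem

/-!
# MODULE CT1: correctness of `reach` and `rlT`

For an inflationary operator on subsets of a finite type, card many iterations reach a fixed point.
The string functions `reach` and `rlT` iterate such operators.
-/

namespace Pool.Agent.Lib.AB474.Tab

open Relation

theorem fix_iter {ι : Type*} [Fintype ι] (Φ : (ι → Prop) → ι → Prop) (h : ∀ A i, A i → Φ A i)
    (A : ι → Prop) {m : ℕ} (hm : Fintype.card ι ≤ m) : Φ (Φ^[m] A) = Φ^[m] A := by
  classical
  by_contra hne
  have h1 : ∀ k, k ≤ m → Φ (Φ^[k] A) ≠ Φ^[k] A := by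
    intro k hk hfix
    apply hne
    have h2 : ∀ j, Φ^[k + j] A = Φ^[k] A := by
      intro j
      induction j with
      | zero => rfl
      | succ j ih =>
        rw [← Nat.add_assoc, Function.iterate_succ_apply', ih, hfix]
    have h3 : Φ^[m] A = Φ^[k] A := by
      have := h2 (m - k)
      rwa [Nat.add_sub_cancel' hk] at this
    rw [h3, hfix]
  have h4 : ∀ k, k ≤ m + 1 → k ≤ (Finset.univ.filter (fun i => (Φ^[k] A) i)).card := by
    intro k
    induction k with
    | zero => intro _; exact Nat.zero_le _
    | succ k ih =>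
      intro hk
      have h5 := ih (by omega)
      have h6 : (Finset.univ.filter (fun i => (Φ^[k] A) i)) ⊂
          (Finset.univ.filter (fun i => (Φ^[k + 1] A) i)) := by
        rw [Finset.ssubset_iff_of_subset]
        · by_contra hcon
          push Not at hcon
          apply h1 k (by omega)
          funext i
          apply propext
          constructor
          · intro hi
            have := hcon i (by
              rw [Finset.mem_filter, Function.iterate_succ_apply']
              exact ⟨Finset.mem_univ _, hi⟩)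
            exact (Finset.mem_filter.1 this).2
          · exact h _ i
        · intro i hi
          rw [Finset.mem_filter] at hi ⊢
          refine ⟨Finset.mem_univ _, ?_⟩
          rw [Function.iterate_succ_apply']
          exact h _ i hi.2
      have h7 := Finset.card_lt_card h6
      omega
  have h8 := h4 (m + 1) le_rfl
  have h9 : (Finset.univ.filter (fun i => (Φ^[m + 1] A) i)).card ≤ Fintype.card ι :=
    Finset.card_le_univ _
  omega

theorem iter_sem {α β : Type*} (σ : α → β) (f : α → α) (g : β → β) (h : ∀ a, σ (f a) = g (σ a))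
    (k : ℕ) (a : α) : σ (f^[k] a) = g^[k] (σ a) := by
  induction k with
  | zero => rfl
  | succ k ih => rw [Function.iterate_succ_apply', Function.iterate_succ_apply', h, ih]

/-- one round of reachability on sets -/
def reachOp {n : ℕ} (G : List Bool) (A : Fin n → Prop) (v : Fin n) : Prop :=
  A v ∨ ∃ u, A u ∧ relT n G u v

theorem reachStep_sem {n : ℕ} (G r : List Bool) :
    setT n (reachStep n G r) = reachOp G (setT n r) := by
  funext v
  apply propext
  unfold reachStep reachOp
  rw [setT_vec, Bool.or_eq_true]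
  unfold orStep
  rw [ex_fin]
  simp only [Bool.and_eq_true]
  exact Iff.rfl

theorem reach_iff {n : ℕ} {G S : List Bool} {v : Fin n} :
    setT n (reach n G S) v ↔ Rch (relT n G) (setT n S) v := by
  have h0 : setT n (reach n G S) = (reachOp G)^[n] (setT n S) :=
    iter_sem (setT n) (reachStep n G) (reachOp G) (reachStep_sem G) n S
  have hfix : reachOp G ((reachOp G)^[n] (setT n S)) = (reachOp G)^[n] (setT n S) :=
    fix_iter (reachOp G) (fun A i hi => Or.inl hi) (setT n S) (by simp)
  rw [h0]
  constructor
  · have : ∀ k v, ((reachOp G)^[k] (setT n S)) v → Rch (relT n G) (setT n S) v := by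
      intro k
      induction k with
      | zero => intro v hv; exact Rch.base hv
      | succ k ih =>
        intro v hv
        rw [Function.iterate_succ_apply'] at hv
        rcases hv with hv | ⟨u, hu, huv⟩
        · exact ih v hv
        · exact (ih u hu).step huv
    exact this n v
  · rintro ⟨s, hs, hsv⟩
    have hbase : ∀ k, ((reachOp G)^[k] (setT n S)) s := by
      intro k
      induction k with
      | zero => exact hs
      | succ k ih =>
        rw [Function.iterate_succ_apply']
        exact Or.inl ih
    induction hsv with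
    | refl => exact hbase n
    | tail _ hbc ih =>
      rw [← hfix]
      exact Or.inr ⟨_, ih, hbc⟩

theorem rlT_length {n : ℕ} {S T K Gp Gm : List Bool} (hS : S.length = n) (hT : T.length = n) :
    (rlT n S T K Gp Gm).length = 2 * n := by
  unfold rlT
  have : ∀ k, ((rlStep n K Gp Gm)^[k] (S ++ T)).length = 2 * n := by
    intro k
    induction k with
    | zero =>
      simp only [Function.iterate_zero, id_eq, List.length_append]
      omega
    | succ k ih =>
      rw [Function.iterate_succ_apply']
      simp only [rlStep, vec, List.length_append, List.length_map, List.length_range]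
      omega
  exact this _

theorem setT_app {n : ℕ} {r l : List Bool} (hr : r.length = n) {v : Fin n} :
    setT n (r ++ l) v ↔ setT n r v := by
  unfold setT b1
  rw [List.getD_append _ _ _ _ (by rw [hr]; exact v.2)]

theorem drop_app {n : ℕ} {r l : List Bool} (hr : r.length = n) : (r ++ l).drop n = l := by
  subst hr
  exact List.drop_left

/-- semantics of the state -/
def rlSem (n : ℕ) (st : List Bool) : Fin n ⊕ Fin n → Prop :=
  Sum.elim (setT n st) (setT n (st.drop n))

/-- one round of the fixpoint on pairs of sets -/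
def rlOp {V : Type*} (I : Inst V) (A : V ⊕ V → Prop) : V ⊕ V → Prop :=
  Sum.elim
    (fun v => A (Sum.inl v) ∨ ∃ u, A (Sum.inl u) ∧ I.Gp u v ∧ (A (Sum.inr u) ∨ ¬ I.Cf u v))
    (fun u => A (Sum.inr u) ∨ ∃ v, A (Sum.inr v) ∧ I.Gm u v ∧ (A (Sum.inl v) ∨ ¬ I.Cf u v))

theorem cf_iff {n : ℕ} {S T K Gp Gm : List Bool} {u v : Fin n} :
    cf n K Gp Gm u v = true ↔ (instT n S T K Gp Gm).Cf u v := by
  unfold cf
  rw [Bool.and_eq_true, Bool.and_eq_true]
  exact Iff.rfl

theorem rlStep_sem {n : ℕ} (S T K Gp Gm st : List Bool) :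
    rlSem n (rlStep n K Gp Gm st) = rlOp (instT n S T K Gp Gm) (rlSem n st) := by
  have hv : ∀ f, (vec n f).length = n := fun f => by simp [vec]
  funext x
  apply propext
  rcases x with v | u
  · unfold rlStep rlSem rlOp
    simp only [Sum.elim_inl, Sum.elim_inr]
    rw [setT_app (hv _), setT_vec, Bool.or_eq_true]
    unfold rIn
    rw [ex_fin]
    simp only [Bool.and_eq_true, Bool.or_eq_true, Bool.not_eq_true', ← Bool.not_eq_true, cf_iff (S := S) (T := T)]
    exact Iff.rfl
  · unfold rlStep rlSem rlOp
    simp only [Sum.elim_inl, Sum.elim_inr]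
    rw [drop_app (hv _), setT_vec, Bool.or_eq_true]
    unfold lIn
    rw [ex_fin]
    simp only [Bool.and_eq_true, Bool.or_eq_true, Bool.not_eq_true', ← Bool.not_eq_true, cf_iff (S := S) (T := T)]
    exact Iff.rfl

theorem rl_iff {n : ℕ} {S T K Gp Gm : List Bool} (hS : S.length = n) {v : Fin n} :
    (setT n (rlT n S T K Gp Gm) v ↔ (instT n S T K Gp Gm).R v) ∧
      (setT n ((rlT n S T K Gp Gm).drop n) v ↔ (instT n S T K Gp Gm).L v) := by
  set I := instT n S T K Gp Gm with hI
  set A₀ : Fin n ⊕ Fin n → Prop := Sum.elim (setT n S) (setT n T) with hA₀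
  have h0 : rlSem n (rlT n S T K Gp Gm) = (rlOp I)^[2 * n] A₀ := by
    unfold rlT
    rw [iter_sem (rlSem n) (rlStep n K Gp Gm) (rlOp I) (rlStep_sem S T K Gp Gm)]
    congr 1
    unfold rlSem
    rw [drop_app hS]
    funext x
    apply propext
    rcases x with v | u
    · exact setT_app hS
    · exact Iff.rfl
  have hinf : ∀ (A : Fin n ⊕ Fin n → Prop) i, A i → rlOp I A i := by
    intro A i hi
    rcases i with v | u
    · exact Or.inl hi
    · exact Or.inl hi
  have hfix : rlOp I ((rlOp I)^[2 * n] A₀) = (rlOp I)^[2 * n] A₀ :=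
    fix_iter (rlOp I) hinf A₀ (by simp; omega)
  have hbase : ∀ k i, A₀ i → ((rlOp I)^[k] A₀) i := by
    intro k i hi
    induction k with
    | zero => exact hi
    | succ k ih =>
      rw [Function.iterate_succ_apply']
      exact hinf _ _ ih
  have hsub : ∀ k, (∀ v, ((rlOp I)^[k] A₀) (Sum.inl v) → I.R v) ∧
      (∀ v, ((rlOp I)^[k] A₀) (Sum.inr v) → I.L v) := by
    intro k
    induction k with
    | zero => exact ⟨fun v hv => Inst.RL.s hv, fun v hv => Inst.RL.t hv⟩
    | succ k ih =>
      rw [Function.iterate_succ_apply']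
      refine ⟨fun v hv => ?_, fun u hu => ?_⟩
      · rcases hv with hv | ⟨u, hu, huv, h | h⟩
        · exact ih.1 v hv
        · exact Inst.RL.rc (ih.1 u hu) (ih.2 u h) huv
        · exact Inst.RL.rp (ih.1 u hu) huv h
      · rcases hu with hu | ⟨v, hv, huv, h | h⟩
        · exact ih.2 u hu
        · exact Inst.RL.lc (ih.2 v hv) (ih.1 v h) huv
        · exact Inst.RL.lm (ih.2 v hv) huv h
  set B := (rlOp I)^[2 * n] A₀ with hB
  have hsup := Inst.RL_ind (I := I) (fun v => B (Sum.inl v)) (fun v => B (Sum.inr v))
    (fun v hv => hbase _ (Sum.inl v) hv) (fun v hv => hbase _ (Sum.inr v) hv)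
    (fun u v _ _ hu huv hc => by
      rw [← hfix]
      exact Or.inr ⟨u, hu, huv, Or.inr hc⟩)
    (fun u v _ _ _ hu hu' huv => by
      rw [← hfix]
      exact Or.inr ⟨u, hu, huv, Or.inl hu'⟩)
    (fun u v _ _ hv huv hc => by
      rw [← hfix]
      exact Or.inr ⟨v, hv, huv, Or.inr hc⟩)
    (fun u v _ _ _ hv hv' huv => by
      rw [← hfix]
      exact Or.inr ⟨v, hv, huv, Or.inl hv'⟩)
  have e1 : setT n (rlT n S T K Gp Gm) v ↔ B (Sum.inl v) := by
    have := congrFun h0 (Sum.inl v)
    exact Iff.of_eq this
  have e2 : setT n ((rlT n S T K Gp Gm).drop n) v ↔ B (Sum.inr v) := by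
    have := congrFun h0 (Sum.inr v)
    exact Iff.of_eq this
  exact ⟨e1.trans ⟨(hsub _).1 v, hsup.1 v⟩, e2.trans ⟨(hsub _).2 v, hsup.2 v⟩⟩

end Pool.Agent.Lib.AB474.Tab
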