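import Pool.Agent.Lib.AB474.CT1

/-!
# MODULE CT2: correctness of `testT`

(1) relT_delM: relT n (delM n G a b) = Del (relT n G) a b.  relT_trM: transpose.
   critP_iff: critP n X S Gp u v = true iff ∃ w, setT n X w ∧ ¬ Rch (Del (relT n Gp) u v) (setT n S) w (reach_iff).
   critM_iff: the same with Col (col_iff_rch).
(2) one round: instT n S T K (stepGp ..) (stepGm ..) = (instT n S T K Gp Gm).step (setT n X).
(3) passT_iff, testT_iff.
-/

namespace Pool.Agent.Lib.AB474.Tab

open Relation

theorem relT_delM {n : ℕ} {G : List Bool} {a b : Fin n} :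
    relT n (delM n G a b) = Del (relT n G) a b := by
  funext u v
  apply propext
  unfold delM
  rw [relT_mat]
  simp only [Bool.and_eq_true, Bool.not_eq_true', Bool.and_eq_false_iff, decide_eq_false_iff_not,
    Del, relT, Fin.ext_iff]
  tauto

theorem relT_trM {n : ℕ} {G : List Bool} {u v : Fin n} :
    relT n (trM n G) u v ↔ relT n G v u := by
  unfold trM
  rw [relT_mat]
  rfl

namespace CT2Aux

theorem reach_trM_iff {n : ℕ} {G T : List Bool} {v : Fin n} :
    setT n (reach n (trM n G) T) v ↔ Col (relT n G) (setT n T) v := by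
  rw [reach_iff, col_iff_rch]
  have h : relT n (trM n G) = fun a b => relT n G b a := by
    funext u v
    exact propext relT_trM
  rw [h]

theorem allIn_iff {n : ℕ} {X r : List Bool} :
    allIn n X r = true ↔ ∀ w : Fin n, setT n X w → setT n r w := by
  unfold allIn
  rw [all_fin (φ := fun w => (!b1 X w || b1 r w))]
  refine forall_congr' fun w => ?_
  simp only [Bool.or_eq_true, Bool.not_eq_true', setT]
  cases b1 X w <;> simp

theorem critP_iff {n : ℕ} {X S Gp : List Bool} {u v : Fin n} :
    critP n X S Gp u v = true ↔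
      ∃ w, setT n X w ∧ ¬ Rch (Del (relT n Gp) u v) (setT n S) w := by
  unfold critP
  rw [Bool.not_eq_true', ← Bool.not_eq_true, allIn_iff]
  simp only [reach_iff, relT_delM, not_forall, exists_prop]

theorem critM_iff {n : ℕ} {X T Gm : List Bool} {u v : Fin n} :
    critM n X T Gm u v = true ↔
      ∃ w, setT n X w ∧ ¬ Col (Del (relT n Gm) u v) (setT n T) w := by
  unfold critM
  rw [Bool.not_eq_true', ← Bool.not_eq_true, allIn_iff]
  simp only [reach_trM_iff, relT_delM, not_forall, exists_prop]

theorem cf_iff {n : ℕ} {S T K Gp Gm : List Bool} {u v : Fin n} :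
    cf n K Gp Gm u v = true ↔ (instT n S T K Gp Gm).Cf u v := by
  unfold cf Inst.Cf instT relT
  simp only [Bool.and_eq_true]

theorem step_eq {n : ℕ} {X S T K Gp Gm : List Bool} :
    instT n S T K (stepGp n X T K Gp Gm) (stepGm n X S K Gp Gm) =
      (instT n S T K Gp Gm).step (setT n X) := by
  have h1 : relT n (stepGp n X T K Gp Gm) = ((instT n S T K Gp Gm).step (setT n X)).Gp := by
    funext u v
    apply propext
    unfold stepGp
    rw [relT_mat, Bool.and_eq_true, Bool.not_eq_true', ← Bool.not_eq_true, Bool.and_eq_true,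
      cf_iff (S := S) (T := T), critM_iff]
    rfl
  have h2 : relT n (stepGm n X S K Gp Gm) = ((instT n S T K Gp Gm).step (setT n X)).Gm := by
    funext u v
    apply propext
    unfold stepGm
    rw [relT_mat, Bool.and_eq_true, Bool.not_eq_true', ← Bool.not_eq_true, Bool.and_eq_true,
      cf_iff (S := S) (T := T), critP_iff]
    rfl
  have h3 : instT n S T K (stepGp n X T K Gp Gm) (stepGm n X S K Gp Gm) =
      ⟨setT n S, setT n T, relT n (stepGp n X T K Gp Gm), relT n (stepGm n X S K Gp Gm),
        relT n K⟩ := rfl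
  rw [h3, h1, h2]
  rfl

theorem mat_length {n : ℕ} {f : ℕ → ℕ → Bool} : (mat n f).length = n * n := by
  unfold mat vec
  simp

theorem relT_append_eq {n : ℕ} {G H : List Bool} (h : G.length = n * n) :
    relT n (G ++ H) = relT n G := by
  funext u v
  exact propext (relT_append h)

theorem inst_append {n : ℕ} {S T K G H : List Bool} (h : G.length = n * n) :
    instT n S T K (G ++ H) ((G ++ H).drop (n * n)) = instT n S T K G H := by
  unfold instT
  rw [relT_append_eq h, List.drop_left' h]

theorem closStep_eq {n : ℕ} {X S T K st : List Bool} :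
    instT n S T K (closStep n X S T K st) ((closStep n X S T K st).drop (n * n)) =
      (instT n S T K st (st.drop (n * n))).step (setT n X) := by
  unfold closStep
  rw [inst_append, step_eq]
  unfold stepGp
  exact mat_length

theorem clos_iter {n : ℕ} {X S T K st : List Bool} (m : ℕ) :
    instT n S T K ((closStep n X S T K)^[m] st) (((closStep n X S T K)^[m] st).drop (n * n)) =
      (instT n S T K st (st.drop (n * n))).clos (setT n X) m := by
  induction m with
  | zero => rfl
  | succ m ih =>
    rw [Function.iterate_succ_apply', closStep_eq, ih]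
    rfl

theorem emptyT_iff {n : ℕ} {Y : List Bool} : emptyT n Y = true ↔ ∀ v : Fin n, ¬ setT n Y v := by
  unfold emptyT
  rw [all_fin (φ := fun v => !b1 Y v)]
  refine forall_congr' fun w => ?_
  simp [setT]

theorem ex4_iff {n : ℕ} {Y : List Bool} : ex4 n Y = true ↔ Inst.Four (setT n Y) := by
  unfold ex4
  rw [ex_fin (φ := fun a => b1 Y a && ex3 n Y a)]
  unfold Inst.Four
  refine exists_congr fun a => ?_
  rw [Bool.and_eq_true]
  unfold ex3
  rw [ex_fin (φ := fun b => b1 Y b && (!decide ((a : ℕ) = b) && ex2 n Y a b))]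
  have key : (∃ b : Fin n, (b1 Y b && (!decide ((a : ℕ) = b) && ex2 n Y a b)) = true) ↔
      ∃ b c d : Fin n, setT n Y b ∧ setT n Y c ∧ setT n Y d ∧ a ≠ b ∧ a ≠ c ∧ a ≠ d ∧ b ≠ c ∧
        b ≠ d ∧ c ≠ d := by
    refine exists_congr fun b => ?_
    rw [Bool.and_eq_true, Bool.and_eq_true]
    unfold ex2
    rw [ex_fin (φ := fun c => b1 Y c && (!decide ((a : ℕ) = c) && (!decide ((b : ℕ) = c) &&
      ex1 n Y a b c)))]
    have key2 : (∃ c : Fin n, (b1 Y c && (!decide ((a : ℕ) = c) && (!decide ((b : ℕ) = c) &&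
        ex1 n Y a b c))) = true) ↔
        ∃ c d : Fin n, setT n Y c ∧ setT n Y d ∧ a ≠ c ∧ a ≠ d ∧ b ≠ c ∧ b ≠ d ∧ c ≠ d := by
      refine exists_congr fun c => ?_
      rw [Bool.and_eq_true, Bool.and_eq_true, Bool.and_eq_true]
      unfold ex1
      rw [ex_fin (φ := fun d => b1 Y d && (!decide ((a : ℕ) = d) && (!decide ((b : ℕ) = d) &&
        !decide ((c : ℕ) = d))))]
      constructor
      · rintro ⟨h1, h2, h3, d, h4⟩
        simp only [Bool.and_eq_true, Bool.not_eq_true', decide_eq_false_iff_not] at h2 h3 h4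
        exact ⟨d, h1, h4.1, fun h => h2 (congrArg _ h), fun h => h4.2.1 (congrArg _ h),
          fun h => h3 (congrArg _ h), fun h => h4.2.2.1 (congrArg _ h),
          fun h => h4.2.2.2 (congrArg _ h)⟩
      · rintro ⟨d, h1, h2, h3, h4, h5, h6, h7⟩
        simp only [Bool.and_eq_true, Bool.not_eq_true', decide_eq_false_iff_not]
        exact ⟨h1, fun h => h3 (Fin.ext h), fun h => h5 (Fin.ext h), d, h2,
          fun h => h4 (Fin.ext h), fun h => h6 (Fin.ext h), fun h => h7 (Fin.ext h)⟩
    rw [key2]
    constructor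
    · rintro ⟨h1, h2, c, d, h3, h4, h5, h6, h7, h8, h9⟩
      simp only [Bool.not_eq_true', decide_eq_false_iff_not] at h2
      exact ⟨c, d, h1, h3, h4, fun h => h2 (congrArg _ h), h5, h6, h7, h8, h9⟩
    · rintro ⟨c, d, h1, h3, h4, h2, h5, h6, h7, h8, h9⟩
      simp only [Bool.not_eq_true', decide_eq_false_iff_not]
      exact ⟨h1, fun h => h2 (Fin.ext h), c, d, h3, h4, h5, h6, h7, h8, h9⟩
  rw [key]
  constructor
  · rintro ⟨h1, b, c, d, h2, h3, h4, h5⟩
    exact ⟨b, c, d, h1, h2, h3, h4, h5⟩
  · rintro ⟨b, c, d, h1, h2, h3, h4, h5⟩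
    exact ⟨h1, b, c, d, h2, h3, h4, h5⟩

theorem outV_iff {n : ℕ} {X S T K Gp Gm : List Bool} (hS : S.length = n) {v : Fin n} :
    setT n (outV n X (rlT n S T K Gp Gm)) v ↔
      setT n X v ∧ ¬ (instT n S T K Gp Gm).R v ∧ ¬ (instT n S T K Gp Gm).L v := by
  unfold outV
  rw [setT_vec, Bool.and_eq_true, Bool.not_eq_true', Bool.or_eq_false_iff, ← Bool.not_eq_true,
    ← Bool.not_eq_true, ← (rl_iff (T := T) (K := K) (Gp := Gp) (Gm := Gm) hS (v := v)).1,
    ← (rl_iff (T := T) (K := K) (Gp := Gp) (Gm := Gm) hS (v := v)).2]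
  rfl

theorem goodM_iff {n : ℕ} {S T K Gp Gm : List Bool} {u v : Fin n} :
    relT n (goodM n S T Gp Gm) u v ↔ (instT n S T K Gp Gm).Good u v := by
  unfold goodM
  rw [relT_mat]
  unfold goodT
  rw [Bool.or_eq_true, Bool.or_eq_true, Bool.and_eq_true, Bool.and_eq_true, Bool.and_eq_true,
    Bool.not_eq_true', Bool.not_eq_true', ← Bool.not_eq_true, ← Bool.not_eq_true]
  have h1 : (b1 (reach n (delM n Gp u v) S) v = true) ↔
      Rch (Del (relT n Gp) u v) (setT n S) v := by
    have := reach_iff (n := n) (G := delM n Gp u v) (S := S) (v := v)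
    rw [relT_delM] at this
    exact this
  have h2 : (b1 (reach n (trM n (delM n Gm u v)) T) u = true) ↔
      Col (Del (relT n Gm) u v) (setT n T) u := by
    have := reach_trM_iff (n := n) (G := delM n Gm u v) (T := T) (v := u)
    rw [relT_delM] at this
    exact this
  rw [h1, h2]
  rfl

theorem goodTest_iff {n : ℕ} {X Y G : List Bool} :
    goodTest n X Y G = true ↔
      ∀ x v : Fin n, setT n Y x → setT n X v → v ≠ x → relT n G x v ∨ relT n G v x := by
  unfold goodTest
  rw [all_fin (φ := fun x => !b1 Y x || goodAll n X G x)]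
  refine forall_congr' fun x => ?_
  rw [Bool.or_eq_true, Bool.not_eq_true', ← Bool.not_eq_true]
  unfold goodAll
  rw [all_fin (φ := fun v => !b1 X v || (decide (v = (x : ℕ)) || (b2 n G x v || b2 n G v x)))]
  constructor
  · intro h v h1 h2 h3
    rcases h with h | h
    · exact absurd h1 h
    · have h4 := h v
      rw [Bool.or_eq_true, Bool.or_eq_true, Bool.or_eq_true, Bool.not_eq_true',
        ← Bool.not_eq_true, decide_eq_true_eq] at h4
      rcases h4 with h4 | h4 | h4
      · exact absurd h2 h4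
      · exact absurd (Fin.ext h4) h3
      · exact h4
  · intro h
    by_cases hx : b1 Y x = true
    · right
      intro v
      rw [Bool.or_eq_true, Bool.or_eq_true, Bool.or_eq_true, Bool.not_eq_true',
        ← Bool.not_eq_true, decide_eq_true_eq]
      by_cases h2 : b1 X v = true
      · by_cases h3 : (v : ℕ) = x
        · exact Or.inr (Or.inl h3)
        · exact Or.inr (Or.inr (h v hx h2 (fun h4 => h3 (congrArg _ h4))))
      · exact Or.inl h2
    · exact Or.inl hx

theorem passT_iff {n : ℕ} {X S T K Gp Gm : List Bool} (hS : S.length = n) :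
    passT n X S T K Gp Gm = true ↔ (instT n S T K Gp Gm).Pass (setT n X) := by
  unfold passT
  rw [Bool.and_eq_true, Bool.and_eq_true, Bool.and_eq_true, Bool.or_eq_true, allIn_iff, allIn_iff,
    emptyT_iff, ex4_iff, goodTest_iff]
  simp only [reach_trM_iff]
  simp only [reach_iff, outV_iff hS, goodM_iff (K := K)]
  have hfour : Inst.Four (setT n (outV n X (rlT n S T K Gp Gm))) ↔
      Inst.Four (fun v => setT n X v ∧ ¬ (instT n S T K Gp Gm).R v ∧
        ¬ (instT n S T K Gp Gm).L v) := by
    have : setT n (outV n X (rlT n S T K Gp Gm)) = fun v => setT n X v ∧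
        ¬ (instT n S T K Gp Gm).R v ∧ ¬ (instT n S T K Gp Gm).L v := by
      funext v
      exact propext (outV_iff hS)
    rw [this]
  rw [hfour]
  constructor
  · rintro ⟨⟨h1, h2⟩, h3, h4⟩
    refine ⟨h1, h2, ?_, ?_⟩
    · rcases h3 with h3 | h3
      · left
        intro v hv
        by_contra h
        rw [not_or] at h
        exact h3 v ⟨hv, h⟩
      · exact Or.inr h3
    · intro a v ha hv hR hL hne
      exact h4 a v ⟨ha, hR, hL⟩ hv hne
  · rintro ⟨h1, h2, h3, h4⟩
    refine ⟨⟨h1, h2⟩, ?_, ?_⟩
    · rcases h3 with h3 | h3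
      · left
        rintro v ⟨hv, hR, hL⟩
        rcases h3 v hv with h | h
        · exact hR h
        · exact hL h
      · exact Or.inr h3
    · rintro a v ⟨ha, hR, hL⟩ hv hne
      exact h4 a v ha hv hR hL hne

end CT2Aux

theorem testT_iff {n : ℕ} {X S T K Gp Gm : List Bool} (hS : S.length = n)
    (hGp : Gp.length = n * n) : testT n X S T K Gp Gm = true ↔
      ((instT n S T K Gp Gm).clos (setT n X) (2 * (n * n))).Pass (setT n X) := by
  unfold testT
  rw [CT2Aux.passT_iff hS]
  unfold closT
  rw [CT2Aux.clos_iter, CT2Aux.inst_append hGp]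

end Pool.Agent.Lib.AB474.Tab
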