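import Pool.Agent.Lib.AB474.CT2

/-!
# MODULE CT3: correctness of `elimT` and `hubK`
-/

namespace Pool.Agent.Lib.AB474.Tab

open Relation

private theorem vec_len {n : ℕ} {f : ℕ → Bool} : (vec n f).length = n := by
  simp [vec]

private theorem mat_len {n : ℕ} {f : ℕ → ℕ → Bool} : (mat n f).length = n * n := by
  unfold mat
  rw [List.length_flatMap]
  simp [vec]

private theorem relT_tr {n : ℕ} {M : List Bool} :
    relT n (trM n M) = Function.swap (relT n M) := by
  funext u v
  exact propext relT_trM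

private theorem setT_unit {n s : ℕ} (hs : s < n) {v : Fin n} :
    setT n (unitV n s) v ↔ v = ⟨s, hs⟩ := by
  rw [unitV, setT_vec, decide_eq_true_eq]
  exact ⟨fun h => Fin.ext h, fun h => congrArg Fin.val h⟩

private theorem reach_unit {n s : ℕ} (hs : s < n) {P : List Bool} {e : Fin n} :
    setT n (reach n P (unitV n s)) e ↔ ReflTransGen (relT n P) ⟨s, hs⟩ e := by
  rw [reach_iff]
  constructor
  · rintro ⟨x, hx, h⟩
    rw [setT_unit hs] at hx
    rwa [hx] at h
  · intro h
    exact ⟨⟨s, hs⟩, (setT_unit hs).2 rfl, h⟩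

private theorem reach_tr_unit {n t : ℕ} (ht : t < n) {M : List Bool} {e : Fin n} :
    setT n (reach n (trM n M) (unitV n t)) e ↔ ReflTransGen (relT n M) e ⟨t, ht⟩ := by
  rw [reach_unit ht, relT_tr, reflTransGen_swap]

private theorem reach_row {n : ℕ} {P : List Bool} {u e : Fin n} :
    setT n (reach n P (rowV n P u)) e ↔ TransGen (relT n P) u e := by
  rw [reach_iff, TransGen.head'_iff]
  constructor
  · rintro ⟨x, hx, h⟩
    exact ⟨x, setT_vec.1 hx, h⟩
  · rintro ⟨x, hx, h⟩
    exact ⟨x, setT_vec.2 hx, h⟩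

private theorem reach_col {n : ℕ} {M : List Bool} {v e : Fin n} :
    setT n (reach n (trM n M) (colV n M v)) e ↔ TransGen (relT n M) e v := by
  rw [reach_iff, TransGen.tail'_iff, relT_tr]
  constructor
  · rintro ⟨x, hx, h⟩
    exact ⟨x, reflTransGen_swap.1 h, (setT_vec (f := fun x => b2 n M x v)).1 hx⟩
  · rintro ⟨x, h, hx⟩
    exact ⟨x, (setT_vec (f := fun x => b2 n M x v)).2 hx, reflTransGen_swap.2 h⟩

private theorem viaP_iff {n : ℕ} {A E M r : List Bool} {v : Fin n} :
    viaP n A E M r v = true ↔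
      ∃ e : Fin n, setT n E e ∧ setT n r e ∧ relT n A e v ∧ ¬ relT n M e v := by
  rw [viaP, ex_fin]
  apply exists_congr
  intro e
  simp only [Bool.and_eq_true, Bool.not_eq_true', setT, relT, Bool.not_eq_true]

private theorem viaM_iff {n : ℕ} {A E P r : List Bool} {u : Fin n} :
    viaM n A E P r u = true ↔
      ∃ e : Fin n, setT n E e ∧ setT n r e ∧ relT n A u e ∧ ¬ relT n P u e := by
  rw [viaM, ex_fin]
  apply exists_congr
  intro e
  simp only [Bool.and_eq_true, Bool.not_eq_true', setT, relT, Bool.not_eq_true]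

private theorem peT_iff {n : ℕ} {A E P M : List Bool} {u v : Fin n} :
    relT n (peT n A E P M) u v ↔ Pe (relT n A) (setT n E) (relT n P) (relT n M) u v := by
  rw [peT, relT_mat, viaP_iff, Pe]
  apply exists_congr
  intro e
  rw [reach_row]

private theorem meT_iff {n : ℕ} {A E P M : List Bool} {u v : Fin n} :
    relT n (meT n A E P M) u v ↔ Me (relT n A) (setT n E) (relT n P) (relT n M) u v := by
  rw [meT, relT_mat, viaM_iff, Me]
  apply exists_congr
  intro e
  rw [reach_col]

private theorem setT_notV {n : ℕ} {E : List Bool} :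
    setT n (notV n E) = fun v => ¬ setT n E v := by
  funext v
  apply propext
  rw [notV, setT_vec, setT]
  simp

private theorem inst_ext {V : Type*} {I J : Inst V} (h1 : ∀ v, I.S v ↔ J.S v)
    (h2 : ∀ v, I.T v ↔ J.T v) (h3 : ∀ u v, I.Gp u v ↔ J.Gp u v) (h4 : ∀ u v, I.Gm u v ↔ J.Gm u v)
    (h5 : ∀ u v, I.K u v ↔ J.K u v) : I = J := by
  obtain ⟨S, T, Gp, Gm, K⟩ := I
  obtain ⟨S', T', Gp', Gm', K'⟩ := J
  have e1 : S = S' := funext fun v => propext (h1 v)
  have e2 : T = T' := funext fun v => propext (h2 v)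
  have e3 : Gp = Gp' := funext fun u => funext fun v => propext (h3 u v)
  have e4 : Gm = Gm' := funext fun u => funext fun v => propext (h4 u v)
  have e5 : K = K' := funext fun u => funext fun v => propext (h5 u v)
  subst e1 e2 e3 e4 e5
  rfl

private theorem inst_elim {n : ℕ} {A E P M L : List Bool} {s t : ℕ} (hs : s < n) (ht : t < n) :
    instT n (elS n A E P M s) (elT n A E P M t)
      (elK n A (peT n A E P M) (meT n A E P M)) (elGp n A E (peT n A E P M))
      (elGm n A E (meT n A E P M) L) =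
    (elimX (relT n A) (setT n E) (relT n P) (relT n M) ⟨s, hs⟩ ⟨t, ht⟩).lab (relT n L)
        (fun _ _ => False) := by
  apply inst_ext
  · intro v
    show setT n (elS n A E P M s) v ↔ _ ∧ _
    rw [elS, setT_vec, Bool.and_eq_true, viaP_iff]
    apply and_congr
    · simp [setT]
    · apply exists_congr
      intro e
      rw [reach_unit hs]
  · intro v
    show setT n (elT n A E P M t) v ↔ _ ∧ _
    rw [elT, setT_vec, Bool.and_eq_true, viaM_iff]
    apply and_congr
    · simp [setT]
    · apply exists_congr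
      intro e
      rw [reach_tr_unit ht]
  · intro u v
    show relT n (elGp n A E (peT n A E P M)) u v ↔ (_ ∧ _ ∧ (_ ∨ Pe _ _ _ _ u v)) ∧ ¬ False
    rw [← peT_iff, elGp, relT_mat]
    simp [relT, setT]
  · intro u v
    show relT n (elGm n A E (meT n A E P M) L) u v ↔ (_ ∧ _ ∧ (_ ∨ Me _ _ _ _ u v)) ∧ ¬ relT n L u v
    rw [← meT_iff, elGm, relT_mat]
    simp [relT, setT]
  · intro u v
    show relT n (elK n A (peT n A E P M) (meT n A E P M)) u v ↔
      _ ∧ ¬ Pe _ _ _ _ u v ∧ ¬ Me _ _ _ _ u v
    rw [← meT_iff, ← peT_iff, elK, relT_mat]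
    simp [relT]

private theorem okFrom_iff {n : ℕ} {E P r : List Bool} {e : Fin n} :
    okFrom n E P r e = true ↔ setT n r e ∨ ∃ u : Fin n, ¬ setT n E u ∧ TransGen (relT n P) u e := by
  rw [okFrom, Bool.or_eq_true, ex_fin]
  apply or_congr Iff.rfl
  apply exists_congr
  intro u
  rw [Bool.and_eq_true, ← reach_row]
  simp [setT]

private theorem okR_iff {n : ℕ} {E P r : List Bool} :
    okR n E P r = true ↔ ∀ e : Fin n, setT n E e →
      (setT n r e ∨ ∃ u : Fin n, ¬ setT n E u ∧ TransGen (relT n P) u e) := by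
  rw [okR, all_fin]
  apply forall_congr'
  intro e
  rw [Bool.or_eq_true, okFrom_iff]
  constructor
  · intro h he
    rcases h with h | h
    · rw [Bool.not_eq_true'] at h
      rw [setT, h] at he
      exact absurd he (by simp)
    · exact h
  · intro h
    by_cases he : setT n E e
    · exact Or.inr (h he)
    · left
      simpa [setT] using he

private theorem okRow_iff {n : ℕ} {A E P M : List Bool} {u : Fin n} :
    okRow n A E P M u = true ↔ ∀ v : Fin n,
      (relT n P u v → relT n A u v ∧ setT n E v ∧ ¬ relT n M u v) ∧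
      (relT n M u v → relT n A u v ∧ setT n E u) := by
  rw [okRow, all_fin]
  apply forall_congr'
  intro v
  simp only [relT, setT, Bool.and_eq_true, Bool.or_eq_true, Bool.not_eq_true', Bool.not_eq_true]
  constructor
  · rintro ⟨h1, h2⟩
    refine ⟨fun hp => ?_, fun hm => ?_⟩
    · rcases h1 with h1 | h1
      · rw [hp] at h1
        exact absurd h1 (by simp)
      · exact h1
    · rcases h2 with h2 | h2
      · rw [hm] at h2
        exact absurd h2 (by simp)
      · exact h2
  · rintro ⟨h1, h2⟩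
    constructor
    · by_cases hp : b2 n P u v = true
      · exact Or.inr (h1 hp)
      · exact Or.inl (by simpa using hp)
    · by_cases hm : b2 n M u v = true
      · exact Or.inr (h2 hm)
      · exact Or.inl (by simpa using hm)

private theorem okT_iff {n : ℕ} {A E P M : List Bool} {s t : ℕ} :
    okT n A E P M s t = true ↔ ∃ (hs : s < n) (ht : t < n),
      ElimOK (relT n A) (setT n E) (relT n P) (relT n M) ⟨s, hs⟩ ⟨t, ht⟩ := by
  rw [okT]
  simp only [Bool.and_eq_true, decide_eq_true_eq]
  constructor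
  · rintro ⟨⟨⟨hs, ht⟩, h1, h2⟩, h3, h4, h5⟩
    refine ⟨hs, ht, ?_⟩
    have h3' : ∀ u : Fin n, okRow n A E P M u = true := fun u => h3 u u.2
    rw [okR_iff] at h4 h5
    refine ⟨h1, h2, ?_, ?_, ?_, ?_, ?_⟩
    · intro u v huv
      have := ((okRow_iff.1 (h3' u)) v).1 huv
      exact ⟨this.1, this.2.1⟩
    · intro u v huv
      exact ((okRow_iff.1 (h3' u)) v).2 huv
    · intro u v huv
      exact (((okRow_iff.1 (h3' u)) v).1 huv).2.2
    · intro e he
      rcases h4 e he with h | h
      · exact Or.inl ((reach_unit hs).1 h)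
      · exact Or.inr h
    · intro e he
      rcases h5 e he with h | ⟨u, hu, h⟩
      · exact Or.inl ((reach_tr_unit ht).1 h)
      · rw [relT_tr, transGen_swap] at h
        exact Or.inr ⟨u, hu, h⟩
  · rintro ⟨hs, ht, h⟩
    refine ⟨⟨⟨hs, ht⟩, h.Es, h.Et⟩, ?_, ?_, ?_⟩
    · intro u hu
      have : okRow n A E P M (⟨u, hu⟩ : Fin n) = true := by
        rw [okRow_iff]
        intro v
        exact ⟨fun hp => ⟨(h.FpD _ _ hp).1, (h.FpD _ _ hp).2, h.dj _ _ hp⟩, fun hm => h.FmD _ _ hm⟩
      exact this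
    · rw [okR_iff]
      intro e he
      rcases h.rp e he with h1 | h1
      · exact Or.inl ((reach_unit hs).2 h1)
      · exact Or.inr h1
    · rw [okR_iff]
      intro e he
      rcases h.rm e he with h1 | ⟨u, hu, h1⟩
      · exact Or.inl ((reach_tr_unit ht).2 h1)
      · refine Or.inr ⟨u, hu, ?_⟩
        rw [relT_tr, transGen_swap]
        exact h1

theorem elimT_iff {n : ℕ} {A E P M L : List Bool} {s t : ℕ} :
    elimT n A E P M L s t = true ↔ ∃ (hs : s < n) (ht : t < n),
      ElimOK (relT n A) (setT n E) (relT n P) (relT n M) ⟨s, hs⟩ ⟨t, ht⟩ ∧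
      (((elimX (relT n A) (setT n E) (relT n P) (relT n M) ⟨s, hs⟩ ⟨t, ht⟩).lab (relT n L)
        (fun _ _ => False)).clos (fun v => ¬ setT n E v) (2 * (n * n))).Pass
          (fun v => ¬ setT n E v) := by
  rw [elimT, Bool.and_eq_true, okT_iff, testT_iff (S := elS n A E P M s)
    (Gp := elGp n A E (peT n A E P M)) vec_len mat_len, setT_notV]
  constructor
  · rintro ⟨⟨hs, ht, h1⟩, h2⟩
    refine ⟨hs, ht, h1, ?_⟩
    rwa [inst_elim hs ht] at h2
  · rintro ⟨hs, ht, h1, h2⟩
    refine ⟨⟨hs, ht, h1⟩, ?_⟩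
    rwa [inst_elim hs ht]

private theorem orStep_iff {n : ℕ} {A K : List Bool} {v : Fin n} :
    orStep n A K v = true ↔ ∃ k : Fin n, setT n K k ∧ relT n A k v := by
  rw [orStep, ex_fin]
  apply exists_congr
  intro e
  rw [Bool.and_eq_true]
  rfl

private theorem inst_hub {n : ℕ} {A K L : List Bool} :
    instT n (huS n A K) (huS n (trM n A) K) (fullM n) (huG n A K) (huGm n A K L) =
      (hubX (relT n A) (setT n K)).lab (relT n L) (fun _ _ => False) := by
  apply inst_ext
  · intro v
    show setT n (huS n A K) v ↔ _ ∧ _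
    rw [huS, setT_vec, Bool.and_eq_true, orStep_iff]
    apply and_congr
    · simp [setT]
    · exact Iff.rfl
  · intro v
    show setT n (huS n (trM n A) K) v ↔ _ ∧ _
    rw [huS, setT_vec, Bool.and_eq_true, orStep_iff]
    apply and_congr
    · simp [setT]
    · apply exists_congr
      intro k
      rw [relT_trM]
  · intro u v
    show relT n (huG n A K) u v ↔ (_ ∧ _ ∧ _) ∧ ¬ False
    rw [huG, relT_mat]
    simp [relT, setT]
  · intro u v
    show relT n (huGm n A K L) u v ↔ (_ ∧ _ ∧ _) ∧ ¬ relT n L u v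
    rw [huGm, relT_mat]
    simp [relT, setT]
  · intro u v
    show relT n (fullM n) u v ↔ True
    rw [fullM, relT_mat]
    simp

theorem hubK_iff {n : ℕ} {A K L : List Bool} : hubK n A K L = true ↔
      (((hubX (relT n A) (setT n K)).lab (relT n L) (fun _ _ => False)).clos
        (fun v => ¬ setT n K v) (2 * (n * n))).Pass (fun v => ¬ setT n K v) := by
  rw [hubK, testT_iff (S := huS n A K) (Gp := huG n A K) vec_len mat_len, setT_notV, inst_hub]

end Pool.Agent.Lib.AB474.Tab
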