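import Pool.Agent.Lib.AB474.Sem

/-!
# MODULE CT4: greedy clique, guesses, exhaustive search (about 1.5 h)

(1) k4T_iff.
(2) greedy_spec: for K0 = quadV n a b c d with k4T n A a b c d: all greedy n A K0 k are cliques containing
   a, b, c, d (quadV is a clique by k4T; step k adds k only if it is adjacent to all elements other than k);
   maximality of K = greedy n A K0 n: let v be outside K.  Step v did not add v, so some u in
   greedy n A K0 v, u ≠ v, is not adjacent to v; u is in K by monotonicity.
(3) search_iff: by induction on k; code (l ++ [x]) ++ gs = code l ++ (un x ++ false :: gs).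
(4) dg_code: dg (code l) i = l.getD i 0 for i < l.length (afterTrue_un, takeWhile_un, induction on i).
(5) guess_elim: write the elements of E as a list l0 = s :: t :: (E \ {s,t}).toList of length at most 38, fill it
   up with n's to length 40 (n is not the number of a vertex), then the 40 numbers f e (any number for the
   fillers), then the 40 numbers g e, then the first and second components of L, each filled with n's to
   length 4.  Total 128.  Check gE, gP, gM, gL: gP excludes v = s, gM excludes u = t.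
(6) guess_hub: [a,b,c,d] then first and second components of L filled with n's: total 12.
-/

namespace Pool.Agent.Lib.AB474.Tab

open Relation Pool.Agent.Lib.PolyTime

/-! ### 4-cliques -/

private theorem adjT_iff {n : ℕ} {A : List Bool} {a b : Fin n} :
    adjT n A a b = true ↔ a ≠ b ∧ Adj (relT n A) a b := by
  unfold adjT Adj relT
  rw [Bool.and_eq_true, Bool.or_eq_true, Bool.not_eq_true', decide_eq_false_iff_not]
  rw [Ne, Fin.ext_iff]

theorem k4T_iff {n : ℕ} {A : List Bool} {a b c d : ℕ} : k4T n A a b c d = true ↔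
    ∃ (ha : a < n) (hb : b < n) (hc : c < n) (hd : d < n),
      K4 (relT n A) ⟨a, ha⟩ ⟨b, hb⟩ ⟨c, hc⟩ ⟨d, hd⟩ := by
  unfold k4T
  simp only [Bool.and_eq_true, decide_eq_true_eq]
  constructor
  · rintro ⟨⟨⟨ha, hb⟩, hc, hd⟩, ⟨hab, hac, had⟩, hbc, hbd, hcd⟩
    have e1 := (adjT_iff (n := n) (A := A) (a := ⟨a, ha⟩) (b := ⟨b, hb⟩)).1 hab
    have e2 := (adjT_iff (n := n) (A := A) (a := ⟨a, ha⟩) (b := ⟨c, hc⟩)).1 hac
    have e3 := (adjT_iff (n := n) (A := A) (a := ⟨a, ha⟩) (b := ⟨d, hd⟩)).1 had
    have e4 := (adjT_iff (n := n) (A := A) (a := ⟨b, hb⟩) (b := ⟨c, hc⟩)).1 hbc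
    have e5 := (adjT_iff (n := n) (A := A) (a := ⟨b, hb⟩) (b := ⟨d, hd⟩)).1 hbd
    have e6 := (adjT_iff (n := n) (A := A) (a := ⟨c, hc⟩) (b := ⟨d, hd⟩)).1 hcd
    exact ⟨ha, hb, hc, hd, ⟨e1.1, e2.1, e3.1, e4.1, e5.1, e6.1, e1.2, e2.2, e3.2, e4.2, e5.2, e6.2⟩⟩
  · rintro ⟨ha, hb, hc, hd, h⟩
    refine ⟨⟨⟨ha, hb⟩, hc, hd⟩, ⟨?_, ?_, ?_⟩, ?_, ?_, ?_⟩
    · exact (adjT_iff (n := n) (A := A) (a := ⟨a, ha⟩) (b := ⟨b, hb⟩)).2 ⟨h.ab, h.Aab⟩
    · exact (adjT_iff (n := n) (A := A) (a := ⟨a, ha⟩) (b := ⟨c, hc⟩)).2 ⟨h.ac, h.Aac⟩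
    · exact (adjT_iff (n := n) (A := A) (a := ⟨a, ha⟩) (b := ⟨d, hd⟩)).2 ⟨h.ad, h.Aad⟩
    · exact (adjT_iff (n := n) (A := A) (a := ⟨b, hb⟩) (b := ⟨c, hc⟩)).2 ⟨h.bc, h.Abc⟩
    · exact (adjT_iff (n := n) (A := A) (a := ⟨b, hb⟩) (b := ⟨d, hd⟩)).2 ⟨h.bd, h.Abd⟩
    · exact (adjT_iff (n := n) (A := A) (a := ⟨c, hc⟩) (b := ⟨d, hd⟩)).2 ⟨h.cd, h.Acd⟩

/-! ### The greedy clique -/

private theorem setT_quadV {n : ℕ} {a b c d v : Fin n} :
    setT n (quadV n a b c d) v ↔ (v = a ∨ v = b) ∨ (v = c ∨ v = d) := by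
  unfold quadV
  rw [setT_vec]
  simp only [Bool.or_eq_true, decide_eq_true_eq, Fin.ext_iff]

private theorem adjAll_iff {n : ℕ} {A K : List Bool} {k : Fin n} :
    adjAll n A K k = true ↔ ∀ u : Fin n, setT n K u → u ≠ k → Adj (relT n A) u k := by
  unfold adjAll
  rw [all_fin (φ := fun u => !b1 K u || (decide (u = k) || (b2 n A u k || b2 n A k u)))]
  refine forall_congr' fun u => ?_
  simp only [Bool.or_eq_true, Bool.not_eq_true', decide_eq_true_eq]
  unfold setT Adj relT
  rw [Ne, Fin.ext_iff]
  constructor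
  · rintro h h1 h2
    rcases h with h | h | h
    · rw [h] at h1; cases h1
    · exact absurd h h2
    · exact h
  · intro h
    by_cases h1 : b1 K u = true
    · right
      by_cases h2 : (u : ℕ) = k
      · exact Or.inl h2
      · exact Or.inr (h h1 h2)
    · left
      simpa using h1

private theorem setT_greedyStep {n : ℕ} {A K : List Bool} {k : ℕ} {v : Fin n} :
    setT n (greedyStep n A K k) v ↔ setT n K v ∨ ((v : ℕ) = k ∧ adjAll n A K k = true) := by
  unfold greedyStep
  rw [setT_vec]
  simp only [Bool.or_eq_true, Bool.and_eq_true, decide_eq_true_eq]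
  rfl

private theorem greedy_mono {n : ℕ} {A K : List Bool} {k m : ℕ} (h : k ≤ m) {v : Fin n}
    (hv : setT n (greedy n A K k) v) : setT n (greedy n A K m) v := by
  induction m, h using Nat.le_induction with
  | base => exact hv
  | succ m _ ih =>
    show setT n (greedyStep n A (greedy n A K m) m) v
    rw [setT_greedyStep]
    exact Or.inl ih

private theorem greedy_clq {n : ℕ} {A K : List Bool} (hK : Clq (relT n A) (setT n K)) (k : ℕ) (hk : k ≤ n) :
    Clq (relT n A) (setT n (greedy n A K k)) := by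
  induction k with
  | zero => exact hK
  | succ k ih =>
    have ih := ih (by omega)
    intro u v hu hv huv
    replace hu : setT n (greedyStep n A (greedy n A K k) k) u := hu
    replace hv : setT n (greedyStep n A (greedy n A K k) k) v := hv
    rw [setT_greedyStep] at hu hv
    rcases hu with hu | ⟨hu, hu'⟩ <;> rcases hv with hv | ⟨hv, hv'⟩
    · exact ih u v hu hv huv
    · subst hv
      exact adjAll_iff.1 hv' u hu huv
    · subst hu
      have := adjAll_iff.1 hu' v hv (Ne.symm huv)
      exact this.symm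
    · exact absurd (Fin.ext (hu.trans hv.symm)) huv

theorem greedy_spec {n : ℕ} {A : List Bool} {a b c d : Fin n} (h : K4 (relT n A) a b c d) :
    MaxClq (relT n A) (setT n (greedy n A (quadV n a b c d) n)) ∧
      setT n (greedy n A (quadV n a b c d) n) a ∧ setT n (greedy n A (quadV n a b c d) n) b ∧
      setT n (greedy n A (quadV n a b c d) n) c ∧ setT n (greedy n A (quadV n a b c d) n) d := by
  have hK : Clq (relT n A) (setT n (quadV n a b c d)) := by
    intro u v hu hv huv
    rw [setT_quadV] at hu hv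
    have s1 := h.Aab; have s2 := h.Aac; have s3 := h.Aad
    have s4 := h.Abc; have s5 := h.Abd; have s6 := h.Acd
    rcases hu with (rfl | rfl) | (rfl | rfl) <;> rcases hv with (rfl | rfl) | (rfl | rfl) <;>
      first
        | exact absurd rfl huv
        | assumption
        | exact Or.symm (by assumption)
  refine ⟨⟨greedy_clq hK n le_rfl, ?_⟩, ?_, ?_, ?_, ?_⟩
  · intro v hv
    by_contra hcon
    have hcon : ∀ k, setT n (greedy n A (quadV n a b c d) n) k → Adj (relT n A) k v := fun k hk => by
      by_contra h2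
      exact hcon ⟨k, hk, h2⟩
    have h1 : ¬ setT n (greedy n A (quadV n a b c d) (v + 1)) v := fun h1 =>
      hv (greedy_mono (by omega) h1)
    apply h1
    show setT n (greedyStep n A (greedy n A (quadV n a b c d) v) v) v
    rw [setT_greedyStep]
    right
    refine ⟨rfl, adjAll_iff.2 fun u hu _ => hcon u (greedy_mono (by omega) hu)⟩
  all_goals
    refine greedy_mono (Nat.zero_le _) ?_
    show setT n (quadV n a b c d) _
    rw [setT_quadV]
    simp

/-! ### Exhaustive search -/

private theorem code_append (l m : List ℕ) : code (l ++ m) = code l ++ code m := by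
  induction l with
  | nil => rfl
  | cons x l ih => simp [code, ih]

theorem search_iff {n : ℕ} {φ : List Bool → Bool} {k : ℕ} {gs : List Bool} :
    search n φ k gs = true ↔
      ∃ l : List ℕ, l.length = k ∧ (∀ x ∈ l, x < n + 1) ∧ φ (code l ++ gs) = true := by
  induction k generalizing gs with
  | zero =>
    constructor
    · intro h
      exact ⟨[], rfl, by simp, h⟩
    · rintro ⟨l, hl, -, h⟩
      rw [List.length_eq_zero_iff] at hl
      subst hl
      exact h
  | succ k ih =>
    show decide (∃ x < n + 1, search n φ k (un x ++ false :: gs) = true) = true ↔ _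
    rw [decide_eq_true_eq]
    constructor
    · rintro ⟨x, hx, h⟩
      obtain ⟨l, hl, hl', h⟩ := ih.1 h
      refine ⟨l ++ [x], by simp [hl], ?_, ?_⟩
      · intro y hy
        rcases List.mem_append.1 hy with hy | hy
        · exact hl' y hy
        · rw [List.mem_singleton.1 hy]; exact hx
      · rw [code_append]
        simpa [code] using h
    · rintro ⟨l, hl, hl', h⟩
      have hne : l ≠ [] := by
        rintro rfl
        simp at hl
      obtain ⟨m, x, rfl⟩ : ∃ m x, l = m ++ [x] :=
        ⟨l.dropLast, l.getLast hne, (List.dropLast_append_getLast hne).symm⟩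
      refine ⟨x, hl' x (by simp), ih.2 ⟨m, by simpa using hl, fun y hy => hl' y (by simp [hy]), ?_⟩⟩
      rw [code_append] at h
      simpa [code] using h

/-! ### Reading the guesses -/

private theorem dg_code {l : List ℕ} {i : ℕ} (hi : i < l.length) : dg (code l) i = l.getD i 0 := by
  induction l generalizing i with
  | nil => simp at hi
  | cons x l ih =>
    rcases i with _ | i
    · show ((un x ++ false :: code l).takeWhile id).length = _
      rw [takeWhile_un]
      simp
    · have h1 := ih (i := i) (by simpa using hi)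
      unfold dg at h1 ⊢
      rw [Function.iterate_succ_apply]
      show ((afterTrue^[i] (afterTrue (un x ++ false :: code l))).takeWhile id).length = _
      rw [afterTrue_un, h1]
      simp

/-- a list of numbers filled up with `n`'s to length `m` -/
private def fill {α : Type*} (n m : ℕ) (l : List α) (p : α → ℕ) : List ℕ :=
  l.map p ++ List.replicate (m - l.length) n

private theorem fill_length {α : Type*} {n m : ℕ} {l : List α} {p : α → ℕ} (h : l.length ≤ m) :
    (fill n m l p).length = m := by
  simp [fill]; omega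

private theorem fill_lt {α : Type*} {n m : ℕ} {l : List α} {p : α → ℕ} (hp : ∀ x, p x < n) :
    ∀ x ∈ fill n m l p, x < n + 1 := by
  intro x hx
  rcases List.mem_append.1 hx with hx | hx
  · obtain ⟨y, _, rfl⟩ := List.mem_map.1 hx
    exact (hp y).trans (Nat.lt_succ_self n)
  · rw [(List.mem_replicate.1 hx).2]; exact Nat.lt_succ_self n

private theorem fill_getD_lt {α : Type*} {n m : ℕ} {l : List α} {p : α → ℕ} {i : ℕ} (hi : i < l.length) :
    (fill n m l p).getD i 0 = p l[i] := by
  unfold fill
  rw [List.getD_append _ _ _ _ (by simpa using hi), List.getD_eq_getElem _ _ (by simpa using hi)]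
  simp

private theorem fill_getD_ge {α : Type*} {n m : ℕ} {l : List α} {p : α → ℕ} {i : ℕ} (hi : l.length ≤ i)
    (him : i < m) : (fill n m l p).getD i 0 = n := by
  unfold fill
  rw [List.getD_append_right _ _ _ _ (by simpa using hi), List.getD_eq_getElem _ _
    (by simp; omega)]
  simp

private theorem fill_pair {α : Type*} {n m : ℕ} {l : List α} {p q : α → ℕ} (h : l.length ≤ m) {u v : ℕ}
    (huv : u < n ∨ v < n) :
    (∃ i < m, (fill n m l p).getD i 0 = u ∧ (fill n m l q).getD i 0 = v) ↔
      ∃ x ∈ l, p x = u ∧ q x = v := by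
  constructor
  · rintro ⟨i, hi, h1, h2⟩
    by_cases hil : i < l.length
    · rw [fill_getD_lt hil] at h1 h2
      exact ⟨l[i], List.getElem_mem hil, h1, h2⟩
    · rw [fill_getD_ge (by omega) hi] at h1 h2
      omega
  · rintro ⟨x, hx, h1, h2⟩
    obtain ⟨i, hi, rfl⟩ := List.getElem_of_mem hx
    exact ⟨i, by omega, by rw [fill_getD_lt hi]; exact h1, by rw [fill_getD_lt hi]; exact h2⟩

private theorem fill_mem {α : Type*} {n m : ℕ} {l : List α} {p : α → ℕ} (h : l.length ≤ m) {u : ℕ}
    (hu : u < n) :
    (∃ i < m, (fill n m l p).getD i 0 = u) ↔ ∃ x ∈ l, p x = u := by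
  have := fill_pair (p := p) (q := p) h (u := u) (v := u) (Or.inl hu)
  simpa using this

private theorem mem1_iff {m : ℕ} {gs : List Bool} {v : ℕ} :
    mem1 m gs v = true ↔ ∃ i < m, dg gs i = v := by
  unfold mem1
  simp only [decide_eq_true_eq]

private theorem mem2_iff {m : ℕ} {gs : List Bool} {a b u v : ℕ} :
    mem2 m gs a b u v = true ↔ ∃ i < m, dg gs (a + i) = u ∧ dg gs (b + i) = v := by
  unfold mem2
  simp only [Bool.and_eq_true, decide_eq_true_eq]

theorem guess_elim {n : ℕ} {s t : Fin n} {f g : Fin n → Fin n} {E : Finset (Fin n)}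
    (hE : E.card ≤ 36) (hs : s ∈ E) (ht : t ∈ E) {L : List (Fin n × Fin n)} (hL : L.length ≤ 4) :
    ∃ l : List ℕ, l.length = 128 ∧ (∀ x ∈ l, x < n + 1) ∧ dg (code l) 0 = s ∧ dg (code l) 1 = t ∧
      (∀ v, setT n (gE n (code l)) v ↔ v ∈ E) ∧
      (∀ u v, relT n (gP n (code l)) u v ↔ FpOf (fun v => v ∈ E) s f u v) ∧
      (∀ u v, relT n (gM n (code l)) u v ↔ FmOf (fun v => v ∈ E) t g u v) ∧
      (∀ u v, relT n (gL n (code l) 120) u v ↔ lrel L u v) := by
  set l0 : List (Fin n) := s :: t :: E.toList with hl0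
  have hlen : l0.length ≤ 40 := by
    simp [hl0]; omega
  have hmem : ∀ v, v ∈ l0 ↔ v ∈ E := by
    intro v
    simp only [hl0, List.mem_cons, Finset.mem_toList]
    constructor
    · rintro (rfl | rfl | h)
      · exact hs
      · exact ht
      · exact h
    · exact fun h => Or.inr (Or.inr h)
  set B0 := fill n 40 l0 (fun e => (e : ℕ)) with hB0
  set B1 := fill n 40 l0 (fun e => (f e : ℕ)) with hB1
  set B2 := fill n 40 l0 (fun e => (g e : ℕ)) with hB2
  set B3 := fill n 4 L (fun e => (e.1 : ℕ)) with hB3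
  set B4 := fill n 4 L (fun e => (e.2 : ℕ)) with hB4
  have e0 : B0.length = 40 := fill_length hlen
  have e1 : B1.length = 40 := fill_length hlen
  have e2 : B2.length = 40 := fill_length hlen
  have e3 : B3.length = 4 := fill_length hL
  have e4 : B4.length = 4 := fill_length hL
  set l := B0 ++ (B1 ++ (B2 ++ (B3 ++ B4))) with hl
  have hll : l.length = 128 := by
    rw [hl]; simp only [List.length_append]; omega
  have g0 : ∀ i < 40, dg (code l) i = B0.getD i 0 := by
    intro i hi
    rw [dg_code (by omega), hl, List.getD_append _ _ _ _ (by omega)]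
  have g1 : ∀ i < 40, dg (code l) (40 + i) = B1.getD i 0 := by
    intro i hi
    rw [dg_code (by omega), hl, List.getD_append_right _ _ _ _ (by omega), e0,
      List.getD_append _ _ _ _ (by omega)]
    congr 1; omega
  have g2 : ∀ i < 40, dg (code l) (80 + i) = B2.getD i 0 := by
    intro i hi
    rw [dg_code (by omega), hl, List.getD_append_right _ _ _ _ (by omega), e0,
      List.getD_append_right _ _ _ _ (by omega), e1, List.getD_append _ _ _ _ (by omega)]
    congr 1; omega
  have g3 : ∀ i < 4, dg (code l) (120 + i) = B3.getD i 0 := by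
    intro i hi
    rw [dg_code (by omega), hl, List.getD_append_right _ _ _ _ (by omega), e0,
      List.getD_append_right _ _ _ _ (by omega), e1,
      List.getD_append_right _ _ _ _ (by omega), e2, List.getD_append _ _ _ _ (by omega)]
    rw [show 120 + i - 40 - 40 - 40 = i by omega]
  have g4 : ∀ i < 4, dg (code l) (124 + i) = B4.getD i 0 := by
    intro i hi
    rw [dg_code (by omega), hl, List.getD_append_right _ _ _ _ (by omega), e0,
      List.getD_append_right _ _ _ _ (by omega), e1,
      List.getD_append_right _ _ _ _ (by omega), e2,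
      List.getD_append_right _ _ _ _ (by omega), e3]
    rw [show 124 + i - 40 - 40 - 40 - 4 = i by omega]
  have hd0 : dg (code l) 0 = s := by
    rw [g0 0 (by omega), hB0, fill_getD_lt (by simp [hl0])]
    simp [hl0]
  have hd1 : dg (code l) 1 = t := by
    rw [g0 1 (by omega), hB0, fill_getD_lt (by simp [hl0])]
    simp [hl0]
  refine ⟨l, hll, ?_, hd0, hd1, ?_, ?_, ?_, ?_⟩
  · intro x hx
    rw [hl] at hx
    simp only [List.mem_append] at hx
    rcases hx with hx | hx | hx | hx | hx
    · exact fill_lt (fun e => e.2) x hx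
    · exact fill_lt (fun e => (f e).2) x hx
    · exact fill_lt (fun e => (g e).2) x hx
    · exact fill_lt (fun e => e.1.2) x hx
    · exact fill_lt (fun e => e.2.2) x hx
  · intro v
    unfold gE
    rw [setT_vec, mem1_iff]
    have h1 : (∃ i < 40, dg (code l) i = v) ↔ ∃ i < 40, B0.getD i 0 = v :=
      exists_congr fun i => and_congr_right fun hi => by rw [g0 i hi]
    rw [h1, fill_mem hlen v.2]
    constructor
    · rintro ⟨x, hx, h⟩
      rw [← Fin.ext h]; exact (hmem x).1 hx
    · intro h
      exact ⟨v, (hmem v).2 h, rfl⟩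
  · intro u v
    unfold gP
    rw [relT_mat, Bool.and_eq_true, mem2_iff, hd0]
    have h1 : (∃ i < 40, dg (code l) (40 + i) = u ∧ dg (code l) (0 + i) = v) ↔
        ∃ i < 40, B1.getD i 0 = u ∧ B0.getD i 0 = v :=
      exists_congr fun i => and_congr_right fun hi => by rw [g1 i hi, Nat.zero_add, g0 i hi]
    rw [h1, fill_pair hlen (Or.inl u.2)]
    unfold FpOf
    rw [Bool.not_eq_true', decide_eq_false_iff_not]
    constructor
    · rintro ⟨⟨x, hx, h2, h3⟩, h4⟩
      have h3 := Fin.ext h3
      subst h3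
      exact ⟨(hmem x).1 hx, fun h => h4 (by rw [h]), Fin.ext h2⟩
    · rintro ⟨h2, h3, h4⟩
      exact ⟨⟨v, (hmem v).2 h2, by rw [h4], rfl⟩, fun h => h3 (Fin.ext h).symm⟩
  · intro u v
    unfold gM
    rw [relT_mat, Bool.and_eq_true, mem2_iff, hd1]
    have h1 : (∃ i < 40, dg (code l) (0 + i) = u ∧ dg (code l) (80 + i) = v) ↔
        ∃ i < 40, B0.getD i 0 = u ∧ B2.getD i 0 = v :=
      exists_congr fun i => and_congr_right fun hi => by rw [g2 i hi, Nat.zero_add, g0 i hi]
    rw [h1, fill_pair hlen (Or.inl u.2)]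
    unfold FmOf
    rw [Bool.not_eq_true', decide_eq_false_iff_not]
    constructor
    · rintro ⟨⟨x, hx, h2, h3⟩, h4⟩
      have h2 := Fin.ext h2
      subst h2
      exact ⟨(hmem x).1 hx, fun h => h4 (by rw [h]), Fin.ext h3⟩
    · rintro ⟨h2, h3, h4⟩
      exact ⟨⟨u, (hmem u).2 h2, rfl, by rw [h4]⟩, fun h => h3 (Fin.ext h).symm⟩
  · intro u v
    unfold gL
    rw [relT_mat, mem2_iff]
    have h1 : (∃ i < 4, dg (code l) (120 + i) = u ∧ dg (code l) (120 + 4 + i) = v) ↔
        ∃ i < 4, B3.getD i 0 = u ∧ B4.getD i 0 = v :=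
      exists_congr fun i => and_congr_right fun hi => by rw [g3 i hi, g4 i hi]
    rw [h1, fill_pair hL (Or.inl u.2)]
    unfold lrel
    constructor
    · rintro ⟨⟨x, y⟩, hx, h2, h3⟩
      rw [← Fin.ext h2, ← Fin.ext h3]; exact hx
    · intro h
      exact ⟨(u, v), h, rfl, rfl⟩

theorem guess_hub {n : ℕ} {a b c d : Fin n} {L : List (Fin n × Fin n)} (hL : L.length ≤ 4) :
    ∃ l : List ℕ, l.length = 12 ∧ (∀ x ∈ l, x < n + 1) ∧ dg (code l) 0 = a ∧ dg (code l) 1 = b ∧
      dg (code l) 2 = c ∧ dg (code l) 3 = d ∧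
      (∀ u v, relT n (gL n (code l) 4) u v ↔ lrel L u v) := by
  set B0 : List ℕ := [(a : ℕ), b, c, d] with hB0
  set B3 := fill n 4 L (fun e => (e.1 : ℕ)) with hB3
  set B4 := fill n 4 L (fun e => (e.2 : ℕ)) with hB4
  have e0 : B0.length = 4 := rfl
  have e3 : B3.length = 4 := fill_length hL
  have e4 : B4.length = 4 := fill_length hL
  set l := B0 ++ (B3 ++ B4) with hl
  have hll : l.length = 12 := by
    rw [hl]; simp only [List.length_append]; omega
  have g0 : ∀ i < 4, dg (code l) i = B0.getD i 0 := by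
    intro i hi
    rw [dg_code (by omega), hl, List.getD_append _ _ _ _ (by omega)]
  have g3 : ∀ i < 4, dg (code l) (4 + i) = B3.getD i 0 := by
    intro i hi
    rw [dg_code (by omega), hl, List.getD_append_right _ _ _ _ (by omega), e0,
      List.getD_append _ _ _ _ (by omega)]
    congr 1; omega
  have g4 : ∀ i < 4, dg (code l) (8 + i) = B4.getD i 0 := by
    intro i hi
    rw [dg_code (by omega), hl, List.getD_append_right _ _ _ _ (by omega), e0,
      List.getD_append_right _ _ _ _ (by omega), e3]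
    congr 1; omega
  refine ⟨l, hll, ?_, ?_, ?_, ?_, ?_, ?_⟩
  · intro x hx
    rw [hl] at hx
    simp only [List.mem_append] at hx
    rcases hx with hx | hx | hx
    · simp only [hB0, List.mem_cons, List.not_mem_nil, or_false] at hx
      have h1 := a.2; have h2 := b.2; have h3 := c.2; have h4 := d.2
      omega
    · exact fill_lt (fun e => e.1.2) x hx
    · exact fill_lt (fun e => e.2.2) x hx
  · rw [g0 0 (by omega)]; rfl
  · rw [g0 1 (by omega)]; rfl
  · rw [g0 2 (by omega)]; rfl
  · rw [g0 3 (by omega)]; rfl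
  · intro u v
    unfold gL
    rw [relT_mat, mem2_iff]
    have h1 : (∃ i < 4, dg (code l) (4 + i) = u ∧ dg (code l) (4 + 4 + i) = v) ↔
        ∃ i < 4, B3.getD i 0 = u ∧ B4.getD i 0 = v :=
      exists_congr fun i => and_congr_right fun hi => by rw [g3 i hi, g4 i hi]
    rw [h1, fill_pair hL (Or.inl u.2)]
    unfold lrel
    constructor
    · rintro ⟨⟨x, y⟩, hx, h2, h3⟩
      rw [← Fin.ext h2, ← Fin.ext h3]; exact hx
    · intro h
      exact ⟨(u, v), h, rfl, rfl⟩

end Pool.Agent.Lib.AB474.Tab
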