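import Mathlib

/-!
# The decision problem: arc-disjoint branchings in digraphs with independence number two
-/

namespace Pool.Agent.Lib.AB474

/-- A digraph without loops and parallel arcs on the vertices `0, …, n-1`, given by its arc matrix. -/
structure DG where
  /-- number of vertices -/
  n : ℕ
  /-- arc matrix -/
  arc : Fin n → Fin n → Bool
  /-- no loops -/
  loopless : ∀ v, arc v v = false

namespace DG

/-- `(u,v)` is an arc. -/
def Arc (D : DG) (u v : Fin D.n) : Prop := D.arc u v = true

/-- The bit string `1ⁿ 0` followed by the rows of the arc matrix. -/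
def encode (D : DG) : List Bool :=
  List.replicate D.n true ++ false :: (List.ofFn fun u => List.ofFn fun v => D.arc u v).flatten

/-- `I` is independent: no arc joins two vertices of `I`. -/
def Indep (D : DG) (I : Finset (Fin D.n)) : Prop := ∀ u ∈ I, ∀ v ∈ I, ¬ D.Arc u v

/-- The largest size of an independent set is two. -/
def AlphaTwo (D : DG) : Prop :=
  (∃ I, D.Indep I ∧ I.card = 2) ∧ ∀ I, D.Indep I → I.card ≤ 2

/-- `B` is an out-branching rooted at `s`: a spanning subdigraph whose underlying graph is a tree,
with in-degree `0` at `s` and in-degree `1` elsewhere. -/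
structure OutBranching (D : DG) (s : Fin D.n) (B : Set (Fin D.n × Fin D.n)) : Prop where
  sub : ∀ a ∈ B, D.Arc a.1 a.2
  anti : ∀ u v, (u, v) ∈ B → (v, u) ∉ B
  tree : (SimpleGraph.fromRel fun u v => (u, v) ∈ B).IsTree
  root : ∀ u, (u, s) ∉ B
  deg : ∀ v, v ≠ s → ∃! u, (u, v) ∈ B

/-- `B` is an in-branching rooted at `t`: a spanning subdigraph whose underlying graph is a tree,
with out-degree `0` at `t` and out-degree `1` elsewhere. -/
structure InBranching (D : DG) (t : Fin D.n) (B : Set (Fin D.n × Fin D.n)) : Prop where
  sub : ∀ a ∈ B, D.Arc a.1 a.2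
  anti : ∀ u v, (u, v) ∈ B → (v, u) ∉ B
  tree : (SimpleGraph.fromRel fun u v => (u, v) ∈ B).IsTree
  root : ∀ u, (t, u) ∉ B
  deg : ∀ v, v ≠ t → ∃! u, (v, u) ∈ B

/-- There are `s`, `t`, an out-branching rooted at `s` and an in-branching rooted at `t` without
common arc. -/
def HasPair (D : DG) : Prop :=
  ∃ (s t : Fin D.n) (B B' : Set (Fin D.n × Fin D.n)),
    D.OutBranching s B ∧ D.InBranching t B' ∧ Disjoint B B'

end DG

/-- The language: encodings of digraphs with independence number two having arc-disjoint in- and
out-branchings. -/
def BranchLanguage : Set (List Bool) := {w | ∃ D : DG, D.AlphaTwo ∧ D.HasPair ∧ D.encode = w}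

open Classical in
/-- A language of bit strings is in P: its characteristic function, on all bit strings, is
computed by a Turing machine (Mathlib's `FinTM2`) in polynomial time. -/
def InP (L : Set (List Bool)) : Prop :=
  Nonempty (Turing.TM2ComputableInPolyTime (id : List Bool → List Bool)
    Computability.encodeBool (fun w => decide (w ∈ L)))

end Pool.Agent.Lib.AB474
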