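import Pool.Agent.Lib.AB474.Sem
import Pool.Agent.Lib.AB474.Lang

/-!
# MODULE CT5: encodings and the independence test
-/

namespace Pool.Agent.Lib.AB474.Tab

open Pool.Agent.Lib.PolyTime

private theorem enc_eq (D : DG) : D.encode =
    un D.n ++ false :: (List.ofFn fun u => List.ofFn fun v => D.arc u v).flatten := rfl

theorem enc_nOf (D : DG) : nOf D.encode = D.n := by
  rw [enc_eq, nOf, takeWhile_un, un_length]

private theorem enc_aOf (D : DG) : aOf D.encode =
    (List.ofFn fun u => List.ofFn fun v => D.arc u v).flatten := by
  rw [enc_eq, aOf, afterTrue_un]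

private theorem flat_length {n : ℕ} (f : Fin n → Fin n → Bool) :
    (List.ofFn fun u => List.ofFn fun v => f u v).flatten.length = n * n := by
  rw [List.length_flatten, List.map_ofFn, List.sum_ofFn]
  simp

theorem enc_length (D : DG) : D.encode.length = D.n + 1 + D.n * D.n := by
  rw [enc_eq, List.length_append, List.length_cons, un_length, flat_length]
  ring

private theorem flat_b2 {n : ℕ} (f : Fin n → Fin n → Bool) (u v : Fin n) :
    b2 n (List.ofFn fun u => List.ofFn fun v => f u v).flatten u v = f u v := by
  unfold b2
  rw [flat_getD _ _ _ _ v.2]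
  · have h : (List.ofFn fun u => List.ofFn fun v => f u v).getD u [] =
        List.ofFn (fun v => f u v) := by
      rw [List.getD_eq_getElem _ _ (by simp), List.getElem_ofFn]
    rw [h, List.getD_eq_getElem _ _ (by simp), List.getElem_ofFn]
  · intro r hr
    rw [List.mem_ofFn] at hr
    obtain ⟨i, rfl⟩ := hr
    simp

theorem enc_arc (D : DG) (u v : Fin D.n) : relT D.n (aOf D.encode) u v ↔ D.Arc u v := by
  unfold relT DG.Arc
  rw [enc_aOf, flat_b2]

private theorem split_at (w : List Bool) (h : (w.takeWhile id).length < w.length) :
    w = un (w.takeWhile id).length ++ false :: afterTrue w := by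
  induction w with
  | nil => simp at h
  | cons b w ih =>
    cases b with
    | false => rfl
    | true =>
      rw [List.takeWhile_cons] at h ⊢
      simp only [id, if_true, List.length_cons] at h ⊢
      rw [un_succ, List.cons_append]
      congr 1
      exact ih (by omega)

private theorem flat_self {n : ℕ} {l : List Bool} (hl : l.length = n * n) :
    (List.ofFn fun u : Fin n => List.ofFn fun v : Fin n => b2 n l u v).flatten = l := by
  apply List.ext_getElem
  · rw [flat_length, hl]
  · intro i h1 h2
    have hn : 0 < n := by
      rcases Nat.eq_zero_or_pos n with h | h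
      · subst h
        simp only [Nat.mul_zero] at hl
        omega
      · exact h
    have hi : i = (i / n) * n + i % n := by
      have := Nat.div_add_mod i n
      rw [Nat.mul_comm]
      exact this.symm
    have hin : i / n < n := by
      rw [Nat.div_lt_iff_lt_mul hn, ← hl]
      exact h2
    have h3 := flat_b2 (fun u v : Fin n => b2 n l u v) ⟨i / n, hin⟩ ⟨i % n, Nat.mod_lt i hn⟩
    have h4 : (List.ofFn fun u : Fin n => List.ofFn fun v : Fin n => b2 n l u v).flatten.getD
        ((i / n) * n + i % n) false = l.getD ((i / n) * n + i % n) false := h3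
    rw [← hi, List.getD_eq_getElem _ _ h1, List.getD_eq_getElem _ _ h2] at h4
    exact h4

theorem exists_enc (w : List Bool) (hw : w.length = nOf w + 1 + nOf w * nOf w)
    (hl : ∀ u < nOf w, b2 (nOf w) (aOf w) u u = false) : ∃ D : DG, D.encode = w := by
  refine ⟨⟨nOf w, fun u v => b2 (nOf w) (aOf w) u v, fun v => hl v v.2⟩, ?_⟩
  rw [enc_eq]
  have h1 := split_at w (by unfold nOf at hw; omega)
  have h2 : (afterTrue w).length = nOf w * nOf w := by
    have h3 := congrArg List.length h1
    rw [List.length_append, List.length_cons, un_length] at h3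
    unfold nOf at hw ⊢
    omega
  show un (nOf w) ++ false :: _ = w
  have h3 : (List.ofFn fun u : Fin (nOf w) => List.ofFn fun v : Fin (nOf w) =>
      b2 (nOf w) (aOf w) u v).flatten = aOf w := flat_self h2
  rw [h3]
  exact h1.symm

private theorem alphaT_iff {n : ℕ} {A : List Bool} : alphaT n A = true ↔
    ((∀ u : Fin n, ¬ relT n A u u) ∧
      (∀ u v x : Fin n, u = v ∨ u = x ∨ v = x ∨ (relT n A u v ∨ relT n A v u) ∨
        (relT n A u x ∨ relT n A x u) ∨ (relT n A v x ∨ relT n A x v))) ∧
      ∃ u v : Fin n, u ≠ v ∧ ¬ (relT n A u v ∨ relT n A v u) := by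
  rw [alphaT, Bool.and_eq_true, Bool.and_eq_true, all_fin, all_fin, ex_fin]
  apply and_congr
  · apply and_congr
    · apply forall_congr'
      intro u
      simp [relT]
    · apply forall_congr'
      intro u
      rw [triRow, all_fin]
      apply forall_congr'
      intro v
      rw [triT, all_fin]
      apply forall_congr'
      intro x
      simp only [Bool.or_eq_true, decide_eq_true_eq, relT, Fin.ext_iff]
  · apply exists_congr
    intro u
    rw [nonadj, ex_fin]
    apply exists_congr
    intro v
    simp [relT, Fin.ext_iff]

theorem alphaT_loop {n : ℕ} {A : List Bool} (h : alphaT n A = true) :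
    ∀ u < n, b2 n A u u = false := by
  intro u hu
  have h1 := (alphaT_iff.1 h).1.1 ⟨u, hu⟩
  simpa [relT] using h1

theorem alphaT_alpha {n : ℕ} {A : List Bool} (h : alphaT n A = true) : Alpha2 (relT n A) := by
  intro a b c hab hac hbc
  rcases (alphaT_iff.1 h).1.2 a b c with h1 | h1 | h1 | h1 | h1 | h1
  · exact absurd h1 hab
  · exact absurd h1 hac
  · exact absurd h1 hbc
  · exact Or.inl h1
  · exact Or.inr (Or.inl h1)
  · exact Or.inr (Or.inr h1)

theorem alpha_iff (D : DG) : alphaT D.n (aOf D.encode) = true ↔ D.AlphaTwo := by
  rw [alphaT_iff]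
  simp only [enc_arc]
  have hloop : ∀ u : Fin D.n, ¬ D.Arc u u := by
    intro u
    unfold DG.Arc
    rw [D.loopless]
    simp
  constructor
  · rintro ⟨⟨-, h2⟩, u, v, huv, hn⟩
    push Not at hn
    refine ⟨⟨{u, v}, ?_, Finset.card_pair huv⟩, ?_⟩
    · intro a ha b hb
      rw [Finset.mem_insert, Finset.mem_singleton] at ha hb
      rcases ha with rfl | rfl <;> rcases hb with rfl | rfl
      · exact hloop _
      · exact hn.1
      · exact hn.2
      · exact hloop _
    · intro I hI
      by_contra hcon
      push Not at hcon
      obtain ⟨a, ha, b, hb, c, hc, hab, hac, hbc⟩ := Finset.two_lt_card.1 hcon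
      rcases h2 a b c with h | h | h | h | h | h
      · exact hab h
      · exact hac h
      · exact hbc h
      · rcases h with h | h
        · exact hI a ha b hb h
        · exact hI b hb a ha h
      · rcases h with h | h
        · exact hI a ha c hc h
        · exact hI c hc a ha h
      · rcases h with h | h
        · exact hI b hb c hc h
        · exact hI c hc b hb h
  · rintro ⟨⟨I, hI, hc⟩, h2⟩
    obtain ⟨u, v, huv, rfl⟩ := Finset.card_eq_two.1 hc
    refine ⟨⟨hloop, ?_⟩, u, v, huv, ?_⟩
    · intro a b c
      by_contra hcon
      push Not at hcon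
      obtain ⟨hab, hac, hbc, h3, h4, h5⟩ := hcon
      have h6 : D.Indep {a, b, c} := by
        intro x hx y hy
        rw [Finset.mem_insert, Finset.mem_insert, Finset.mem_singleton] at hx hy
        rcases hx with rfl | rfl | rfl <;> rcases hy with rfl | rfl | rfl
        · exact hloop _
        · exact h3.1
        · exact h4.1
        · exact h3.2
        · exact hloop _
        · exact h5.1
        · exact h4.2
        · exact h5.2
        · exact hloop _
      have h7 := h2 _ h6
      have h8 : ({a, b, c} : Finset (Fin D.n)).card = 3 := by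
        rw [Finset.card_eq_three]
        exact ⟨a, b, c, hab, hac, hbc, rfl⟩
      omega
    · rintro (h | h)
      · exact hI u (by simp) v (by simp) h
      · exact hI v (by simp) u (by simp) h

end Pool.Agent.Lib.AB474.Tab
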