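import Pool.Agent.Lib.AB474.U1A

/-!
# MODULE U1C: vertices of the plus path not adjacent to t (about 1.5 h)

NOTATION as in U1A: a i = f^[i] t, b i = g^[i] s.
STATEMENT: the set J3 of j in [2,k) with a j not adjacent to t has at most 4 elements.
-/

namespace Pool.Agent.Lib.AB474

open Relation

variable {V : Type*} {D : V → V → Prop} {s t : V} {f g : V → V} {k l : ℕ}

/-- the iterates of `s` do not return to `s` -/
theorem U1C.no_return (h : Br D s t f g) (hst : s ≠ t) {m : ℕ} (hk : g^[m + 1] s = s) : False := by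
  obtain ⟨N, hN⟩ := h.gr s
  have h1 : ∀ n, g^[(m + 1) * n] s = s := by
    intro n
    induction n with
    | zero => rfl
    | succ n ih => rw [Nat.mul_succ, Function.iterate_add_apply, hk, ih]
  have h2 : g^[(m + 1) * N] s = t := by
    have h3 : (m + 1) * N = m * N + N := by ring
    rw [h3, Function.iterate_add_apply, hN, Function.iterate_fixed h.gt]
  exact hst ((h1 N).symm.trans h2)

/-- iterates do not change if the function is changed at a point which they do not meet -/
theorem U1C.iterate_update [DecidableEq V] (g : V → V) (v w x : V) (hx : ∀ n, g^[n] x ≠ v) (n : ℕ) :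
    (Function.update g v w)^[n] x = g^[n] x := by
  induction n with
  | zero => rfl
  | succ n ih =>
    rw [Function.iterate_succ_apply', ih, Function.update_of_ne (hx n),
      Function.iterate_succ_apply']

theorem U1C.ne_t (h : MinNA D s t f g k l) {j : ℕ} (h0 : 0 < j) (hj : j < k) : f^[j] t ≠ t :=
  fun e => by
    have := h.a_inj (i := j) (j := 0) hj.le (Nat.zero_le _) e
    omega

theorem U1C.ne_s (h : MinNA D s t f g k l) {j : ℕ} (hj : j < k) : f^[j] t ≠ s :=
  fun e => by
    have := h.a_inj (i := j) (j := k) hj.le le_rfl (e.trans h.hk.symm)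
    omega

/-- the walk from `t` to the new root -/
theorem U1C.root_iter [DecidableEq V] (h : MinNA D s t f g k l) {j : ℕ} (hj : j < k) {n : ℕ}
    (hn : n ≤ j) : (Function.update (Function.update f s (f^[j] t)) (f^[j] t) (f^[j] t))^[n] t =
      f^[n] t := by
  induction n with
  | zero => rfl
  | succ n ih =>
    rw [Function.iterate_succ_apply', ih (by omega), Function.update_of_ne,
      Function.update_of_ne (U1C.ne_s h (by omega)), Function.iterate_succ_apply']
    intro e
    have := h.a_inj (i := n) (j := j) (by omega) hj.le e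
    omega

/-- (B1) -/
theorem U1C.b1 (h : MinNA D s t f g k l) {j : ℕ} (h2 : 2 ≤ j) (hj : j < k)
    (hna : ¬ Adj D (f^[j] t) t) (hD : D (f^[j] t) s) (m : ℕ) : g^[m] s ≠ f^[j] t := by
  classical
  intro e
  have hvt := U1C.ne_t h (by omega) hj
  have hvs := U1C.ne_s h hj
  rcases Nat.lt_or_ge l m with hm | hm
  · apply hvt
    rw [← e, show m = (m - l) + l by omega, Function.iterate_add_apply, h.hl,
      Function.iterate_fixed h.br.gt]
  · by_cases hg : g (f^[j] t) = s
    · refine U1C.no_return h.br h.ne (m := m) ?_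
      rw [Function.iterate_succ_apply', e, hg]
    · have h1 := h.br.rootS hvs hD (Or.inr hg)
      have h3 : g^[l - m] (f^[j] t) = t := by
        rw [← e, ← Function.iterate_add_apply, Nat.sub_add_cancel hm, h.hl]
      have h4 := h.min _ _ _ _ j (l - m) h1 (U1C.root_iter h hj le_rfl) h3 hvt hna
      omega

/-- (B2) -/
theorem U1C.b2 [DecidableEq V] (h : MinNA D s t f g k l) {j : ℕ} (h2 : 2 ≤ j) (hj : j < k)
    (hna : ¬ Adj D (f^[j] t) t) (hD : D (f^[j] t) s) :
    MinNA D s t f (Function.update g (f^[j] t) s) k l := by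
  have hb := U1C.b1 h h2 hj hna hD
  refine ⟨h.br.reparentG (U1C.ne_t h (by omega) hj) hD (Or.inl rfl) hb, h.hk, ?_, h.ne, h.na, h.min⟩
  rw [U1C.iterate_update g _ _ _ hb, h.hl]

/-- (B3) -/
theorem U1C.b3 (h : MinNA D s t f g k l) {i j : ℕ} (h2 : 2 ≤ j) (hj : j < k)
    (hna : ¬ Adj D (f^[j] t) t) (hD : D (f^[j] t) s) (hij : i + 2 ≤ j) :
    ¬ D (f^[j] t) (f^[i] t) := by
  classical
  intro hd
  have h1 := (U1C.b2 h h2 hj hna hD).chord hj.le hij hd
  rw [Function.update_self] at h1
  exact U1C.ne_s h (by omega : i < k) h1.symm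

/-- (B4) -/
theorem U1C.b4 (hα : Alpha2 D) (h : MinNA D s t f g k l) {i j : ℕ} (hi2 : 2 ≤ i) (hj : j < k)
    (hij : i + 2 ≤ j) (hnai : ¬ Adj D (f^[i] t) t) (hDi : D (f^[i] t) s)
    (hnaj : ¬ Adj D (f^[j] t) t) (hDj : D (f^[j] t) s) : False := by
  classical
  have hik : i < k := by omega
  have hit := U1C.ne_t h (by omega) hik
  have hjt := U1C.ne_t h (by omega) hj
  have his := U1C.ne_s h hik
  have hjs := U1C.ne_s h hj
  have hne : f^[i] t ≠ f^[j] t := fun e => by
    have := h.a_inj hik.le hj.le e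
    omega
  have hadj : D (f^[i] t) (f^[j] t) := by
    rcases hα _ _ t hne hit hjt with h1 | h1 | h1
    · rcases h1 with h1 | h1
      · exact h1
      · exact absurd h1 (U1C.b3 h (by omega) hj hnaj hDj hij)
    · exact absurd h1 hnai
    · exact absurd h1 hnaj
  have hbi := U1C.b1 h hi2 hik hnai hDi
  have hbj := U1C.b1 h (by omega) hj hnaj hDj
  have h1 := U1C.b2 h (by omega) hj hnaj hDj
  have hf : f (f^[j] t) ≠ f^[i] t := by
    rw [← Function.iterate_succ_apply' f j t]
    intro e
    have := h.a_inj (i := j + 1) (j := i) (by omega) hik.le e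
    omega
  have hg1 : ∀ n, (Function.update g (f^[j] t) s)^[n] s = g^[n] s :=
    U1C.iterate_update g _ _ _ hbj
  have hanc : ∀ n, (Function.update g (f^[j] t) s)^[n] (f^[j] t) ≠ f^[i] t := by
    intro n
    rcases n with _ | n
    · exact hne.symm
    · rw [Function.iterate_succ_apply, Function.update_self, hg1]
      exact hbi n
  have h3 := h1.br.reparentG hit hadj (Or.inr hf) hanc
  have h4 := h3.rootS his hDi (Or.inr (by
    rw [Function.update_self]
    exact hjs))
  have h5 : (Function.update (Function.update g (f^[j] t) s) (f^[i] t) (f^[j] t))^[l + 2]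
      (f^[i] t) = t := by
    rw [Function.iterate_succ_apply, Function.update_self, Function.iterate_succ_apply,
      Function.update_of_ne hne.symm, Function.update_self, U1C.iterate_update, hg1, h.hl]
    intro n
    rw [hg1]
    exact hbi n
  have h6 := h.min _ _ _ _ i (l + 2) h4 (U1C.root_iter h hik le_rfl) h5 hit hnai
  omega

open Classical in
theorem MinNA.J3 (hα : Alpha2 D) (h : MinNA D s t f g k l) :
    ((Finset.Ico 2 k).filter (fun j => ¬ Adj D (f^[j] t) t)).card ≤ 4 := by
  set J := (Finset.Ico 2 k).filter (fun j => ¬ Adj D (f^[j] t) t) with hJ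
  have hmem : ∀ j ∈ J, 2 ≤ j ∧ j < k ∧ ¬ Adj D (f^[j] t) t := by
    intro j hj
    obtain ⟨h1, h2⟩ := Finset.mem_filter.1 hj
    exact ⟨(Finset.mem_Ico.1 h1).1, (Finset.mem_Ico.1 h1).2, h2⟩
  have hAdj : ∀ j ∈ J, D s (f^[j] t) ∨ D (f^[j] t) s := by
    intro j hj
    obtain ⟨h2, hk, hn⟩ := hmem j hj
    rcases hα (f^[j] t) s t (U1C.ne_s h hk) (U1C.ne_t h (by omega) hk) h.ne with h1 | h1 | h1
    · exact h1.symm
    · exact absurd h1 hn
    · exact absurd h1 h.na
  have hsplit : J ⊆ (J.filter fun j => D s (f^[j] t) ∧ j + 2 ≤ k) ∪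
      {k - 1} ∪ (J.filter fun j => D (f^[j] t) s) := by
    intro j hj
    obtain ⟨h2, hk, -⟩ := hmem j hj
    simp only [Finset.mem_union, Finset.mem_filter, Finset.mem_singleton]
    rcases hAdj j hj with h1 | h1
    · by_cases h3 : j + 2 ≤ k
      · exact Or.inl (Or.inl ⟨hj, h1, h3⟩)
      · exact Or.inl (Or.inr (by omega))
    · exact Or.inr ⟨hj, h1⟩
  have c1 : (J.filter fun j => D s (f^[j] t) ∧ j + 2 ≤ k).card ≤ 1 := by
    rw [Finset.card_le_one]
    intro i hi j hj
    obtain ⟨hi1, hi2, hi3⟩ := Finset.mem_filter.1 hi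
    obtain ⟨hj1, hj2, hj3⟩ := Finset.mem_filter.1 hj
    have e1 := h.chord (i := k) le_rfl hi3 (by rw [h.hk]; exact hi2)
    have e2 := h.chord (i := k) le_rfl hj3 (by rw [h.hk]; exact hj2)
    exact h.a_inj (by omega) (by omega) (e1.symm.trans e2)
  have c2 : (J.filter fun j => D (f^[j] t) s).card ≤ 2 := by
    by_contra hc
    obtain ⟨x, hx, y, hy, z, hz, hxy, hxz, hyz⟩ := Finset.two_lt_card.1 (not_le.1 hc)
    have key : ∀ i ∈ J.filter (fun j => D (f^[j] t) s), ∀ j ∈ J.filter (fun j => D (f^[j] t) s),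
        ¬ i + 2 ≤ j := by
      intro i hi j hj hij
      obtain ⟨hi1, hi2⟩ := Finset.mem_filter.1 hi
      obtain ⟨hj1, hj2⟩ := Finset.mem_filter.1 hj
      obtain ⟨a1, a2, a3⟩ := hmem i hi1
      obtain ⟨b1, b2, b3⟩ := hmem j hj1
      exact U1C.b4 hα h a1 b2 hij a3 hi2 b3 hj2
    have k1 := key x hx y hy
    have k2 := key x hx z hz
    have k3 := key y hy x hx
    have k4 := key y hy z hz
    have k5 := key z hz x hx
    have k6 := key z hz y hy
    omega
  have h3 := Finset.card_le_card hsplit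
  have h4 := Finset.card_union_le ((J.filter fun j => D s (f^[j] t) ∧ j + 2 ≤ k) ∪
      {k - 1}) (J.filter fun j => D (f^[j] t) s)
  have h5 := Finset.card_union_le (J.filter fun j => D s (f^[j] t) ∧ j + 2 ≤ k) {k - 1}
  have h6 : ({k - 1} : Finset ℕ).card = 1 := Finset.card_singleton _
  omega

end Pool.Agent.Lib.AB474
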