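import Pool.Agent.Lib.AB474.ADefs

/-!
# MODULE Ramsey: degree bound for a vertex in no 4-clique (about 0.8 h)

STATEMENT.  Alpha2 D, s in no 4-clique (not InK4 D s s).  Then every finset of vertices adjacent to s
and different from s has at most 5 elements.
PROOF.  Suppose A has at least 6 elements, v in A.  Among the other five elements of A at least three are
adjacent to v or at least three are not adjacent to v.  Three neighbours x, y, z of v in A: if two of them
are adjacent, say x, y, then s, v, x, y is a 4-clique; otherwise x, y, z contradict Alpha2.  Three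
non-neighbours x, y, z of v in A: any two of them are adjacent by Alpha2 (with v); so s, x, y, z is a
4-clique.
-/

namespace Pool.Agent.Lib.AB474

variable {V : Type*}

theorem deg_le {D : V → V → Prop} (hα : Alpha2 D) {s : V} (hs : ¬ InK4 D s s) (A : Finset V)
    (hA : ∀ v ∈ A, v ≠ s ∧ Adj D s v) : A.card ≤ 5 := by
  classical
  have key : ∀ x ∈ A, ∀ y ∈ A, ∀ z ∈ A, x ≠ y → x ≠ z → y ≠ z → Adj D x y → Adj D x z →
      Adj D y z → False := by
    intro x hx y hy z hz hxy hxz hyz a1 a2 a3
    obtain ⟨hxs, ax⟩ := hA x hx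
    obtain ⟨hys, ay⟩ := hA y hy
    obtain ⟨hzs, az⟩ := hA z hz
    exact hs ⟨x, y, z, ⟨hxs.symm, hys.symm, hzs.symm, hxy, hxz, hyz, ax, ay, az, a1, a2, a3⟩,
      Or.inl rfl⟩
  by_contra hcard
  push Not at hcard
  have hne : A.Nonempty := Finset.card_pos.1 (by omega)
  obtain ⟨v, hv⟩ := hne
  have h1 : (A.erase v).card + 1 = A.card := Finset.card_erase_add_one hv
  have h2 := Finset.card_filter_add_card_filter_not (s := A.erase v) (fun x => Adj D v x)
  rcases Nat.lt_or_ge 2 ((A.erase v).filter (fun x => Adj D v x)).card with h3 | h3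
  · obtain ⟨x, hx, y, hy, z, hz, hxy, hxz, hyz⟩ := Finset.two_lt_card.1 h3
    simp only [Finset.mem_filter, Finset.mem_erase] at hx hy hz
    obtain ⟨⟨hxv, hxA⟩, ax⟩ := hx
    obtain ⟨⟨hyv, hyA⟩, ay⟩ := hy
    obtain ⟨⟨hzv, hzA⟩, az⟩ := hz
    rcases hα x y z hxy hxz hyz with h | h | h
    · exact key v hv x hxA y hyA hxv.symm hyv.symm hxy ax ay h
    · exact key v hv x hxA z hzA hxv.symm hzv.symm hxz ax az h
    · exact key v hv y hyA z hzA hyv.symm hzv.symm hyz ay az h
  · obtain ⟨x, hx, y, hy, z, hz, hxy, hxz, hyz⟩ := Finset.two_lt_card.1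
      (show 2 < ((A.erase v).filter (fun x => ¬ Adj D v x)).card by omega)
    simp only [Finset.mem_filter, Finset.mem_erase] at hx hy hz
    obtain ⟨⟨hxv, hxA⟩, ax⟩ := hx
    obtain ⟨⟨hyv, hyA⟩, ay⟩ := hy
    obtain ⟨⟨hzv, hzA⟩, az⟩ := hz
    have hadj : ∀ a b, a ≠ v → b ≠ v → a ≠ b → ¬ Adj D v a → ¬ Adj D v b → Adj D a b := by
      intro a b ha hb hab na nb
      rcases hα v a b ha.symm hb.symm hab with h | h | h
      · exact absurd h na
      · exact absurd h nb
      · exact h
    exact key x hxA y hyA z hzA hxy hxz hyz (hadj x y hxv hyv hxy ax ay)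
      (hadj x z hxv hzv hxz ax az) (hadj y z hyv hzv hyz ay az)

end Pool.Agent.Lib.AB474
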