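import Pool.Agent.Lib.AB474.BrMove
import Pool.Agent.Lib.AB474.Ramsey

/-!
# MODULE U23: the cases without a nonadjacent good pair (about 1.5 h)

`ElimAdj D E s t f g`: every n outside E which is neither a source nor a sink of the elimination
instance is adjacent to all other vertices outside E.

(U3) u3: s = t: Br D s s f g, s in no 4-clique.  E := {s} together with all neighbours of s: at most 6
   elements by deg_le.  Vertices n, v outside E are not adjacent to s, so adjacent to each other by Alpha2.
(U2) u2: Br D s t f g, s /= t, adjacent, (s,t) in no common 4-clique, and no good pair (s',t') with s' /= t' is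
   nonadjacent.  Let
    Z  = {z : z adjacent to s and to t, z /= s, t}: at most 2 elements: of three elements two are adjacent by
         Alpha2, giving a 4-clique s, t, z, z'.
    Au = {a : a /= s,t, a not adjacent to t, a adjacent to s, not D s a}  (so D a s): at most 2 elements, see below.
    Bd = {b : b /= s,t, b not adjacent to s, b adjacent to t, not D b t}: at most 2 elements (reversal).
    E = {s, t, g s, f t} u Z u Au u Bd: at most 10 elements.
   ElimAdj: n outside E.  If n is adjacent to s, then not to t (n not in Z), and not in Au, so D s n: n is a source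
    (e = s, refl, not Fm s n since g s = n would put n in E).  If n is adjacent to t, then not to s, not in Bd, so D n t:
    n is a sink (e = t).  So if n is neither, it is nonadjacent to s and t.  v outside E, v /= n, not adjacent to n:
    Alpha2 for n, v, s: Adj v s; for n, v, t: Adj v t; so v in Z: no.
   |Au| <= 2.  a in Au: g a = s: otherwise rootS (v = a, D a s, g a /= s) gives a good pair (a,t), a /= t, nonadjacent: no.
    a, a' in Au different: adjacent by Alpha2 (both nonadjacent to t).  If D a a' then f a' = a: otherwise reparentG with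
    v := a, u := a' (a /= t, D a a', f a' /= a; g-iterates of a': a', s, ... never a: if g^[n] a' = a then, as g a = s, the
    iterates of s would return to s (a' -> s -> .. -> a -> s), so never reach t /= s: no; n = 0: a' /= a):
    Br D s t f g', g' a = a'; then rootS (v = a, g' a = a' /= s) gives the good pair (a,t): no.
    So three different elements x, y, z of Au: each of the three pairs is joined by an arc, and this arc (u,v) has f v = u.
    So f maps: three pairs, each contributes one v with f v = u in {x,y,z}; the three v are different (f v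
    is a single vertex: if v is the head for both pairs then f v = u and f v = u', no).  So f maps {x,y,z} into
    itself, so iterates of f from x never reach s: against Br.fr (s not in {x,y,z}).
-/

namespace Pool.Agent.Lib.AB474

open Relation

variable {V : Type*}

/-- Every vertex outside `E` which is neither a source nor a sink of the elimination instance is
adjacent to all other vertices outside `E`. -/
def ElimAdj (D : V → V → Prop) (E : V → Prop) (s t : V) (f g : V → V) : Prop :=
  ∀ n v, ¬ E n → ¬ E v → v ≠ n → ¬ (elimX D E (FpOf E s f) (FmOf E t g) s t).S n →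
    ¬ (elimX D E (FpOf E s f) (FmOf E t g) s t).T n → Adj D n v

theorem U23.adj_comm {D : V → V → Prop} {u v : V} (h : Adj D u v) : Adj D v u := h.symm

theorem u3 [Fintype V] {D : V → V → Prop} (hα : Alpha2 D) {s : V} {f g : V → V}
    (hs : ¬ InK4 D s s) : ∃ E : Finset V, E.card ≤ 36 ∧ s ∈ E ∧
      ElimAdj D (fun v => v ∈ E) s s f g := by
  classical
  set A : Finset V := Finset.univ.filter fun v => v ≠ s ∧ Adj D s v with hA
  have hc := deg_le hα hs A fun v hv => (Finset.mem_filter.1 hv).2
  refine ⟨insert s A, ?_, Finset.mem_insert_self _ _, ?_⟩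
  · have := Finset.card_insert_le s A
    omega
  · intro n v hn hv hvn _ _
    have hn' : n ≠ s ∧ ¬ Adj D s n := by
      have h1 : n ≠ s := fun h => hn (h ▸ Finset.mem_insert_self _ _)
      exact ⟨h1, fun h => hn (Finset.mem_insert_of_mem
        (Finset.mem_filter.2 ⟨Finset.mem_univ _, h1, h⟩))⟩
    have hv' : v ≠ s ∧ ¬ Adj D s v := by
      have h1 : v ≠ s := fun h => hv (h ▸ Finset.mem_insert_self _ _)
      exact ⟨h1, fun h => hv (Finset.mem_insert_of_mem
        (Finset.mem_filter.2 ⟨Finset.mem_univ _, h1, h⟩))⟩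
    rcases hα s n v hn'.1.symm hv'.1.symm hvn.symm with h | h | h
    · exact absurd h hn'.2
    · exact absurd h hv'.2
    · exact h

/-- an element which leads to `s` and is not adjacent to `t` has `g`-parent `s` -/
theorem U23.au_g {D : V → V → Prop} {s t : V} {f g : V → V} (h : Br D s t f g)
    (hno : ∀ s' t', GoodPair D s' t' → s' ≠ t' → Adj D s' t') {a : V} (has : a ≠ s)
    (hat : a ≠ t) (hna : ¬ Adj D a t) (hD : D a s) : g a = s := by
  classical
  by_contra hg
  exact hna (hno a t (h.rootS has hD (Or.inr hg)).goodPair hat)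

theorem U23.iter_t {g : V → V} {t : V} (gt : g t = t) (n : ℕ) : g^[n] t = t :=
  Function.iterate_fixed gt n

/-- the iterates of `s` do not return to `s` -/
theorem U23.no_return {D : V → V → Prop} {s t : V} {f g : V → V} (h : Br D s t f g)
    (hst : s ≠ t) {k : ℕ} (hk : g^[k + 1] s = s) : False := by
  obtain ⟨N, hN⟩ := h.gr s
  have h1 : ∀ n, g^[(k + 1) * n] s = s := by
    intro n
    induction n with
    | zero => rfl
    | succ n ih => rw [Nat.mul_succ, Function.iterate_add_apply, hk, ih]
  have h2 : g^[(k + 1) * N] s = t := by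
    have h3 : (k + 1) * N = k * N + N := by ring
    rw [h3, Function.iterate_add_apply, hN, U23.iter_t h.gt]
  exact hst ((h1 N).symm.trans h2)

theorem U23.au_f {D : V → V → Prop} {s t : V} {f g : V → V} (h : Br D s t f g) (hst : s ≠ t)
    (hno : ∀ s' t', GoodPair D s' t' → s' ≠ t' → Adj D s' t') {a a' : V} (has : a ≠ s)
    (hat : a ≠ t) (hna : ¬ Adj D a t) (hDs : D a s) (has' : a' ≠ s)
    (hat' : a' ≠ t) (hna' : ¬ Adj D a' t) (hDs' : D a' s) (hne : a ≠ a') (hD : D a a') :
    f a' = a := by
  classical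
  have hg := U23.au_g h hno has hat hna hDs
  have hg' := U23.au_g h hno has' hat' hna' hDs'
  by_contra hf
  have hanc : ∀ n, g^[n] a' ≠ a := by
    intro n hn
    rcases n with _ | n
    · exact hne hn.symm
    · rw [Function.iterate_succ_apply, hg'] at hn
      refine U23.no_return h hst (k := n) ?_
      rw [Function.iterate_succ_apply', hn, hg]
  have h1 := h.reparentG hat hD (Or.inr hf) hanc
  have h2 := h1.rootS has hDs (Or.inr (by
    rw [Function.update_self]
    exact has'))
  exact hna (hno a t h2.goodPair hat)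

theorem U23.au_card {D : V → V → Prop} (hα : Alpha2 D)
    {s t : V} {f g : V → V} (h : Br D s t f g) (hst : s ≠ t)
    (hno : ∀ s' t', GoodPair D s' t' → s' ≠ t' → Adj D s' t') (A : Finset V)
    (hA : ∀ a ∈ A, a ≠ s ∧ a ≠ t ∧ ¬ Adj D a t ∧ D a s) : A.card ≤ 2 := by
  by_contra hc
  obtain ⟨x, hx, y, hy, z, hz, hxy, hxz, hyz⟩ := Finset.two_lt_card.1 (not_le.1 hc)
  obtain ⟨x1, x2, x3, x4⟩ := hA x hx
  obtain ⟨y1, y2, y3, y4⟩ := hA y hy
  obtain ⟨z1, z2, z3, z4⟩ := hA z hz
  have key : ∀ {a b : V}, a ≠ s → a ≠ t → ¬ Adj D a t → D a s → b ≠ s → b ≠ t → ¬ Adj D b t →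
      D b s → a ≠ b → f b = a ∨ f a = b := by
    intro a b a1 a2 a3 a4 b1 b2 b3 b4 hab
    rcases hα a b t hab a2 b2 with h1 | h1 | h1
    · rcases h1 with h1 | h1
      · exact Or.inl (U23.au_f h hst hno a1 a2 a3 a4 b1 b2 b3 b4 hab h1)
      · exact Or.inr (U23.au_f h hst hno b1 b2 b3 b4 a1 a2 a3 a4 hab.symm h1)
    · exact absurd h1 a3
    · exact absurd h1 b3
  have k1 := key x1 x2 x3 x4 y1 y2 y3 y4 hxy
  have k2 := key x1 x2 x3 x4 z1 z2 z3 z4 hxz
  have k3 := key y1 y2 y3 y4 z1 z2 z3 z4 hyz
  have hin : (f x = y ∨ f x = z) ∧ (f y = x ∨ f y = z) ∧ (f z = x ∨ f z = y) := by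
    rcases k1 with k1 | k1
    · have h3 : f z = y := by
        rcases k3 with k3 | k3
        · exact k3
        · exact absurd (k1.symm.trans k3) hxz
      have h2 : f x = z := by
        rcases k2 with k2 | k2
        · exact absurd (k2.symm.trans h3) hxy
        · exact k2
      exact ⟨Or.inr h2, Or.inl k1, Or.inr h3⟩
    · have h2 : f z = x := by
        rcases k2 with k2 | k2
        · exact k2
        · exact absurd (k1.symm.trans k2) hyz
      have h3 : f y = z := by
        rcases k3 with k3 | k3
        · exact absurd (h2.symm.trans k3) hxy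
        · exact k3
      exact ⟨Or.inl k1, Or.inr h3, Or.inl h2⟩
  have hall : ∀ n, f^[n] x = x ∨ f^[n] x = y ∨ f^[n] x = z := by
    intro n
    induction n with
    | zero => exact Or.inl rfl
    | succ n ih =>
      rw [Function.iterate_succ_apply']
      rcases ih with e | e | e <;> rw [e]
      · rcases hin.1 with e | e <;> simp [e]
      · rcases hin.2.1 with e | e <;> simp [e]
      · rcases hin.2.2 with e | e <;> simp [e]
  obtain ⟨n, hn⟩ := h.fr x
  rcases hall n with e | e | e
  · exact x1 (e.symm.trans hn)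
  · exact y1 (e.symm.trans hn)
  · exact z1 (e.symm.trans hn)

theorem u2 [Fintype V] {D : V → V → Prop} (hα : Alpha2 D) {s t : V} {f g : V → V}
    (h : Br D s t f g) (hst : s ≠ t) (hadj : Adj D s t) (hK : ¬ InK4 D s t)
    (hno : ∀ s' t', GoodPair D s' t' → s' ≠ t' → Adj D s' t') :
    ∃ E : Finset V, E.card ≤ 36 ∧ s ∈ E ∧ t ∈ E ∧ ElimAdj D (fun v => v ∈ E) s t f g := by
  classical
  set Z : Finset V := Finset.univ.filter fun z => z ≠ s ∧ z ≠ t ∧ Adj D s z ∧ Adj D t z with hZ
  set Au : Finset V := Finset.univ.filter fun a => a ≠ s ∧ a ≠ t ∧ ¬ Adj D a t ∧ D a s with hAu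
  set Bd : Finset V := Finset.univ.filter fun b => b ≠ t ∧ b ≠ s ∧ ¬ Adj D b s ∧ D t b with hBd
  have cZ : Z.card ≤ 2 := by
    by_contra hc
    obtain ⟨x, hx, y, hy, z, hz, hxy, hxz, hyz⟩ := Finset.two_lt_card.1 (not_le.1 hc)
    have hx' := (Finset.mem_filter.1 hx).2
    have hy' := (Finset.mem_filter.1 hy).2
    have hz' := (Finset.mem_filter.1 hz).2
    have key : ∀ {a b : V}, (a ≠ s ∧ a ≠ t ∧ Adj D s a ∧ Adj D t a) →
        (b ≠ s ∧ b ≠ t ∧ Adj D s b ∧ Adj D t b) → a ≠ b → Adj D a b → False := by
      intro a b ha hb hab hAab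
      exact hK ⟨t, a, b, ⟨hst, ha.1.symm, hb.1.symm, ha.2.1.symm, hb.2.1.symm, hab, hadj, ha.2.2.1,
        hb.2.2.1, ha.2.2.2, hb.2.2.2, hAab⟩, Or.inr rfl⟩
    rcases hα x y z hxy hxz hyz with h1 | h1 | h1
    · exact key hx' hy' hxy h1
    · exact key hx' hz' hxz h1
    · exact key hy' hz' hyz h1
  have cAu : Au.card ≤ 2 :=
    U23.au_card hα h hst hno Au fun a ha => (Finset.mem_filter.1 ha).2
  have hα' : Alpha2 (fun a b => D b a) := fun a b c hab hac hbc => by
    rcases hα a b c hab hac hbc with h1 | h1 | h1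
    · exact Or.inl h1.symm
    · exact Or.inr (Or.inl h1.symm)
    · exact Or.inr (Or.inr h1.symm)
  have hno' : ∀ s' t', GoodPair (fun a b => D b a) s' t' → s' ≠ t' →
      Adj (fun a b => D b a) s' t' := by
    intro s' t' hg hne
    obtain ⟨f', g', hb⟩ := br_of_goodPair hg
    have h1 : GoodPair D t' s' := hb.rev.goodPair
    exact hno t' s' h1 hne.symm
  have cBd : Bd.card ≤ 2 :=
    U23.au_card hα' h.rev hst.symm hno' Bd fun b hb => by
      obtain ⟨h1, h2, h3, h4⟩ := (Finset.mem_filter.1 hb).2
      exact ⟨h1, h2, fun h => h3 h.symm, h4⟩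
  refine ⟨{s, t, g s, f t} ∪ Z ∪ Au ∪ Bd, ?_, by simp, by simp, ?_⟩
  · have h1 := Finset.card_union_le ({s, t, g s, f t} ∪ Z ∪ Au) Bd
    have h2 := Finset.card_union_le ({s, t, g s, f t} ∪ Z) Au
    have h3 := Finset.card_union_le ({s, t, g s, f t} : Finset V) Z
    have h4 : ({s, t, g s, f t} : Finset V).card ≤ 4 := Finset.card_le_four
    omega
  · intro n v hn hv hvn hS hT
    simp only [Finset.mem_union, Finset.mem_insert, Finset.mem_singleton, not_or] at hn hv
    obtain ⟨⟨⟨⟨ns, nt, ngs, nft⟩, nZ⟩, nAu⟩, nBd⟩ := hn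
    obtain ⟨⟨⟨⟨vs, vt, -, -⟩, vZ⟩, -⟩, -⟩ := hv
    have memE : ∀ w : V, w ∈ ({s, t, g s, f t} ∪ Z ∪ Au ∪ Bd : Finset V) ↔
        ((((w = s ∨ w = t ∨ w = g s ∨ w = f t) ∨ w ∈ Z) ∨ w ∈ Au) ∨ w ∈ Bd) := by
      intro w
      simp only [Finset.mem_union, Finset.mem_insert, Finset.mem_singleton]
    have nE : ¬ n ∈ ({s, t, g s, f t} ∪ Z ∪ Au ∪ Bd : Finset V) := by
      rw [memE]
      simp only [not_or]
      exact ⟨⟨⟨⟨ns, nt, ngs, nft⟩, nZ⟩, nAu⟩, nBd⟩
    have sE : s ∈ ({s, t, g s, f t} ∪ Z ∪ Au ∪ Bd : Finset V) := by rw [memE]; simp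
    have tE : t ∈ ({s, t, g s, f t} ∪ Z ∪ Au ∪ Bd : Finset V) := by rw [memE]; simp
    have nsn : ¬ Adj D s n := by
      intro hsn
      have hnt : ¬ Adj D t n := fun htn =>
        nZ (Finset.mem_filter.2 ⟨Finset.mem_univ _, ns, nt, hsn, htn⟩)
      have hD : D s n := by
        rcases hsn with h1 | h1
        · exact h1
        · exact absurd (Finset.mem_filter.2 ⟨Finset.mem_univ _, ns, nt, fun h => hnt h.symm, h1⟩) nAu
      exact hS ⟨nE, s, sE, ReflTransGen.refl, hD, fun hh => ngs hh.2.2.symm⟩
    have ntn : ¬ Adj D t n := by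
      intro htn
      have hD : D n t := by
        rcases htn with h1 | h1
        · exact absurd (Finset.mem_filter.2 ⟨Finset.mem_univ _, nt, ns, fun h => nsn h.symm, h1⟩) nBd
        · exact h1
      exact hT ⟨nE, t, tE, ReflTransGen.refl, hD, fun hh => nft hh.2.2.symm⟩
    by_contra hnv
    have hsv : Adj D s v := by
      rcases hα n v s hvn.symm ns vs with h1 | h1 | h1
      · exact absurd h1 hnv
      · exact absurd h1.symm nsn
      · exact h1.symm
    have htv : Adj D t v := by
      rcases hα n v t hvn.symm nt vt with h1 | h1 | h1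
      · exact absurd h1 hnv
      · exact absurd h1.symm ntn
      · exact h1.symm
    exact vZ (Finset.mem_filter.2 ⟨Finset.mem_univ _, vs, vt, hsv, htv⟩)

end Pool.Agent.Lib.AB474
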