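import Pool.Agent.Lib.AB474.U1B
import Pool.Agent.Lib.AB474.U1C
import Pool.Agent.Lib.AB474.U23

/-!
# Case distinction of the completeness part

(1) MinNA.k_le: k <= 16.  Every j in [2,k) is in one of the three filters of J1, J2, J3.
(2) u1: E = all vertices of the two paths: every other vertex is a source or a sink.
(3) complete_cases.
-/

namespace Pool.Agent.Lib.AB474

open Relation

variable {V : Type*}

theorem MinNA.k_le {D : V → V → Prop} {s t : V} {f g : V → V} {k l : ℕ} (hα : Alpha2 D)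
    (hK : ∀ s t, GoodPair D s t → ¬ InK4 D s t) (h : MinNA D s t f g k l) : k ≤ 16 := by
  classical
  have h1 := h.J1 hα hK
  have h2 := h.J2 hα
  have h3 := h.J3 hα
  have hsub : Finset.Ico 2 k ⊆ ((Finset.Ico 2 k).filter (fun j => D t (f^[j] t)) ∪
      (Finset.Ico 2 k).filter (fun j => D (f^[j] t) t)) ∪
      (Finset.Ico 2 k).filter (fun j => ¬ Adj D (f^[j] t) t) := by
    intro j hj
    simp only [Finset.mem_union, Finset.mem_filter]
    by_cases h4 : Adj D (f^[j] t) t
    · left
      rcases h4 with h4 | h4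
      · exact Or.inr ⟨hj, h4⟩
      · exact Or.inl ⟨hj, h4⟩
    · exact Or.inr ⟨hj, h4⟩
  have h5 := Finset.card_le_card hsub
  have h6 := Finset.card_union_le ((Finset.Ico 2 k).filter (fun j => D t (f^[j] t)) ∪
      (Finset.Ico 2 k).filter (fun j => D (f^[j] t) t))
      ((Finset.Ico 2 k).filter (fun j => ¬ Adj D (f^[j] t) t))
  have h7 := Finset.card_union_le ((Finset.Ico 2 k).filter (fun j => D t (f^[j] t)))
      ((Finset.Ico 2 k).filter (fun j => D (f^[j] t) t))
  rw [Nat.card_Ico] at h5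
  omega

theorem u1 [Fintype V] {D : V → V → Prop} (hα : Alpha2 D)
    (hK : ∀ s t, GoodPair D s t → ¬ InK4 D s t) {s t : V} {f g : V → V} {k l : ℕ}
    (h : MinNA D s t f g k l) :
    ∃ E : Finset V, E.card ≤ 36 ∧ s ∈ E ∧ t ∈ E ∧ ElimAdj D (fun v => v ∈ E) s t f g := by
  classical
  have hk := h.k_le hα hK
  have hl : l ≤ 16 := by
    refine h.rev.k_le ?_ ?_
    · intro a b c hab hac hbc
      rcases hα a b c hab hac hbc with h1 | h1 | h1
      · exact Or.inl h1.symm
      · exact Or.inr (Or.inl h1.symm)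
      · exact Or.inr (Or.inr h1.symm)
    · intro s' t' hg hin
      obtain ⟨f', g', hb⟩ := br_of_goodPair hg
      have hg' : GoodPair D t' s' := hb.rev.goodPair
      obtain ⟨b, c, d, h4, h5⟩ := hin
      have h4' : K4 D s' b c d := ⟨h4.ab, h4.ac, h4.ad, h4.bc, h4.bd, h4.cd, h4.Aab.symm,
        h4.Aac.symm, h4.Aad.symm, h4.Abc.symm, h4.Abd.symm, h4.Acd.symm⟩
      refine hK t' s' hg' ?_
      rcases h5 with rfl | rfl
      · exact ⟨b, c, d, h4', Or.inl rfl⟩
      · exact ⟨s', c, d, ⟨h4'.ab.symm, h4'.bc, h4'.bd, h4'.ac, h4'.ad, h4'.cd, h4'.Aab.symm,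
          h4'.Abc, h4'.Abd, h4'.Aac, h4'.Aad, h4'.Acd⟩, Or.inr rfl⟩
  have hk1 : 1 ≤ k := by
    rcases Nat.eq_zero_or_pos k with h0 | h0
    · have := h.hk
      rw [h0] at this
      exact absurd this.symm h.ne
    · exact h0
  have hl1 : 1 ≤ l := by
    rcases Nat.eq_zero_or_pos l with h0 | h0
    · have := h.hl
      rw [h0] at this
      exact absurd this h.ne
    · exact h0
  let E : Finset V := (Finset.range (k + 1)).image (fun i => f^[i] t) ∪
    (Finset.range (l + 1)).image (fun i => g^[i] s)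
  have hEa : ∀ i, i ≤ k → f^[i] t ∈ E := by
    intro i hi
    refine Finset.mem_union_left _ (Finset.mem_image.2 ⟨i, ?_, rfl⟩)
    rw [Finset.mem_range]
    omega
  have hEb : ∀ i, i ≤ l → g^[i] s ∈ E := by
    intro i hi
    refine Finset.mem_union_right _ (Finset.mem_image.2 ⟨i, ?_, rfl⟩)
    rw [Finset.mem_range]
    omega
  have hsE : s ∈ E := hEb 0 (by omega)
  have htE : t ∈ E := hEa 0 (by omega)
  refine ⟨E, ?_, hsE, htE, ?_⟩
  · have h1 := Finset.card_union_le ((Finset.range (k + 1)).image (fun i => f^[i] t))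
      ((Finset.range (l + 1)).image (fun i => g^[i] s))
    have h2 := Finset.card_image_le (s := Finset.range (k + 1)) (f := fun i => f^[i] t)
    have h3 := Finset.card_image_le (s := Finset.range (l + 1)) (f := fun i => g^[i] s)
    rw [Finset.card_range] at h2 h3
    have h4 : E.card ≤ _ := h1
    omega
  · intro n v hn hv hvn hS hT
    exfalso
    have hn' : n ∉ E := hn
    have hns : s ≠ n := fun e => hn' (e ▸ hsE)
    have hnt : t ≠ n := fun e => hn' (e ▸ htE)
    -- the two paths inside `E`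
    have hpathP : ∀ i, i ≤ k → ReflTransGen (FpOf (fun v => v ∈ E) s f) (f^[i] t) t := by
      intro i
      induction i with
      | zero => intro _; exact ReflTransGen.refl
      | succ i ih =>
        intro hi
        refine ReflTransGen.head ?_ (ih (by omega))
        refine ⟨hEa i (by omega), ?_, ?_⟩
        · intro e
          have h0 : f^[i] t = f^[k] t := by rw [e, h.hk]
          have := h.a_inj (by omega) le_rfl h0
          omega
        · rw [Function.iterate_succ_apply']
    have hpathM : ∀ i, i ≤ l → ReflTransGen (FmOf (fun v => v ∈ E) t g) s (g^[i] s) := by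
      intro i
      induction i with
      | zero => intro _; exact ReflTransGen.refl
      | succ i ih =>
        intro hi
        refine (ih (by omega)).tail ?_
        refine ⟨hEb i (by omega), ?_, ?_⟩
        · intro e
          have h0 : g^[i] s = g^[l] s := by rw [e, h.hl]
          have := h.b_inj (by omega) le_rfl h0
          omega
        · rw [Function.iterate_succ_apply']
    rcases hα s t n h.ne hns hnt with h1 | h1 | h1
    · exact h.na h1
    · rcases h1 with h1 | h1
      · refine hS ⟨hn, s, hsE, ReflTransGen.refl, h1, ?_⟩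
        rintro ⟨_, _, h2⟩
        refine hn' ?_
        rw [← h2]
        exact hEb 1 hl1
      · refine hT ⟨hn, s, hsE, ?_, h1, ?_⟩
        · have := hpathM l le_rfl
          rwa [h.hl] at this
        · rintro ⟨_, h2, _⟩
          exact h2 rfl
    · rcases h1 with h1 | h1
      · refine hS ⟨hn, t, htE, ?_, h1, ?_⟩
        · have := hpathP k le_rfl
          rwa [h.hk] at this
        · rintro ⟨_, h2, _⟩
          exact h2 rfl
      · refine hT ⟨hn, t, htE, ReflTransGen.refl, h1, ?_⟩
        rintro ⟨_, _, h2⟩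
        refine hn' ?_
        rw [← h2]
        exact hEa 1 hk1

theorem complete_cases [Fintype V] {D : V → V → Prop} (hα : Alpha2 D)
    (hg : ∃ s t, GoodPair D s t) :
    (∃ s t, GoodPair D s t ∧ InK4 D s t) ∨
    (∃ s t f g, Br D s t f g ∧ ∃ E : Finset V, E.card ≤ 36 ∧ s ∈ E ∧ t ∈ E ∧
      ElimAdj D (fun v => v ∈ E) s t f g) := by
  classical
  by_cases h1 : ∃ s t, GoodPair D s t ∧ InK4 D s t
  · exact Or.inl h1
  right
  have hK : ∀ s t, GoodPair D s t → ¬ InK4 D s t := fun s t h2 h3 => h1 ⟨s, t, h2, h3⟩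
  by_cases h2 : ∃ s t, GoodPair D s t ∧ s ≠ t ∧ ¬ Adj D s t
  · -- a minimal nonadjacent pair
    have hex : ∃ m, ∃ s t f g k l, Br D s t f g ∧ f^[k] t = s ∧ g^[l] s = t ∧ s ≠ t ∧
        ¬ Adj D s t ∧ k + l = m := by
      obtain ⟨s, t, h3, h4, h5⟩ := h2
      obtain ⟨f, g, hb⟩ := br_of_goodPair h3
      obtain ⟨k, hk⟩ := hb.fr t
      obtain ⟨l, hl⟩ := hb.gr s
      exact ⟨k + l, s, t, f, g, k, l, hb, hk, hl, h4, h5, rfl⟩
    obtain ⟨s, t, f, g, k, l, hb, hk, hl, hne, hna, hm⟩ := Nat.find_spec hex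
    have hmin : MinNA D s t f g k l := by
      refine ⟨hb, hk, hl, hne, hna, fun s' t' f' g' k' l' a1 a2 a3 a4 a5 => ?_⟩
      rw [hm]
      exact Nat.find_min' hex ⟨s', t', f', g', k', l', a1, a2, a3, a4, a5, rfl⟩
    exact ⟨s, t, f, g, hb, u1 hα hK hmin⟩
  · have hno : ∀ s' t', GoodPair D s' t' → s' ≠ t' → Adj D s' t' := by
      intro s' t' h3 h4
      by_contra h5
      exact h2 ⟨s', t', h3, h4, h5⟩
    obtain ⟨s, t, h3⟩ := hg
    obtain ⟨f, g, hb⟩ := br_of_goodPair h3
    by_cases hst : s = t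
    · subst hst
      obtain ⟨E, h4, h5, h6⟩ := u3 (f := f) (g := g) hα (hK s s h3)
      exact ⟨s, s, f, g, hb, E, h4, h5, h5, h6⟩
    · exact ⟨s, t, f, g, hb, u2 hα hb hst (hno s t h3 hst) (hK s t h3) hno⟩

end Pool.Agent.Lib.AB474
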