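import Pool.Agent.Lib.AB474.Fail

/-!
# MODULE Conf: the left-over situation is the configuration ConfE (about 1.5 h)

STATEMENT.  I.Norm, Thin I, MinLinked I k p l q, I not solvable => ConfE I k p l q J Q for some J, Q.

PROOF.  Take x, w, J, Q with FS (fail_structure).  I' = pl I k p l q, s' = q 0, y = p k.
(A) CLAIM: w = q (l-1) and q l = y.  Suppose not.  Let p' = (s', x, w, y) (p' 0 = s', p' 1 = x, p' 2 = w,
   p' i = y for i >= 3), k' = 3: a Gp walk by sx, cf, wy, from S to T.  (p', q) is linked: (s',x) and (x,w) are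
   not arcs of q since x is not in I'.L (Jsub, Jx) and all q j are in I'.L; if (w,y) = (q j, q (j+1)), then y in T
   gives j + 1 = l (q_notT), so w = q (l-1) and y = q l, excluded.  By min_p k <= 3, so k = 3 and
   MinLinked I 3 p' l q.
   Apply fail_structure to (p', q): x'', w'', J'', Q'' with FS; write I'' = pl I 3 p' l q.  w'' in N, not
   I''.R w'', Cf w'' y (wy; p' 3 = y), so w'' /= w since w = p' 2 in I''.R.
   (1) every v in Q is in I''.R and I''.L: by QR every v with Q v is reached from w by I'.Gp arcs outside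
     I'.R; all vertices of such a walk are in Q (Qcl, backwards from v).  Induction along the walk:
     w = p' 2 in I''.R; if not I''.L w then idxL for (p',q) gives 2 = 1.  Step a -> b, a in I''.R, I''.L, Q a, Q b,
     I'.Gp a b, i.e. Gp a b and not Lm a b; I'' has the same Lm (the same q), so I''.Gp a b, rule rc:
     I''.R b.  I''.L b: otherwise b not in T; b is not in S (Qsub: S is in I'.R); so b in N, factL for
     (p',q): Cf (q 0) b, so (q 0, b) is a Gp entry of Q (q 0 is in S, in I'.R, not in Q).  By Qex it is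
     (x,w) (q 0 = x: S against N) or (q (l-1), q l) or (q (l-2), q (l-1)): q 0 = q (l-1) or q (l-2),
     against q_inj as l >= 3.
   (2) So w'' is not in Q.  Norm.good for w and w'' (both in N, different):
     * Good w w'' with Gp w w'': if it is labelled minus (Arcs l q w w''): w = q j, w'' = q (j+1); w not in I'.R
       (Qsub), idxR: j + 1 = l, so w'' = q l in T: no.  Otherwise I''.Gp w w'' and w in I''.R, I''.L: I''.R w'': no.
     * Good w w'' with Gm critical: not Col (Del Gm w w'') T w: but Cf w y gives Gm w y, y /= w'': no.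
     * Good w'' w with Gp w'' w: an entry of Q: by Qex (w'',w) = (x,w): x in I''.R (p' 1) no; or
       w'' = q (l-1) and w = q l (no, N and T); or w'' = q (l-2), w = q (l-1): w'' in N not in I''.R, idxR for
       (p',q): l - 2 + 1 = l: no (l >= 3).
     * Good w'' w with Gm critical: Cf w'' y gives Gm w'' y: no.
(B) Dually (apply (A) to I.dual; formulate (A) as a lemma on FS; FS.toDual is in WDefs):
   x = p 1 and p 0 = q 0.
(C) Now build ConfE.  In Jex the first alternative (a = p 0, b = p 1, not J b) is impossible as J (p 1) = J x; so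
   a = p 1, b = p 2, Cf (p 1) (p 2).  In Qex the first alternative a = q (l-1), not Q a is impossible; so
   a = q (l-2), b = q (l-1).
-/

namespace Pool.Agent.Lib.AB474

open Relation

variable {V : Type*} [Fintype V] [DecidableEq V]

/-- The test walk of the proof. -/
def confWalk (s x w y : V) : ℕ → V
  | 0 => s
  | 1 => x
  | 2 => w
  | _ => y

theorem confA {I : Inst V} {k : ℕ} {p : ℕ → V} {l : ℕ} {q : ℕ → V} {x w : V} {J Q : V → Prop}
    (hI : I.Norm) (hth : Thin I) (h : MinLinked I k p l q) (hns : ¬ I.Solvable) (hk : 3 ≤ k)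
    (hl : 3 ≤ l) (hF : FS I k p l q x w J Q) : w = q (l - 1) ∧ q l = p k := by
  by_contra hne
  set p' : ℕ → V := confWalk (q 0) x w (p k) with hp'
  have e0 : p' 0 = q 0 := rfl
  have e1 : p' 1 = x := rfl
  have e2 : p' 2 = w := rfl
  have e3 : p' 3 = p k := rfl
  have hlink : Linked I 3 p' l q := by
    refine ⟨h.1.q0, h.1.pk, ?_, h.1.q0, h.1.ql, h.1.qw, ?_⟩
    · intro i hi
      interval_cases i
      · exact hF.sx.1
      · exact hF.cf.1
      · exact hF.wy.1
    · rintro u v ⟨i, hi, rfl, rfl⟩ harc _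
      interval_cases i
      · obtain ⟨j, hj, _, h2⟩ := harc
        have h2' : q (j + 1) = x := h2
        exact hF.Jsub x hF.Jx (h2' ▸ q_L h (by omega))
      · exact hF.nm harc
      · obtain ⟨j, hj, h1, h2⟩ := harc
        have h1' : q j = w := h1
        have h2' : q (j + 1) = p k := h2
        by_cases hjl : j + 1 < l
        · exact q_notT h hjl (h2' ▸ h.1.pk)
        · have hj' : j + 1 = l := by omega
          apply hne
          refine ⟨?_, ?_⟩
          · rw [← h1']
            congr 1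
            omega
          · rw [← h2', hj']
  have hk3 : k = 3 := by
    have := h.2 _ _ _ _ hlink
    omega
  have hml : MinLinked I 3 p' l q := ⟨hlink, fun k' p'' l' q' h' => hk3 ▸ h.2 _ _ _ _ h'⟩
  obtain ⟨_, _, x2, w2, J2, Q2, hF2⟩ := fail_structure hI hth hml hns
  have hw2R : ¬ (pl I 3 p' l q).R w2 := hF2.Qsub w2 hF2.Qw
  have hw2y : I.Cf w2 (p k) := hF2.wy
  have hRw : (pl I 3 p' l q).R w := p_R hml (i := 2) (by omega)
  have hRx : (pl I 3 p' l q).R x := p_R hml (i := 1) (by omega)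
  have hww : w2 ≠ w := fun e => hw2R (e ▸ hRw)
  have hLw : (pl I 3 p' l q).L w := by
    by_contra hL
    have := idxL hI hml (i := 2) (by omega) hF.wN hL
    omega
  have hSQ : ¬ Q (q 0) := fun hq => hF.Qsub _ hq (Inst.RL.s h.1.q0)
  obtain ⟨a, b, _, _, _, hab, hex⟩ := hF.Qex
  have key : ∀ v, ReflTransGen
      (fun a b => (pl I k p l q).Gp a b ∧ ¬ (pl I k p l q).R a ∧ ¬ (pl I k p l q).R b) w v →
      Q v → (pl I 3 p' l q).R v ∧ (pl I 3 p' l q).L v := by
    intro v hv
    induction hv with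
    | refl => exact fun _ => ⟨hRw, hLw⟩
    | @tail b' c _ hbc ih =>
      intro hQc
      have hQb : Q b' := hF.Qcl _ _ hQc hbc.1 hbc.2.1
      obtain ⟨hRb, hLb⟩ := ih hQb
      have hRc : (pl I 3 p' l q).R c := Inst.RL.rc hRb hLb hbc.1
      refine ⟨hRc, ?_⟩
      by_contra hLc
      have hcT : ¬ I.T c := fun hT => hLc (Inst.RL.t hT)
      have hcS : ¬ I.S c := fun hS => hF.Qsub c hQc (Inst.RL.s hS)
      have hcf := (factL hI hml ⟨hcS, hcT⟩ hLc).1
      rcases hex (q 0) c hSQ hQc hcf.1 with ⟨h1, _⟩ | ⟨h1, _⟩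
      · exact hF.xN.1 (h1 ▸ h.1.q0)
      · rcases hab with ⟨h2, _⟩ | ⟨h2, _⟩
        · have := q_inj h (i := 0) (j := l - 1) (by omega) (by omega) (h1.trans h2)
          omega
        · have := q_inj h (i := 0) (j := l - 2) (by omega) (by omega) (h1.trans h2)
          omega
  have hQw2 : ¬ Q w2 := fun hq => hw2R (key w2 (hF.QR w2 (hF.Qsub w2 hq)) hq).1
  have hyT : I.T (p k) := h.1.pk
  have hyw2 : p k ≠ w2 := fun e => hF2.wN.2 (e ▸ hyT)
  have hyw : p k ≠ w := fun e => hF.wN.2 (e ▸ hyT)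
  have hcase1 : ¬ I.Gp w w2 := by
    intro hgp
    by_cases hlab : I.Cf w w2 ∧ Arcs l q w w2
    · obtain ⟨_, j, hj, h1, h2⟩ := hlab
      have hR : ¬ (pl I k p l q).R (q j) := by
        rw [h1]
        exact hF.Qsub w hF.Qw
      have hN : I.N (q j) := by
        rw [h1]
        exact hF.wN
      have := idxR hI h (by omega) hN hR
      rw [this] at h2
      exact hF2.wN.2 (h2 ▸ h.1.ql)
    · exact hw2R (Inst.RL.rc hRw hLw ⟨hgp, hlab⟩)
  have hcase2 : ¬ I.Gp w2 w := by
    intro hgp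
    rcases hex w2 w hQw2 hF.Qw hgp with ⟨h1, _⟩ | ⟨h1, h1'⟩
    · exact hw2R (h1 ▸ hRx)
    · rcases hab with ⟨_, h2⟩ | ⟨h2, _⟩
      · exact hF.wN.2 (by rw [h1', h2]; exact h.1.ql)
      · have hR : ¬ (pl I 3 p' l q).R (q (l - 2)) := by
          rw [← h2, ← h1]
          exact hw2R
        have hN : I.N (q (l - 2)) := by
          rw [← h2, ← h1]
          exact hF2.wN
        have := idxR hI hml (by omega) hN hR
        omega
  rcases hI.good w w2 hF.wN hww with hg | hg
  · rcases hg with hg | hg | hg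
    · exact hcase1 hg.1
    · exact hcase1 hg.1
    · exact hg.2 (Col.step (Col.base hyT) ⟨hF.wy.2.1, fun hh => hyw2 hh.2⟩)
  · rcases hg with hg | hg | hg
    · exact hcase2 hg.1
    · exact hcase2 hg.1
    · exact hg.2 (Col.step (Col.base hyT) ⟨hw2y.2.1, fun hh => hyw hh.2⟩)

theorem conf {I : Inst V} {k : ℕ} {p : ℕ → V} {l : ℕ} {q : ℕ → V} (hI : I.Norm)
    (hth : Thin I) (h : MinLinked I k p l q) (hns : ¬ I.Solvable) :
    ∃ J Q, ConfE I k p l q J Q := by
  obtain ⟨hk, hl, x, w, J, Q, hF⟩ := fail_structure hI hth h hns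
  obtain ⟨hw, hy⟩ := confA hI hth h hns hk hl hF
  obtain ⟨hx0, hs0⟩ := confA hI.toDual hth.toDual h.toDual
    (fun hh => hns (Inst.dual_Solvable.1 hh)) hl hk (hF.toDual (by omega))
  have hx : x = p 1 := by
    rw [hx0]
    simp only [rev]
    congr 1
    omega
  have hs : p 0 = q 0 := by
    have e1 : rev k p k = p 0 := by simp [rev]
    have e2 : rev l q l = q 0 := by simp [rev]
    rw [← e1, ← e2]
    exact hs0
  subst hx hw
  obtain ⟨a, b, hcf, hJa, hJb, hab, hex⟩ := hF.Jex
  have hab' : a = p 1 ∧ b = p 2 := by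
    rcases hab with ⟨_, h2⟩ | h2
    · exact absurd (h2 ▸ hF.Jx) hJb
    · exact h2
  obtain ⟨ha, hb⟩ := hab'
  subst ha hb
  obtain ⟨c, d, hcf', hQc, hQd, hcd, hex'⟩ := hF.Qex
  have hcd' : c = q (l - 2) ∧ d = q (l - 1) := by
    rcases hcd with ⟨h2, _⟩ | h2
    · exact absurd (h2 ▸ hF.Qw) hQc
    · exact h2
  obtain ⟨hc, hd⟩ := hcd'
  subst hc hd
  refine ⟨J, Q, ⟨h, hk, hl, hs, hy.symm, hF.xN, hF.wN, hF.cf, hF.np, hF.nm, ?_, ?_, hcf, hcf',
    hF.Jx, hF.Qw, hF.Jsub, hF.Qsub, hF.Jcl, hF.Qcl, ?_, ?_, hF.JL, hF.QR⟩⟩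
  · rw [hs]
    exact hF.sx
  · rw [hy]
    exact hF.wy
  · intro u v hu hv huv
    rcases hex u v hu hv huv with ⟨h1, h2⟩ | ⟨h1, h2⟩
    · exact ⟨h1, Or.inl h2⟩
    · exact ⟨h1, Or.inr h2⟩
  · intro u v hu hv huv
    rcases hex' u v hu hv huv with ⟨h1, h2⟩ | ⟨h1, h2⟩
    · exact ⟨h2, Or.inl h1⟩
    · exact ⟨h2, Or.inr h1⟩

end Pool.Agent.Lib.AB474
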