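import Mathlib

/-!
# Arc-disjoint branchings: labelling instances

An instance consists of a vertex set, a source set `S`, a sink set `T`, arcs `Gp` usable by the
out-branching side (plus side), arcs `Gm` usable by the in-branching side (minus side), and a set
`K` of conflict pairs: an arc in `Gp`, `Gm` and `K` (`Cf`) may be used by one side only.
-/

namespace Pool.Agent.Lib.AB474

open Relation

variable {V : Type*}

/-- The relation `A` with the single arc `(a,b)` removed. -/
def Del (A : V → V → Prop) (a b : V) : V → V → Prop := fun u v => A u v ∧ ¬ (u = a ∧ v = b)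

/-- `v` is reachable from the set `S` by arcs of `A`. -/
def Rch (A : V → V → Prop) (S : V → Prop) (v : V) : Prop := ∃ s, S s ∧ ReflTransGen A s v

/-- `v` can reach the set `T` by arcs of `A`. -/
def Col (A : V → V → Prop) (T : V → Prop) (v : V) : Prop := ∃ t, T t ∧ ReflTransGen A v t

/-- A labelling instance. -/
structure Inst (V : Type*) where
  /-- sources of the plus side -/
  S : V → Prop
  /-- sinks of the minus side -/
  T : V → Prop
  /-- arcs usable by the plus side -/
  Gp : V → V → Prop
  /-- arcs usable by the minus side -/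
  Gm : V → V → Prop
  /-- conflict pairs -/
  K : V → V → Prop

namespace Inst

variable (I : Inst V)

/-- Reversal of all arcs, exchanging the two sides. -/
def dual : Inst V := ⟨I.T, I.S, fun u v => I.Gm v u, fun u v => I.Gp v u, fun u v => I.K v u⟩

/-- Conflict arcs: usable by both sides, but not simultaneously. -/
def Cf (u v : V) : Prop := I.Gp u v ∧ I.Gm u v ∧ I.K u v

/-- The conflict arcs can be divided between the two sides (`X` = conflict arcs given to the plus
side) so that the plus side reaches every vertex from `S` and the minus side leads every vertex to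
`T`. -/
def Solvable : Prop := ∃ X : V → V → Prop,
  (∀ v, Rch (fun a b => I.Gp a b ∧ (I.K a b → X a b)) I.S v) ∧
  (∀ v, Col (fun a b => I.Gm a b ∧ (I.K a b → ¬ X a b)) I.T v)

/-- The mutual fixpoint: `RL true` is `R`, `RL false` is `L`. -/
inductive RL : Bool → V → Prop
  | s {v : V} : I.S v → RL true v
  | t {v : V} : I.T v → RL false v
  | rp {u v : V} : RL true u → I.Gp u v → ¬ I.Cf u v → RL true v
  | rc {u v : V} : RL true u → RL false u → I.Gp u v → RL true v
  | lm {u v : V} : RL false v → I.Gm u v → ¬ I.Cf u v → RL false u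
  | lc {u v : V} : RL false v → RL true v → I.Gm u v → RL false u

/-- The plus fixpoint. -/
abbrev R (v : V) : Prop := I.RL true v

/-- The minus fixpoint. -/
abbrev L (v : V) : Prop := I.RL false v

/-- Label the arcs in `Lp` plus (removing them from the minus side) and the arcs in `Lm` minus. -/
def lab (Lp Lm : V → V → Prop) : Inst V :=
  { I with Gp := fun u v => I.Gp u v ∧ ¬ Lm u v, Gm := fun u v => I.Gm u v ∧ ¬ Lp u v }

/-- Consistent and closed instance: both sides connect everything, and go on doing so after the
removal of any single conflict arc. -/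
structure Closed : Prop where
  rp : ∀ v, Rch I.Gp I.S v
  cm : ∀ v, Col I.Gm I.T v
  np : ∀ u v, I.Cf u v → ∀ w, Rch (Del I.Gp u v) I.S w
  nm : ∀ u v, I.Cf u v → ∀ w, Col (Del I.Gm u v) I.T w

/-- Good arcs: usable by both sides, or critical for one side. -/
def Good (u v : V) : Prop :=
  (I.Gp u v ∧ I.Gm u v) ∨ (I.Gp u v ∧ ¬ Rch (Del I.Gp u v) I.S v) ∨
    (I.Gm u v ∧ ¬ Col (Del I.Gm u v) I.T u)

/-- The vertices outside `S` and `T`. -/
def N (v : V) : Prop := ¬ I.S v ∧ ¬ I.T v

/-- Normalised instance. -/
structure Norm : Prop extends I.Closed where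
  dj : ∀ v, I.S v → ¬ I.T v
  sp : ∀ u v, I.S u → I.Gp u v → ¬ I.Cf u v → I.S v
  tm : ∀ u v, I.T v → I.Gm u v → ¬ I.Cf u v → I.T u
  good : ∀ n v, I.N n → v ≠ n → I.Good n v ∨ I.Good v n

/-- There are four different vertices satisfying `X`. -/
def Four (X : V → Prop) : Prop :=
  ∃ a b c d, X a ∧ X b ∧ X c ∧ X d ∧ a ≠ b ∧ a ≠ c ∧ a ≠ d ∧ b ≠ c ∧ b ≠ d ∧ c ≠ d

end Inst

end Pool.Agent.Lib.AB474
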