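import Pool.Agent.Lib.AB474.HallUse

/-!
# MODULE Done: R and L meet => R u L = V; single labels (about 1 h)

(a) done.  General instance I, labels Lp, Lm (any relations), I' = I.lab Lp Lm.  Suppose Lp u v ->
    I'.R u, Lm u v -> I'.L v, and every n outside I'.R u I'.L has a good arc to or from every other
    vertex.  If v in I'.R and I'.L and n is outside both, a contradiction arises (v is different from n):
    * I.Good v n, both Gp v n and Gm v n: if Lm v n then I'.L n, contradiction.  Otherwise I'.Gp v n and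
      rule rc (v in R and L) gives I'.R n.
    * Gp v n and not Rch (Del Gp v n) S n: the same (only Gp v n was used).
    * Gm v n and not Col (Del Gm v n) T v: v in I'.L, so L_inside for I' gives a walk from v to T inside
      I'.L of I'.Gm arcs, hence of I.Gm arcs, none is (v,n) as n is not in I'.L.  Contradiction.
    * I.Good n v: Gm n v: if Lp n v then I'.R n, contradiction; else I'.Gm n v and rule lc gives I'.L n.
      Gp n v and not Rch (Del Gp n v) S v: v in I'.R is reached inside I'.R, contradiction.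
(b) norm_done: the same for I.Norm (vertices outside S u T; S is in I'.R, T in I'.L).
(c) norm_one: I.Norm, a conflict arc (u,v) with u in S labelled plus (Lp = {(u,v)}, Lm = none), and
    I'.R meets I'.L: then solvable, by (b) and hall_one (there is only one labelled arc).
(d) thin1: a Norm instance which is not solvable has no Gp arc from S to T: such an arc (s,t) is Cf
    (else t in S by sp, against dj); apply (c): t in I'.R, t in I'.L.  Dually no Gm arc from S to T
    (it is Cf by tm; hence also Gp).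
(e) thin2: s in S, n in N, t in T, Gp s n, Gp n t.  (s,n) is Cf by sp (else n in S).  If (n,t) is not
    Cf: label (s,n) plus: n in I'.R by rule rp or rc, t in I'.R by rp, t in I'.L: solvable by (c).  So
    (n,t) is Cf.
-/

namespace Pool.Agent.Lib.AB474

open Relation

variable {V : Type*} [Fintype V] [DecidableEq V]

namespace Inst

variable {I : Inst V}

omit [Fintype V] [DecidableEq V] in
theorem done {Lp Lm : V → V → Prop} (hLp : ∀ u v, Lp u v → (I.lab Lp Lm).R u)
    (hLm : ∀ u v, Lm u v → (I.lab Lp Lm).L v)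
    (hgood : ∀ n v, ¬ (I.lab Lp Lm).R n → ¬ (I.lab Lp Lm).L n → v ≠ n → I.Good n v ∨ I.Good v n)
    {v : V} (hR : (I.lab Lp Lm).R v) (hL : (I.lab Lp Lm).L v) :
    ∀ n, (I.lab Lp Lm).R n ∨ (I.lab Lp Lm).L n := by
  intro n
  by_contra hcon
  rw [not_or] at hcon
  obtain ⟨hnR, hnL⟩ := hcon
  have hvn : v ≠ n := by
    rintro rfl
    exact hnR hR
  -- plus arc out of v
  have hp : ¬ I.Gp v n := by
    intro h
    exact hnR (RL.rc hR hL ⟨h, fun hh => hnL (hLm _ _ hh)⟩)
  have hm : ¬ I.Gm n v := by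
    intro h
    exact hnL (RL.lc hL hR ⟨h, fun hh => hnR (hLp _ _ hh)⟩)
  rcases hgood n v hnR hnL hvn with h | h
  · rcases h with h | h | h
    · exact hm h.2
    · refine h.2 ?_
      have h2 : Rch (Del (I.lab Lp Lm).Gp n v) (I.lab Lp Lm).S v := rch_del_of_R hR (Or.inl hnR)
      exact h2.mono (fun a b hab => ⟨hab.1.1, hab.2⟩) (fun _ hs => hs)
    · exact hm h.1
  · rcases h with h | h | h
    · exact hp h.1
    · exact hp h.1
    · refine h.2 ?_
      have h2 : Col (Del (I.lab Lp Lm).Gm v n) (I.lab Lp Lm).T v := col_del_of_L hL (Or.inr hnL)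
      exact h2.mono (fun a b hab => ⟨hab.1.1, hab.2⟩) (fun _ hs => hs)

omit [Fintype V] [DecidableEq V] in
theorem norm_done (hI : I.Norm) {Lp Lm : V → V → Prop}
    (hLp : ∀ u v, Lp u v → (I.lab Lp Lm).R u) (hLm : ∀ u v, Lm u v → (I.lab Lp Lm).L v)
    {v : V} (hR : (I.lab Lp Lm).R v) (hL : (I.lab Lp Lm).L v) :
    ∀ n, (I.lab Lp Lm).R n ∨ (I.lab Lp Lm).L n := by
  refine done hLp hLm (fun n v hnR hnL hv => hI.good n v ⟨fun h => ?_, fun h => ?_⟩ hv) hR hL
  · exact hnR (RL.s h)
  · exact hnL (RL.t h)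

namespace DoneAux

theorem norm_one (hI : I.Norm) {u v : V} (hu : I.S u) (hc : I.Cf u v) {w : V}
    (hR : (I.lab (fun a b => a = u ∧ b = v) (fun _ _ => False)).R w)
    (hL : (I.lab (fun a b => a = u ∧ b = v) (fun _ _ => False)).L w) : I.Solvable := by
  refine hall_one (Lp := fun a b => a = u ∧ b = v) (Lm := fun _ _ => False) hI.toClosed ?_
    (fun _ _ h => h.elim) (fun _ _ _ h => h) ?_ ?_
  · rintro a b ⟨rfl, rfl⟩
    exact hc
  · refine norm_done hI ?_ (fun _ _ h => h.elim) hR hL
    rintro a b ⟨rfl, rfl⟩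
    exact RL.s hu
  · intro a b a' b' h h'
    rcases h with ⟨⟨rfl, rfl⟩, _⟩ | ⟨h, _⟩
    · rcases h' with ⟨⟨rfl, rfl⟩, _⟩ | ⟨h', _⟩
      · exact ⟨rfl, rfl⟩
      · exact h'.elim
    · exact h.elim

end DoneAux

theorem thin_p1 (hI : I.Norm) (hns : ¬ I.Solvable) : ∀ s t, I.S s → I.T t → ¬ I.Gp s t := by
  intro s t hs ht hst
  have hc : I.Cf s t := by
    by_contra hc
    exact hI.dj t (hI.sp s t hs hst hc) ht
  refine hns (DoneAux.norm_one hI hs hc (w := t) ?_ (RL.t ht))
  refine RL.rp (RL.s hs) ⟨hst, fun h => h⟩ (fun h => ?_)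
  exact (lab_Cf.1 h).2.1 ⟨rfl, rfl⟩

theorem thin_m1 (hI : I.Norm) (hns : ¬ I.Solvable) : ∀ s t, I.S s → I.T t → ¬ I.Gm s t := by
  intro s t hs ht hst
  exact thin_p1 hI.toDual (fun h => hns (dual_Solvable.1 h)) t s ht hs hst

theorem thin_cf (hI : I.Norm) (hns : ¬ I.Solvable) : ∀ s n t, I.S s → I.N n → I.T t →
    I.Gp s n → I.Gp n t → I.Cf s n ∧ I.Cf n t := by
  intro s n t hs hn ht hsn hnt
  have hc : I.Cf s n := by
    by_contra hc
    exact hn.1 (hI.sp s n hs hsn hc)
  refine ⟨hc, ?_⟩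
  by_contra hc2
  refine hns (DoneAux.norm_one hI hs hc (w := t) ?_ (RL.t ht))
  refine RL.rp (u := n) ?_ ⟨hnt, fun h => h⟩ (fun h => hc2 (lab_Cf.1 h).1)
  refine RL.rp (RL.s hs) ⟨hsn, fun h => h⟩ (fun h => ?_)
  exact (lab_Cf.1 h).2.1 ⟨rfl, rfl⟩

end Inst

end Pool.Agent.Lib.AB474
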