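import Pool.Agent.Lib.AB474.ADefs

/-!
# MODULE Elim: elimination instances: soundness and completeness (about 2 h)

(1) elim_inside: trivial.
(2) elim_sound.  Let Y be the labels for elimX.  Put
   X' a b := Fp a b  or  (E a, not E b, not Fm a b)  or
             (not E a, not E b, not Pe a b, and (Me a b or Y a b)).
   Plus side (arcs D with X'): an arc (a,b) of the plus side of elimX: a, b not in E.  If Pe a b:
   TransGen Fp a e, D e b, not Fm e b, E e: a walk of plus arcs (Fp arcs are in D and X'; (e,b) second case).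
   Otherwise D a b; if not Me a b then K a b, so Y a b; so X' a b.
   Minus side (D, not X'): an arc (a,b) of the minus side of elimX.  If Me a b: D a e, not Fp a e, not E a: not X'
   (second case needs E a, third needs not E e); then Fm arcs (c,d): D, E c, not Fp (dj), second case needs not Fm,
   third needs not E c.  If not Me a b: D a b.  If Pe a b then not X'.  If not Pe a b: K a b, so not Y a b, so not X'.
   Vertices outside E: reached from the set S of elimX, and a vertex v in S: ReflTransGen Fp s e, D e v, not Fm e v: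
   reached from s.  Vertices of E: by ElimOK.rp reached from s by Fp or from some u outside E by Fp.  Dually.
(3) elim_complete.  Br D s t f g, E contains s, t; Fp = FpOf E s f, Fm = FmOf E t g.
   ElimOK: FpD: f v = u, v /= s so D u v.  FmD the same.  dj: E v, v /= s, f v = u and E u, u /= t, g u = v
   contradict Br.dis.  rp: for every e in E: ReflTransGen Fp s e or there is u not in E with TransGen Fp u e:
   induction on n with f^[n] e = s: e = s: refl.  e /= s: u = f e, Fp u e; if u not in E: TransGen.single.
   If u in E: induction hypothesis for u.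
   SolvX: Y a b := (b /= s and f b = a).  Plus: for v not in E, induction on n with f^[n] v = s (v /= s as s in E):
   u := f v.  If u not in E: (u,v) is a plus arc, u is reached by induction.  If u in E: follow f inside
   E: either ReflTransGen Fp s u: then v in S of elimX (D u v, not Fm u v: else g u = v, f v = u, against dis);
   or there is u' not in E with TransGen Fp u' u and u' = f^[j] v with 1 <= j <= n (keep track of this in the
   statement: u' not in E, TransGen Fp u' u and f^[i] u' = s for some i < n); then Pe u' v, so (u',v) is in Gp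
   and not in K; u' reached by induction.  Minus: the same with g, and minus arcs need (K -> not Y): for
   the arc (v, g v), v /= t, Y v (g v) would mean f (g v) = v, g v /= s: against dis.
   (The minus half is the plus half for the reversed digraph up to Y; or redo it.)
-/

namespace Pool.Agent.Lib.AB474

open Relation

variable {V : Type*}

theorem elim_inside (D : V → V → Prop) (E : V → Prop) (Fp Fm : V → V → Prop) (s t : V) :
    (elimX D E Fp Fm s t).Inside (fun v => ¬ E v) :=
  ⟨fun _ h => h.1, fun _ h => h.1, fun _ _ h => ⟨h.1, h.2.1⟩, fun _ _ h => ⟨h.1, h.2.1⟩⟩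

theorem elim_tgmono {A B : V → V → Prop} {u v : V} (h : TransGen A u v)
    (hA : ∀ a b, A a b → B a b) : TransGen B u v := by
  induction h with
  | single h1 => exact TransGen.single (hA _ _ h1)
  | tail _ h1 ih => exact ih.tail (hA _ _ h1)

theorem elim_sound {D : V → V → Prop} {E : V → Prop} {Fp Fm : V → V → Prop} {s t : V}
    (h : ElimOK D E Fp Fm s t) (hs : (elimX D E Fp Fm s t).SolvX (fun v => ¬ E v)) :
    GoodPair D s t := by
  classical
  obtain ⟨Y, hp, hm⟩ := hs
  let X' : V → V → Prop := fun a b => Fp a b ∨ (E a ∧ ¬ E b ∧ ¬ Fm a b) ∨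
    (¬ E a ∧ ¬ E b ∧ ¬ Pe D E Fp Fm a b ∧ (Me D E Fp Fm a b ∨ Y a b))
  -- plus side
  have pF : ∀ a b, Fp a b → D a b ∧ X' a b := fun a b hab => ⟨(h.FpD a b hab).1, Or.inl hab⟩
  have pE : ∀ a b, E a → ¬ E b → D a b → ¬ Fm a b → D a b ∧ X' a b :=
    fun a b ha hb hd hn => ⟨hd, Or.inr (Or.inl ⟨ha, hb, hn⟩)⟩
  have pArc : ∀ a b, (elimX D E Fp Fm s t).Gp a b ∧ ((elimX D E Fp Fm s t).K a b → Y a b) →
      ReflTransGen (fun a b => D a b ∧ X' a b) a b := by
    rintro a b ⟨⟨ha, hb, hab⟩, hK⟩
    by_cases hPe : Pe D E Fp Fm a b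
    · obtain ⟨e, he, hae, heb, hn⟩ := hPe
      have h1 : TransGen (fun a b => D a b ∧ X' a b) a e := elim_tgmono hae pF
      exact h1.to_reflTransGen.tail (pE e b he hb heb hn)
    · have hd : D a b := hab.resolve_right hPe
      refine ReflTransGen.single ⟨hd, Or.inr (Or.inr ⟨ha, hb, hPe, ?_⟩)⟩
      by_cases hMe : Me D E Fp Fm a b
      · exact Or.inl hMe
      · exact Or.inr (hK ⟨hd, hPe, hMe⟩)
  have pOut : ∀ v, ¬ E v → ReflTransGen (fun a b => D a b ∧ X' a b) s v := by
    intro v hv
    obtain ⟨s0, ⟨hs0, e, he, hse, hes, hn⟩, hr⟩ := hp v hv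
    have h1 : ReflTransGen (fun a b => D a b ∧ X' a b) s e := rtmono hse pF
    have h2 : ReflTransGen (fun a b => D a b ∧ X' a b) s s0 := h1.tail (pE e s0 he hs0 hes hn)
    refine h2.trans ?_
    clear hv
    induction hr with
    | refl => exact ReflTransGen.refl
    | tail _ hbc ih => exact ih.trans (pArc _ _ hbc)
  -- minus side
  have mF : ∀ a b, Fm a b → D a b ∧ ¬ X' a b := by
    intro a b hab
    refine ⟨(h.FmD a b hab).1, ?_⟩
    rintro (h1 | ⟨_, _, h1⟩ | ⟨h1, _⟩)
    · exact h.dj a b h1 hab
    · exact h1 hab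
    · exact h1 (h.FmD a b hab).2
  have mE : ∀ a b, ¬ E a → E b → D a b → ¬ Fp a b → D a b ∧ ¬ X' a b := by
    intro a b ha hb hd hn
    refine ⟨hd, ?_⟩
    rintro (h1 | ⟨h1, _, _⟩ | ⟨_, h1, _⟩)
    · exact hn h1
    · exact ha h1
    · exact h1 hb
  have mArc : ∀ a b, (elimX D E Fp Fm s t).Gm a b ∧ ((elimX D E Fp Fm s t).K a b → ¬ Y a b) →
      ReflTransGen (fun a b => D a b ∧ ¬ X' a b) a b := by
    rintro a b ⟨⟨ha, hb, hab⟩, hK⟩
    by_cases hMe : Me D E Fp Fm a b
    · obtain ⟨e, he, heb, hae, hn⟩ := hMe
      have h1 : TransGen (fun a b => D a b ∧ ¬ X' a b) e b := elim_tgmono heb mF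
      exact ReflTransGen.head (mE a e ha he hae hn) h1.to_reflTransGen
    · have hd : D a b := hab.resolve_right hMe
      refine ReflTransGen.single ⟨hd, ?_⟩
      rintro (h1 | ⟨h1, _, _⟩ | ⟨_, _, hPe, h1 | h1⟩)
      · exact hb (h.FpD a b h1).2
      · exact ha h1
      · exact hMe h1
      · exact hK ⟨hd, hPe, hMe⟩ h1
  have mOut : ∀ v, ¬ E v → ReflTransGen (fun a b => D a b ∧ ¬ X' a b) v t := by
    intro v hv
    obtain ⟨t0, ⟨ht0, e, he, het, hte, hn⟩, hr⟩ := hm v hv
    have h1 : ReflTransGen (fun a b => D a b ∧ ¬ X' a b) e t := rtmono het mF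
    have h2 : ReflTransGen (fun a b => D a b ∧ ¬ X' a b) t0 t :=
      ReflTransGen.head (mE t0 e ht0 he hte hn) h1
    refine ReflTransGen.trans ?_ h2
    clear hv h2 hte hn ht0
    induction hr with
    | refl => exact ReflTransGen.refl
    | tail _ hbc ih => exact ih.trans (mArc _ _ hbc)
  refine ⟨X', fun v => ?_, fun v => ?_⟩
  · by_cases hv : E v
    · rcases h.rp v hv with h1 | ⟨u, hu, h1⟩
      · exact rtmono h1 pF
      · exact (pOut u hu).trans (elim_tgmono h1 pF).to_reflTransGen
    · exact pOut v hv
  · by_cases hv : E v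
    · rcases h.rm v hv with h1 | ⟨u, hu, h1⟩
      · exact rtmono h1 mF
      · exact (elim_tgmono h1 mF).to_reflTransGen.trans (mOut u hu)
    · exact mOut v hv

theorem elim_aux_p {E : V → Prop} {s : V} {f : V → V} :
    ∀ n e, f^[n] e = s → E e → ReflTransGen (FpOf E s f) s e ∨
      ∃ u, ¬ E u ∧ TransGen (FpOf E s f) u e ∧ ∃ i, i < n ∧ f^[i] u = s := by
  intro n
  induction n with
  | zero =>
    intro e he _
    have : e = s := he
    subst this
    exact Or.inl ReflTransGen.refl
  | succ n ih =>
    intro e he hE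
    rw [Function.iterate_succ_apply] at he
    by_cases hes : e = s
    · subst hes
      exact Or.inl ReflTransGen.refl
    · have harc : FpOf E s f (f e) e := ⟨hE, hes, rfl⟩
      by_cases hfe : E (f e)
      · rcases ih (f e) he hfe with h1 | ⟨u, hu, h1, i, hi, hiu⟩
        · exact Or.inl (h1.tail harc)
        · exact Or.inr ⟨u, hu, h1.tail harc, i, hi.trans (Nat.lt_succ_self n), hiu⟩
      · exact Or.inr ⟨f e, hfe, TransGen.single harc, n, Nat.lt_succ_self n, he⟩

theorem elim_aux_m {E : V → Prop} {t : V} {g : V → V} :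
    ∀ n e, g^[n] e = t → E e → ReflTransGen (FmOf E t g) e t ∨
      ∃ u, ¬ E u ∧ TransGen (FmOf E t g) e u ∧ ∃ i, i < n ∧ g^[i] u = t := by
  intro n
  induction n with
  | zero =>
    intro e he _
    have : e = t := he
    subst this
    exact Or.inl ReflTransGen.refl
  | succ n ih =>
    intro e he hE
    rw [Function.iterate_succ_apply] at he
    by_cases hes : e = t
    · subst hes
      exact Or.inl ReflTransGen.refl
    · have harc : FmOf E t g e (g e) := ⟨hE, hes, rfl⟩
      by_cases hfe : E (g e)
      · rcases ih (g e) he hfe with h1 | ⟨u, hu, h1, i, hi, hiu⟩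
        · exact Or.inl (ReflTransGen.head harc h1)
        · exact Or.inr ⟨u, hu, TransGen.head harc h1, i, hi.trans (Nat.lt_succ_self n), hiu⟩
      · exact Or.inr ⟨g e, hfe, TransGen.single harc, n, Nat.lt_succ_self n, he⟩

theorem elim_complete {D : V → V → Prop} {E : V → Prop} {s t : V} {f g : V → V}
    (h : Br D s t f g) (hs : E s) (ht : E t) :
    ElimOK D E (FpOf E s f) (FmOf E t g) s t ∧
      (elimX D E (FpOf E s f) (FmOf E t g) s t).SolvX (fun v => ¬ E v) := by
  classical
  constructor
  · refine ⟨hs, ht, ?_, ?_, ?_, ?_, ?_⟩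
    · rintro u v ⟨hv, hvs, rfl⟩
      exact ⟨h.fD v hvs, hv⟩
    · rintro u v ⟨hu, hut, rfl⟩
      exact ⟨h.gD u hut, hu⟩
    · rintro u v ⟨_, hvs, hfv⟩ ⟨_, hut, hgu⟩
      exact h.dis u v hut hvs hgu hfv
    · intro e he
      obtain ⟨n, hn⟩ := h.fr e
      rcases elim_aux_p n e hn he with h1 | ⟨u, hu, h1, _⟩
      · exact Or.inl h1
      · exact Or.inr ⟨u, hu, h1⟩
    · intro e he
      obtain ⟨n, hn⟩ := h.gr e
      rcases elim_aux_m n e hn he with h1 | ⟨u, hu, h1, _⟩
      · exact Or.inl h1
      · exact Or.inr ⟨u, hu, h1⟩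
  · refine ⟨fun a b => b ≠ s ∧ f b = a, ?_, ?_⟩
    · have key : ∀ n v, f^[n] v = s → ¬ E v →
          Rch (fun a b => (elimX D E (FpOf E s f) (FmOf E t g) s t).Gp a b ∧
            ((elimX D E (FpOf E s f) (FmOf E t g) s t).K a b → (b ≠ s ∧ f b = a)))
            (elimX D E (FpOf E s f) (FmOf E t g) s t).S v := by
        intro n
        induction n using Nat.strong_induction_on with
        | _ n ih =>
          intro v hv hE
          have hvs : v ≠ s := by
            rintro rfl
            exact hE hs
          obtain _ | m := n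
          · exact absurd hv hvs
          · rw [Function.iterate_succ_apply] at hv
            have hD : D (f v) v := h.fD v hvs
            have hnF : ¬ FmOf E t g (f v) v := by
              rintro ⟨_, h1, h2⟩
              exact h.dis (f v) v h1 hvs h2 rfl
            by_cases hfv : E (f v)
            · rcases elim_aux_p m (f v) hv hfv with h1 | ⟨u, hu, h1, i, hi, hiu⟩
              · exact Rch.base ⟨hE, f v, hfv, h1, hD, hnF⟩
              · have hPe : Pe D E (FpOf E s f) (FmOf E t g) u v := ⟨f v, hfv, h1, hD, hnF⟩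
                refine (ih i (hi.trans (Nat.lt_succ_self m)) u hiu hu).step
                  ⟨⟨hu, hE, Or.inr hPe⟩, ?_⟩
                rintro ⟨_, hn, _⟩
                exact absurd hPe hn
            · exact (ih m (Nat.lt_succ_self m) (f v) hv hfv).step
                ⟨⟨hfv, hE, Or.inl hD⟩, fun _ => ⟨hvs, rfl⟩⟩
      intro v hv
      obtain ⟨n, hn⟩ := h.fr v
      exact key n v hn hv
    · have key : ∀ n v, g^[n] v = t → ¬ E v →
          Col (fun a b => (elimX D E (FpOf E s f) (FmOf E t g) s t).Gm a b ∧
            ((elimX D E (FpOf E s f) (FmOf E t g) s t).K a b → ¬ (b ≠ s ∧ f b = a)))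
            (elimX D E (FpOf E s f) (FmOf E t g) s t).T v := by
        intro n
        induction n using Nat.strong_induction_on with
        | _ n ih =>
          intro v hv hE
          have hvt : v ≠ t := by
            rintro rfl
            exact hE ht
          obtain _ | m := n
          · exact absurd hv hvt
          · rw [Function.iterate_succ_apply] at hv
            have hD : D v (g v) := h.gD v hvt
            have hnF : ¬ FpOf E s f v (g v) := by
              rintro ⟨_, h1, h2⟩
              exact h.dis v (g v) hvt h1 rfl h2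
            by_cases hgv : E (g v)
            · rcases elim_aux_m m (g v) hv hgv with h1 | ⟨u, hu, h1, i, hi, hiu⟩
              · exact Col.base ⟨hE, g v, hgv, h1, hD, hnF⟩
              · have hMe : Me D E (FpOf E s f) (FmOf E t g) v u := ⟨g v, hgv, h1, hD, hnF⟩
                refine (ih i (hi.trans (Nat.lt_succ_self m)) u hiu hu).step
                  ⟨⟨hE, hu, Or.inr hMe⟩, ?_⟩
                rintro ⟨_, _, hn⟩
                exact absurd hMe hn
            · refine (ih m (Nat.lt_succ_self m) (g v) hv hgv).step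
                ⟨⟨hE, hgv, Or.inl hD⟩, ?_⟩
              rintro _ ⟨h1, h2⟩
              exact h.dis v (g v) hvt h1 rfl h2
      intro v hv
      obtain ⟨n, hn⟩ := h.gr v
      exact key n v hn hv

end Pool.Agent.Lib.AB474
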