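import Pool.Agent.Lib.AB474.WDefs

/-!
# MODULE Facts: elementary facts on minimal linked pairs (about 1.2 h)

Notation: I.Norm, MinLinked I k p l q, I' = pl I k p l q (= I.lab with the Cf arcs of p labelled plus and the
Cf arcs of q labelled minus).  s' = q 0, y = p k.

(F0) Cutting: if `p i` in S with 0 < i <= k then the walk p i, ..., p k is shorter and the pair still linked: so
   p i not in S for 0 < i; similarly p i not in T for i < k; the same for q.  Hence p i in N for 0 < i < k.
   Distinct: p i = p j with i < j <= k gives a shorter walk (skip i..j).  Same for q.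
   (k >= 1 and l >= 1 since S, T are disjoint.)
   NOTE: it is convenient to prove one general statement: if p' is a Gp-walk of length k' from S to T with
   Arcs k' p' u v -> Cf u v -> not Arcs l q u v  then k <= k'.   (min_p)    Dual: min_q.
(F2) I'.R (p i) for i <= k: arcs of p are Gp; they are not labelled minus: an arc of p and of q is not
   Cf; and not I'.Cf (labelled plus if Cf).  So rule rp along p.  Dually I'.L (q j) for j <= l.
   Also I'.L (p k) (T) and I'.R (q 0) (S).
(F4) x in N, not I'.L x  =>  Cf (q 0) x and not Gm x (q 0).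
   Gm x (q 0): not labelled plus, since q 0 in S and p i not in S for i > 0 (head of an arc of p).  So
   I'.Gm x (q 0), q 0 in I'.R and I'.L, so I'.L x by lc: no.  Norm.good for x and q 0:
   Good x (q 0): needs Gm x (q 0) or Gp x (q 0) critical: S (q 0), never critical.
   Good (q 0) x: both: Gp, Gm; then Cf (otherwise sp gives S x).  Gp critical: if not Cf, sp gives S x; so Cf.
   Gm (q 0) x with not Col (Del Gm (q 0) x) T (q 0): the walk q avoids x (q j in I'.L, x not): no.
(F5) i <= k, N (p i), not I'.L (p i)  =>  i = 1.   0 < i < k.  By (F4) Cf (q 0) (p i), so the walk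
   q 0, p i, p (i+1), ..., p k has length k - i + 1, its new arc (q 0, p i) is not an arc of q since p i is not
   in I'.L; by min_p k <= k - i + 1, so i <= 1.
All dual statements follow by applying these to I.dual (MinLinked.toDual, pl_dual_R, ...), or are proved
directly.
-/

namespace Pool.Agent.Lib.AB474

open Relation

variable {V : Type*} {I : Inst V} {k : ℕ} {p : ℕ → V} {l : ℕ} {q : ℕ → V}

theorem min_p (h : MinLinked I k p l q) {k' : ℕ} {p' : ℕ → V} (h0 : I.S (p' 0)) (h1 : I.T (p' k'))
    (hw : Walk I.Gp k' p') (hd : ∀ u v, Arcs k' p' u v → I.Cf u v → ¬ Arcs l q u v) : k ≤ k' := by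
  have := h.2 k' p' l q ⟨h0, h1, hw, h.1.q0, h.1.ql, h.1.qw, fun u v a b c => hd u v a c b⟩
  omega

theorem min_q (h : MinLinked I k p l q) {l' : ℕ} {q' : ℕ → V} (h0 : I.S (q' 0)) (h1 : I.T (q' l'))
    (hw : Walk I.Gm l' q') (hd : ∀ u v, Arcs l' q' u v → I.Cf u v → ¬ Arcs k p u v) : l ≤ l' := by
  have := h.2 k p l' q' ⟨h.1.p0, h.1.pk, h.1.pw, h0, h1, hw, fun u v a b c => hd u v b c a⟩
  omega

theorem p_notS (h : MinLinked I k p l q) {i : ℕ} (h0 : 0 < i) (hi : i ≤ k) : ¬ I.S (p i) := by
  intro hS
  have := min_p h (k' := k - i) (p' := fun j => p (i + j)) (by simpa using hS)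
    (by rw [show i + (k - i) = k by omega]; exact h.1.pk)
    (fun j hj => h.1.pw (i + j) (by omega)) (fun u v a c b => by
      obtain ⟨j, hj, e1, e2⟩ := a
      exact h.1.dis u v ⟨i + j, by omega, e1, e2⟩ b c)
  omega

theorem p_notT (h : MinLinked I k p l q) {i : ℕ} (hi : i < k) : ¬ I.T (p i) := by
  intro hT
  have := min_p h (k' := i) (p' := p) h.1.p0 hT
    (fun j hj => h.1.pw j (by omega)) (fun u v a c b => by
      obtain ⟨j, hj, e1, e2⟩ := a
      exact h.1.dis u v ⟨j, by omega, e1, e2⟩ b c)
  omega

theorem facts_rev_sub {l : ℕ} {q : ℕ → V} {i : ℕ} (hi : i ≤ l) : rev l q (l - i) = q i := by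
  simp only [rev]
  congr 1
  omega

theorem q_notS (h : MinLinked I k p l q) {i : ℕ} (h0 : 0 < i) (hi : i ≤ l) : ¬ I.S (q i) := by
  have := p_notT h.toDual (i := l - i) (by omega)
  rw [facts_rev_sub hi] at this
  exact this

theorem q_notT (h : MinLinked I k p l q) {i : ℕ} (hi : i < l) : ¬ I.T (q i) := by
  have := p_notS h.toDual (i := l - i) (by omega) (by omega)
  rw [facts_rev_sub hi.le] at this
  exact this

theorem facts_p_inj_lt (h : MinLinked I k p l q) {i j : ℕ} (hij : i < j) (hj : j ≤ k) (e : p i = p j) :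
    False := by
  have := min_p h (k' := k - (j - i)) (p' := fun m => if m ≤ i then p m else p (m + (j - i)))
    (by simpa using h.1.p0)
    (by
      by_cases hk : k - (j - i) ≤ i
      · have e1 : k = j := by omega
        have e2 : k - (j - i) = i := by omega
        simp only [e2, le_refl, if_true]
        rw [e, ← e1]
        exact h.1.pk
      · simp only [hk, if_false]
        rw [show k - (j - i) + (j - i) = k by omega]
        exact h.1.pk)
    (fun m hm => by
      by_cases h1 : m + 1 ≤ i
      · have h2 : m ≤ i := by omega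
        simp only [h1, h2, if_true]
        exact h.1.pw m (by omega)
      · by_cases h2 : m ≤ i
        · have h3 : m = i := by omega
          simp only [h1, h2, if_true, if_false]
          rw [h3, e, show i + 1 + (j - i) = j + 1 by omega]
          exact h.1.pw j (by omega)
        · simp only [h1, h2, if_false]
          rw [show m + 1 + (j - i) = m + (j - i) + 1 by omega]
          exact h.1.pw (m + (j - i)) (by omega))
    (fun u v a c b => by
      obtain ⟨m, hm, e1, e2⟩ := a
      refine h.1.dis u v ?_ b c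
      by_cases h1 : m + 1 ≤ i
      · have h2 : m ≤ i := by omega
        simp only [h1, h2, if_true] at e1 e2
        exact ⟨m, by omega, e1, e2⟩
      · by_cases h2 : m ≤ i
        · have h3 : m = i := by omega
          simp only [h1, h2, if_true, if_false] at e1 e2
          rw [h3, e] at e1
          rw [h3, show i + 1 + (j - i) = j + 1 by omega] at e2
          exact ⟨j, by omega, e1, e2⟩
        · simp only [h1, h2, if_false] at e1 e2
          rw [show m + 1 + (j - i) = m + (j - i) + 1 by omega] at e2
          exact ⟨m + (j - i), by omega, e1, e2⟩)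
  omega

theorem p_inj (h : MinLinked I k p l q) {i j : ℕ} (hi : i ≤ k) (hj : j ≤ k) (e : p i = p j) :
    i = j := by
  rcases lt_trichotomy i j with h1 | h1 | h1
  · exact (facts_p_inj_lt h h1 hj e).elim
  · exact h1
  · exact (facts_p_inj_lt h h1 hi e.symm).elim

theorem q_inj (h : MinLinked I k p l q) {i j : ℕ} (hi : i ≤ l) (hj : j ≤ l) (e : q i = q j) :
    i = j := by
  have := p_inj h.toDual (i := l - i) (j := l - j) (by omega) (by omega)
    (by rw [facts_rev_sub hi, facts_rev_sub hj]; exact e)
  omega

theorem p_R (h : MinLinked I k p l q) {i : ℕ} (hi : i ≤ k) : (pl I k p l q).R (p i) := by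
  induction i with
  | zero => exact Inst.RL.s h.1.p0
  | succ i ih =>
    have h1 : Arcs k p (p i) (p (i + 1)) := ⟨i, by omega, rfl, rfl⟩
    refine Inst.RL.rp (ih (by omega)) ⟨h.1.pw i (by omega), fun h2 => ?_⟩ fun h2 => ?_
    · exact h.1.dis _ _ h1 h2.2 h2.1
    · have h3 := Inst.lab_Cf.1 h2
      exact h3.2.1 ⟨h3.1, h1⟩

theorem q_L (h : MinLinked I k p l q) {i : ℕ} (hi : i ≤ l) : (pl I k p l q).L (q i) := by
  have := p_R h.toDual (i := l - i) (by omega)
  rw [facts_rev_sub hi, pl_dual_R] at this
  exact this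

theorem factL (hI : I.Norm) (h : MinLinked I k p l q) {x : V} (hx : I.N x)
    (hL : ¬ (pl I k p l q).L x) : I.Cf (q 0) x ∧ ¬ I.Gm x (q 0) := by
  have hS0 := h.1.q0
  have h1 : ¬ I.Gm x (q 0) := by
    intro hG
    apply hL
    refine Inst.RL.lc (q_L h (Nat.zero_le l)) (Inst.RL.s hS0) ⟨hG, fun h2 => ?_⟩
    obtain ⟨i, hi, e1, e2⟩ := h2.2
    exact p_notS h (Nat.succ_pos i) hi (e2 ▸ hS0)
  refine ⟨?_, h1⟩
  have hne : q 0 ≠ x := fun e => hx.1 (e ▸ hS0)
  rcases hI.good x (q 0) hx hne with h2 | h2
  · rcases h2 with h3 | h3 | h3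
    · exact absurd h3.2 h1
    · exact absurd (Rch.base hS0) h3.2
    · exact absurd h3.1 h1
  · rcases h2 with h3 | h3 | h3
    · by_contra hc
      exact hx.1 (hI.sp (q 0) x hS0 h3.1 hc)
    · by_contra hc
      exact hx.1 (hI.sp (q 0) x hS0 h3.1 hc)
    · exfalso
      apply h3.2
      have key : ∀ j, j ≤ l → ReflTransGen (Del I.Gm (q 0) x) (q 0) (q j) := by
        intro j
        induction j with
        | zero => intro _; exact ReflTransGen.refl
        | succ j ih =>
          intro hj
          refine (ih (by omega)).tail ⟨h.1.qw j (by omega), fun hh => ?_⟩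
          exact hL (hh.2 ▸ q_L h hj)
      exact ⟨q l, h.1.ql, key l le_rfl⟩

theorem factR (hI : I.Norm) (h : MinLinked I k p l q) {w : V} (hw : I.N w)
    (hR : ¬ (pl I k p l q).R w) : I.Cf w (p k) ∧ ¬ I.Gp (p k) w := by
  have h1 := factL hI.toDual h.toDual (x := w) (Inst.dual_N.2 hw)
    (fun h2 => hR (pl_dual_L.1 h2))
  have e : rev k p 0 = p k := by simp [rev]
  rw [e, Inst.dual_Cf] at h1
  exact h1

theorem idxL (hI : I.Norm) (h : MinLinked I k p l q) {i : ℕ} (hi : i ≤ k) (hN : I.N (p i))
    (hL : ¬ (pl I k p l q).L (p i)) : i = 1 := by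
  have hi0 : i ≠ 0 := by
    rintro rfl
    exact hN.1 h.1.p0
  obtain ⟨hC, -⟩ := factL hI h hN hL
  have := min_p h (k' := k - i + 1) (p' := fun m => if m = 0 then q 0 else p (i + (m - 1)))
    (by simpa using h.1.q0)
    (by
      simp only [Nat.add_sub_cancel, Nat.succ_ne_zero, if_false]
      rw [show i + (k - i) = k by omega]
      exact h.1.pk)
    (fun m hm => by
      rcases m with _ | m
      · simp only [if_true, Nat.succ_ne_zero, if_false, Nat.zero_add, Nat.sub_self, Nat.add_zero]
        exact hC.1
      · simp only [Nat.succ_ne_zero, if_false, Nat.add_sub_cancel]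
        exact h.1.pw (i + m) (by omega))
    (fun u v a c b => by
      obtain ⟨m, hm, e1, e2⟩ := a
      rcases m with _ | m
      · simp only [if_true, Nat.succ_ne_zero, if_false, Nat.zero_add, Nat.sub_self,
          Nat.add_zero] at e1 e2
        obtain ⟨j, hj, e3, e4⟩ := b
        apply hL
        rw [e2, ← e4]
        exact q_L h hj
      · simp only [Nat.succ_ne_zero, if_false, Nat.add_sub_cancel] at e1 e2
        exact h.1.dis u v ⟨i + m, by omega, e1, e2⟩ b c)
  omega

theorem idxR (hI : I.Norm) (h : MinLinked I k p l q) {j : ℕ} (hj : j ≤ l) (hN : I.N (q j))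
    (hR : ¬ (pl I k p l q).R (q j)) : j + 1 = l := by
  have := idxL hI.toDual h.toDual (i := l - j) (by omega)
    (by rw [facts_rev_sub hj]; exact Inst.dual_N.2 hN)
    (by rw [facts_rev_sub hj]; exact fun h2 => hR (pl_dual_L.1 h2))
  omega

end Pool.Agent.Lib.AB474
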