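import Pool.Agent.Lib.AB474.Facts
import Pool.Agent.Lib.AB474.Done

/-!
# MODULE Fail: structure when the labels of a minimal linked pair do not give a solution (about 2 h)

STATEMENT.  I.Norm, Thin I, MinLinked I k p l q, I not solvable.  Then 3 <= k, 3 <= l and there are
x, w, J, Q with FS I k p l q x w J Q.

PROOF.  I' = pl I k p l q = I.lab Lp Lm, with Lp = Cf and Arcs k p, Lm = Cf and Arcs l q (disjoint by Linked.dis).
(0) k >= 3: k = 0 contradicts Norm.dj, k = 1 contradicts Thin.p1, k = 2 contradicts Thin.p2 (p 1 in N by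
   p_notS, p_notT).  l >= 3 similarly.
(1) p k is in I'.R and I'.L; norm_done (tails of Lp are p i, in I'.R; heads of Lm are q j, in I'.L): hence
   I'.R u I'.L = V.  I' is not solvable (solvable_of_lab).  Take A, B from hall_core for I'.
(2) Exits: for J in A: u in J, v not in J, Gm u v => Lp u v or (Cf' u v and not I'.R v)  (exitJ).
   Lost exits of J: Lp u v means u = p i, v = p (i+1).  u is not in I'.L.  i = 0, or 0 < i < k, then p i in N
   (it is not in S, T) and idxL gives i = 1.  If (p 0,p 1) is an exit of J then p 1 is not in J; if (p 1,p 2) is an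
   exit then p 1 in J.  So J has at most one lost exit, and it is (p 0, p 1) with p 1 not in J or (p 1, p 2).
   Two exits exist (two_exitsJ), so J has an exit (x,w) with Cf' x w, not I'.R w; Cf' means Cf and not an
   arc of p or of q.
(3) Cf' u v, not I'.L u, not I'.R v => u, v in N.  u not in T, v not in S.  (u in S, v in T): Thin.p1.
   u in S, v in N: factR gives Cf v (p k): contradiction to Thin.p2 (u, v, p k).  u in N, v in T: factL gives
   Cf (q 0) u: contradiction to Thin.p2 (q 0, u, v).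
(4) All J with MinJ are equal: let J1, J2 be MinJ and different, hence disjoint (the intersection would be
   ClJ).  By (2), (3) they contain x1, x2 in N (both not in I'.L).  Norm.good for x1, x2: Good x1 x2 with
   Gm x1 x2: if not Lp, then I'.Gm x1 x2 and x2 in J1 by closedness: no.  If Lp x1 x2: x1 = p i,
   x2 = p (i+1), both in N and not in I'.L, so i = 1 and i + 1 = 1 by idxL: no.  Good x1 x2 critical in Gp:
   but Cf (q 0) x2 (factL), so x2 is reached by the arc (q 0, x2) alone, and q 0 /= x1 (S, N): no.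
   Symmetric for Good x2 x1.  Dually all MinI sets are equal.
(5) So A has at most one element and B too.  For J in A dJ J is nonempty (2), for Q in B dI Q is nonempty.
   |union| < |A| + |B|.  If B is empty then |A| <= 1 and |union| >= 1: contradiction.  Same for A empty.
   So A = {J}, B = {Q}, |union| = 1: dJ J = dI Q = {(x,w)}.  x in J, w in Q, x, w in N by (3).
   cf: Cf x w; np, nm from Cf'.  sx, wy: factL, factR.  Jsub, Jcl from ClJ; Qsub, Qcl from ClI.
   Jex: exits of J are (x,w) and lost exits; there is at most one lost exit and at least two exits, so there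
   is exactly one lost exit (a,b); it has the form in (2) (a in J, b not in J).  Qex dual.
(6) JL: for v not in I'.L the set of all vertices reached from v by I'.Gm arcs between vertices outside I'.L is
   ClJ, so it contains a MinJ set (finite), which is J by (4), so contains x.  QR dual.
It is advisable to prove the J-part as a lemma and to get the Q-part from I.dual.
-/

namespace Pool.Agent.Lib.AB474

open Relation

variable {V : Type*} [Fintype V] [DecidableEq V]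

namespace FailAux

open Inst

/-! ### Duality for closed sets -/

omit [Fintype V] [DecidableEq V] in
theorem clI_dual {I : Inst V} {J : Finset V} : I.dual.ClJ J ↔ I.ClI J := by
  constructor
  · rintro ⟨h1, h2, h3⟩
    exact ⟨h1, fun u hu hR => h2 u hu (dual_L.2 hR),
      fun v hv u huv hu => h3 v hv u huv (fun h => hu (dual_L.1 h))⟩
  · rintro ⟨h1, h2, h3⟩
    exact ⟨h1, fun u hu hR => h2 u hu (dual_L.1 hR),
      fun v hv u huv hu => h3 v hv u huv (fun h => hu (dual_L.2 h))⟩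

omit [Fintype V] [DecidableEq V] in
theorem minI_dual {I : Inst V} {J : Finset V} : I.dual.MinJ J ↔ I.MinI J := by
  constructor
  · rintro ⟨h1, h2⟩
    exact ⟨clI_dual.1 h1, fun J' h hs => h2 J' (clI_dual.2 h) hs⟩
  · rintro ⟨h1, h2⟩
    exact ⟨clI_dual.2 h1, fun J' h hs => h2 J' (clI_dual.1 h) hs⟩

omit [Fintype V] [DecidableEq V] in
theorem exists_minJ {I : Inst V} {C : Finset V} (hC : I.ClJ C) : ∃ J, I.MinJ J ∧ J ⊆ C := by
  induction C using Finset.strongInduction with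
  | H C ih =>
    by_cases h : ∃ C', C' ⊂ C ∧ I.ClJ C'
    · obtain ⟨C', h1, h2⟩ := h
      obtain ⟨J, hJ, hs⟩ := ih C' h1 h2
      exact ⟨J, hJ, hs.trans h1.subset⟩
    · refine ⟨C, ⟨hC, fun J' hJ' hs => ?_⟩, Finset.Subset.refl _⟩
      by_contra hne
      exact h ⟨J', lt_of_le_of_ne hs hne, hJ'⟩

section

variable {I : Inst V} {k : ℕ} {p : ℕ → V} {l : ℕ} {q : ℕ → V}

omit [Fintype V] [DecidableEq V] in
theorem p_N (h : MinLinked I k p l q) {i : ℕ} (h0 : 0 < i) (hi : i < k) : I.N (p i) :=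
  ⟨p_notS h h0 hi.le, p_notT h hi⟩

omit [Fintype V] [DecidableEq V] in
theorem k3 (hI : I.Norm) (hth : Thin I) (h : MinLinked I k p l q) : 3 ≤ k := by
  by_contra hk
  have h0 := h.1.p0
  have hT := h.1.pk
  have hw := h.1.pw
  have hk' : k = 0 ∨ k = 1 ∨ k = 2 := by omega
  rcases hk' with rfl | rfl | rfl
  · exact hI.dj _ h0 hT
  · exact hth.p1 _ _ h0 hT (hw 0 (by omega))
  · exact hth.p2 _ _ _ h0 (p_N h (by omega) (by omega)) hT (hw 0 (by omega)) (hw 1 (by omega))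

omit [Fintype V] [DecidableEq V] in
/-- the form of a lost arc -/
theorem lost_form (hI : I.Norm) (h : MinLinked I k p l q) {u v : V} (ha : Arcs k p u v)
    (hu : ¬ (pl I k p l q).L u) : (u = p 0 ∧ v = p 1) ∨ (u = p 1 ∧ v = p 2) := by
  obtain ⟨i, hi, rfl, rfl⟩ := ha
  rcases Nat.eq_zero_or_pos i with rfl | h0
  · exact Or.inl ⟨rfl, rfl⟩
  · have := idxL hI h hi.le (p_N h h0 hi) hu
    subst this
    exact Or.inr ⟨rfl, rfl⟩

omit [Fintype V] [DecidableEq V] in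
theorem cf_N (hI : I.Norm) (hth : Thin I) (h : MinLinked I k p l q) {u v : V}
    (hcf : I.Cf u v) (hu : ¬ (pl I k p l q).L u) (hv : ¬ (pl I k p l q).R v) :
    I.N u ∧ I.N v := by
  have hTu : ¬ I.T u := fun h => hu (RL.t h)
  have hSv : ¬ I.S v := fun h => hv (RL.s h)
  have hSu : ¬ I.S u := by
    intro hS
    by_cases hT : I.T v
    · exact hth.p1 _ _ hS hT hcf.1
    · obtain ⟨h1, _⟩ := factR hI h ⟨hSv, hT⟩ hv
      exact hth.p2 _ _ _ hS ⟨hSv, hT⟩ h.1.pk hcf.1 h1.1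
  refine ⟨⟨hSu, hTu⟩, hSv, fun hT => ?_⟩
  obtain ⟨h1, _⟩ := factL hI h ⟨hSu, hTu⟩ hu
  exact hth.p2 _ _ _ h.1.q0 ⟨hSu, hTu⟩ hT h1.1 hcf.1

omit [Fintype V] [DecidableEq V] in
/-- two lost exits are equal -/
theorem lost_unique (hI : I.Norm) (h : MinLinked I k p l q) {J : Finset V}
    (hJ : (pl I k p l q).ClJ J) {a b c d : V} (h1 : Arcs k p a b) (h2 : Arcs k p c d)
    (ha : a ∈ J) (hb : b ∉ J) (hc : c ∈ J) (hd : d ∉ J) : a = c ∧ b = d := by
  rcases lost_form hI h h1 (hJ.2.1 a ha) with ⟨rfl, rfl⟩ | ⟨rfl, rfl⟩ <;>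
  rcases lost_form hI h h2 (hJ.2.1 c hc) with ⟨rfl, rfl⟩ | ⟨rfl, rfl⟩
  · exact ⟨rfl, rfl⟩
  · exact absurd hc hb
  · exact absurd ha hd
  · exact ⟨rfl, rfl⟩

/-- there is an exit which is not lost -/
theorem exists_exit (hI : I.Norm) (h : MinLinked I k p l q) {J : Finset V}
    (hJ : (pl I k p l q).ClJ J) :
    ∃ x w, x ∈ J ∧ w ∉ J ∧ (pl I k p l q).Cf x w ∧ ¬ (pl I k p l q).R w := by
  obtain ⟨a, b, c, d, ha, hb, hab, _, hc, hd, hcd, _, hne⟩ :=
    two_exitsJ (Lp := fun u v => I.Cf u v ∧ Arcs k p u v)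
      (Lm := fun u v => I.Cf u v ∧ Arcs l q u v) hI.toClosed (fun u v h => h.1) hJ
  rcases exitJ (Lp := fun u v => I.Cf u v ∧ Arcs k p u v)
      (Lm := fun u v => I.Cf u v ∧ Arcs l q u v) hJ ha hb hab with h1 | h1
  · rcases exitJ (Lp := fun u v => I.Cf u v ∧ Arcs k p u v)
      (Lm := fun u v => I.Cf u v ∧ Arcs l q u v) hJ hc hd hcd with h2 | h2
    · obtain ⟨e1, e2⟩ := lost_unique hI h hJ h1.2 h2.2 ha hb hc hd
      rcases hne with hne | hne
      · exact absurd e1 hne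
      · exact absurd e2 hne
    · exact ⟨c, d, hc, hd, h2.1, h2.2⟩
  · exact ⟨a, b, ha, hb, h1.1, h1.2⟩

omit [Fintype V] [DecidableEq V] in
theorem not_good (hI : I.Norm) (h : MinLinked I k p l q) {J : Finset V}
    (hJ : (pl I k p l q).ClJ J) {x y : V} (hx : I.N x) (hy : I.N y)
    (hxL : ¬ (pl I k p l q).L x) (hyL : ¬ (pl I k p l q).L y) (hxJ : x ∈ J) (hyJ : y ∉ J) :
    ¬ I.Good x y := by
  have hGm : ¬ I.Gm x y := by
    intro hg
    by_cases hLp : I.Cf x y ∧ Arcs k p x y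
    · obtain ⟨i, hi, rfl, rfl⟩ := hLp.2
      have e1 := idxL hI h hi.le hx hxL
      have e2 := idxL hI h (show i + 1 ≤ k by omega) hy hyL
      omega
    · exact hyJ (hJ.2.2 x hxJ y ⟨hg, hLp⟩ hyL)
  rintro (h1 | h1 | h1)
  · exact hGm h1.2
  · apply h1.2
    obtain ⟨h2, _⟩ := factL hI h hy hyL
    refine Rch.step (Rch.base h.1.q0) ⟨h2.1, ?_⟩
    rintro ⟨e, _⟩
    exact hx.1 (e ▸ h.1.q0)
  · exact hGm h1.1

theorem minJ_unique (hI : I.Norm) (hth : Thin I) (h : MinLinked I k p l q) {J1 J2 : Finset V}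
    (h1 : (pl I k p l q).MinJ J1) (h2 : (pl I k p l q).MinJ J2) : J1 = J2 := by
  by_contra hne
  have hd := MinJ.disj h1 h2 hne
  obtain ⟨x1, w1, a1, _, a3, a4⟩ := exists_exit hI h h1.1
  obtain ⟨x2, w2, b1, _, b3, b4⟩ := exists_exit hI h h2.1
  have hx1 := (cf_N hI hth h (cf_of_lab a3) (h1.1.2.1 _ a1) a4).1
  have hx2 := (cf_N hI hth h (cf_of_lab b3) (h2.1.2.1 _ b1) b4).1
  have hn1 : x1 ∉ J2 := hd x1 a1
  have hn2 : x2 ∉ J1 := fun hh => hd x2 hh b1
  have hne' : x2 ≠ x1 := fun e => hn2 (e ▸ a1)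
  rcases hI.good x1 x2 hx1 hne' with hg | hg
  · exact not_good hI h h1.1 hx1 hx2 (h1.1.2.1 _ a1) (h2.1.2.1 _ b1) a1 hn2 hg
  · exact not_good hI h h2.1 hx2 hx1 (h2.1.2.1 _ b1) (h1.1.2.1 _ a1) b1 hn1 hg

theorem exitsJ (hI : I.Norm) (h : MinLinked I k p l q) {J : Finset V}
    (hJ : (pl I k p l q).ClJ J) {x w : V}
    (hxw : ∀ u v, u ∈ J → v ∉ J → (pl I k p l q).Cf u v → u = x ∧ v = w) :
    ∃ a b, I.Cf a b ∧ a ∈ J ∧ b ∉ J ∧ ((a = p 0 ∧ b = p 1) ∨ (a = p 1 ∧ b = p 2)) ∧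
    ∀ u v, u ∈ J → v ∉ J → I.Gm u v → (u = x ∧ v = w) ∨ (u = a ∧ v = b) := by
  have key : ∀ u v, u ∈ J → v ∉ J → I.Gm u v →
      (I.Cf u v ∧ Arcs k p u v) ∨ (u = x ∧ v = w) := by
    intro u v hu hv huv
    rcases exitJ (Lp := fun u v => I.Cf u v ∧ Arcs k p u v)
      (Lm := fun u v => I.Cf u v ∧ Arcs l q u v) hJ hu hv huv with h1 | h1
    · exact Or.inl h1
    · exact Or.inr (hxw u v hu hv h1.1)
  have hlost : ∃ a b, a ∈ J ∧ b ∉ J ∧ I.Cf a b ∧ Arcs k p a b := by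
    obtain ⟨a, b, c, d, ha, hb, hab, _, hc, hd, hcd, _, hne⟩ :=
      two_exitsJ (Lp := fun u v => I.Cf u v ∧ Arcs k p u v)
        (Lm := fun u v => I.Cf u v ∧ Arcs l q u v) hI.toClosed (fun u v h => h.1) hJ
    rcases key a b ha hb hab with h1 | h1
    · exact ⟨a, b, ha, hb, h1.1, h1.2⟩
    · rcases key c d hc hd hcd with h2 | h2
      · exact ⟨c, d, hc, hd, h2.1, h2.2⟩
      · exfalso
        rcases hne with hne | hne
        · exact hne (h1.1.trans h2.1.symm)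
        · exact hne (h1.2.trans h2.2.symm)
  obtain ⟨a, b, ha, hb, hcf, harc⟩ := hlost
  refine ⟨a, b, hcf, ha, hb, lost_form hI h harc (hJ.2.1 a ha), fun u v hu hv huv => ?_⟩
  rcases key u v hu hv huv with h1 | h1
  · exact Or.inr (lost_unique hI h hJ h1.2 harc hu hv ha hb)
  · exact Or.inl h1

theorem reach_x (hI : I.Norm) (hth : Thin I) (h : MinLinked I k p l q) {J : Finset V}
    (hJ : (pl I k p l q).MinJ J) {x : V} (hx : x ∈ J) {v : V} (hv : ¬ (pl I k p l q).L v) :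
    ReflTransGen (fun a b => (pl I k p l q).Gm a b ∧ ¬ (pl I k p l q).L a ∧
      ¬ (pl I k p l q).L b) v x := by
  classical
  let C : Finset V := Finset.univ.filter fun u => ReflTransGen (fun a b =>
    (pl I k p l q).Gm a b ∧ ¬ (pl I k p l q).L a ∧ ¬ (pl I k p l q).L b) v u
  have hC : ∀ u, u ∈ C ↔ ReflTransGen (fun a b =>
    (pl I k p l q).Gm a b ∧ ¬ (pl I k p l q).L a ∧ ¬ (pl I k p l q).L b) v u := by
    intro u
    simp [C]
  have hCL : ∀ u ∈ C, ¬ (pl I k p l q).L u := by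
    intro u hu
    rw [hC] at hu
    cases hu with
    | refl => exact hv
    | tail _ h1 => exact h1.2.2
  have hcl : (pl I k p l q).ClJ C := by
    refine ⟨⟨v, (hC v).2 ReflTransGen.refl⟩, hCL, fun u hu w huw hw => ?_⟩
    exact (hC w).2 (((hC u).1 hu).tail ⟨huw, hCL u hu, hw⟩)
  obtain ⟨J', hJ', hs⟩ := exists_minJ hcl
  rw [minJ_unique hI hth h hJ' hJ] at hs
  exact (hC x).1 (hs hx)

end

end FailAux

open FailAux Inst

theorem fail_structure {I : Inst V} {k : ℕ} {p : ℕ → V} {l : ℕ} {q : ℕ → V} (hI : I.Norm)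
    (hth : Thin I) (h : MinLinked I k p l q) (hns : ¬ I.Solvable) :
    3 ≤ k ∧ 3 ≤ l ∧ ∃ x w J Q, FS I k p l q x w J Q := by
  classical
  have hID := hI.toDual
  have hthD := hth.toDual
  have hD := h.toDual
  refine ⟨k3 hI hth h, k3 hID hthD hD, ?_⟩
  -- coverage
  have hcov : ∀ v, (pl I k p l q).R v ∨ (pl I k p l q).L v := by
    refine norm_done (v := p k) hI ?_ ?_ (p_R h le_rfl) (RL.t h.1.pk)
    · rintro u v ⟨_, i, hi, rfl, rfl⟩
      exact p_R h hi.le
    · rintro u v ⟨_, i, hi, rfl, rfl⟩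
      exact q_L h (show i + 1 ≤ l by omega)
  have hns' : ¬ (pl I k p l q).Solvable := fun hs => hns (solvable_of_lab hs)
  obtain ⟨A, B, hA, hB, hcard⟩ := hall_core _ hcov hns'
  -- dual facts
  have eD : (pl I k p l q).dual = pl I.dual l (rev l q) k (rev k p) := pl_dual
  have hA1 : A.card ≤ 1 := Finset.card_le_one.2 fun J1 h1 J2 h2 =>
    minJ_unique hI hth h (hA J1 h1) (hA J2 h2)
  have hB' : ∀ J ∈ B, (pl I.dual l (rev l q) k (rev k p)).MinJ J := by
    intro J hJ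
    rw [← eD]
    exact minI_dual.2 (hB J hJ)
  have hB1 : B.card ≤ 1 := Finset.card_le_one.2 fun J1 h1 J2 h2 =>
    minJ_unique hID hthD hD (hB' J1 h1) (hB' J2 h2)
  have hdJ : ∀ J ∈ A, ((pl I k p l q).dJ J).Nonempty := by
    intro J hJ
    obtain ⟨x, w, a1, a2, a3, _⟩ := exists_exit hI h (hA J hJ).1
    exact ⟨(x, w), mem_dJ.2 ⟨a3, a1, a2⟩⟩
  have hdI : ∀ J ∈ B, ((pl I k p l q).dI J).Nonempty := by
    intro J hJ
    obtain ⟨x, w, a1, a2, a3, _⟩ := exists_exit hID hD (hB' J hJ).1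
    rw [← eD] at a3
    exact ⟨(w, x), mem_dI.2 ⟨dual_Cf.1 a3, a2, a1⟩⟩
  have hU : (A.biUnion (pl I k p l q).dJ ∪ B.biUnion (pl I k p l q).dI).Nonempty := by
    have hpos : 0 < A.card + B.card := by omega
    rcases Nat.eq_zero_or_pos A.card with h0 | h0
    · obtain ⟨Q, hQ⟩ := Finset.card_pos.1 (show 0 < B.card by omega)
      obtain ⟨e, he⟩ := hdI Q hQ
      exact ⟨e, Finset.mem_union_right _ (Finset.mem_biUnion.2 ⟨Q, hQ, he⟩)⟩
    · obtain ⟨J, hJ⟩ := Finset.card_pos.1 h0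
      obtain ⟨e, he⟩ := hdJ J hJ
      exact ⟨e, Finset.mem_union_left _ (Finset.mem_biUnion.2 ⟨J, hJ, he⟩)⟩
  have hU1 := Finset.card_pos.2 hU
  have hAc : 0 < A.card := by omega
  have hBc : 0 < B.card := by omega
  have hU2 : (A.biUnion (pl I k p l q).dJ ∪ B.biUnion (pl I k p l q).dI).card ≤ 1 := by omega
  obtain ⟨J, hJ⟩ := Finset.card_pos.1 hAc
  obtain ⟨Q, hQ⟩ := Finset.card_pos.1 hBc
  obtain ⟨⟨x, w⟩, he⟩ := hdJ J hJ
  have heU : (x, w) ∈ A.biUnion (pl I k p l q).dJ ∪ B.biUnion (pl I k p l q).dI :=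
    Finset.mem_union_left _ (Finset.mem_biUnion.2 ⟨J, hJ, he⟩)
  have hallJ : ∀ e ∈ (pl I k p l q).dJ J, e = (x, w) := fun e he' =>
    Finset.card_le_one.1 hU2 e (Finset.mem_union_left _ (Finset.mem_biUnion.2 ⟨J, hJ, he'⟩)) _ heU
  have hallQ : ∀ e ∈ (pl I k p l q).dI Q, e = (x, w) := fun e he' =>
    Finset.card_le_one.1 hU2 e (Finset.mem_union_right _ (Finset.mem_biUnion.2 ⟨Q, hQ, he'⟩)) _ heU
  obtain ⟨hcf', hxJ, hwJ⟩ := mem_dJ.1 he
  have heQ : (x, w) ∈ (pl I k p l q).dI Q := by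
    obtain ⟨e, he'⟩ := hdI Q hQ
    rw [← hallQ e he']
    exact he'
  obtain ⟨_, hxQ, hwQ⟩ := mem_dI.1 heQ
  have hmJ := hA J hJ
  have hmQ := hB J
  have hmQ' := hB' Q hQ
  have hmQ0 := hB Q hQ
  have hxL : ¬ (pl I k p l q).L x := hmJ.1.2.1 x hxJ
  have hwR : ¬ (pl I k p l q).R w := hmQ0.1.2.1 w hwQ
  have hcf : I.Cf x w := cf_of_lab hcf'
  obtain ⟨hxN, hwN⟩ := cf_N hI hth h hcf hxL hwR
  have hnl := lab_Cf.1 hcf'
  have hexJ := exitsJ hI h hmJ.1 (x := x) (w := w) (fun u v hu hv huv => by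
    have := hallJ (u, v) (mem_dJ.2 ⟨huv, hu, hv⟩)
    exact ⟨congrArg Prod.fst this, congrArg Prod.snd this⟩)
  have hexQ := exitsJ hID hD hmQ'.1 (x := w) (w := x) (fun u v hu hv huv => by
    rw [← eD] at huv
    have := hallQ (v, u) (mem_dI.2 ⟨dual_Cf.1 huv, hv, hu⟩)
    exact ⟨congrArg Prod.snd this, congrArg Prod.fst this⟩)
  refine ⟨x, w, fun v => v ∈ J, fun v => v ∈ Q, ?_⟩
  refine ⟨hxN, hwN, hcf, fun ha => hnl.2.1 ⟨hcf, ha⟩, fun ha => hnl.2.2 ⟨hcf, ha⟩,
    (factL hI h hxN hxL).1, (factR hI h hwN hwR).1, hxJ, hwQ, hmJ.1.2.1, hmQ0.1.2.1,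
    fun u v hu huv hv => hmJ.1.2.2 u hu v huv hv, fun u v hv huv hu => hmQ0.1.2.2 v hv u huv hu,
    hexJ, ?_, fun v hv => reach_x hI hth h hmJ hxJ hv, ?_⟩
  · obtain ⟨a, b, h1, h2, h3, h4, h5⟩ := hexQ
    refine ⟨b, a, dual_Cf.1 h1, h3, h2, ?_, fun u v hu hv huv => ?_⟩
    · have e0 : rev l q 0 = q l := by simp [rev]
      have e1 : rev l q 1 = q (l - 1) := rfl
      have e2 : rev l q 2 = q (l - 2) := rfl
      rw [e0, e1, e2] at h4
      tauto
    · have := h5 v u hv hu huv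
      tauto
  · intro v hv
    have hv' : ¬ (pl I.dual l (rev l q) k (rev k p)).L v := by
      rw [pl_dual_L]
      exact hv
    have := reach_x hID hthD hD hmQ' hwQ hv'
    refine rtmono this.swap ?_
    rintro a b ⟨h1, h2, h3⟩
    rw [pl_dual_Gm] at h1
    rw [pl_dual_L] at h2 h3
    exact ⟨h1, h3, h2⟩

end Pool.Agent.Lib.AB474
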