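import Pool.Agent.Lib.AB474.Facts
import Pool.Agent.Lib.AB474.Done

/-!
# MODULE Fix: short configuration (k = l = 3, p 2 = q 1) with a conflict arc p 2 -> y (about 1 h)

STATEMENT.  I.Norm, ConfE I 3 p 3 q J Q, p 2 = q 1, Cf (p 2) (p 3)  =>  I.Solvable.
(dual: Cf (q 0) (q 1) => Solvable.)

NOTATION.  s' = p 0 = q 0, x = p 1, w = q 2, y = p 3 = q 3, m = p 2 = q 1.  Distinct: s', x, m, y (p_inj), s', m, w, y
(q_inj), x /= w (I'.R x, not I'.R w, I' = pl I 3 p 3 q).  Cf s' x, Cf x m, Cf x w, Cf m w, Cf w y, Cf m y, Gm s' m.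
PROOF.  Lp = {(s',x), (x,m), (m,w), (w,y)}, Lm = {(m,y)} and, if Cf s' m, (s',m)
(Lm u v := Cf u v and ((u = m and v = y) or (u = s' and v = m))).
I3 = I.lab Lp Lm.  s', x, m, w, y in I3.R; s', m, y in I3.L.  norm_done: I3.R u I3.L = V.
(1) w in I3.L.  Otherwise: Norm.good for w and s'.  Gm w s': not labelled; I3.R s', I3.L s', so I3.L w by lc: no.
   Gp w s' critical: S s': no.  Gp s' w: s' is not in Q (Qsub, S s'), Q w, so Qex: s' = x or s' = q 1 = m: no.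
   Gm s' w with not Col (Del Gm s' w) T s': s' -> m -> y in Gm: no.
(2) x in I3.L: Gm x w unlabelled, I3.R w, I3.L w: lc.
(3) no Lost arc: tails s', x, m, w of Lp are in I3.L, heads y, m of Lm are in I3.R.  hall_one.
-/

namespace Pool.Agent.Lib.AB474

open Relation

variable {V : Type*} [Fintype V] [DecidableEq V]

namespace FixAux

theorem core {I : Inst V} (hI : I.Norm) {s x m w y : V} (hs : I.S s) (hy : I.T y) (hwN : I.N w)
    (sx : s ≠ x) (sm : s ≠ m) (sw : s ≠ w) (sy : s ≠ y) (xm : x ≠ m) (xw : x ≠ w) (xy : x ≠ y)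
    (mw : m ≠ w) (my : m ≠ y) (wy : w ≠ y)
    (c1 : I.Cf s x) (c2 : I.Cf x m) (c3 : I.Cf x w) (c4 : I.Cf m w) (c5 : I.Cf w y) (c6 : I.Cf m y)
    (g : I.Gm s m) (hsw : ¬ I.Gp s w) : I.Solvable := by
  set Lp : V → V → Prop := fun u v => (u = s ∧ v = x) ∨ (u = x ∧ v = m) ∨ (u = m ∧ v = w) ∨ (u = w ∧ v = y)
    with hLpdef
  set Lm : V → V → Prop := fun u v => I.Cf u v ∧ ((u = m ∧ v = y) ∨ (u = s ∧ v = m)) with hLmdef
  have hnc : ∀ u v, Lp u v ∨ Lm u v → ¬ (I.lab Lp Lm).Cf u v := by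
    intro u v h hc
    rw [Inst.lab_Cf] at hc
    rcases h with h | h
    · exact hc.2.1 h
    · exact hc.2.2 h
  have rs : (I.lab Lp Lm).R s := Inst.RL.s hs
  have rx : (I.lab Lp Lm).R x := by
    refine Inst.RL.rp rs ⟨c1.1, ?_⟩ (hnc _ _ (Or.inl (Or.inl ⟨rfl, rfl⟩)))
    rintro ⟨-, ⟨h, -⟩ | ⟨-, h⟩⟩
    · exact sm h
    · exact xm h
  have rm : (I.lab Lp Lm).R m := by
    refine Inst.RL.rp rx ⟨c2.1, ?_⟩ (hnc _ _ (Or.inl (Or.inr (Or.inl ⟨rfl, rfl⟩))))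
    rintro ⟨-, ⟨h, -⟩ | ⟨h, -⟩⟩
    · exact xm h
    · exact sx h.symm
  have rw' : (I.lab Lp Lm).R w := by
    refine Inst.RL.rp rm ⟨c4.1, ?_⟩ (hnc _ _ (Or.inl (Or.inr (Or.inr (Or.inl ⟨rfl, rfl⟩)))))
    rintro ⟨-, ⟨-, h⟩ | ⟨h, -⟩⟩
    · exact wy h
    · exact sm h.symm
  have ry : (I.lab Lp Lm).R y := by
    refine Inst.RL.rp rw' ⟨c5.1, ?_⟩ (hnc _ _ (Or.inl (Or.inr (Or.inr (Or.inr ⟨rfl, rfl⟩)))))
    rintro ⟨-, ⟨h, -⟩ | ⟨h, -⟩⟩
    · exact mw h.symm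
    · exact sw h.symm
  have ly : (I.lab Lp Lm).L y := Inst.RL.t hy
  have lm : (I.lab Lp Lm).L m := by
    refine Inst.RL.lm ly ⟨c6.2.1, ?_⟩ (hnc _ _ (Or.inr ⟨c6, Or.inl ⟨rfl, rfl⟩⟩))
    rintro (⟨h, -⟩ | ⟨h, -⟩ | ⟨-, h⟩ | ⟨h, -⟩)
    · exact sm h.symm
    · exact xm h.symm
    · exact wy h.symm
    · exact mw h
  have ls : (I.lab Lp Lm).L s := by
    refine Inst.RL.lm lm ⟨g, ?_⟩ ?_
    · rintro (⟨-, h⟩ | ⟨h, -⟩ | ⟨h, -⟩ | ⟨h, -⟩)
      · exact xm h.symm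
      · exact sx h
      · exact sm h
      · exact sw h
    · intro hc
      have hc' := Inst.lab_Cf.1 hc
      exact hc'.2.2 ⟨hc'.1, Or.inr ⟨rfl, rfl⟩⟩
  have hcov : ∀ n, (I.lab Lp Lm).R n ∨ (I.lab Lp Lm).L n := by
    refine Inst.norm_done hI ?_ ?_ ry ly
    · rintro u v (⟨rfl, -⟩ | ⟨rfl, -⟩ | ⟨rfl, -⟩ | ⟨rfl, -⟩)
      · exact rs
      · exact rx
      · exact rm
      · exact rw'
    · rintro u v ⟨-, ⟨-, rfl⟩ | ⟨-, rfl⟩⟩
      · exact ly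
      · exact lm
  have lw : (I.lab Lp Lm).L w := by
    have hgm : I.Gm w s → (I.lab Lp Lm).L w := by
      intro h
      refine Inst.RL.lc ls rs ⟨h, ?_⟩
      rintro (⟨h, -⟩ | ⟨h, -⟩ | ⟨h, -⟩ | ⟨-, h⟩)
      · exact sw h.symm
      · exact xw h.symm
      · exact mw h.symm
      · exact sy h
    rcases hI.good w s hwN sw with h | h
    · rcases h with h | h | h
      · exact hgm h.2
      · exact absurd (Rch.base hs) h.2
      · exact hgm h.1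
    · rcases h with h | h | h
      · exact absurd h.1 hsw
      · exact absurd h.1 hsw
      · exfalso
        apply h.2
        have h1 : Col (Del I.Gm s w) I.T y := Col.base hy
        have h2 : Col (Del I.Gm s w) I.T m := h1.step ⟨c6.2.1, fun hh => sm hh.1.symm⟩
        exact h2.step ⟨g, fun hh => mw hh.2⟩
  have lx : (I.lab Lp Lm).L x := by
    refine Inst.RL.lc lw rw' ⟨c3.2.1, ?_⟩
    rintro (⟨h, -⟩ | ⟨-, h⟩ | ⟨h, -⟩ | ⟨h, -⟩)
    · exact sx h.symm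
    · exact mw h.symm
    · exact xm h
    · exact xw h
  have hno : ∀ u v, ¬ I.Lost Lp Lm u v := by
    rintro u v (⟨h1, h2⟩ | ⟨h1, h2⟩)
    · rcases h1 with ⟨rfl, -⟩ | ⟨rfl, -⟩ | ⟨rfl, -⟩ | ⟨rfl, -⟩
      · exact h2 ls
      · exact h2 lx
      · exact h2 lm
      · exact h2 lw
    · rcases h1.2 with ⟨-, rfl⟩ | ⟨-, rfl⟩
      · exact h2 ry
      · exact h2 rm
  refine Inst.hall_one (Lp := Lp) (Lm := Lm) hI.toClosed ?_ (fun u v h => h.1) ?_ hcov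
    (fun u v u' v' h _ => absurd h (hno u v))
  · rintro u v (⟨rfl, rfl⟩ | ⟨rfl, rfl⟩ | ⟨rfl, rfl⟩ | ⟨rfl, rfl⟩)
    · exact c1
    · exact c2
    · exact c4
    · exact c5
  · rintro u v (⟨rfl, rfl⟩ | ⟨rfl, rfl⟩ | ⟨rfl, rfl⟩ | ⟨rfl, rfl⟩) ⟨-, ⟨h1, h2⟩ | ⟨h1, h2⟩⟩
    · exact sm h1
    · exact xm h2
    · exact xm h1
    · exact sx h1.symm
    · exact wy h2
    · exact sm h1.symm
    · exact mw h1.symm
    · exact sw h1.symm

end FixAux

theorem fix_p {I : Inst V} {p : ℕ → V} {q : ℕ → V} {J Q : V → Prop}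
    (hI : I.Norm) (h : ConfE I 3 p 3 q J Q) (he : p 2 = q 1) (hc : I.Cf (p 2) (p 3)) :
    I.Solvable := by
  have hs : I.S (p 0) := h.ml.1.p0
  have hy : I.T (p 3) := h.ml.1.pk
  have hp : ∀ i j, i ≤ 3 → j ≤ 3 → i ≠ j → p i ≠ p j := fun i j hi hj hij e => hij (p_inj h.ml hi hj e)
  have hq : ∀ i j, i ≤ 3 → j ≤ 3 → i ≠ j → q i ≠ q j := fun i j hi hj hij e => hij (q_inj h.ml hi hj e)
  have e0 : p 0 = q 0 := h.s
  have e3 : p 3 = q 3 := h.y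
  have hwN : I.N (q 2) := h.wN
  have hxw : p 1 ≠ q 2 := by
    intro e
    have h1 : (pl I 3 p 3 q).R (p 1) := p_R h.ml (by norm_num)
    rw [e] at h1
    exact h.Qsub _ h.Qw h1
  refine FixAux.core (s := p 0) (x := p 1) (m := p 2) (w := q 2) (y := p 3) hI hs hy hwN
    (hp 0 1 (by norm_num) (by norm_num) (by norm_num)) (hp 0 2 (by norm_num) (by norm_num) (by norm_num))
    (by rw [e0]; exact hq 0 2 (by norm_num) (by norm_num) (by norm_num))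
    (hp 0 3 (by norm_num) (by norm_num) (by norm_num))
    (hp 1 2 (by norm_num) (by norm_num) (by norm_num)) hxw
    (hp 1 3 (by norm_num) (by norm_num) (by norm_num))
    (by rw [he]; exact hq 1 2 (by norm_num) (by norm_num) (by norm_num))
    (hp 2 3 (by norm_num) (by norm_num) (by norm_num))
    (by rw [e3]; exact hq 2 3 (by norm_num) (by norm_num) (by norm_num))
    h.sx h.xa h.cf (by rw [he]; exact h.bw) (by rw [e3]; exact h.wy) hc ?_ ?_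
  · rw [e0, he]
    exact h.ml.1.qw 0 (by norm_num)
  · intro hg
    have hnQ : ¬ Q (p 0) := fun hQ => h.Qsub _ hQ (Inst.RL.s hs)
    have h1 := h.Qex (p 0) (q 2) hnQ h.Qw hg
    rcases h1.2 with h2 | h2
    · exact hp 0 1 (by norm_num) (by norm_num) (by norm_num) h2
    · have h3 : p 0 = q 1 := h2
      rw [e0] at h3
      exact hq 0 1 (by norm_num) (by norm_num) (by norm_num) h3

theorem fix_q {I : Inst V} {p : ℕ → V} {q : ℕ → V} {J Q : V → Prop}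
    (hI : I.Norm) (h : ConfE I 3 p 3 q J Q) (he : p 2 = q 1) (hc : I.Cf (q 0) (q 1)) :
    I.Solvable := by
  rw [← Inst.dual_Solvable]
  refine fix_p hI.toDual h.toDual ?_ ?_
  · exact he.symm
  · exact Inst.dual_Cf.2 hc

end Pool.Agent.Lib.AB474
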