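import Pool.Agent.Lib.AB474.Basic

/-!
# MODULE Hall: Hall condition for an instance with R u L = V   (about 1.5 h)

PROOF.  `I` arbitrary instance on a finite type with `R v or L v` for all v.  Suppose there are
injective choices: for every `MinJ` set J a conflict arc f(J) in `dJ I J`, for every `MinI` set J a
conflict arc g(J) in `dI I J`, all these arcs different.  Then `I.Solvable`.

Step 1 (the fixpoint can be realised).  There are relations Up, Um (contained in Cf) with
  Up u v -> R u /\ L u /\ R v,   Um u v -> R v /\ L v /\ L u,  Up, Um disjoint,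
  every v in R is reached from S by arcs  (Gp u v /\ not Cf u v) or Up u v,
  every v in L leads to T by arcs (Gm u v /\ not Cf u v) or Um u v.
 Proof: among all (X, Y, Up, Um) with X, Y finsets, X subset R, Y subset L, Up, Um subset Cf,
  Up u v -> X u, Y u, X v;  Um u v -> X v, Y v, Y u;  disjoint; every v in X reached from S by
  (Gp, not Cf) or Up arcs, every v in Y leads to T by (Gm, not Cf) or Um arcs, take one with
  card X + card Y maximal (X = Y = empty is allowed, or start with S, T).  Then (X,Y) is closed under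
  the six rules of RL: e.g. rule rc with u in X, u in Y, Gp u v, v not in X, Cf u v: the arc (u,v) is
  not in Um since Um u v -> X v; add v to X and (u,v) to Up.  Rule lc: v in X, Y, Gm u v, u not in Y,
  Cf u v: (u,v) is not in Up since Up u v -> Y u; add u to Y and (u,v) to Um.  So X = R, Y = L
  (use Inst.RL_ind).
Step 2.  X0 := Up  u  {g(J)}  u  {(u,v) in Cf : not R u, not R v}.  Plus side = arcs in Gp with
  (K -> X0), minus side = arcs of Gm with (K -> not X0).
  - R vertices are reached (Up arcs and arcs not in Cf; an arc of Gp which is not Cf but has K: then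
    Gm u v is false, so it may be added to X0: so let X0 also contain all pairs with not Gm u v; and
    an arc of Gm, K, not Cf has not Gp u v, hence must not be in X0 because of the first two parts:
    they are contained in Cf, fine; but pairs with not Gm are harmless for the minus side.)
  - v not in R: let B = {a : not R a, a reaches v by arcs of Gp inside the complement of R}.
    B is a finite nonempty set, backward closed in the complement of R; it contains a minimal
    nonempty backward closed set J (= MinI).  g(J) = (a,b), Cf a b, a not in J, b in J.  As J is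
    backward closed in the complement of R, R a.  a is reached by the plus side; g(J) is a plus arc;
    from b all vertices of J, in particular one leading to v, are reached by Gp arcs inside the
    complement of R (the set of vertices of J from which ... : for b in J the set of all c in J
    reaching b inside is nonempty and backward closed, so = J; hence every c in J reaches every
    b' in J).  All Gp arcs inside the complement of R are plus arcs by the third part of X0.
  - L vertices lead to T: Um arcs are not in X0: not in Up (disjoint), not of the form g(J) (head of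
    Um is in R, head of g(J) is in J, outside R), and their head is in R.
  - v not in L: there is a forward closed minimal set J (MinJ) reachable from v inside the complement
    of L by Gm arcs.  f(J) = (a,b), a in J, b not in J, so L b.  f(J) is a minus arc: not in Up (tails
    of Up arcs are in L), not g(J') (injectivity), and a in R (since a not in L, R u L = V).
    Arcs of Gm inside the complement of L are minus arcs: an arc (c,d) with not L c: not in Up; if it
    were g(J') for some J': g(J') = (c,d) with d in J' so not R d, so L d.  But d is not in L.  Third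
    part: not R c: then L c.  Fine.  So v leads to T.
Step 3.  If `I` is not solvable there is no such injective choice; by Hall's theorem
  (`Finset.all_card_le_biUnion_card_iff_exists_injective` for the index type
  {J // MinJ I J} + {J // MinI I J}) there is a finite set of demands with a small union.

NOTE for MinJ: a conflict arc (u,v) with u in J, v not in J (J forward closed in the complement
of L).
-/

namespace Pool.Agent.Lib.AB474

open Relation

variable {V : Type*} [Fintype V] [DecidableEq V]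

namespace Inst

/-- `J` is a nonempty set outside `L`, closed under the minus arcs which stay outside `L`. -/
def ClJ (I : Inst V) (J : Finset V) : Prop :=
  J.Nonempty ∧ (∀ u ∈ J, ¬ I.L u) ∧ ∀ u ∈ J, ∀ v, I.Gm u v → ¬ I.L v → v ∈ J

/-- Minimal such sets. -/
def MinJ (I : Inst V) (J : Finset V) : Prop := I.ClJ J ∧ ∀ J', I.ClJ J' → J' ⊆ J → J' = J

/-- `J` is a nonempty set outside `R`, closed under the plus arcs coming from outside `R`. -/
def ClI (I : Inst V) (J : Finset V) : Prop :=
  J.Nonempty ∧ (∀ u ∈ J, ¬ I.R u) ∧ ∀ v ∈ J, ∀ u, I.Gp u v → ¬ I.R u → u ∈ J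

/-- Minimal such sets. -/
def MinI (I : Inst V) (J : Finset V) : Prop := I.ClI J ∧ ∀ J', I.ClI J' → J' ⊆ J → J' = J

open Classical in
/-- The conflict arcs leaving `J`. -/
noncomputable def dJ (I : Inst V) (J : Finset V) : Finset (V × V) :=
  Finset.univ.filter (fun e => I.Cf e.1 e.2 ∧ e.1 ∈ J ∧ e.2 ∉ J)

open Classical in
/-- The conflict arcs entering `J`. -/
noncomputable def dI (I : Inst V) (J : Finset V) : Finset (V × V) :=
  Finset.univ.filter (fun e => I.Cf e.1 e.2 ∧ e.1 ∉ J ∧ e.2 ∈ J)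

namespace HallAux

set_option linter.unusedSectionVars false

/-- a stage of the realisation of the fixpoint -/
structure Stage (I : Inst V) (X Y : Finset V) (Up Um : V → V → Prop) : Prop where
  xr : ∀ v ∈ X, I.R v
  yl : ∀ v ∈ Y, I.L v
  up : ∀ u v, Up u v → I.Cf u v ∧ u ∈ X ∧ u ∈ Y ∧ v ∈ X
  um : ∀ u v, Um u v → I.Cf u v ∧ v ∈ X ∧ v ∈ Y ∧ u ∈ Y
  dis : ∀ u v, Up u v → ¬ Um u v
  rx : ∀ v ∈ X, Rch (fun a b => (I.Gp a b ∧ ¬ I.Cf a b) ∨ Up a b) I.S v
  cy : ∀ v ∈ Y, Col (fun a b => (I.Gm a b ∧ ¬ I.Cf a b) ∨ Um a b) I.T v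

theorem exists_max (I : Inst V) : ∃ (X Y : Finset V) (Up Um : V → V → Prop), Stage I X Y Up Um ∧
    ∀ X' Y' Up' Um', Stage I X' Y' Up' Um' → X'.card + Y'.card ≤ X.card + Y.card := by
  classical
  let P : ℕ → Prop := fun n => ∃ (X Y : Finset V) (Up Um : V → V → Prop),
    Stage I X Y Up Um ∧ X.card + Y.card = n
  have h0 : P 0 := ⟨∅, ∅, fun _ _ => False, fun _ _ => False,
    ⟨by simp, by simp, by simp, by simp, by simp, by simp, by simp⟩, by simp⟩
  have hb : ∀ n, P n → n ≤ 2 * Fintype.card V := by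
    rintro n ⟨X, Y, Up, Um, _, rfl⟩
    have h1 := Finset.card_le_univ X
    have h2 := Finset.card_le_univ Y
    omega
  have h1 := Nat.findGreatest_spec (P := P) (Nat.zero_le (2 * Fintype.card V)) h0
  obtain ⟨X, Y, Up, Um, hs, hc⟩ := h1
  refine ⟨X, Y, Up, Um, hs, fun X' Y' Up' Um' hs' => ?_⟩
  rw [hc]
  exact Nat.le_findGreatest (hb _ ⟨X', Y', Up', Um', hs', rfl⟩) ⟨X', Y', Up', Um', hs', rfl⟩

section
variable {I : Inst V} {X Y : Finset V} {Up Um : V → V → Prop}

theorem Stage.addX (h : Stage I X Y Up Um) {v : V} (hv : I.R v)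
    (hr : Rch (fun a b => (I.Gp a b ∧ ¬ I.Cf a b) ∨ Up a b) I.S v) :
    Stage I (insert v X) Y Up Um where
  xr u hu := by
    rcases Finset.mem_insert.1 hu with rfl | hu
    · exact hv
    · exact h.xr u hu
  yl := h.yl
  up a b hab := by
    obtain ⟨h1, h2, h3, h4⟩ := h.up a b hab
    exact ⟨h1, Finset.mem_insert_of_mem h2, h3, Finset.mem_insert_of_mem h4⟩
  um a b hab := by
    obtain ⟨h1, h2, h3, h4⟩ := h.um a b hab
    exact ⟨h1, Finset.mem_insert_of_mem h2, h3, h4⟩
  dis := h.dis
  rx u hu := by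
    rcases Finset.mem_insert.1 hu with rfl | hu
    · exact hr
    · exact h.rx u hu
  cy := h.cy

theorem Stage.addY (h : Stage I X Y Up Um) {v : V} (hv : I.L v)
    (hr : Col (fun a b => (I.Gm a b ∧ ¬ I.Cf a b) ∨ Um a b) I.T v) :
    Stage I X (insert v Y) Up Um where
  xr := h.xr
  yl u hu := by
    rcases Finset.mem_insert.1 hu with rfl | hu
    · exact hv
    · exact h.yl u hu
  up a b hab := by
    obtain ⟨h1, h2, h3, h4⟩ := h.up a b hab
    exact ⟨h1, h2, Finset.mem_insert_of_mem h3, h4⟩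
  um a b hab := by
    obtain ⟨h1, h2, h3, h4⟩ := h.um a b hab
    exact ⟨h1, h2, Finset.mem_insert_of_mem h3, Finset.mem_insert_of_mem h4⟩
  dis := h.dis
  rx := h.rx
  cy u hu := by
    rcases Finset.mem_insert.1 hu with rfl | hu
    · exact hr
    · exact h.cy u hu

theorem Stage.addUp (h : Stage I X Y Up Um) {u v : V} (hu : u ∈ X) (hu' : u ∈ Y)
    (huv : I.Cf u v) (hv : v ∉ X) :
    Stage I (insert v X) Y (fun a b => Up a b ∨ (a = u ∧ b = v)) Um where
  xr w hw := by
    rcases Finset.mem_insert.1 hw with rfl | hw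
    · exact RL.rc (h.xr u hu) (h.yl u hu') huv.1
    · exact h.xr w hw
  yl := h.yl
  up a b hab := by
    rcases hab with hab | ⟨rfl, rfl⟩
    · obtain ⟨h1, h2, h3, h4⟩ := h.up a b hab
      exact ⟨h1, Finset.mem_insert_of_mem h2, h3, Finset.mem_insert_of_mem h4⟩
    · exact ⟨huv, Finset.mem_insert_of_mem hu, hu', Finset.mem_insert_self _ _⟩
  um a b hab := by
    obtain ⟨h1, h2, h3, h4⟩ := h.um a b hab
    exact ⟨h1, Finset.mem_insert_of_mem h2, h3, h4⟩
  dis a b hab := by
    rcases hab with hab | ⟨rfl, rfl⟩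
    · exact h.dis a b hab
    · intro hh
      exact hv (h.um _ _ hh).2.1
  rx w hw := by
    have key : ∀ w ∈ X, Rch (fun a b => (I.Gp a b ∧ ¬ I.Cf a b) ∨ (Up a b ∨ (a = u ∧ b = v)))
        I.S w := fun w hw => (h.rx w hw).mono (fun a b hab => hab.imp id Or.inl) (fun _ hs => hs)
    rcases Finset.mem_insert.1 hw with rfl | hw
    · exact (key u hu).step (Or.inr (Or.inr ⟨rfl, rfl⟩))
    · exact key w hw
  cy := h.cy

theorem Stage.addUm (h : Stage I X Y Up Um) {u v : V} (hv : v ∈ X) (hv' : v ∈ Y)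
    (huv : I.Cf u v) (hu : u ∉ Y) :
    Stage I X (insert u Y) Up (fun a b => Um a b ∨ (a = u ∧ b = v)) where
  xr := h.xr
  yl w hw := by
    rcases Finset.mem_insert.1 hw with rfl | hw
    · exact RL.lc (h.yl v hv') (h.xr v hv) huv.2.1
    · exact h.yl w hw
  up a b hab := by
    obtain ⟨h1, h2, h3, h4⟩ := h.up a b hab
    exact ⟨h1, h2, Finset.mem_insert_of_mem h3, h4⟩
  um a b hab := by
    rcases hab with hab | ⟨rfl, rfl⟩
    · obtain ⟨h1, h2, h3, h4⟩ := h.um a b hab
      exact ⟨h1, h2, Finset.mem_insert_of_mem h3, Finset.mem_insert_of_mem h4⟩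
    · exact ⟨huv, hv, Finset.mem_insert_of_mem hv', Finset.mem_insert_self _ _⟩
  dis a b hab := by
    rintro (hh | ⟨rfl, rfl⟩)
    · exact h.dis a b hab hh
    · exact hu (h.up _ _ hab).2.2.1
  rx := h.rx
  cy w hw := by
    have key : ∀ w ∈ Y, Col (fun a b => (I.Gm a b ∧ ¬ I.Cf a b) ∨ (Um a b ∨ (a = u ∧ b = v)))
        I.T w := fun w hw => (h.cy w hw).mono (fun a b hab => hab.imp id Or.inl) (fun _ hs => hs)
    rcases Finset.mem_insert.1 hw with rfl | hw
    · exact (key v hv').step (Or.inr (Or.inr ⟨rfl, rfl⟩))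
    · exact key w hw

end

/-- the fixpoint can be realised -/
theorem realise (I : Inst V) : ∃ Up Um : V → V → Prop,
    (∀ u v, Up u v → I.Cf u v ∧ I.R u ∧ I.L u ∧ I.R v) ∧
    (∀ u v, Um u v → I.Cf u v ∧ I.R v ∧ I.L v ∧ I.L u) ∧
    (∀ u v, Up u v → ¬ Um u v) ∧
    (∀ v, I.R v → Rch (fun a b => (I.Gp a b ∧ ¬ I.Cf a b) ∨ Up a b) I.S v) ∧
    (∀ v, I.L v → Col (fun a b => (I.Gm a b ∧ ¬ I.Cf a b) ∨ Um a b) I.T v) := by
  classical
  obtain ⟨X, Y, Up, Um, h, hmax⟩ := exists_max I
  have bigX : ∀ {v : V} {Up' Um'}, v ∉ X → ¬ Stage I (insert v X) Y Up' Um' := by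
    intro v Up' Um' hv hs
    have := hmax _ _ _ _ hs
    rw [Finset.card_insert_of_notMem hv] at this
    omega
  have bigY : ∀ {v : V} {Up' Um'}, v ∉ Y → ¬ Stage I X (insert v Y) Up' Um' := by
    intro v Up' Um' hv hs
    have := hmax _ _ _ _ hs
    rw [Finset.card_insert_of_notMem hv] at this
    omega
  have key := RL_ind (I := I) (fun v => v ∈ X) (fun v => v ∈ Y)
    (fun v hv => by
      by_contra hx
      exact bigX hx (h.addX (RL.s hv) (Rch.base hv)))
    (fun v hv => by
      by_contra hx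
      exact bigY hx (h.addY (RL.t hv) (Col.base hv)))
    (fun u v hu hv hxu h1 h2 => by
      by_contra hx
      exact bigX hx (h.addX hv ((h.rx u hxu).step (Or.inl ⟨h1, h2⟩))))
    (fun u v hu hu' hv hxu hyu h1 => by
      by_contra hx
      by_cases hc : I.Cf u v
      · exact bigX hx (h.addUp hxu hyu hc hx)
      · exact bigX hx (h.addX hv ((h.rx u hxu).step (Or.inl ⟨h1, hc⟩))))
    (fun u v hv hu hyv h1 h2 => by
      by_contra hx
      exact bigY hx (h.addY hu ((h.cy v hyv).step (Or.inl ⟨h1, h2⟩))))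
    (fun u v hv hv' hu hyv hxv h1 => by
      by_contra hx
      by_cases hc : I.Cf u v
      · exact bigY hx (h.addUm hxv hyv hc hx)
      · exact bigY hx (h.addY hu ((h.cy v hyv).step (Or.inl ⟨h1, hc⟩))))
  refine ⟨Up, Um, fun u v huv => ?_, fun u v huv => ?_, h.dis, fun v hv => h.rx v (key.1 v hv),
    fun v hv => h.cy v (key.2 v hv)⟩
  · obtain ⟨h1, h2, h3, h4⟩ := h.up u v huv
    exact ⟨h1, h.xr u h2, h.yl u h3, h.xr v h4⟩
  · obtain ⟨h1, h2, h3, h4⟩ := h.um u v huv
    exact ⟨h1, h.xr v h2, h.yl v h3, h.yl u h4⟩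

/-- minimal sets with a property -/
theorem exists_min {P : Finset V → Prop} {B : Finset V} (hB : P B) :
    ∃ J, P J ∧ J ⊆ B ∧ ∀ J', P J' → J' ⊆ J → J' = J := by
  classical
  let Q : ℕ → Prop := fun n => ∃ J, P J ∧ J ⊆ B ∧ J.card = n
  have hQ : ∃ n, Q n := ⟨_, B, hB, Finset.Subset.refl _, rfl⟩
  obtain ⟨J, h1, h2, h3⟩ := Nat.find_spec hQ
  refine ⟨J, h1, h2, fun J' h4 h5 => ?_⟩
  apply Finset.eq_of_subset_of_card_le h5
  rw [h3]
  exact Nat.find_le ⟨J', h4, h5.trans h2, rfl⟩

theorem solvable_of_choice (I : Inst V) (hcov : ∀ v, I.R v ∨ I.L v)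
    (f g : Finset V → V × V) (hf : ∀ J, I.MinJ J → f J ∈ I.dJ J) (hg : ∀ J, I.MinI J → g J ∈ I.dI J)
    (hfg : ∀ J J', I.MinJ J → I.MinI J' → f J ≠ g J') : I.Solvable := by
  classical
  obtain ⟨Up, Um, hUp, hUm, hdis, hr, hl⟩ := realise I
  have hgs : ∀ J a b, I.MinI J → g J = (a, b) → I.Cf a b ∧ a ∉ J ∧ b ∈ J := by
    intro J a b hJ h
    have := hg J hJ
    rw [h, dI, Finset.mem_filter] at this
    exact this.2
  have hfs : ∀ J a b, I.MinJ J → f J = (a, b) → I.Cf a b ∧ a ∈ J ∧ b ∉ J := by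
    intro J a b hJ h
    have := hf J hJ
    rw [h, dJ, Finset.mem_filter] at this
    exact this.2
  let X0 : V → V → Prop := fun a b => Up a b ∨ (∃ J, I.MinI J ∧ g J = (a, b)) ∨
    (I.Cf a b ∧ ¬ I.R a ∧ ¬ I.R b) ∨ ¬ I.Gm a b
  have P1 : ∀ v, I.R v → Rch (fun a b => I.Gp a b ∧ (I.K a b → X0 a b)) I.S v := by
    intro v hv
    refine (hr v hv).mono (fun a b hab => ?_) (fun _ hs => hs)
    rcases hab with ⟨h1, h2⟩ | h1
    · refine ⟨h1, fun hk => Or.inr (Or.inr (Or.inr fun hm => h2 ⟨h1, hm, hk⟩))⟩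
    · exact ⟨(hUp a b h1).1.1, fun _ => Or.inl h1⟩
  have M1 : ∀ v, I.L v → Col (fun a b => I.Gm a b ∧ (I.K a b → ¬ X0 a b)) I.T v := by
    intro v hv
    refine (hl v hv).mono (fun a b hab => ?_) (fun _ hs => hs)
    rcases hab with ⟨h1, h2⟩ | h1
    · refine ⟨h1, fun hk => ?_⟩
      rintro (h3 | ⟨J, hJ, h3⟩ | ⟨h3, _⟩ | h3)
      · exact h2 (hUp a b h3).1
      · exact h2 (hgs J a b hJ h3).1
      · exact h2 h3
      · exact h3 h1
    · obtain ⟨h2, h4, h5, h6⟩ := hUm a b h1
      refine ⟨h2.2.1, fun hk => ?_⟩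
      rintro (h3 | ⟨J, hJ, h3⟩ | ⟨_, _, h3⟩ | h3)
      · exact hdis a b h3 h1
      · exact hJ.1.2.1 b (hgs J a b hJ h3).2.2 h4
      · exact h3 h4
      · exact h3 h2.2.1
  refine ⟨X0, fun v => ?_, fun v => ?_⟩
  · by_cases hv : I.R v
    · exact P1 v hv
    · let B : Finset V := Finset.univ.filter (fun a => ¬ I.R a ∧
        ReflTransGen (fun a b => I.Gp a b ∧ ¬ I.R a ∧ ¬ I.R b) a v)
      have hB : I.ClI B := by
        refine ⟨⟨v, by simp [B, hv, ReflTransGen.refl]⟩, fun u hu => (Finset.mem_filter.1 hu).2.1,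
          fun w hw u huw hu => ?_⟩
        obtain ⟨_, h1, h2⟩ := Finset.mem_filter.1 hw
        exact Finset.mem_filter.2 ⟨Finset.mem_univ _, hu, ReflTransGen.head ⟨huw, hu, h1⟩ h2⟩
      obtain ⟨J, hJ, hJB, hmin⟩ := exists_min (P := I.ClI) hB
      have hMin : I.MinI J := ⟨hJ, hmin⟩
      obtain ⟨a, b, hab⟩ : ∃ a b, g J = (a, b) := ⟨_, _, rfl⟩
      obtain ⟨h1, h2, h3⟩ := hgs J a b hMin hab
      have hRa : I.R a := by
        by_contra hc
        exact h2 (hJ.2.2 b h3 a h1.1 hc)
      have h4 : Rch (fun a b => I.Gp a b ∧ (I.K a b → X0 a b)) I.S b :=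
        (P1 a hRa).step ⟨h1.1, fun _ => Or.inr (Or.inl ⟨J, hMin, hab⟩)⟩
      refine h4.steps (rtmono (Finset.mem_filter.1 (hJB h3)).2.2 ?_)
      rintro c d ⟨h5, h6, h7⟩
      refine ⟨h5, fun hk => ?_⟩
      by_cases hm : I.Gm c d
      · exact Or.inr (Or.inr (Or.inl ⟨⟨h5, hm, hk⟩, h6, h7⟩))
      · exact Or.inr (Or.inr (Or.inr hm))
  · by_cases hv : I.L v
    · exact M1 v hv
    · let B : Finset V := Finset.univ.filter (fun a => ¬ I.L a ∧
        ReflTransGen (fun a b => I.Gm a b ∧ ¬ I.L a ∧ ¬ I.L b) v a)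
      have hB : I.ClJ B := by
        refine ⟨⟨v, by simp [B, hv, ReflTransGen.refl]⟩, fun u hu => (Finset.mem_filter.1 hu).2.1,
          fun u hu w huw hw => ?_⟩
        obtain ⟨_, h1, h2⟩ := Finset.mem_filter.1 hu
        exact Finset.mem_filter.2 ⟨Finset.mem_univ _, hw, h2.tail ⟨huw, h1, hw⟩⟩
      obtain ⟨J, hJ, hJB, hmin⟩ := exists_min (P := I.ClJ) hB
      have hMin : I.MinJ J := ⟨hJ, hmin⟩
      obtain ⟨a, b, hab⟩ : ∃ a b, f J = (a, b) := ⟨_, _, rfl⟩
      obtain ⟨h1, h2, h3⟩ := hfs J a b hMin hab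
      have hLa : ¬ I.L a := hJ.2.1 a h2
      have hLb : I.L b := by
        by_contra hc
        exact h3 (hJ.2.2 a h2 b h1.2.1 hc)
      have hM : I.Gm a b ∧ (I.K a b → ¬ X0 a b) := by
        refine ⟨h1.2.1, fun _ => ?_⟩
        rintro (h4 | ⟨J', hJ', h4⟩ | ⟨_, h4, _⟩ | h4)
        · exact hLa (hUp a b h4).2.2.1
        · exact hfg J J' hMin hJ' (hab.trans h4.symm)
        · exact (hcov a).elim h4 hLa
        · exact h4 h1.2.1
      refine ((M1 b hLb).step hM).steps (rtmono (Finset.mem_filter.1 (hJB h2)).2.2 ?_)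
      rintro c d ⟨h5, h6, h7⟩
      refine ⟨h5, fun _ => ?_⟩
      rintro (h8 | ⟨J', hJ', h8⟩ | ⟨_, h8, _⟩ | h8)
      · exact h6 (hUp c d h8).2.2.1
      · have h9 := (hgs J' c d hJ' h8).2.2
        exact (hcov d).elim (hJ'.1.2.1 d h9) h7
      · exact (hcov c).elim h8 h6
      · exact h8 h5

end HallAux

open HallAux in
theorem hall_core (I : Inst V) (hcov : ∀ v, I.R v ∨ I.L v) (hns : ¬ I.Solvable) :
    ∃ A B : Finset (Finset V), (∀ J ∈ A, I.MinJ J) ∧ (∀ J ∈ B, I.MinI J) ∧
      (A.biUnion I.dJ ∪ B.biUnion I.dI).card < A.card + B.card := by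
  classical
  by_contra hcon
  push Not at hcon
  apply hns
  let ι := {J // I.MinJ J} ⊕ {J // I.MinI J}
  let t : ι → Finset (V × V) := Sum.elim (fun J => I.dJ J.1) (fun J => I.dI J.1)
  have hH : ∀ s : Finset ι, s.card ≤ (s.biUnion t).card := by
    intro s
    let A : Finset (Finset V) := s.toLeft.image Subtype.val
    let B : Finset (Finset V) := s.toRight.image Subtype.val
    have h1 := hcon A B (fun J hJ => by
        obtain ⟨J', _, rfl⟩ := Finset.mem_image.1 hJ
        exact J'.2) (fun J hJ => by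
        obtain ⟨J', _, rfl⟩ := Finset.mem_image.1 hJ
        exact J'.2)
    have h2 : A.card = s.toLeft.card := Finset.card_image_of_injective _ Subtype.val_injective
    have h3 : B.card = s.toRight.card := Finset.card_image_of_injective _ Subtype.val_injective
    rw [h2, h3, Finset.card_toLeft_add_card_toRight] at h1
    refine h1.trans (Finset.card_le_card ?_)
    intro e he
    rw [Finset.mem_union, Finset.mem_biUnion, Finset.mem_biUnion] at he
    rw [Finset.mem_biUnion]
    rcases he with ⟨J, hJ, he⟩ | ⟨J, hJ, he⟩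
    · obtain ⟨J', hJ', rfl⟩ := Finset.mem_image.1 hJ
      exact ⟨Sum.inl J', Finset.mem_toLeft.1 hJ', he⟩
    · obtain ⟨J', hJ', rfl⟩ := Finset.mem_image.1 hJ
      exact ⟨Sum.inr J', Finset.mem_toRight.1 hJ', he⟩
  obtain ⟨F, hF, hFt⟩ := (Finset.all_card_le_biUnion_card_iff_exists_injective t).1 hH
  by_cases hne : Nonempty V
  · obtain ⟨v₀⟩ := hne
    apply solvable_of_choice I hcov
      (fun J => if h : I.MinJ J then F (Sum.inl ⟨J, h⟩) else (v₀, v₀))
      (fun J => if h : I.MinI J then F (Sum.inr ⟨J, h⟩) else (v₀, v₀))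
    · intro J hJ
      simp only [dif_pos hJ]
      exact hFt (Sum.inl ⟨J, hJ⟩)
    · intro J hJ
      simp only [dif_pos hJ]
      exact hFt (Sum.inr ⟨J, hJ⟩)
    · intro J J' hJ hJ' h
      simp only [dif_pos hJ, dif_pos hJ'] at h
      exact absurd (hF h) (by simp)
  · rw [not_nonempty_iff] at hne
    exact ⟨fun _ _ => True, fun v => hne.elim v, fun v => hne.elim v⟩

end Inst

end Pool.Agent.Lib.AB474
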