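import Pool.Agent.Lib.AB474.Hall

/-!
# MODULE HallUse: consequences of the Hall condition for a labelled closed instance (about 1.5 h)

SETTING.  I closed, Lp, Lm disjoint relations contained in I.Cf, I' = I.lab Lp Lm, I'.R u I'.L = V.

(a) exitJ.  J with I'.MinJ J (only ClJ is used), u in J, v not in J, I.Gm u v.  If Lp u v: done.
    Otherwise I'.Gm u v.  v not in J gives I'.L v (closedness).  If not I'.Cf u v then rule lm gives
    I'.L u, contradiction.  If I'.R v then rule lc gives I'.L u, contradiction.  So I'.Cf u v and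
    not I'.R v.
(b) Two exits: J nonempty and T cap J = empty (T is contained in I'.L), Col I.Gm I.T gives an exit
    (u,v) (Col.exit); by (a) it is I.Cf; by I.nm (removing it everything still leads to T) there is a
    second exit, different from (u,v).
(c) Every arc of I'.Cf lies in dJ of at most one MinJ set and in dI of at most one MinI set, because
    two different MinJ sets are disjoint (the intersection, if nonempty, is ClJ).
(d) hall_one.  Suppose not solvable, then (solvable_of_lab) I' is not solvable, take A, B from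
    hall_core.  lost(J) := exits (u,v) of J in I.Gm with Lp u v; these are Lost arcs since u in J is
    not in I'.L.  lost(J) for J in B: entries with Lm u v.  card (dJ J) + card (lost J) >= 2 by (a), (b)
    (the exits of J in I.Gm are dJ J together with lost J).
    Sum over A and B of card d >= 2 (|A| + |B|) - (number of lost arcs used).  The lost sets of
    different J in A are disjoint; a Lost arc in Lp belongs to at most one J in A, one in Lm to at most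
    one J in B; Lp, Lm are disjoint; so the total is at most the number of Lost arcs, <= 1.
    By (c) the sum of card d is at most 2 card (union).  So 2 card (union) >= 2(|A|+|B|) - 1, hence
    card(union) >= |A|+|B|, contradiction.
(e) hall_pp.  Lm = none, Lost arcs are at most (u1,v1), (u2,v2).  With A, B as in (d): total of lost
    arcs >= 2, so both (u1,v1), (u2,v2) are lost exits: (u1,v1) in lost(J1), (u2,v2) in lost(J2), with
    J1, J2 in A, and equality holds everywhere: card (dJ J) + card (lost J) = 2 for all J in A.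
    Then J1 is different from J2 is NOT automatic: if J1 = J2 then dJ J1 is empty and lost J1 is both
    arcs; here (u1,v1) leaves J1 and (u2,v2) leaves J1; but v1 = u2 in J1 (hypothesis huv: v1 = u2),
    contradiction to v1 not in J1.  So J1, J2 are different, hence disjoint, and each has exactly one
    exit which is not lost.
-/

namespace Pool.Agent.Lib.AB474

open Relation

variable {V : Type*} [Fintype V] [DecidableEq V]

namespace Inst

variable {I : Inst V} {Lp Lm : V → V → Prop}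

theorem exitJ {J : Finset V} (hJ : (I.lab Lp Lm).ClJ J) {u v : V} (hu : u ∈ J) (hv : v ∉ J)
    (huv : I.Gm u v) : Lp u v ∨ ((I.lab Lp Lm).Cf u v ∧ ¬ (I.lab Lp Lm).R v) := by
  by_cases h : Lp u v
  · exact Or.inl h
  · right
    have h1 : (I.lab Lp Lm).Gm u v := ⟨huv, h⟩
    have h2 : (I.lab Lp Lm).L v := by
      by_contra hc
      exact hv (hJ.2.2 u hu v h1 hc)
    refine ⟨?_, fun h3 => hJ.2.1 u hu (RL.lc h2 h3 h1)⟩
    by_contra hc
    exact hJ.2.1 u hu (RL.lm h2 h1 hc)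

theorem cf_of_lab {u v : V} (h : (I.lab Lp Lm).Cf u v) : I.Cf u v := (lab_Cf.1 h).1

theorem two_exitsJ (hI : I.Closed) (hLp : ∀ u v, Lp u v → I.Cf u v) {J : Finset V}
    (hJ : (I.lab Lp Lm).ClJ J) : ∃ a b c d, a ∈ J ∧ b ∉ J ∧ I.Gm a b ∧ I.Cf a b ∧
      c ∈ J ∧ d ∉ J ∧ I.Gm c d ∧ I.Cf c d ∧ (a ≠ c ∨ b ≠ d) := by
  obtain ⟨w, hw⟩ := hJ.1
  have hT : ∀ s, I.T s → ¬ s ∈ J := fun s hs h => hJ.2.1 s h (RL.t hs)
  obtain ⟨a, b, hab, ha, hb, _⟩ := (hI.cm w).exit (fun x => x ∈ J) hw hT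
  have hcf : I.Cf a b := by
    rcases exitJ hJ ha hb hab with h | h
    · exact hLp a b h
    · exact cf_of_lab h.1
  obtain ⟨c, d, hcd, hc, hd, _⟩ := (hI.nm a b hcf w).exit (fun x => x ∈ J) hw hT
  have hcf' : I.Cf c d := by
    rcases exitJ hJ hc hd hcd.1 with h | h
    · exact hLp c d h
    · exact cf_of_lab h.1
  refine ⟨a, b, c, d, ha, hb, hab, hcf, hc, hd, hcd.1, hcf', ?_⟩
  by_contra hcon
  push Not at hcon
  exact hcd.2 ⟨hcon.1.symm, hcon.2.symm⟩

theorem entryI {J : Finset V} (hJ : (I.lab Lp Lm).ClI J) {u v : V} (hu : u ∉ J) (hv : v ∈ J)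
    (huv : I.Gp u v) : Lm u v ∨ ((I.lab Lp Lm).Cf u v ∧ ¬ (I.lab Lp Lm).L u) := by
  by_cases h : Lm u v
  · exact Or.inl h
  · right
    have h1 : (I.lab Lp Lm).Gp u v := ⟨huv, h⟩
    have h2 : (I.lab Lp Lm).R u := by
      by_contra hc
      exact hu (hJ.2.2 v hv u h1 hc)
    refine ⟨?_, fun h3 => hJ.2.1 v hv (RL.rc h2 h3 h1)⟩
    by_contra hc
    exact hJ.2.1 v hv (RL.rp h2 h1 hc)

theorem two_entriesI (hI : I.Closed) (hLm : ∀ u v, Lm u v → I.Cf u v) {J : Finset V}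
    (hJ : (I.lab Lp Lm).ClI J) : ∃ a b c d, a ∉ J ∧ b ∈ J ∧ I.Gp a b ∧ I.Cf a b ∧
      c ∉ J ∧ d ∈ J ∧ I.Gp c d ∧ I.Cf c d ∧ (a ≠ c ∨ b ≠ d) := by
  obtain ⟨w, hw⟩ := hJ.1
  have hS : ∀ s, I.S s → ¬ s ∈ J := fun s hs h => hJ.2.1 s h (RL.s hs)
  obtain ⟨a, b, hab, ha, hb, _⟩ := (hI.rp w).enter (fun x => x ∈ J) hw hS
  have hcf : I.Cf a b := by
    rcases entryI hJ ha hb hab with h | h
    · exact hLm a b h
    · exact cf_of_lab h.1
  obtain ⟨c, d, hcd, hc, hd, _⟩ := (hI.np a b hcf w).enter (fun x => x ∈ J) hw hS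
  have hcf' : I.Cf c d := by
    rcases entryI hJ hc hd hcd.1 with h | h
    · exact hLm c d h
    · exact cf_of_lab h.1
  refine ⟨a, b, c, d, ha, hb, hab, hcf, hc, hd, hcd.1, hcf', ?_⟩
  by_contra hcon
  push Not at hcon
  exact hcd.2 ⟨hcon.1.symm, hcon.2.symm⟩

/-- A labelled arc which does not help its side. -/
def Lost (I : Inst V) (Lp Lm : V → V → Prop) (u v : V) : Prop :=
  (Lp u v ∧ ¬ (I.lab Lp Lm).L u) ∨ (Lm u v ∧ ¬ (I.lab Lp Lm).R v)

omit [Fintype V] in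
theorem MinJ.disj {I : Inst V} {J J' : Finset V} (h : I.MinJ J) (h' : I.MinJ J') (hne : J ≠ J') :
    ∀ v, v ∈ J → v ∉ J' := by
  intro v hv hv'
  have hc : I.ClJ (J ∩ J') := by
    refine ⟨⟨v, Finset.mem_inter.2 ⟨hv, hv'⟩⟩, fun u hu => h.1.2.1 u (Finset.mem_inter.1 hu).1,
      fun u hu w huw hw => ?_⟩
    rw [Finset.mem_inter] at hu ⊢
    exact ⟨h.1.2.2 u hu.1 w huw hw, h'.1.2.2 u hu.2 w huw hw⟩
  have e1 := h.2 _ hc Finset.inter_subset_left
  have e2 := h'.2 _ hc Finset.inter_subset_right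
  exact hne (e1.symm.trans e2)

omit [Fintype V] in
theorem MinI.disj {I : Inst V} {J J' : Finset V} (h : I.MinI J) (h' : I.MinI J') (hne : J ≠ J') :
    ∀ v, v ∈ J → v ∉ J' := by
  intro v hv hv'
  have hc : I.ClI (J ∩ J') := by
    refine ⟨⟨v, Finset.mem_inter.2 ⟨hv, hv'⟩⟩, fun u hu => h.1.2.1 u (Finset.mem_inter.1 hu).1,
      fun u hu w huw hw => ?_⟩
    rw [Finset.mem_inter] at hu ⊢
    exact ⟨h.1.2.2 u hu.1 w huw hw, h'.1.2.2 u hu.2 w huw hw⟩
  have e1 := h.2 _ hc Finset.inter_subset_left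
  have e2 := h'.2 _ hc Finset.inter_subset_right
  exact hne (e1.symm.trans e2)

open Classical in
/-- the labelled exits of `J` -/
noncomputable def loJ (I : Inst V) (Lp : V → V → Prop) (J : Finset V) : Finset (V × V) :=
  Finset.univ.filter (fun e => I.Gm e.1 e.2 ∧ e.1 ∈ J ∧ e.2 ∉ J ∧ Lp e.1 e.2)

open Classical in
/-- the labelled entries of `J` -/
noncomputable def loI (I : Inst V) (Lm : V → V → Prop) (J : Finset V) : Finset (V × V) :=
  Finset.univ.filter (fun e => I.Gp e.1 e.2 ∧ e.1 ∉ J ∧ e.2 ∈ J ∧ Lm e.1 e.2)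

theorem mem_loJ {J : Finset V} {e : V × V} :
    e ∈ loJ I Lp J ↔ I.Gm e.1 e.2 ∧ e.1 ∈ J ∧ e.2 ∉ J ∧ Lp e.1 e.2 := by
  simp [loJ]

theorem mem_loI {J : Finset V} {e : V × V} :
    e ∈ loI I Lm J ↔ I.Gp e.1 e.2 ∧ e.1 ∉ J ∧ e.2 ∈ J ∧ Lm e.1 e.2 := by
  simp [loI]

theorem mem_dJ {J : Finset V} {e : V × V} :
    e ∈ I.dJ J ↔ I.Cf e.1 e.2 ∧ e.1 ∈ J ∧ e.2 ∉ J := by
  simp [dJ]

theorem mem_dI {J : Finset V} {e : V × V} :
    e ∈ I.dI J ↔ I.Cf e.1 e.2 ∧ e.1 ∉ J ∧ e.2 ∈ J := by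
  simp [dI]

theorem two_le_J (hI : I.Closed) (hLp : ∀ u v, Lp u v → I.Cf u v) {J : Finset V}
    (hJ : (I.lab Lp Lm).ClJ J) : 2 ≤ ((I.lab Lp Lm).dJ J ∪ loJ I Lp J).card := by
  obtain ⟨a, b, c, d, ha, hb, hab, _, hc, hd, hcd, _, hne⟩ := two_exitsJ hI hLp hJ
  have key : ∀ x y, x ∈ J → y ∉ J → I.Gm x y →
      (x, y) ∈ (I.lab Lp Lm).dJ J ∪ loJ I Lp J := by
    intro x y hx hy hxy
    rw [Finset.mem_union]
    rcases exitJ hJ hx hy hxy with h | h
    · exact Or.inr (mem_loJ.2 ⟨hxy, hx, hy, h⟩)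
    · exact Or.inl (mem_dJ.2 ⟨h.1, hx, hy⟩)
  have hne' : (a, b) ≠ (c, d) := by
    intro h
    rw [Prod.mk.injEq] at h
    rcases hne with h' | h'
    · exact h' h.1
    · exact h' h.2
  have : ({(a, b), (c, d)} : Finset (V × V)) ⊆ (I.lab Lp Lm).dJ J ∪ loJ I Lp J := by
    intro e he
    rw [Finset.mem_insert, Finset.mem_singleton] at he
    rcases he with rfl | rfl
    · exact key a b ha hb hab
    · exact key c d hc hd hcd
  calc 2 = ({(a, b), (c, d)} : Finset (V × V)).card := (Finset.card_pair hne').symm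
    _ ≤ _ := Finset.card_le_card this

theorem two_le_I (hI : I.Closed) (hLm : ∀ u v, Lm u v → I.Cf u v) {J : Finset V}
    (hJ : (I.lab Lp Lm).ClI J) : 2 ≤ ((I.lab Lp Lm).dI J ∪ loI I Lm J).card := by
  obtain ⟨a, b, c, d, ha, hb, hab, _, hc, hd, hcd, _, hne⟩ := two_entriesI hI hLm hJ
  have key : ∀ x y, x ∉ J → y ∈ J → I.Gp x y →
      (x, y) ∈ (I.lab Lp Lm).dI J ∪ loI I Lm J := by
    intro x y hx hy hxy
    rw [Finset.mem_union]
    rcases entryI hJ hx hy hxy with h | h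
    · exact Or.inr (mem_loI.2 ⟨hxy, hx, hy, h⟩)
    · exact Or.inl (mem_dI.2 ⟨h.1, hx, hy⟩)
  have hne' : (a, b) ≠ (c, d) := by
    intro h
    rw [Prod.mk.injEq] at h
    rcases hne with h' | h'
    · exact h' h.1
    · exact h' h.2
  have : ({(a, b), (c, d)} : Finset (V × V)) ⊆ (I.lab Lp Lm).dI J ∪ loI I Lm J := by
    intro e he
    rw [Finset.mem_insert, Finset.mem_singleton] at he
    rcases he with rfl | rfl
    · exact key a b ha hb hab
    · exact key c d hc hd hcd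
  calc 2 = ({(a, b), (c, d)} : Finset (V × V)).card := (Finset.card_pair hne').symm
    _ ≤ _ := Finset.card_le_card this

/-- The counting behind `hall_one` and `hall_pp`. -/
theorem count {A B : Finset (Finset V)} (hA : ∀ J ∈ A, (I.lab Lp Lm).MinJ J)
    (hB : ∀ J ∈ B, (I.lab Lp Lm).MinI J)
    (hcard : (A.biUnion (I.lab Lp Lm).dJ ∪ B.biUnion (I.lab Lp Lm).dI).card
      < A.card + B.card) :
    (∑ J ∈ A, ((I.lab Lp Lm).dJ J ∪ loJ I Lp J).card) +
      (∑ J ∈ B, ((I.lab Lp Lm).dI J ∪ loI I Lm J).card) + 2 ≤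
    2 * (A.card + B.card) + (A.biUnion (loJ I Lp)).card + (B.biUnion (loI I Lm)).card := by
  have dA : ∑ J ∈ A, ((I.lab Lp Lm).dJ J).card = (A.biUnion (I.lab Lp Lm).dJ).card := by
    rw [Finset.card_biUnion]
    intro J hJ J' hJ' hne
    rw [Function.onFun, Finset.disjoint_left]
    intro e he he'
    exact (hA J hJ).disj (hA J' hJ') hne e.1 (mem_dJ.1 he).2.1 (mem_dJ.1 he').2.1
  have dB : ∑ J ∈ B, ((I.lab Lp Lm).dI J).card = (B.biUnion (I.lab Lp Lm).dI).card := by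
    rw [Finset.card_biUnion]
    intro J hJ J' hJ' hne
    rw [Function.onFun, Finset.disjoint_left]
    intro e he he'
    exact (hB J hJ).disj (hB J' hJ') hne e.2 (mem_dI.1 he).2.2 (mem_dI.1 he').2.2
  have lA : ∑ J ∈ A, (loJ I Lp J).card = (A.biUnion (loJ I Lp)).card := by
    rw [Finset.card_biUnion]
    intro J hJ J' hJ' hne
    rw [Function.onFun, Finset.disjoint_left]
    intro e he he'
    exact (hA J hJ).disj (hA J' hJ') hne e.1 (mem_loJ.1 he).2.1 (mem_loJ.1 he').2.1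
  have lB : ∑ J ∈ B, (loI I Lm J).card = (B.biUnion (loI I Lm)).card := by
    rw [Finset.card_biUnion]
    intro J hJ J' hJ' hne
    rw [Function.onFun, Finset.disjoint_left]
    intro e he he'
    exact (hB J hJ).disj (hB J' hJ') hne e.2 (mem_loI.1 he).2.2.1 (mem_loI.1 he').2.2.1
  have hsA : ∑ J ∈ A, ((I.lab Lp Lm).dJ J ∪ loJ I Lp J).card ≤
      ∑ J ∈ A, ((I.lab Lp Lm).dJ J).card + ∑ J ∈ A, (loJ I Lp J).card := by
    rw [← Finset.sum_add_distrib]
    exact Finset.sum_le_sum fun J _ => Finset.card_union_le _ _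
  have hsB : ∑ J ∈ B, ((I.lab Lp Lm).dI J ∪ loI I Lm J).card ≤
      ∑ J ∈ B, ((I.lab Lp Lm).dI J).card + ∑ J ∈ B, (loI I Lm J).card := by
    rw [← Finset.sum_add_distrib]
    exact Finset.sum_le_sum fun J _ => Finset.card_union_le _ _
  have u1 : (A.biUnion (I.lab Lp Lm).dJ).card ≤
      (A.biUnion (I.lab Lp Lm).dJ ∪ B.biUnion (I.lab Lp Lm).dI).card :=
    Finset.card_le_card Finset.subset_union_left
  have u2 : (B.biUnion (I.lab Lp Lm).dI).card ≤
      (A.biUnion (I.lab Lp Lm).dJ ∪ B.biUnion (I.lab Lp Lm).dI).card :=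
    Finset.card_le_card Finset.subset_union_right
  omega

theorem hall_one (hI : I.Closed) (hLp : ∀ u v, Lp u v → I.Cf u v)
    (hLm : ∀ u v, Lm u v → I.Cf u v) (hd : ∀ u v, Lp u v → ¬ Lm u v)
    (hcov : ∀ v, (I.lab Lp Lm).R v ∨ (I.lab Lp Lm).L v)
    (h1 : ∀ u v u' v', I.Lost Lp Lm u v → I.Lost Lp Lm u' v' → u = u' ∧ v = v') :
    I.Solvable := by
  by_contra hns
  have hns' : ¬ (I.lab Lp Lm).Solvable := fun h => hns (solvable_of_lab h)
  obtain ⟨A, B, hA, hB, hcard⟩ := hall_core _ hcov hns'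
  have hc := count hA hB hcard
  have sA : 2 * A.card ≤ ∑ J ∈ A, ((I.lab Lp Lm).dJ J ∪ loJ I Lp J).card := by
    rw [mul_comm, ← smul_eq_mul, ← Finset.sum_const]
    exact Finset.sum_le_sum fun J hJ => two_le_J hI hLp (hA J hJ).1
  have sB : 2 * B.card ≤ ∑ J ∈ B, ((I.lab Lp Lm).dI J ∪ loI I Lm J).card := by
    rw [mul_comm, ← smul_eq_mul, ← Finset.sum_const]
    exact Finset.sum_le_sum fun J hJ => two_le_I hI hLm (hB J hJ).1
  have lostA : ∀ e ∈ A.biUnion (loJ I Lp), I.Lost Lp Lm e.1 e.2 ∧ Lp e.1 e.2 := by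
    intro e he
    rw [Finset.mem_biUnion] at he
    obtain ⟨J, hJ, he⟩ := he
    rw [mem_loJ] at he
    exact ⟨Or.inl ⟨he.2.2.2, (hA J hJ).1.2.1 _ he.2.1⟩, he.2.2.2⟩
  have lostB : ∀ e ∈ B.biUnion (loI I Lm), I.Lost Lp Lm e.1 e.2 ∧ Lm e.1 e.2 := by
    intro e he
    rw [Finset.mem_biUnion] at he
    obtain ⟨J, hJ, he⟩ := he
    rw [mem_loI] at he
    exact ⟨Or.inr ⟨he.2.2.2, (hB J hJ).1.2.1 _ he.2.2.1⟩, he.2.2.2⟩
  have hdis : Disjoint (A.biUnion (loJ I Lp)) (B.biUnion (loI I Lm)) := by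
    rw [Finset.disjoint_left]
    intro e he he'
    exact hd _ _ (lostA e he).2 (lostB e he').2
  have hle : (A.biUnion (loJ I Lp) ∪ B.biUnion (loI I Lm)).card ≤ 1 := by
    rw [Finset.card_le_one]
    have key : ∀ e ∈ A.biUnion (loJ I Lp) ∪ B.biUnion (loI I Lm), I.Lost Lp Lm e.1 e.2 := by
      intro e he
      rcases Finset.mem_union.1 he with he | he
      · exact (lostA e he).1
      · exact (lostB e he).1
    intro e he e' he'
    have := h1 _ _ _ _ (key e he) (key e' he')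
    exact Prod.ext this.1 this.2
  rw [Finset.card_union_of_disjoint hdis] at hle
  omega

/-- The properties of a set with two exits, one of them labelled. -/
structure Tight (I : Inst V) (Lp Lm : V → V → Prop) (u v : V) (J : V → Prop) : Prop where
  mem : J u
  nmem : ¬ J v
  sub : ∀ a, J a → ¬ (I.lab Lp Lm).L a
  cl : ∀ a b, J a → (I.lab Lp Lm).Gm a b → ¬ (I.lab Lp Lm).L b → J b
  ex : ∃ c d, ∀ a b, J a → ¬ J b → I.Gm a b → (a = u ∧ b = v) ∨ (a = c ∧ b = d)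

theorem tight_of {J : Finset V} (hJ : (I.lab Lp Lm).MinJ J) {u v : V}
    (he : (u, v) ∈ loJ I Lp J) (h2 : ((I.lab Lp Lm).dJ J ∪ loJ I Lp J).card ≤ 2) :
    I.Tight Lp Lm u v (fun x => x ∈ J) := by
  have hm := mem_loJ.1 he
  refine ⟨hm.2.1, hm.2.2.1, fun a ha => hJ.1.2.1 a ha, fun a b ha hab hb => hJ.1.2.2 a ha b hab hb,
    ?_⟩
  set D := (I.lab Lp Lm).dJ J ∪ loJ I Lp J with hD
  have hmem : (u, v) ∈ D := Finset.mem_union_right _ he
  have herase : (D.erase (u, v)).card ≤ 1 := by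
    rw [Finset.card_erase_of_mem hmem]
    omega
  have key : ∀ x y, x ∈ J → y ∉ J → I.Gm x y → (x, y) ∈ D := by
    intro x y hx hy hxy
    rw [hD, Finset.mem_union]
    rcases exitJ hJ.1 hx hy hxy with h | h
    · exact Or.inr (mem_loJ.2 ⟨hxy, hx, hy, h⟩)
    · exact Or.inl (mem_dJ.2 ⟨h.1, hx, hy⟩)
  by_cases hne : (D.erase (u, v)).Nonempty
  · obtain ⟨⟨c, d⟩, hcd⟩ := hne
    refine ⟨c, d, fun a b ha hb hab => ?_⟩
    by_cases hc : (a, b) = (u, v)
    · left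
      rw [Prod.mk.injEq] at hc
      exact hc
    · right
      have h3 : (a, b) ∈ D.erase (u, v) := Finset.mem_erase.2 ⟨hc, key a b ha hb hab⟩
      have h4 := Finset.card_le_one.1 herase _ h3 _ hcd
      rw [Prod.mk.injEq] at h4
      exact h4
  · refine ⟨u, v, fun a b ha hb hab => ?_⟩
    left
    by_contra hc
    apply hne
    refine ⟨(a, b), Finset.mem_erase.2 ⟨fun h => hc ?_, key a b ha hb hab⟩⟩
    rw [Prod.mk.injEq] at h
    exact h

theorem hall_pp (hI : I.Closed) {u1 u2 v2 : V} (h1 : I.Cf u1 u2) (h2 : I.Cf u2 v2)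
    (hLp : ∀ u v, Lp u v ↔ (u = u1 ∧ v = u2) ∨ (u = u2 ∧ v = v2)) (hLm : ∀ u v, ¬ Lm u v)
    (hcov : ∀ v, (I.lab Lp Lm).R v ∨ (I.lab Lp Lm).L v) (hns : ¬ I.Solvable) :
    ∃ J1 J2 : V → Prop, I.Tight Lp Lm u1 u2 J1 ∧ I.Tight Lp Lm u2 v2 J2 ∧
      ∀ v, J1 v → ¬ J2 v := by
  have hLpC : ∀ u v, Lp u v → I.Cf u v := by
    intro u v h
    rcases (hLp u v).1 h with ⟨rfl, rfl⟩ | ⟨rfl, rfl⟩
    · exact h1
    · exact h2
  have hLmC : ∀ u v, Lm u v → I.Cf u v := fun u v h => absurd h (hLm u v)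
  have hns' : ¬ (I.lab Lp Lm).Solvable := fun h => hns (solvable_of_lab h)
  obtain ⟨A, B, hA, hB, hcard⟩ := hall_core _ hcov hns'
  have hc := count hA hB hcard
  have sAe : ∀ J ∈ A, 2 ≤ ((I.lab Lp Lm).dJ J ∪ loJ I Lp J).card :=
    fun J hJ => two_le_J hI hLpC (hA J hJ).1
  have sA : 2 * A.card ≤ ∑ J ∈ A, ((I.lab Lp Lm).dJ J ∪ loJ I Lp J).card := by
    rw [mul_comm, ← smul_eq_mul, ← Finset.sum_const]
    exact Finset.sum_le_sum sAe
  have sB : 2 * B.card ≤ ∑ J ∈ B, ((I.lab Lp Lm).dI J ∪ loI I Lm J).card := by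
    rw [mul_comm, ← smul_eq_mul, ← Finset.sum_const]
    exact Finset.sum_le_sum fun J hJ => two_le_I hI hLmC (hB J hJ).1
  have hB0 : (B.biUnion (loI I Lm)).card = 0 := by
    rw [Finset.card_eq_zero, Finset.eq_empty_iff_forall_notMem]
    intro e he
    rw [Finset.mem_biUnion] at he
    obtain ⟨J, _, he⟩ := he
    exact hLm _ _ (mem_loI.1 he).2.2.2
  have hsub : A.biUnion (loJ I Lp) ⊆ {(u1, u2), (u2, v2)} := by
    intro e he
    rw [Finset.mem_biUnion] at he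
    obtain ⟨J, _, he⟩ := he
    rw [Finset.mem_insert, Finset.mem_singleton]
    rcases (hLp _ _).1 (mem_loJ.1 he).2.2.2 with h | h
    · exact Or.inl (Prod.ext h.1 h.2)
    · exact Or.inr (Prod.ext h.1 h.2)
  have hcl : ({(u1, u2), (u2, v2)} : Finset (V × V)).card ≤ 2 := Finset.card_le_two
  have hcA : (A.biUnion (loJ I Lp)).card ≤ 2 := le_trans (Finset.card_le_card hsub) hcl
  have hAeq : A.biUnion (loJ I Lp) = {(u1, u2), (u2, v2)} := by
    refine Finset.eq_of_subset_of_card_le hsub ?_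
    omega
  have hm1 : (u1, u2) ∈ A.biUnion (loJ I Lp) := by rw [hAeq]; simp
  have hm2 : (u2, v2) ∈ A.biUnion (loJ I Lp) := by rw [hAeq]; simp
  rw [Finset.mem_biUnion] at hm1 hm2
  obtain ⟨J1, hJ1, he1⟩ := hm1
  obtain ⟨J2, hJ2, he2⟩ := hm2
  -- equality everywhere
  have hle : ∀ J ∈ A, ((I.lab Lp Lm).dJ J ∪ loJ I Lp J).card ≤ 2 := by
    intro J hJ
    by_contra hcon
    have hlt : ∑ J ∈ A, 2 < ∑ J ∈ A, ((I.lab Lp Lm).dJ J ∪ loJ I Lp J).card :=
      Finset.sum_lt_sum sAe ⟨J, hJ, not_le.1 hcon⟩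
    rw [Finset.sum_const, smul_eq_mul] at hlt
    omega
  have hne : J1 ≠ J2 := by
    rintro rfl
    exact (mem_loJ.1 he1).2.2.1 (mem_loJ.1 he2).2.1
  exact ⟨fun x => x ∈ J1, fun x => x ∈ J2, tight_of (hA J1 hJ1) he1 (hle J1 hJ1),
    tight_of (hA J2 hJ2) he2 (hle J2 hJ2), fun v hv => (hA J1 hJ1).disj (hA J2 hJ2) hne v hv⟩

end Inst

end Pool.Agent.Lib.AB474
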