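import Pool.Agent.Lib.AB474.Semi

/-!
# MODULE Hub: hub instances (about 1 h)

(1) hub_sound.  K a clique with at least four vertices, hubX D K solvable outside K with labels Y.
   semi_good gives s, t in K and labels X0 inside K.  Define labels on D:
   X a b := (K a, K b, X0 a b) or (K a, not K b) or (not K a, not K b, Y a b).
   Plus: K reached from s by X0; every v outside K is reached from S of hubX, i.e. from v0 with D k v0, k in K: the
   arc (k,v0) is plus; then the plus walk of hubX.  Minus: arcs from outside K into K are not X: minus.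
(2) hub_complete.  GoodPair D s t with X, s, t in K.  Labels Y := X.  v outside K: the walk from s in K to v of D,X
   arcs: let (k,v0) be its last arc leaving K: v0 in S of hubX, and the rest of the walk stays outside K.
   (Induct on the walk: for every vertex b of it, K b or (b is reached in hubX from S).)  Dually.
(3) hub_adj.  Alpha2 D, K maximal clique, n outside K and not in S, T of hubX: so n is not adjacent to any k in K.
   v outside K, v /= n: there is k in K not adjacent to v.  n, v, k are different, so Alpha2 gives Adj n v.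
-/

namespace Pool.Agent.Lib.AB474

open Relation

variable {V : Type*}

theorem hub_inside (D : V → V → Prop) (K : V → Prop) :
    (hubX D K).Inside (fun v => ¬ K v) :=
  ⟨fun _ h => h.1, fun _ h => h.1, fun _ _ h => ⟨h.1, h.2.1⟩, fun _ _ h => ⟨h.1, h.2.1⟩⟩

theorem hub_sound [Finite V] {D : V → V → Prop} {K : V → Prop} (hK : Clq D K) (h4 : Inst.Four K)
    (hs : (hubX D K).SolvX (fun v => ¬ K v)) : ∃ s t, GoodPair D s t := by
  obtain ⟨s, t, hsK, htK, X0, hX1, hX2⟩ := semi_good hK h4
  obtain ⟨Y, hY1, hY2⟩ := hs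
  set X : V → V → Prop := fun a b =>
    (K a ∧ K b ∧ X0 a b) ∨ (K a ∧ ¬ K b) ∨ (¬ K a ∧ ¬ K b ∧ Y a b) with hX
  have p1 : ∀ v, K v → ReflTransGen (fun a b => D a b ∧ X a b) s v := by
    intro v hv
    refine rtmono (hX1 v hv) ?_
    rintro a b ⟨ha, hb, hab, hx⟩
    exact ⟨hab, Or.inl ⟨ha, hb, hx⟩⟩
  have m1 : ∀ v, K v → ReflTransGen (fun a b => D a b ∧ ¬ X a b) v t := by
    intro v hv
    refine rtmono (hX2 v hv) ?_
    rintro a b ⟨ha, hb, hab, hx⟩
    refine ⟨hab, ?_⟩
    rintro (h | h | h)
    · exact hx h.2.2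
    · exact h.2 hb
    · exact h.1 ha
  refine ⟨s, t, X, fun v => ?_, fun v => ?_⟩
  · by_cases hv : K v
    · exact p1 v hv
    · obtain ⟨s0, ⟨hs0, k, hk, hks⟩, hpath⟩ := hY1 v hv
      refine ((p1 k hk).tail ⟨hks, Or.inr (Or.inl ⟨hk, hs0⟩)⟩).trans (rtmono hpath ?_)
      rintro a b ⟨⟨ha, hb, hab⟩, hy⟩
      exact ⟨hab, Or.inr (Or.inr ⟨ha, hb, hy trivial⟩)⟩
  · by_cases hv : K v
    · exact m1 v hv
    · obtain ⟨t0, ⟨ht0, k, hk, htk⟩, hpath⟩ := hY2 v hv
      have h1 : ReflTransGen (fun a b => D a b ∧ ¬ X a b) v t0 := by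
        refine rtmono hpath ?_
        rintro a b ⟨⟨ha, hb, hab⟩, hy⟩
        refine ⟨hab, ?_⟩
        rintro (h | h | h)
        · exact ha h.1
        · exact ha h.1
        · exact hy trivial h.2.2
      refine (h1.tail ⟨htk, ?_⟩).trans (m1 k hk)
      rintro (h | h | h)
      · exact ht0 h.1
      · exact ht0 h.1
      · exact h.2.1 hk

theorem hub_complete {D : V → V → Prop} {K : V → Prop} {s t : V} (h : GoodPair D s t)
    (hs : K s) (ht : K t) : (hubX D K).SolvX (fun v => ¬ K v) := by
  obtain ⟨X, h1, h2⟩ := h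
  have hp : ∀ v, ReflTransGen (fun a b => D a b ∧ X a b) s v → K v ∨
      Rch (fun a b => (hubX D K).Gp a b ∧ ((hubX D K).K a b → X a b)) (hubX D K).S v := by
    intro v hv
    induction hv with
    | refl => exact Or.inl hs
    | @tail b c _ hbc ih =>
      by_cases hc : K c
      · exact Or.inl hc
      · right
        by_cases hb : K b
        · exact Rch.base ⟨hc, b, hb, hbc.1⟩
        · rcases ih with h | h
          · exact absurd h hb
          · exact h.step ⟨⟨hb, hc, hbc.1⟩, fun _ => hbc.2⟩
  have hm : ∀ v, ReflTransGen (fun a b => D a b ∧ ¬ X a b) v t → K v ∨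
      Col (fun a b => (hubX D K).Gm a b ∧ ((hubX D K).K a b → ¬ X a b)) (hubX D K).T v := by
    intro v hv
    induction hv using ReflTransGen.head_induction_on with
    | refl => exact Or.inl ht
    | @head b c hbc _ ih =>
      by_cases hb : K b
      · exact Or.inl hb
      · right
        by_cases hc : K c
        · exact Col.base ⟨hb, c, hc, hbc.1⟩
        · rcases ih with h | h
          · exact absurd h hc
          · exact h.step ⟨⟨hb, hc, hbc.1⟩, fun _ => hbc.2⟩
  refine ⟨X, fun v hv => ?_, fun v hv => ?_⟩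
  · rcases hp v (h1 v) with h | h
    · exact absurd h hv
    · exact h
  · rcases hm v (h2 v) with h | h
    · exact absurd h hv
    · exact h

theorem hub_adj {D : V → V → Prop} (hα : Alpha2 D) {K : V → Prop} (hK : MaxClq D K) {n v : V}
    (hn : ¬ K n) (hv : ¬ K v) (hnv : v ≠ n) (hS : ¬ (hubX D K).S n) (hT : ¬ (hubX D K).T n) :
    Adj D n v := by
  obtain ⟨k, hk, hkv⟩ := hK.2 v hv
  have hnk : n ≠ k := fun e => hn (e ▸ hk)
  have hvk : v ≠ k := fun e => hv (e ▸ hk)
  rcases hα n v k hnv.symm hnk hvk with h | h | h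
  · exact h
  · rcases h with h | h
    · exact absurd ⟨hn, k, hk, h⟩ hT
    · exact absurd ⟨hn, k, hk, h⟩ hS
  · exact absurd h.symm hkv

end Pool.Agent.Lib.AB474
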