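import Pool.Agent.Lib.AB474.Done

/-!
# MODULE Last: the last configuration (about 1.5 h)

STATEMENT.  I.Norm, at least four vertices in N; s in S, y in T, x, m, w in N, pairwise different;
Cf s x, Cf x m, Cf x w, Cf m w, Cf w y; Gp m y and not Cf m y; Gm s m and not Cf s m.  Then I.Solvable.

PROOF.  Suppose not solvable.
(A) Plus labels: Lp = {(s,x), (x,m)}, Lm = none, I' = I.lab Lp Lm.  s, x, m, y in I'.R (m -> y is Gp and not Cf),
   y in I'.L: norm_done gives I'.R u I'.L = V.  hall_pp (u1 = s, u2 = x, v2 = m): tight sets J1 (s in, x not in), J2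
   (x in, m not in), disjoint.
   w in I'.L: Gm w y unlabelled, y in I'.R, I'.L: lc.  So w not in J1, J2.
   Exits of J2: (x,m) and (x,w) is an exit, so all exits of J2 are (x,m) or (x,w).
   m in J1: Gm s m, not Cf, not labelled; if I'.L m then I'.L s by lm: no.  So m not in I'.L, closedness: J1 m.
   (m,w) is an exit of J1; so all exits of J1 are (s,x) or (m,w).
(B) Dually (minus labels Lm = {(m,w), (w,y)}, apply (A) to I.dual with y, w, m, x, s): sets I1 (contains y and m), I2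
   (contains w), disjoint; entries (in Gp) of I1 are (w,y) or (x,m); entries of I2 are (m,w) or (x,w).
(C) Let c in N be different from x, m, w.
 (alpha) Gp m c with not Rch (Del Gp m c) S c is impossible.  Suppose it.  Then not Gp x c (s -> x -> c),
   not Gp y c (s -> x -> m -> y -> c), not Gp w c (s -> x -> w -> c): all avoid (m,c).
   y, c: Good y c: Gp y c no; Gm y c critical: T y no.  Good c y: Gp c y critical: s -> x -> m -> y avoids
   (c,y): no.  Others give Gm c y; then Cf (else tm: T c), so Gp c y.  So Gp c y: if c not in I1 it is an entry of I1: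
   (w,y) or (x,m): no.  So c in I1.
   x, c: Good x c: Gp x c no; Gm x c critical: x -> w -> y: no.  Good c x: Gp critical: s -> x: no.  So
   Gm c x.
   w, c: Good w c: Gp w c no; Gm w c critical: w -> y no.  Good c w with Gp c w: c not in I2 (disjoint from I1), an
   entry of I2: c = m or c = x: no.  Good c w critical in Gm: c -> x -> w -> y avoids (c,w): no.
   Contradiction to Norm.good.
 (alpha') dual: Gm c m with not Col (Del Gm c m) T c is impossible.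
 (beta) m, c: Good m c: then Gm m c by (alpha) [both, or Gm critical]; if c not in J1 it is an exit of J1: no.
   So c in J1.  Good c m: then Gp c m by (alpha'): c in I1 (else entry of I1, no).  So J1 c or I1 c.
 (gamma) J1 c is impossible: x, c: Good c x with Gm c x: exit of J1 (x not in J1), (c,x) = (s,x) or (m,w): no.
   Good c x critical in Gp: s -> x: no.  Good x c with Gm x c: c not in J2 (disjoint), an exit of J2: c = m or
   c = w: no.  So Gp x c with not Rch (Del Gp x c) S c.  y, c: Good y c with Gp y c: s -> x -> m -> y -> c avoids (x,c):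
   no.  Gm y c critical: T y no.  Good c y with Gm c y: Cf (tm), unlabelled, y in I'.R, I'.L: I'.L c, but J1 is outside
   I'.L: no.  Good c y critical in Gp: s -> x -> m -> y: no.  Contradiction to Norm.good.
 (gamma') I1 c is impossible: dual.
So N = {x, m, w}, against `Four I.N`.
It is advisable to state (A), (alpha), (gamma) as lemmas for a structure of hypotheses closed under duality.
-/

namespace Pool.Agent.Lib.AB474

open Relation

variable {V : Type*} [Fintype V] [DecidableEq V]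

namespace LastAux

/-- The hypotheses, in a form closed under duality. -/
structure LH (I : Inst V) (s x m w y : V) : Prop where
  hI : I.Norm
  hns : ¬ I.Solvable
  hs : I.S s
  hy : I.T y
  hx : I.N x
  hm : I.N m
  hw : I.N w
  xm : x ≠ m
  mw : m ≠ w
  xw : x ≠ w
  h1 : I.Cf s x
  h2 : I.Cf x m
  h3 : I.Cf x w
  h4 : I.Cf m w
  h5 : I.Cf w y
  h6 : I.Gp m y
  h6' : ¬ I.Cf m y
  h7 : I.Gm s m
  h7' : ¬ I.Cf s m

variable {I : Inst V} {s x m w y : V}

omit [Fintype V] [DecidableEq V] in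
theorem LH.toDual (h : LH I s x m w y) : LH I.dual y w m x s :=
  ⟨h.hI.toDual, fun hh => h.hns (Inst.dual_Solvable.1 hh), h.hy, h.hs, Inst.dual_N.2 h.hw,
    Inst.dual_N.2 h.hm, Inst.dual_N.2 h.hx, h.mw.symm, h.xm.symm, h.xw.symm,
    Inst.dual_Cf.2 h.h5, Inst.dual_Cf.2 h.h4, Inst.dual_Cf.2 h.h3, Inst.dual_Cf.2 h.h2,
    Inst.dual_Cf.2 h.h1, h.h7, fun hh => h.h7' (Inst.dual_Cf.1 hh), h.h6,
    fun hh => h.h6' (Inst.dual_Cf.1 hh)⟩

omit [Fintype V] [DecidableEq V] in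
theorem neS {a b : V} (ha : I.S a) (hb : I.N b) : a ≠ b := fun h => hb.1 (h ▸ ha)

omit [Fintype V] [DecidableEq V] in
theorem neT {a b : V} (ha : I.T a) (hb : I.N b) : a ≠ b := fun h => hb.2 (h ▸ ha)

/-- The two tight sets. -/
structure Jset (I : Inst V) (s x m w y : V) (J1 J2 : V → Prop) : Prop where
  Js : J1 s
  Jm : J1 m
  Jx : ¬ J1 x
  Jw : ¬ J1 w
  ex1 : ∀ a b, J1 a → ¬ J1 b → I.Gm a b → (a = s ∧ b = x) ∨ (a = m ∧ b = w)
  J2x : J2 x
  ex2 : ∀ a b, J2 a → ¬ J2 b → I.Gm a b → (a = x ∧ b = m) ∨ (a = x ∧ b = w)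
  dj : ∀ c, J1 c → ¬ J2 c
  J1y : ∀ c, J1 c → ¬ I.Gm c y

theorem LH.sets (h : LH I s x m w y) : ∃ J1 J2, Jset I s x m w y J1 J2 := by
  have sx : s ≠ x := neS h.hs h.hx
  have sm : s ≠ m := neS h.hs h.hm
  have sw : s ≠ w := neS h.hs h.hw
  have yx : y ≠ x := neT h.hy h.hx
  have ym : y ≠ m := neT h.hy h.hm
  set Lp : V → V → Prop := fun u v => (u = s ∧ v = x) ∨ (u = x ∧ v = m) with hLp
  set Lm : V → V → Prop := fun _ _ => False with hLm
  have Rs : (I.lab Lp Lm).R s := Inst.RL.s h.hs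
  have Rx : (I.lab Lp Lm).R x := by
    refine Inst.RL.rp Rs ⟨h.h1.1, fun hh => hh⟩ fun hh => ?_
    rw [Inst.lab_Cf] at hh
    exact hh.2.1 (Or.inl ⟨rfl, rfl⟩)
  have Rm : (I.lab Lp Lm).R m := by
    refine Inst.RL.rp Rx ⟨h.h2.1, fun hh => hh⟩ fun hh => ?_
    rw [Inst.lab_Cf] at hh
    exact hh.2.1 (Or.inr ⟨rfl, rfl⟩)
  have Ry : (I.lab Lp Lm).R y := by
    refine Inst.RL.rp Rm ⟨h.h6, fun hh => hh⟩ fun hh => ?_
    rw [Inst.lab_Cf] at hh
    exact h.h6' hh.1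
  have Ly : (I.lab Lp Lm).L y := Inst.RL.t h.hy
  have hcov := Inst.norm_done h.hI (Lp := Lp) (Lm := Lm)
    (fun u v huv => by
      rcases huv with ⟨rfl, rfl⟩ | ⟨rfl, rfl⟩
      · exact Rs
      · exact Rx)
    (fun u v huv => huv.elim) Ry Ly
  obtain ⟨J1, J2, t1, t2, hd⟩ := Inst.hall_pp h.hI.toClosed h.h1 h.h2 (Lp := Lp) (Lm := Lm)
    (fun u v => Iff.rfl) (fun u v hh => hh) hcov h.hns
  have Lw : (I.lab Lp Lm).L w := by
    refine Inst.RL.lc Ly Ry ⟨h.h5.2.1, fun hh => ?_⟩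
    rcases hh with ⟨h8, _⟩ | ⟨h8, _⟩
    · exact sw h8.symm
    · exact h.xw h8.symm
  have J1w : ¬ J1 w := fun hh => t1.sub _ hh Lw
  have J2w : ¬ J2 w := fun hh => t2.sub _ hh Lw
  have gsm : (I.lab Lp Lm).Gm s m := by
    refine ⟨h.h7, fun hh => ?_⟩
    rcases hh with ⟨_, h8⟩ | ⟨h8, _⟩
    · exact h.xm h8.symm
    · exact sx h8
  have J1m : J1 m := by
    refine t1.cl _ _ t1.mem gsm fun hh => ?_
    refine t1.sub _ t1.mem (Inst.RL.lm hh gsm fun h8 => ?_)
    rw [Inst.lab_Cf] at h8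
    exact h.h7' h8.1
  refine ⟨J1, J2, ⟨t1.mem, J1m, t1.nmem, J1w, ?_, t2.mem, ?_, hd, ?_⟩⟩
  · obtain ⟨c, d, hcd⟩ := t1.ex
    intro a b ha hb hab
    rcases hcd m w J1m J1w h.h4.2.1 with ⟨h8, _⟩ | ⟨h8, h9⟩
    · exact absurd h8.symm sm
    · rcases hcd a b ha hb hab with h10 | h10
      · exact Or.inl h10
      · exact Or.inr ⟨h10.1.trans h8.symm, h10.2.trans h9.symm⟩
  · obtain ⟨c, d, hcd⟩ := t2.ex
    intro a b ha hb hab
    rcases hcd x w t2.mem J2w h.h3.2.1 with ⟨_, h8⟩ | ⟨h8, h9⟩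
    · exact absurd h8.symm h.mw
    · rcases hcd a b ha hb hab with h10 | h10
      · exact Or.inl h10
      · exact Or.inr ⟨h10.1.trans h8.symm, h10.2.trans h9.symm⟩
  · intro c hc hcy
    refine t1.sub _ hc (Inst.RL.lc Ly Ry ⟨hcy, fun hh => ?_⟩)
    rcases hh with ⟨_, h8⟩ | ⟨_, h8⟩
    · exact yx h8
    · exact ym h8

theorem LH.alpha (h : LH I s x m w y) {c : V} (hc : I.N c) (cx : c ≠ x) (cm : c ≠ m)
    (cw : c ≠ w) (hmc : I.Gp m c) (hcr : ¬ Rch (Del I.Gp m c) I.S c) : False := by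
  obtain ⟨I1, I2, hI1⟩ := h.toDual.sets
  have sx : s ≠ x := neS h.hs h.hx
  have sm : s ≠ m := neS h.hs h.hm
  have sw : s ≠ w := neS h.hs h.hw
  have sc : s ≠ c := neS h.hs hc
  have yx : y ≠ x := neT h.hy h.hx
  have ym : y ≠ m := neT h.hy h.hm
  have yw : y ≠ w := neT h.hy h.hw
  have yc : y ≠ c := neT h.hy hc
  have rx : Rch (Del I.Gp m c) I.S x := (Rch.base h.hs).step ⟨h.h1.1, fun hh => sm hh.1⟩
  have rm : Rch (Del I.Gp m c) I.S m := rx.step ⟨h.h2.1, fun hh => h.xm hh.1⟩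
  have rw' : Rch (Del I.Gp m c) I.S w := rx.step ⟨h.h3.1, fun hh => h.xm hh.1⟩
  have ry : Rch (Del I.Gp m c) I.S y := rm.step ⟨h.h6, fun hh => yc hh.2⟩
  have nx : ¬ I.Gp x c := fun hh => hcr (rx.step ⟨hh, fun h8 => h.xm h8.1⟩)
  have ny : ¬ I.Gp y c := fun hh => hcr (ry.step ⟨hh, fun h8 => ym h8.1⟩)
  have nw : ¬ I.Gp w c := fun hh => hcr (rw'.step ⟨hh, fun h8 => h.mw h8.1.symm⟩)
  -- y and c
  have gcy : I.Gp c y := by
    have key : I.Gm c y → I.Gp c y := by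
      intro hh
      by_contra h8
      exact hc.2 (h.hI.tm c y h.hy hh fun h9 => h8 h9.1)
    rcases h.hI.good c y hc yc with (h8 | h8 | h8) | (h8 | h8 | h8)
    · exact h8.1
    · exact h8.1
    · exact key h8.1
    · exact absurd h8.1 ny
    · exact absurd h8.1 ny
    · exact absurd (Col.base h.hy) h8.2
  have c1 : I1 c := by
    by_contra h8
    rcases hI1.ex1 y c hI1.Js h8 gcy with ⟨_, h9⟩ | ⟨h9, _⟩
    · exact cw h9
    · exact ym h9
  -- x and c
  have gcx : I.Gm c x := by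
    rcases h.hI.good c x hc cx.symm with (h8 | h8 | h8) | (h8 | h8 | h8)
    · exact h8.2
    · exact absurd ((Rch.base h.hs).step ⟨h.h1.1, fun hh => sc hh.1⟩) h8.2
    · exact h8.1
    · exact absurd h8.1 nx
    · exact absurd h8.1 nx
    · exfalso
      refine h8.2 (Col.step (Col.step (Col.base h.hy) (u := w) ⟨h.h5.2.1, ?_⟩) ⟨h.h3.2.1, ?_⟩)
      · exact fun hh => h.xw hh.1.symm
      · exact fun hh => cw hh.2.symm
  -- w and c
  rcases h.hI.good c w hc cw.symm with (h8 | h8 | h8) | (h8 | h8 | h8)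
  · rcases hI1.ex2 w c hI1.J2x (hI1.dj _ c1) h8.1 with ⟨_, h9⟩ | ⟨_, h9⟩
    · exact cm h9
    · exact cx h9
  · rcases hI1.ex2 w c hI1.J2x (hI1.dj _ c1) h8.1 with ⟨_, h9⟩ | ⟨_, h9⟩
    · exact cm h9
    · exact cx h9
  · refine h8.2 (Col.step (Col.step (Col.step (Col.base h.hy) (u := w) ⟨h.h5.2.1, ?_⟩)
      (u := x) ⟨h.h3.2.1, ?_⟩) ⟨gcx, ?_⟩)
    · exact fun hh => cw hh.1.symm
    · exact fun hh => cx hh.1.symm
    · exact fun hh => h.xw hh.2
  · exact nw h8.1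
  · exact nw h8.1
  · refine h8.2 (Col.step (Col.base h.hy) ⟨h.h5.2.1, ?_⟩)
    exact fun hh => yc hh.2

theorem LH.gamma (h : LH I s x m w y) {J1 J2 : V → Prop} (hJ : Jset I s x m w y J1 J2) {c : V}
    (hc : I.N c) (cx : c ≠ x) (cm : c ≠ m) (cw : c ≠ w) (c1 : J1 c) : False := by
  have sx : s ≠ x := neS h.hs h.hx
  have sm : s ≠ m := neS h.hs h.hm
  have sc : s ≠ c := neS h.hs hc
  have yx : y ≠ x := neT h.hy h.hx
  have ym : y ≠ m := neT h.hy h.hm
  have yc : y ≠ c := neT h.hy hc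
  have nGm : ¬ I.Gm c x := by
    intro hh
    rcases hJ.ex1 c x c1 hJ.Jx hh with ⟨h9, _⟩ | ⟨h9, _⟩
    · exact sc h9.symm
    · exact cm h9
  have nGm' : ¬ I.Gm x c := by
    intro hh
    rcases hJ.ex2 x c hJ.J2x (hJ.dj _ c1) hh with ⟨_, h9⟩ | ⟨_, h9⟩
    · exact cm h9
    · exact cw h9
  have key : ¬ Rch (Del I.Gp x c) I.S c := by
    rcases h.hI.good c x hc cx.symm with (h8 | h8 | h8) | (h8 | h8 | h8)
    · exact absurd h8.2 nGm
    · exact absurd ((Rch.base h.hs).step ⟨h.h1.1, fun hh => sc hh.1⟩) h8.2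
    · exact absurd h8.1 nGm
    · exact absurd h8.2 nGm'
    · exact h8.2
    · exact absurd h8.1 nGm'
  have ry : ∀ a b, (a ≠ s ∨ b ≠ x) → (a ≠ x ∨ b ≠ m) → (a ≠ m ∨ b ≠ y) →
      Rch (Del I.Gp a b) I.S y := by
    intro a b e1 e2 e3
    refine Rch.step (Rch.step (Rch.step (Rch.base h.hs) (v := x) ⟨h.h1.1, ?_⟩) (v := m)
      ⟨h.h2.1, ?_⟩) ⟨h.h6, ?_⟩
    · rintro ⟨rfl, rfl⟩; simp at e1
    · rintro ⟨rfl, rfl⟩; simp at e2
    · rintro ⟨rfl, rfl⟩; simp at e3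
  rcases h.hI.good c y hc yc with (h8 | h8 | h8) | (h8 | h8 | h8)
  · exact hJ.J1y _ c1 h8.2
  · exact h8.2 (ry c y (Or.inl sc.symm) (Or.inl cx) (Or.inl cm))
  · exact hJ.J1y _ c1 h8.1
  · exact key ((ry x c (Or.inl sx.symm) (Or.inr cm) (Or.inl h.xm)).step
      ⟨h8.1, fun hh => yx hh.1⟩)
  · exact key ((ry x c (Or.inl sx.symm) (Or.inr cm) (Or.inl h.xm)).step
      ⟨h8.1, fun hh => yx hh.1⟩)
  · exact h8.2 (Col.base h.hy)

theorem LH.only (h : LH I s x m w y) {c : V} (hc : I.N c) : c = x ∨ c = m ∨ c = w := by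
  by_contra hne
  push Not at hne
  obtain ⟨cx, cm, cw⟩ := hne
  obtain ⟨J1, J2, hJ⟩ := h.sets
  obtain ⟨I1, I2, hI1⟩ := h.toDual.sets
  have sm : s ≠ m := neS h.hs h.hm
  have ym : y ≠ m := neT h.hy h.hm
  have al := fun h1 h2 => h.alpha hc cx cm cw h1 h2
  have al' : I.Gm c m → ¬ Col (Del I.Gm c m) I.T c → False := by
    intro h1 h2
    refine h.toDual.alpha (Inst.dual_N.2 hc) cw cm cx h1 fun hh => h2 ?_
    exact Inst.rch_del_dual.1 hh
  have a1 : ¬ J1 c := fun hh => h.gamma hJ hc cx cm cw hh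
  have a2 : ¬ I1 c := fun hh => h.toDual.gamma hI1 (Inst.dual_N.2 hc) cw cm cx hh
  have b1 : ¬ I.Gm m c := by
    intro hh
    rcases hJ.ex1 m c hJ.Jm a1 hh with ⟨h9, _⟩ | ⟨_, h9⟩
    · exact sm h9.symm
    · exact cw h9
  have b2 : ¬ I.Gp c m := by
    intro hh
    rcases hI1.ex1 m c hI1.Jm a2 hh with ⟨h9, _⟩ | ⟨_, h9⟩
    · exact ym h9.symm
    · exact cx h9
  rcases h.hI.good c m hc cm.symm with (h8 | h8 | h8) | (h8 | h8 | h8)
  · exact b2 h8.1
  · exact b2 h8.1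
  · exact al' h8.1 h8.2
  · exact b1 h8.2
  · exact al h8.1 h8.2
  · exact b1 h8.1

end LastAux

theorem last {I : Inst V} (hI : I.Norm) (h4 : Inst.Four I.N) {s x m w y : V} (hs : I.S s)
    (hy : I.T y) (hx : I.N x) (hm : I.N m) (hw : I.N w) (hxm : x ≠ m) (hmw : m ≠ w) (hxw : x ≠ w)
    (h1 : I.Cf s x) (h2 : I.Cf x m) (h3 : I.Cf x w) (h4' : I.Cf m w) (h5 : I.Cf w y)
    (h6 : I.Gp m y) (h6' : ¬ I.Cf m y) (h7 : I.Gm s m) (h7' : ¬ I.Cf s m) : I.Solvable := by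
  by_contra hns
  have H : LastAux.LH I s x m w y := ⟨hI, hns, hs, hy, hx, hm, hw, hxm, hmw, hxw, h1, h2, h3, h4',
    h5, h6, h6', h7, h7'⟩
  obtain ⟨a, b, c, d, ha, hb, hc, hd, ab, ac, ad, bc, bd, cd⟩ := h4
  rcases H.only ha with rfl | rfl | rfl <;> rcases H.only hb with rfl | rfl | rfl <;>
    rcases H.only hc with rfl | rfl | rfl <;> rcases H.only hd with rfl | rfl | rfl <;>
    simp_all

end Pool.Agent.Lib.AB474
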