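import Pool.Agent.Lib.AB474.WDefs

/-!
# MODULE Link: linking lemma: in a normalised instance there is a linked pair (about 2 h)

STATEMENT: I.Norm on a finite nonempty type => there are k, p, l, q with Linked I k p l q.

PROOF.  For a relation B contained in Gm let rho(B) = {v : Rch (fun a b => Gp a b /\ not (Cf a b /\ B a b)) S v}.
B is called a connector if B is contained in Gm and some t in T is reached from some s in S by B-arcs.
Gm itself is a connector (S is nonempty as V is nonempty and everything is reached from S; Closed.cm).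
(1) Choose a connector B0 with rho(B0) of maximal cardinality (finite type), and then a shortest walk
 q 0, ..., q l in B0 from S to T (l minimal).  Then q i are distinct for i <= l, q i in N for 0 < i < l
 (otherwise a shorter walk from S to T in B0), Arcs l q is a connector contained in B0, so
 rho(q) := rho(Arcs l q) contains rho(B0); hence for every connector B:  rho(q) subset rho(B) implies
 rho(B) = rho(q).   (MAX)
(2) Write X := rho(q).  S is in X.  If some t in T is in X: there is a walk p from S to t in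
 Gp minus (Cf and Arcs l q): take p, k from ReflTransGen (a walk function); Linked.  Done.
(3) Suppose T is disjoint from X.  An ENTRY is a pair (u,v) with Gp u v, u in X, v not in X.  Every entry
 is Cf and an arc of q (otherwise v would be in X).  There are at least two entries: T nonempty, T outside X,
 Closed.rp gives one (Rch.enter), it is Cf, Closed.np applied to it gives a second one.
 Let i be the least index < l such that (q i, q (i+1)) is an entry, and j the largest index < l with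
 q j in X, q (j+1) not in X.  i <= j.  If i = j there is only one entry; so i < j, in fact i + 2 <= j as
 q (i+1) is not in X and q j is in X.  Put b := q (i+1), u := q j, v := q (j+1); b, u in N, b /= u.
(4) Gm b u.  Use Norm.good for b and u.
  - Good u b with Gp u b: (u,b) is an entry, so an arc of q, (q a, q (a+1)) = (u,b), a = j by
    distinctness, b = q (j+1), i + 1 = j + 1: no.
  - Good u b with Gm u b and not Col (Del Gm u b) T u: the walk q j, q (j+1), ..., q l leads to T and
    does not use (u,b) (distinctness: tail q j only for index j, head q (j+1) /= b): no.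
  - Good b u with not Rch (Del Gp b u) S u: u in X is reached from S inside X by Gp arcs, none
    of them has tail b: no.       So Gm b u.
(5) Let B1 = {(q a, q (a+1)) : a <= i or a >= j} u {(b,u)}.  B1 is a connector.  rho(q) subset rho(B1):
  the arcs of a walk from S inside X which are allowed for q are allowed for B1, since the only new
  arc (b,u) of B1 has its tail outside X.  By (MAX) equality.  If (q a, q (a+1)) is an entry with
  i < a < j, then it is not in B1 (distinctness, and tail q a in X so it is not (b,u)), so its head is in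
  rho(B1) = X: no.  Entries have index >= i by choice of i, and index <= j by choice of j.
  So all entries are among e1 = (q i, q (i+1)), e2 = (q j, q (j+1)); both are entries, e1 /= e2, Cf.
(6) Let Y = {y : y reached from b by Gm arcs with both ends outside X} (contains b, outside X).
  T is disjoint from Y: otherwise B2 = {(q a, q (a+1)) : a <= i} u {(x,y) : Gm x y, x, y not in X} is
  a connector; rho(q) subset rho(B2) as new arcs have tails outside X; e2 is not in B2 (tail q j in X, and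
  j > i distinctness), so q (j+1) in rho(B2), against (MAX).
(7) e2 is Cf so Closed.nm: Col (Del Gm (q j) (q (j+1))) T (q j).  Let G' := Del Gm (q j) (q(j+1)).
  Consider the set W = {z : z not in X, z not in Y, and z leads to T by G' arcs inside
  {not in X, not in Y}}.  T is in W.  q j (in X) leads to T by G' arcs and is not in W: take the last
  arc entering W (Col.exit for the set not-W): G' u' v', u' not in W, v' in W.
  u' is in X or in Y (if it is in neither then u' in W).  u' in Y, v' not in X gives v' in Y: no.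
  So u' in X.  v' not in X.  (u',v') is not Cf: otherwise it is an entry, = e1 or e2; = e2 is excluded
  by G'; = e1 means v' = b in Y: no.  So Gm u' v', not Cf u' v'.
(8) Case u' = q i.  B3 = {(q a, q (a+1)) : a < i} u {(q i, v')} u {(x,y): Gm x y, x, y not in X}: a connector
  (v' leads to T outside X); new arcs with tail in X: (q i, v') is not Cf; so rho(q) subset rho(B3).
  e1 is not in B3: q i = q a with a < i: no; v' /= b since b in Y.  So b in rho(B3) by the
  entry e1: against (MAX).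
(9) Case u' /= q i.  Gm b u': use Norm.good for b and u'.  Good u' b with Gp u' b: entry, = e1 or e2, so
  u' = q i (no) or b = q (j+1) (no).  Good u' b with Gm u' b, not Col (Del Gm u' b) T u': u' -> v' -> ... T
  inside not-Y (v' in W), avoids b: no.  Good b u' critical in Gp: u' in X: no.
  B4 = {(q a, q(a+1)) : a <= i} u {(b,u')} u {(u',v')} u {(x,y) : Gm x y, x, y not in X}: connector; new arcs with
  tail in X: only (u',v'), not Cf.  So rho(q) subset rho(B4).  e2 not in B4: index j > i; (q j, q (j+1)) = (u',v')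
  is not possible as (u',v') is not Cf.  So q (j+1) in rho(B4), against (MAX).
-/

namespace Pool.Agent.Lib.AB474

open Relation

variable {V : Type*} [Finite V] [Nonempty V]

namespace LinkAux

omit [Finite V] [Nonempty V] in
theorem walk_of_rt {A : V → V → Prop} {s t : V} (h : ReflTransGen A s t) :
    ∃ (l : ℕ) (q : ℕ → V), q 0 = s ∧ q l = t ∧ Walk A l q := by
  induction h with
  | refl => exact ⟨0, fun _ => s, rfl, rfl, fun i hi => absurd hi (Nat.not_lt_zero _)⟩
  | @tail b c _ hbc ih =>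
    obtain ⟨l, q, h0, hl, hw⟩ := ih
    refine ⟨l + 1, fun n => if n ≤ l then q n else c, ?_, ?_, ?_⟩
    · simpa using h0
    · simp
    · intro n hn
      rcases Nat.lt_or_ge n l with h | h
      · have e1 : n ≤ l := h.le
        have e2 : n + 1 ≤ l := h
        simp only [e1, e2, if_true]
        exact hw n h
      · have e : n = l := by omega
        subst e
        simp only [le_refl, if_true, hl]
        have : ¬ (n + 1 ≤ n) := by omega
        simp only [this, if_false]
        exact hbc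

omit [Finite V] [Nonempty V] in
theorem rt_of_walk {A : V → V → Prop} {q : ℕ → V} {i j : ℕ} (hij : i ≤ j)
    (h : ∀ n, i ≤ n → n < j → A (q n) (q (n + 1))) : ReflTransGen A (q i) (q j) := by
  induction j, hij using Nat.le_induction with
  | base => exact ReflTransGen.refl
  | succ j hj ih => exact (ih fun n h1 h2 => h n h1 (by omega)).tail (h j hj (by omega))

/-- the set reached by the plus side when the conflict arcs of `B` are used by the minus side -/
def rho (I : Inst V) (B : V → V → Prop) (v : V) : Prop :=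
  Rch (fun a b => I.Gp a b ∧ ¬ (I.Cf a b ∧ B a b)) I.S v

/-- a relation inside the minus arcs joining `S` to `T` -/
def Conn (I : Inst V) (B : V → V → Prop) : Prop :=
  (∀ a b, B a b → I.Gm a b) ∧ ∃ s t, I.S s ∧ I.T t ∧ ReflTransGen B s t

omit [Finite V] [Nonempty V] in
theorem rho_anti {I : Inst V} {B B' : V → V → Prop} (h : ∀ a b, B' a b → B a b) {v : V}
    (hv : rho I B v) : rho I B' v :=
  hv.mono (fun a b hab => ⟨hab.1, fun hh => hab.2 ⟨hh.1, h a b hh.2⟩⟩) (fun _ hs => hs)

omit [Finite V] [Nonempty V] in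
theorem rho_inside {I : Inst V} {B : V → V → Prop} {v : V} (hv : rho I B v) :
    ∃ s, I.S s ∧ ReflTransGen (fun a b => (I.Gp a b ∧ ¬ (I.Cf a b ∧ B a b)) ∧ rho I B a ∧ rho I B b) s v := by
  obtain ⟨s, hs, h⟩ := hv
  refine ⟨s, hs, ?_⟩
  have key : rho I B v ∧
      ReflTransGen (fun a b => (I.Gp a b ∧ ¬ (I.Cf a b ∧ B a b)) ∧ rho I B a ∧ rho I B b) s v := by
    induction h with
    | refl => exact ⟨Rch.base hs, ReflTransGen.refl⟩
    | tail _ hbc ih => exact ⟨ih.1.step hbc, ih.2.tail ⟨hbc, ih.1, ih.1.step hbc⟩⟩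
  exact key.2

omit [Finite V] [Nonempty V] in
theorem rho_sub {I : Inst V} {B B' : V → V → Prop}
    (h : ∀ x y, rho I B x → I.Cf x y → B' x y → B x y) {v : V} (hv : rho I B v) : rho I B' v := by
  obtain ⟨s, hs, h'⟩ := rho_inside hv
  exact ⟨s, hs, rtmono h' fun a b hab => ⟨hab.1.1, fun hh => hab.1.2 ⟨hh.1, h a b hab.2.1 hh.1 hh.2⟩⟩⟩

theorem exists_best {I : Inst V} (hI : I.Norm) : ∃ (l : ℕ) (q : ℕ → V),
    I.S (q 0) ∧ I.T (q l) ∧ Walk I.Gm l q ∧ (∀ i j, i < j → j ≤ l → q i ≠ q j) ∧
    (∀ i, 0 < i → i < l → I.N (q i)) ∧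
    ∀ B, Conn I B → (∀ v, rho I (Arcs l q) v → rho I B v) → ∀ v, rho I B v → rho I (Arcs l q) v := by
  classical
  obtain ⟨v0⟩ := (inferInstance : Nonempty V)
  have hne : {B : V → V → Prop | Conn I B}.Nonempty := by
    obtain ⟨s, hs, _⟩ := hI.rp v0
    obtain ⟨t, ht, hst⟩ := hI.cm s
    exact ⟨I.Gm, fun _ _ h => h, s, t, hs, ht, hst⟩
  obtain ⟨B0, hB0, hmax⟩ := Set.exists_max_image {B : V → V → Prop | Conn I B}
    (fun B => Set.ncard {v | rho I B v}) (Set.toFinite _) hne
  have hB0' : Conn I B0 := hB0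
  have hex : ∃ l : ℕ, ∃ q : ℕ → V, I.S (q 0) ∧ I.T (q l) ∧ Walk B0 l q := by
    obtain ⟨s, t, hs, ht, hst⟩ := hB0'.2
    obtain ⟨l, q, h0, hl, hw⟩ := walk_of_rt hst
    exact ⟨l, q, h0 ▸ hs, hl ▸ ht, hw⟩
  obtain ⟨q, q0, ql, qw⟩ := Nat.find_spec hex
  set l := Nat.find hex with hl
  have hmin : ∀ l' < l, ∀ q' : ℕ → V, I.S (q' 0) → I.T (q' l') → ¬ Walk B0 l' q' :=
    fun l' hl' q' h0 h1 h2 => Nat.find_min hex hl' ⟨q', h0, h1, h2⟩
  refine ⟨l, q, q0, ql, fun i hi => hB0'.1 _ _ (qw i hi), ?_, ?_, ?_⟩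
  · intro i j hij hjl heq
    refine hmin (l - (j - i)) (by omega) (fun n => if n ≤ i then q n else q (n + (j - i))) ?_ ?_ ?_
    · simpa using q0
    · by_cases h : l - (j - i) ≤ i
      · have e : l = j := by omega
        simp only [h, if_true]
        have e2 : l - (j - i) = i := by omega
        rw [e2, heq, ← e]
        exact ql
      · simp only [h, if_false]
        have e2 : l - (j - i) + (j - i) = l := by omega
        rw [e2]
        exact ql
    · intro n hn
      rcases lt_trichotomy n i with h | h | h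
      · have e1 : n ≤ i := h.le
        have e2 : n + 1 ≤ i := h
        simp only [e1, e2, if_true]
        exact qw n (by omega)
      · subst h
        have e2 : ¬ (n + 1 ≤ n) := by omega
        simp only [le_refl, if_true, e2, if_false]
        rw [heq]
        have e3 : n + 1 + (j - n) = j + 1 := by omega
        rw [e3]
        exact qw j (by omega)
      · have e1 : ¬ (n ≤ i) := by omega
        have e2 : ¬ (n + 1 ≤ i) := by omega
        simp only [e1, e2, if_false]
        have e3 : n + 1 + (j - i) = n + (j - i) + 1 := by omega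
        rw [e3]
        exact qw _ (by omega)
  · intro i h0 hil
    refine ⟨fun hS => ?_, fun hT => ?_⟩
    · refine hmin (l - i) (by omega) (fun n => q (n + i)) (by simpa using hS) ?_ ?_
      · have e : l - i + i = l := by omega
        simp only [e]
        exact ql
      · intro n hn
        have e : n + 1 + i = n + i + 1 := by omega
        simp only [e]
        exact qw _ (by omega)
    · exact hmin i hil q q0 hT fun n hn => qw n (by omega)
  · intro B hB hsub v hv
    have h1 : {v | rho I B0 v} ⊆ {v | rho I (Arcs l q) v} := by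
      intro w hw
      refine rho_anti ?_ hw
      rintro a b ⟨i, hi, rfl, rfl⟩
      exact qw i hi
    have h2 : {v | rho I (Arcs l q) v} ⊆ {v | rho I B v} := fun w hw => hsub w hw
    have h3 := hmax B hB
    have h4 := Set.ncard_le_ncard h1 (Set.toFinite _)
    have h5 : {v | rho I (Arcs l q) v} = {v | rho I B v} :=
      Set.eq_of_subset_of_ncard_le h2 (h3.trans h4) (Set.toFinite _)
    have h6 : v ∈ {v | rho I (Arcs l q) v} := by
      rw [h5]
      exact hv
    exact h6

end LinkAux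

open LinkAux

theorem linking {I : Inst V} (hI : I.Norm) : ∃ k p l q, Linked I k p l q := by
  classical
  obtain ⟨l, q, q0, ql, qw, qd, qN, hmax⟩ := exists_best hI
  have qinj : ∀ i j, i ≤ l → j ≤ l → q i = q j → i = j := by
    intro i j hi hj he
    rcases lt_trichotomy i j with h | h | h
    · exact absurd he (qd i j h hj)
    · exact h
    · exact absurd he.symm (qd j i h hi)
  set X : V → Prop := rho I (Arcs l q) with hX
  by_cases hTX : ∃ t, I.T t ∧ X t
  · obtain ⟨t, ht, s, hs, hst⟩ := hTX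
    obtain ⟨k, p, hp0, hpk, hpw⟩ := walk_of_rt hst
    refine ⟨k, p, l, q, ⟨hp0 ▸ hs, hpk ▸ ht, fun i hi => (hpw i hi).1, q0, ql, qw, ?_⟩⟩
    rintro u v ⟨i, hi, rfl, rfl⟩ h2 h3
    exact (hpw i hi).2 ⟨h3, h2⟩
  exfalso
  have hTX' : ∀ t, I.T t → ¬ X t := fun t ht hx => hTX ⟨t, ht, hx⟩
  have hSX : ∀ s, I.S s → X s := fun s hs => Rch.base hs
  -- entries
  have hent : ∀ u v, I.Gp u v → X u → ¬ X v → I.Cf u v ∧ Arcs l q u v := by
    intro u v huv hu hv
    by_contra hc
    exact hv (Rch.step hu ⟨huv, hc⟩)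
  -- contradiction principle
  have contra : ∀ B : V → V → Prop, Conn I B → (∀ x y, X x → I.Cf x y → B x y → Arcs l q x y) →
      ∀ x y, I.Gp x y → X x → ¬ X y → ¬ B x y → False := by
    intro B hB hsub x y hxy hx hy hnB
    have h1 : ∀ v, X v → rho I B v := fun v hv => rho_sub hsub hv
    exact hy (hmax B hB h1 y ((h1 x hx).step ⟨hxy, fun hh => hnB hh.2⟩))
  -- reach inside `X` avoiding arcs with tail outside
  have hins : ∀ a b, ¬ X a → ∀ v, X v → Rch (Del I.Gp a b) I.S v := by
    intro a b ha v hv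
    obtain ⟨s, hs, h⟩ := rho_inside hv
    refine ⟨s, hs, rtmono h ?_⟩
    rintro x y ⟨h1, h2, _⟩
    exact ⟨h1.1, fun hh => ha (hh.1 ▸ h2)⟩
  -- indices of entries
  let E : ℕ → Prop := fun a => a < l ∧ I.Gp (q a) (q (a + 1)) ∧ X (q a) ∧ ¬ X (q (a + 1))
  have hentE : ∀ u v, I.Gp u v → X u → ¬ X v → ∃ a, E a ∧ q a = u ∧ q (a + 1) = v := by
    intro u v huv hu hv
    obtain ⟨_, a, ha, rfl, rfl⟩ := hent u v huv hu hv
    exact ⟨a, ⟨ha, huv, hu, hv⟩, rfl, rfl⟩
  have hT0 : ¬ X (q l) := hTX' _ ql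
  obtain ⟨a1, hE1⟩ : ∃ a, E a := by
    obtain ⟨u, v, h1, h2, h3, _⟩ := (hI.rp (q l)).enter (fun v => ¬ X v) hT0
      (fun s hs h => h (hSX s hs))
    obtain ⟨a, ha, _⟩ := hentE u v h1 (not_not.1 h2) h3
    exact ⟨a, ha⟩
  obtain ⟨a2, hE2, h12⟩ : ∃ a, E a ∧ a ≠ a1 := by
    have hcf : I.Cf (q a1) (q (a1 + 1)) := (hent _ _ hE1.2.1 hE1.2.2.1 hE1.2.2.2).1
    obtain ⟨u, v, h1, h2, h3, _⟩ := (hI.np _ _ hcf (q l)).enter (fun v => ¬ X v) hT0
      (fun s hs h => h (hSX s hs))
    obtain ⟨a, ha, rfl, rfl⟩ := hentE u v h1.1 (not_not.1 h2) h3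
    refine ⟨a, ha, ?_⟩
    rintro rfl
    exact h1.2 ⟨rfl, rfl⟩
  -- least and greatest
  have hEne : ∃ a, E a := ⟨a1, hE1⟩
  obtain ⟨i, hEi, hi⟩ : ∃ i, E i ∧ ∀ a, E a → i ≤ a :=
    ⟨Nat.find hEne, Nat.find_spec hEne, fun a ha => Nat.find_min' hEne ha⟩
  obtain ⟨j, hEj, hj⟩ : ∃ j, E j ∧ ∀ a, E a → a ≤ j := by
    have hfin : {a | E a}.Finite := (Set.finite_lt_nat l).subset fun a ha => ha.1
    obtain ⟨j, hj, hjm⟩ := Set.exists_max_image {a | E a} id hfin ⟨a1, hE1⟩
    exact ⟨j, hj, fun a ha => hjm a ha⟩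
  have hij : i < j := by
    have h1 := hi a1 hE1
    have h2 := hi a2 hE2
    have h3 := hj a1 hE1
    have h4 := hj a2 hE2
    omega
  have hij2 : i + 2 ≤ j := by
    have : i + 1 ≠ j := by
      rintro rfl
      exact hEi.2.2.2 hEj.2.2.1
    omega
  have hjl : j < l := hEj.1
  set b := q (i + 1) with hb
  set u := q j with hu
  have hbX : ¬ X b := hEi.2.2.2
  have huX : X u := hEj.2.2.1
  have hbN : I.N b := qN _ (by omega) (by omega)
  have hbu : b ≠ u := fun h => hbX (h ▸ huX)
  -- step 4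
  have hGbu : I.Gm b u := by
    have hno : ¬ I.Gp u b := by
      intro h
      obtain ⟨a, ha, h1, h2⟩ := hentE u b h huX hbX
      have e1 := qinj a j (by have := ha.1; omega) hjl.le h1
      have e2 := qinj (a + 1) (i + 1) (by have := ha.1; omega) (by omega) h2
      omega
    rcases hI.good b u hbN hbu.symm with h | h
    · rcases h with h | h | h
      · exact h.2
      · exact absurd (hins b u hbX u huX) h.2
      · exact h.1
    · rcases h with h | h | h
      · exact absurd h.1 hno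
      · exact absurd h.1 hno
      · exfalso
        apply h.2
        refine ⟨q l, ql, ?_⟩
        refine rt_of_walk hjl.le fun n h1 h2 => ⟨qw n h2, ?_⟩
        rintro ⟨e1, e2⟩
        have e3 := qinj n j (by omega) hjl.le e1
        have e4 := qinj (n + 1) (i + 1) (by omega) (by omega) e2
        omega
  -- step 5
  have hB1 : ∀ a, E a → a = i ∨ a = j := by
    intro a ha
    by_contra hc
    push Not at hc
    have h1 := hi a ha
    have h2 := hj a ha
    have h3 := ha.1
    refine contra (fun x y => (∃ c < l, (c ≤ i ∨ j ≤ c) ∧ q c = x ∧ q (c + 1) = y) ∨ (x = b ∧ y = u))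
      ⟨?_, q 0, q l, q0, ql, ?_⟩ ?_ (q a) (q (a + 1)) ha.2.1 ha.2.2.1 ha.2.2.2 ?_
    · rintro x y (⟨c, hc, _, rfl, rfl⟩ | ⟨rfl, rfl⟩)
      · exact qw c hc
      · exact hGbu
    · have p1 : ReflTransGen (fun x y => (∃ c < l, (c ≤ i ∨ j ≤ c) ∧ q c = x ∧ q (c + 1) = y) ∨
          (x = b ∧ y = u)) (q 0) (q (i + 1)) :=
        rt_of_walk (by omega) fun n _ hn => Or.inl ⟨n, by omega, Or.inl (by omega), rfl, rfl⟩
      have p2 : ReflTransGen (fun x y => (∃ c < l, (c ≤ i ∨ j ≤ c) ∧ q c = x ∧ q (c + 1) = y) ∨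
          (x = b ∧ y = u)) (q j) (q l) :=
        rt_of_walk hjl.le fun n hn hn' => Or.inl ⟨n, hn', Or.inr hn, rfl, rfl⟩
      exact (p1.tail (Or.inr ⟨rfl, rfl⟩)).trans p2
    · rintro x y hx _ (⟨c, hc, _, rfl, rfl⟩ | ⟨rfl, rfl⟩)
      · exact ⟨c, hc, rfl, rfl⟩
      · exact absurd hx hbX
    · rintro (⟨c, hc', h5, h6, _⟩ | ⟨h6, _⟩)
      · have := qinj c a (by omega) (by omega) h6
        omega
      · exact hbX (h6 ▸ ha.2.2.1)
  have hcf2 : I.Cf (q j) (q (j + 1)) := (hent _ _ hEj.2.1 hEj.2.2.1 hEj.2.2.2).1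
  -- step 6
  let Y : V → Prop := fun y => ReflTransGen (fun x y => I.Gm x y ∧ ¬ X x ∧ ¬ X y) b y
  have hYb : Y b := ReflTransGen.refl
  have hYX : ∀ y, Y y → ¬ X y := by
    intro y hy
    cases hy with
    | refl => exact hbX
    | tail _ h => exact h.2.2
  have hTY : ∀ t, I.T t → ¬ Y t := by
    intro t ht hYt
    refine contra (fun x y => (∃ c < l, c ≤ i ∧ q c = x ∧ q (c + 1) = y) ∨
        (I.Gm x y ∧ ¬ X x ∧ ¬ X y))
      ⟨?_, q 0, t, q0, ht, ?_⟩ ?_ (q j) (q (j + 1)) hEj.2.1 hEj.2.2.1 hEj.2.2.2 ?_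
    · rintro x y (⟨c, hc, _, rfl, rfl⟩ | h)
      · exact qw c hc
      · exact h.1
    · have p1 : ReflTransGen (fun x y => (∃ c < l, c ≤ i ∧ q c = x ∧ q (c + 1) = y) ∨
          (I.Gm x y ∧ ¬ X x ∧ ¬ X y)) (q 0) (q (i + 1)) :=
        rt_of_walk (by omega) fun n _ hn => Or.inl ⟨n, by omega, by omega, rfl, rfl⟩
      exact p1.trans (rtmono hYt fun a b h => Or.inr h)
    · rintro x y hx _ (⟨c, hc, _, rfl, rfl⟩ | h)
      · exact ⟨c, hc, rfl, rfl⟩
      · exact absurd hx h.2.1
    · rintro (⟨c, hc', h5, h6, _⟩ | h)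
      · have := qinj c j (by omega) (by omega) h6
        omega
      · exact h.2.1 hEj.2.2.1
  -- step 7
  let W : V → Prop := fun z => ∃ t, I.T t ∧ ReflTransGen (fun x y => Del I.Gm (q j) (q (j + 1)) x y ∧
    ¬ X x ∧ ¬ X y ∧ ¬ Y x ∧ ¬ Y y) z t
  have hWT : ∀ t, I.T t → W t := fun t ht => ⟨t, ht, ReflTransGen.refl⟩
  have hWXY : ∀ z, W z → ¬ X z ∧ ¬ Y z := by
    rintro z ⟨t, ht, h⟩
    rcases ReflTransGen.cases_head h with rfl | ⟨c, hc, _⟩
    · exact ⟨hTX' _ ht, hTY _ ht⟩
    · exact ⟨hc.2.1, hc.2.2.2.1⟩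
  obtain ⟨u', v', hG', hnW, hWv, _⟩ := (hI.nm _ _ hcf2 (q j)).exit (fun z => ¬ W z)
    (fun h => (hWXY _ h).1 hEj.2.2.1) (fun t ht h => h (hWT t ht))
  have hWv' : W v' := not_not.1 hWv
  obtain ⟨hvX, hvY⟩ := hWXY v' hWv'
  have hu'X : X u' := by
    by_contra hx
    have hy : ¬ Y u' := by
      intro hy
      exact hvY (ReflTransGen.tail hy ⟨hG'.1, hx, hvX⟩)
    apply hnW
    obtain ⟨t, ht, h⟩ := hWv'
    exact ⟨t, ht, ReflTransGen.head ⟨hG', hx, hvX, hy, hvY⟩ h⟩
  have hncf : ¬ I.Cf u' v' := by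
    intro hcf
    obtain ⟨a, ha, h1, h2⟩ := hentE u' v' hcf.1 hu'X hvX
    rcases hB1 a ha with rfl | rfl
    · exact hvY (h2 ▸ hYb)
    · exact hG'.2 ⟨h1.symm, h2.symm⟩
  -- walks from `W` outside `X`
  have hWpath : ∀ z, W z → ∃ t, I.T t ∧ ReflTransGen (fun x y => I.Gm x y ∧ ¬ X x ∧ ¬ X y) z t := by
    rintro z ⟨t, ht, h⟩
    exact ⟨t, ht, rtmono h fun a b hab => ⟨hab.1.1, hab.2.1, hab.2.2.1⟩⟩
  obtain ⟨t, ht, hvt⟩ := hWpath v' hWv'
  have hil : i < l := by omega
  by_cases hui : u' = q i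
  · -- step 8
    refine contra (fun x y => (∃ c < l, c < i ∧ q c = x ∧ q (c + 1) = y) ∨ (x = q i ∧ y = v') ∨
        (I.Gm x y ∧ ¬ X x ∧ ¬ X y))
      ⟨?_, q 0, t, q0, ht, ?_⟩ ?_ (q i) (q (i + 1)) hEi.2.1 hEi.2.2.1 hEi.2.2.2 ?_
    · rintro x y (⟨c, hc, _, rfl, rfl⟩ | ⟨rfl, rfl⟩ | h)
      · exact qw c hc
      · rw [← hui]
        exact hG'.1
      · exact h.1
    · have p1 : ReflTransGen (fun x y => (∃ c < l, c < i ∧ q c = x ∧ q (c + 1) = y) ∨
          (x = q i ∧ y = v') ∨ (I.Gm x y ∧ ¬ X x ∧ ¬ X y)) (q 0) (q i) :=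
        rt_of_walk (by omega) fun n _ hn => Or.inl ⟨n, by omega, by omega, rfl, rfl⟩
      exact (p1.tail (Or.inr (Or.inl ⟨rfl, rfl⟩))).trans (rtmono hvt fun a b h => Or.inr (Or.inr h))
    · rintro x y hx hcf (⟨c, hc, _, rfl, rfl⟩ | ⟨rfl, rfl⟩ | h)
      · exact ⟨c, hc, rfl, rfl⟩
      · rw [← hui] at hcf
        exact absurd hcf hncf
      · exact absurd hx h.2.1
    · rintro (⟨c, hc', h5, h6, _⟩ | ⟨_, h6⟩ | h)
      · have := qinj c i (by omega) (by omega) h6
        omega
      · exact hvY (h6 ▸ hYb)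
      · exact h.2.1 hEi.2.2.1
  · -- step 9
    have hGbu' : I.Gm b u' := by
      have hno : ¬ I.Gp u' b := by
        intro h
        obtain ⟨a, ha, h1, h2⟩ := hentE u' b h hu'X hbX
        rcases hB1 a ha with rfl | rfl
        · exact hui h1.symm
        · have e2 := qinj (a + 1) (i + 1) (by omega) (by omega) h2
          omega
      have hne : u' ≠ b := fun h => hbX (h ▸ hu'X)
      rcases hI.good b u' hbN hne with h | h
      · rcases h with h | h | h
        · exact h.2
        · exact absurd (hins b u' hbX u' hu'X) h.2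
        · exact h.1
      · rcases h with h | h | h
        · exact absurd h.1 hno
        · exact absurd h.1 hno
        · exfalso
          apply h.2
          obtain ⟨t', ht', hvt'⟩ := hWv'
          refine ⟨t', ht', ReflTransGen.head ⟨hG'.1, fun hh => hvY (hh.2 ▸ hYb)⟩ (rtmono hvt' ?_)⟩
          rintro x y ⟨h1, _, _, _, h5⟩
          exact ⟨h1.1, fun hh => h5 (hh.2 ▸ hYb)⟩
    refine contra (fun x y => (∃ c < l, c ≤ i ∧ q c = x ∧ q (c + 1) = y) ∨ (x = b ∧ y = u') ∨
        (x = u' ∧ y = v') ∨ (I.Gm x y ∧ ¬ X x ∧ ¬ X y))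
      ⟨?_, q 0, t, q0, ht, ?_⟩ ?_ (q j) (q (j + 1)) hEj.2.1 hEj.2.2.1 hEj.2.2.2 ?_
    · rintro x y (⟨c, hc, _, rfl, rfl⟩ | ⟨rfl, rfl⟩ | ⟨rfl, rfl⟩ | h)
      · exact qw c hc
      · exact hGbu'
      · exact hG'.1
      · exact h.1
    · have p1 : ReflTransGen (fun x y => (∃ c < l, c ≤ i ∧ q c = x ∧ q (c + 1) = y) ∨
          (x = b ∧ y = u') ∨ (x = u' ∧ y = v') ∨ (I.Gm x y ∧ ¬ X x ∧ ¬ X y)) (q 0) (q (i + 1)) :=
        rt_of_walk (by omega) fun n _ hn => Or.inl ⟨n, by omega, by omega, rfl, rfl⟩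
      exact ((p1.tail (Or.inr (Or.inl ⟨rfl, rfl⟩))).tail (Or.inr (Or.inr (Or.inl ⟨rfl, rfl⟩)))).trans
        (rtmono hvt fun a b h => Or.inr (Or.inr (Or.inr h)))
    · rintro x y hx hcf (⟨c, hc, _, rfl, rfl⟩ | ⟨rfl, rfl⟩ | ⟨rfl, rfl⟩ | h)
      · exact ⟨c, hc, rfl, rfl⟩
      · exact absurd hx hbX
      · exact absurd hcf hncf
      · exact absurd hx h.2.1
    · rintro (⟨c, hc', h5, h6, _⟩ | ⟨h6, _⟩ | ⟨h6, h7⟩ | h)
      · have := qinj c j (by omega) (by omega) h6
        omega
      · exact hbX (h6 ▸ hEj.2.2.1)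
      · exact hncf (h6 ▸ h7 ▸ hcf2)
      · exact h.2.1 hEj.2.2.1

theorem exists_minLinked {I : Inst V} (hI : I.Norm) : ∃ k p l q, MinLinked I k p l q := by
  classical
  have hex : ∃ n, ∃ k p l q, Linked I k p l q ∧ k + l = n := by
    obtain ⟨k, p, l, q, h⟩ := linking hI
    exact ⟨k + l, k, p, l, q, h, rfl⟩
  obtain ⟨k, p, l, q, h, hn⟩ := Nat.find_spec hex
  refine ⟨k, p, l, q, h, fun k' p' l' q' h' => ?_⟩
  rw [hn]
  exact Nat.find_min' hex ⟨k', p', l', q', h', rfl⟩

end Pool.Agent.Lib.AB474
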