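import Pool.Agent.Lib.AB474.Conf

/-!
# MODULE Long: configuration with p 2 = q (l-2) and a long walk (about 1 h)

STATEMENT.  I.Norm, Thin I, ConfE I k p l q J Q, p 2 = q (l-2), 4 <= k  =>  I.Solvable.

NOTATION.  s' = p 0 = q 0, x = p 1, w = q (l-1), y = p k = q l, m = p 2 = q (l-2), c = p 3, I' = pl I k p l q.
c in N since k >= 4; c in I'.R, w not in I'.R, so c /= w.  c /= x, c /= m (p_inj).
PROOF.  Norm.good for w and c.
(1) Gp w c.  Let p' = p 0, p 1, w, p 3, ..., p k (p' 2 = w).  A Gp walk of length k; its new arcs (x,w), (w,c) are not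
   arcs of q: nm; and (w,c) = (q j, q (j+1)) gives j = l - 1 (q_inj), c = q l = y in T, no.  So Linked I k p' l q,
   of the same length, hence MinLinked.  Suppose I is not solvable: `conf` gives ConfE for (p',q), so
   np: not Arcs k p' (p' 1) (q (l-1)) = not Arcs k p' x w; but p' 1 = x, p' 2 = w.  Contradiction.
(2) Good w c critical in Gm: w -> y avoids it.  no.
(3) Good c w with Gp c w: c is not in Q (Qsub, c in I'.R), entry of Q, Qex: c = x or c = q (l-2) = m: no.
(4) Good c w with Gm c w, not Col (Del Gm c w) T c.  (*)   Norm.good for c and s' (c in N, s' in S):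
   - Gp s' c: then it is Cf (sp).  If (s',c) is not an arc of q: the walk s', p 3, ..., p k contradicts min_p.
     If s' = q j, c = q (j+1): j = 0, c = q 1.  The walk q 1, q 2, ..., q l shows by (*) that (c,w) is an arc of q
     (else it avoids (c,w)): c = q i, w = q (i+1): i = 1 and i + 1 = l - 1, so l = 3 and m = q 1 = c: no.
   - Gm s' c critical: s' -> x -> w -> y in Gm avoids (s',c) as c /= x: no.
   - Gp c s' critical: S s': no.
   - Gm c s': then c -> s' -> x -> w -> y in Gm avoids (c,w) (x /= c, s' /= w): against (*).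
-/

namespace Pool.Agent.Lib.AB474

open Relation

variable {V : Type*} [Fintype V] [DecidableEq V]

theorem long_p {I : Inst V} {k : ℕ} {p : ℕ → V} {l : ℕ} {q : ℕ → V} {J Q : V → Prop}
    (hI : I.Norm) (hth : Thin I) (h : ConfE I k p l q J Q) (he : p 2 = q (l - 2))
    (hk : 4 ≤ k) : I.Solvable := by
  by_contra hns
  have l3 := h.l3
  have hs : I.S (p 0) := h.ml.1.p0
  have hy : I.T (q l) := h.ml.1.ql
  have hpi : ∀ i j, i ≤ k → j ≤ k → i ≠ j → p i ≠ p j := fun i j hi hj hij e => hij (p_inj h.ml hi hj e)
  have hcN : I.N (p 3) := ⟨p_notS h.ml (by norm_num) (by omega), p_notT h.ml (by omega)⟩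
  have hcR : (pl I k p l q).R (p 3) := p_R h.ml (by omega)
  have hwR : ¬ (pl I k p l q).R (q (l - 1)) := h.Qsub _ h.Qw
  have hcw : p 3 ≠ q (l - 1) := fun e => hwR (e ▸ hcR)
  have hxR : (pl I k p l q).R (p 1) := p_R h.ml (by omega)
  have hxw : p 1 ≠ q (l - 1) := fun e => hwR (e ▸ hxR)
  have hsw : p 0 ≠ q (l - 1) := fun e => hwR (e ▸ (p_R h.ml (i := 0) (by omega)))
  have hcx : p 3 ≠ p 1 := hpi 3 1 (by omega) (by omega) (by norm_num)
  have hcm : p 3 ≠ p 2 := hpi 3 2 (by omega) (by omega) (by norm_num)
  have hcs : p 3 ≠ p 0 := hpi 3 0 (by omega) (by omega) (by norm_num)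
  have hcy : p 3 ≠ q l := fun e => hcN.2 (e ▸ hy)
  have el : q (l - 1 + 1) = q l := by congr 1; omega
  -- (1)
  have claimA : ¬ I.Gp (q (l - 1)) (p 3) := by
    intro hg
    set p' : ℕ → V := fun i => if i = 2 then q (l - 1) else p i with hp'
    have e2 : p' 2 = q (l - 1) := by simp [hp']
    have ene : ∀ i, i ≠ 2 → p' i = p i := fun i hi => by simp [hp', hi]
    have hL : Linked I k p' l q := by
      refine ⟨?_, ?_, ?_, h.ml.1.q0, h.ml.1.ql, h.ml.1.qw, ?_⟩
      · rw [ene 0 (by norm_num)]; exact hs
      · rw [ene k (by omega)]; exact h.ml.1.pk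
      · intro i hi
        by_cases h1 : i = 1
        · subst h1
          rw [ene 1 (by norm_num), e2]
          exact h.cf.1
        by_cases h2 : i = 2
        · subst h2
          rw [e2, ene (2 + 1) (by norm_num)]
          exact hg
        rw [ene i h2, ene (i + 1) (by omega)]
        exact h.ml.1.pw i hi
      · rintro u v ⟨i, hi, rfl, rfl⟩ hq hc
        by_cases h1 : i = 1
        · subst h1
          rw [ene 1 (by norm_num), show p' (1 + 1) = q (l - 1) from e2] at hq
          exact h.nm hq
        by_cases h2 : i = 2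
        · subst h2
          rw [e2, ene (2 + 1) (by norm_num)] at hq
          obtain ⟨j, hj, hj1, hj2⟩ := hq
          have h3 := q_inj h.ml (by omega) (by omega) hj1
          rw [h3, el] at hj2
          exact hcy hj2.symm
        rw [ene i h2, ene (i + 1) (by omega)] at hq hc
        exact h.ml.1.dis _ _ ⟨i, hi, rfl, rfl⟩ hq hc
    obtain ⟨J', Q', h'⟩ := conf hI hth ⟨hL, h.ml.2⟩ hns
    apply h'.np
    exact ⟨1, by omega, rfl, e2⟩
  have star : ∀ _ : I.Gm (p 3) (q (l - 1)), ∀ _ : ¬ Col (Del I.Gm (p 3) (q (l - 1))) I.T (p 3), False := by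
    intro _ hst
    rcases hI.good (p 3) (p 0) hcN hcs.symm with h1 | h1
    · have key : ¬ I.Gm (p 3) (p 0) := by
        intro hg
        apply hst
        have a1 : Col (Del I.Gm (p 3) (q (l - 1))) I.T (q l) := Col.base hy
        have a2 : Col (Del I.Gm (p 3) (q (l - 1))) I.T (q (l - 1)) :=
          a1.step ⟨h.wy.2.1, fun hh => hcw hh.1.symm⟩
        have a3 : Col (Del I.Gm (p 3) (q (l - 1))) I.T (p 1) :=
          a2.step ⟨h.cf.2.1, fun hh => hcx hh.1.symm⟩
        have a4 : Col (Del I.Gm (p 3) (q (l - 1))) I.T (p 0) :=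
          a3.step ⟨h.sx.2.1, fun hh => hcs hh.1.symm⟩
        exact a4.step ⟨hg, fun hh => hsw hh.2⟩
      rcases h1 with h1 | h1 | h1
      · exact key h1.2
      · exact h1.2 (Rch.base hs)
      · exact key h1.1
    · have key : ¬ I.Gp (p 0) (p 3) := by
        intro hg
        have hcf : I.Cf (p 0) (p 3) := by
          by_contra hn
          exact hcN.1 (hI.sp _ _ hs hg hn)
        have harc : Arcs l q (p 0) (p 3) := by
          by_contra hna
          set p' : ℕ → V := fun i => if i = 0 then p 0 else p (i + 2) with hp'
          have e0 : p' 0 = p 0 := by simp [hp']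
          have ene : ∀ i, i ≠ 0 → p' i = p (i + 2) := fun i hi => by simp [hp', hi]
          have h2 := min_p h.ml (k' := k - 2) (p' := p') (by rw [e0]; exact hs)
            (by
              rw [ene (k - 2) (by omega)]
              have e : k - 2 + 2 = k := by omega
              rw [e]
              exact h.ml.1.pk)
            (by
              intro i hi
              by_cases h0 : i = 0
              · subst h0
                rw [e0, ene (0 + 1) (by norm_num)]
                exact hg
              · rw [ene i h0, ene (i + 1) (by omega)]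
                have e : i + 1 + 2 = (i + 2) + 1 := by omega
                rw [e]
                exact h.ml.1.pw (i + 2) (by omega))
            (by
              rintro u v ⟨i, hi, rfl, rfl⟩ hc hq
              by_cases h0 : i = 0
              · subst h0
                rw [e0, ene (0 + 1) (by norm_num)] at hq
                exact hna hq
              · rw [ene i h0, ene (i + 1) (by omega)] at hq hc
                have e : i + 1 + 2 = (i + 2) + 1 := by omega
                rw [e] at hq hc
                exact h.ml.1.dis _ _ ⟨i + 2, by omega, rfl, rfl⟩ hq hc)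
          omega
        obtain ⟨j, hj, hj1, hj2⟩ := harc
        have hj0 : j = 0 := by
          rw [h.s] at hj1
          exact q_inj h.ml (by omega) (by omega) hj1
        subst hj0
        have hc1 : q 1 = p 3 := hj2
        -- the walk q 1, ..., q l
        have hex : ∃ i < l, q i = p 3 ∧ q (i + 1) = q (l - 1) := by
          by_contra hno
          push Not at hno
          have hcol : ∀ n, n ≤ l → Col (Del I.Gm (p 3) (q (l - 1))) I.T (q (l - n)) := by
            intro n
            induction n with
            | zero => intro _; exact Col.base hy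
            | succ n ih =>
              intro hn
              have h3 := ih (by omega)
              have h4 := h.ml.1.qw (l - (n + 1)) (by omega)
              have e : l - (n + 1) + 1 = l - n := by omega
              rw [e] at h4
              refine h3.step ⟨h4, fun hh => ?_⟩
              have h5 := hno (l - (n + 1)) (by omega) hh.1
              rw [e] at h5
              exact h5 hh.2
          have h6 := hcol (l - 1) (by omega)
          have e : l - (l - 1) = 1 := by omega
          rw [e, hc1] at h6
          exact hst h6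
        obtain ⟨i, hi, hi1, hi2⟩ := hex
        have h7 : i = 1 := q_inj h.ml (by omega) (by omega) (hi1.trans hc1.symm)
        have h8 : i + 1 = l - 1 := q_inj h.ml (by omega) (by omega) hi2
        have h9 : l - 2 = 1 := by omega
        rw [h9, hc1] at he
        exact hcm he.symm
      rcases h1 with h1 | h1 | h1
      · exact key h1.1
      · exact key h1.1
      · apply h1.2
        have a1 : Col (Del I.Gm (p 0) (p 3)) I.T (q l) := Col.base hy
        have a2 : Col (Del I.Gm (p 0) (p 3)) I.T (q (l - 1)) := a1.step ⟨h.wy.2.1, fun hh => hsw hh.1.symm⟩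
        have a3 : Col (Del I.Gm (p 0) (p 3)) I.T (p 1) :=
          a2.step ⟨h.cf.2.1, fun hh => hpi 1 0 (by omega) (by omega) (by norm_num) hh.1⟩
        exact a3.step ⟨h.sx.2.1, fun hh => hcx hh.2.symm⟩
  rcases hI.good (q (l - 1)) (p 3) h.wN hcw with h1 | h1
  · rcases h1 with h1 | h1 | h1
    · exact claimA h1.1
    · exact claimA h1.1
    · apply h1.2
      have a1 : Col (Del I.Gm (q (l - 1)) (p 3)) I.T (q l) := Col.base hy
      exact a1.step ⟨h.wy.2.1, fun hh => hcy hh.2.symm⟩
  · have key : ¬ I.Gp (p 3) (q (l - 1)) := by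
      intro hg
      have hnQ : ¬ Q (p 3) := fun hQ => h.Qsub _ hQ hcR
      have h2 := h.Qex _ _ hnQ h.Qw hg
      rcases h2.2 with h3 | h3
      · exact hcx h3
      · rw [← he] at h3
        exact hcm h3
    rcases h1 with h1 | h1 | h1
    · exact key h1.1
    · exact key h1.1
    · exact star h1.1 h1.2

theorem long_q {I : Inst V} {k : ℕ} {p : ℕ → V} {l : ℕ} {q : ℕ → V} {J Q : V → Prop}
    (hI : I.Norm) (hth : Thin I) (h : ConfE I k p l q J Q) (he : p 2 = q (l - 2))
    (hk : 4 ≤ l) : I.Solvable := by
  rw [← Inst.dual_Solvable]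
  refine long_p hI.toDual hth.toDual h.toDual ?_ hk
  have k3 := h.k3
  change q (l - 2) = p (k - (k - 2))
  have e : k - (k - 2) = 2 := by omega
  rw [e]
  exact he.symm

end Pool.Agent.Lib.AB474
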