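import Pool.Agent.Lib.AB474.Facts
import Pool.Agent.Lib.AB474.Done

/-!
# MODULE Neq: configuration with p 2 different from q (l-2) (about 1.2 h)

STATEMENT.  I.Norm, ConfE I k p l q J Q, not Gm (q (l-2)) (p 1), not Gp (q (l-1)) (p 2),
p 2 /= q (l-2)  =>  I.Solvable.

NOTATION.  s' = p 0 = q 0, x = p 1, w = q (l-1), y = p k = q l, a = p 2, b = q (l-2), I' = pl I k p l q.
a, b, x, w in N.  All p i in I'.R, all q j in I'.L; x not in I'.L, w not in I'.R.  Cf s' x, Cf x a, Cf b w, Cf w y.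
PROOF.
(1) x /= b (b in I'.L).  Norm.good for b, x: Good b x needs Gm b x (no) or Gp b x critical: but s' -> x
   avoids (b,x) (b /= s'): no.  Good x b with Gm x b: b in I'.L so b not in J: an exit of J, by Jex b = w or
   b = a: q_inj excludes b = w; b = a is excluded.  So Gp x b and not Rch (Del Gp x b) S b.   (c+)
(2) Dually w /= a (a in I'.R), and Gm a w and not Col (Del Gm a w) T a.  (c-)   [Good w a: Gp w a no; Gm w a
   critical: w -> y avoids it.  Good a w with Gp a w: entry of Q (a in I'.R), Qex: a = x (p_inj no) or a = b no.]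
(3) Norm.good for a, b.  Good a b with Gp a b: s' -> x -> a -> b avoids (x,b): against (c+).  (Critical in Gp
   contains Gp a b.)  Good a b with Gm a b: a -> b -> w -> y in Gm avoids (a,w): against (c-).
   Good b a critical in Gp: s' -> x -> a avoids (b,a) (x /= b, s' /= b): no.  Good b a critical in Gm:
   b -> w -> y avoids (b,a) as w /= a: no.  So Gp b a and Gm b a.
(4) (x,b) is not Cf, by (c+) and Closed.np.
(5) New labels: p' = p 0, p 1, b, p 2, p 3, ..., p k (p' i = p i for i <= 1, p' 2 = b, p' i = p (i-1) for i >= 3),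
   length k + 1; Lp' = Cf and Arcs (k+1) p', Lm = Cf and Arcs l q unchanged.  I'' = I.lab Lp' Lm.  The arcs of p' are those
   of p except (x,a), and (x,b), (b,a).  Disjoint: (x,b) is not Cf; (b,a) is not an arc of q: tail b = q (l-2) only,
   its head in q is w /= a.
   All p i and b are in I''.R (walk p'), all q j are in I''.L.
(6) I'.R v -> I''.R v, I'.L v -> I''.L v by RL_ind for I':
   rp (u,v), I'.Gp u v, not I'.Cf u v: I''.Gp is the same relation.  If not I''.Cf u v: rp.  If I''.Cf u v then Lp u v and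
   not Lp' u v so (u,v) = (x,a), v = a in I''.R by (5).
   rc: rc.
   lm, lc (u,v), I'.Gm u v: if Lp' u v then it is not in Lp, so (u,v) = (b,a) ((x,b) is not Cf), u = b = q (l-2) in I''.L.
   Otherwise I''.Gm u v; lc: lc.  lm: not I''.Cf u v (not I'.Cf and not Lp: not Cf or Lm): lm.
(7) Lost arcs of (Lp', Lm): Lp' u v with u not in I''.L: u not in I'.L; u is s' (in I'.L, q 0), x (then v = b, not Cf, or),
   b (in I'.L), p i with i >= 2 (i < k; in N, idxL gives i = 1, no).  So none.  Lm u v with v not in I''.R: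
   v not in I'.R, v = q (j+1): v = q l = y = p k in I'.R no; so v in N, idxR: j + 2 = l: (u,v) = (b,w).
   So there is at most one Lost arc: hall_one.  (cover: norm_done for I' and (6).)
-/

namespace Pool.Agent.Lib.AB474

open Relation

variable {V : Type*} [Fintype V] [DecidableEq V]

namespace NeqAux

/-- the arcs of the new plus walk -/
def PA (k : ℕ) (p : ℕ → V) (b : V) (u v : V) : Prop :=
  (Arcs k p u v ∧ ¬ (u = p 1 ∧ v = p 2)) ∨ (u = p 1 ∧ v = b) ∨ (u = b ∧ v = p 2)

end NeqAux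

open NeqAux in
theorem neq {I : Inst V} {k : ℕ} {p : ℕ → V} {l : ℕ} {q : ℕ → V} {J Q : V → Prop}
    (hI : I.Norm) (h : ConfE I k p l q J Q) (h1 : ¬ I.Gm (q (l - 2)) (p 1))
    (h2 : ¬ I.Gp (q (l - 1)) (p 2)) (hne : p 2 ≠ q (l - 2)) : I.Solvable := by
  have k3 := h.k3
  have l3 := h.l3
  have hml := h.ml
  obtain ⟨Lp, hLp⟩ : ∃ Lp : V → V → Prop, Lp = fun u v => I.Cf u v ∧ Arcs k p u v := ⟨_, rfl⟩
  obtain ⟨Lm, hLm⟩ : ∃ Lm : V → V → Prop, Lm = fun u v => I.Cf u v ∧ Arcs l q u v := ⟨_, rfl⟩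
  obtain ⟨Lp', hLp'⟩ : ∃ Lp' : V → V → Prop,
    Lp' = fun u v => I.Cf u v ∧ PA k p (q (l - 2)) u v := ⟨_, rfl⟩
  have hpl : pl I k p l q = I.lab Lp Lm := by rw [hLp, hLm]; rfl
  have eLp : ∀ u v, Lp u v ↔ I.Cf u v ∧ Arcs k p u v := fun u v => by rw [hLp]
  have eLm : ∀ u v, Lm u v ↔ I.Cf u v ∧ Arcs l q u v := fun u v => by rw [hLm]
  have eLp' : ∀ u v, Lp' u v ↔ I.Cf u v ∧ PA k p (q (l - 2)) u v := fun u v => by rw [hLp']
  -- facts on I'
  have pR : ∀ i ≤ k, (I.lab Lp Lm).R (p i) := fun i hi => by rw [← hpl]; exact p_R hml hi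
  have qL : ∀ j ≤ l, (I.lab Lp Lm).L (q j) := fun j hj => by rw [← hpl]; exact q_L hml hj
  have xL : ¬ (I.lab Lp Lm).L (p 1) := by rw [← hpl]; exact h.Jsub _ h.Jx
  have wR : ¬ (I.lab Lp Lm).R (q (l - 1)) := by rw [← hpl]; exact h.Qsub _ h.Qw
  have bL := qL (l - 2) (by omega)
  have aR := pR 2 (by omega)
  have aN : I.N (p 2) := ⟨p_notS hml (by omega) (by omega), p_notT hml (by omega)⟩
  have bN : I.N (q (l - 2)) := ⟨q_notS hml (by omega) (by omega), q_notT hml (by omega)⟩
  have hxb : p 1 ≠ q (l - 2) := fun e => xL (by rw [e]; exact bL)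
  have hwa : q (l - 1) ≠ p 2 := fun e => wR (by rw [e]; exact aR)
  have hwb : q (l - 1) ≠ q (l - 2) := fun e => by
    have := q_inj hml (by omega) (by omega) e
    omega
  have hsb : p 0 ≠ q (l - 2) := fun e => by
    rw [h.s] at e
    have := q_inj hml (by omega) (by omega) e
    omega
  have hax : p 2 ≠ p 1 := fun e => by
    have := p_inj hml (by omega) (by omega) e
    omega
  have hya : q l ≠ p 2 := fun e => aN.2 (by rw [← e]; exact hml.1.ql)
  have hsx : I.Gp (p 0) (p 1) := h.sx.1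
  have hxa : I.Gp (p 1) (p 2) := h.xa.1
  have hbw : I.Gm (q (l - 2)) (q (l - 1)) := h.bw.2.1
  have hwy : I.Gm (q (l - 1)) (q l) := h.wy.2.1
  -- (1)
  have c1 : I.Gp (p 1) (q (l - 2)) ∧ ¬ Rch (Del I.Gp (p 1) (q (l - 2))) I.S (q (l - 2)) := by
    have hgmx : ¬ I.Gm (p 1) (q (l - 2)) := by
      intro hg
      have hJb : ¬ J (q (l - 2)) := fun hj => by
        have := h.Jsub _ hj
        rw [hpl] at this
        exact this bL
      rcases (h.Jex _ _ h.Jx hJb hg).2 with e | e
      · exact hwb e.symm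
      · exact hne e.symm
    rcases hI.good (q (l - 2)) (p 1) bN hxb with hg | hg
    · rcases hg with hg | hg | hg
      · exact absurd hg.2 h1
      · exfalso
        apply hg.2
        refine (Rch.base (v := p 0) hml.1.p0).step ⟨hsx, fun hh => hsb hh.1⟩
      · exact absurd hg.1 h1
    · rcases hg with hg | hg | hg
      · exact absurd hg.2 hgmx
      · exact hg
      · exact absurd hg.1 hgmx
  -- (2)
  have c2 : I.Gm (p 2) (q (l - 1)) ∧ ¬ Col (Del I.Gm (p 2) (q (l - 1))) I.T (p 2) := by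
    have hgpx : ¬ I.Gp (p 2) (q (l - 1)) := by
      intro hg
      have hQa : ¬ Q (p 2) := fun hj => by
        have := h.Qsub _ hj
        rw [hpl] at this
        exact this aR
      rcases (h.Qex _ _ hQa h.Qw hg).2 with e | e
      · exact hax e
      · exact hne e
    rcases hI.good (q (l - 1)) (p 2) h.wN hwa.symm with hg | hg
    · rcases hg with hg | hg | hg
      · exact absurd hg.1 h2
      · exact absurd hg.1 h2
      · exfalso
        apply hg.2
        exact (Col.base (v := q l) hml.1.ql).step ⟨hwy, fun hh => hya hh.2⟩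
    · rcases hg with hg | hg | hg
      · exact absurd hg.1 hgpx
      · exact absurd hg.1 hgpx
      · exact hg
  -- (3)
  have c3 : I.Gp (q (l - 2)) (p 2) ∧ I.Gm (q (l - 2)) (p 2) := by
    have hnab : ¬ I.Gp (p 2) (q (l - 2)) := by
      intro hg
      apply c1.2
      exact (((Rch.base (v := p 0) hml.1.p0).step ⟨hsx, fun hh => hxb hh.2⟩).step
        ⟨hxa, fun hh => hne hh.2⟩).step ⟨hg, fun hh => hax hh.1⟩
    have hnab' : ¬ I.Gm (p 2) (q (l - 2)) := by
      intro hg
      apply c2.2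
      exact (((Col.base (v := q l) hml.1.ql).step ⟨hwy, fun hh => hwa hh.1⟩).step
        ⟨hbw, fun hh => hne hh.1.symm⟩).step ⟨hg, fun hh => hwb hh.2.symm⟩
    rcases hI.good (p 2) (q (l - 2)) aN hne.symm with hg | hg
    · rcases hg with hg | hg | hg
      · exact absurd hg.1 hnab
      · exact absurd hg.1 hnab
      · exact absurd hg.1 hnab'
    · rcases hg with hg | hg | hg
      · exact hg
      · exfalso
        apply hg.2
        exact ((Rch.base (v := p 0) hml.1.p0).step ⟨hsx, fun hh => hsb hh.1⟩).step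
          ⟨hxa, fun hh => hxb hh.1⟩
      · exfalso
        apply hg.2
        exact ((Col.base (v := q l) hml.1.ql).step ⟨hwy, fun hh => hwb hh.1⟩).step
          ⟨hbw, fun hh => hwa hh.2⟩
  -- (4)
  have c4 : ¬ I.Cf (p 1) (q (l - 2)) := fun hc => c1.2 (hI.np _ _ hc _)
  have c5 : ¬ Arcs l q (q (l - 2)) (p 2) := by
    rintro ⟨j, hj, e1, e2⟩
    have e3 : j = l - 2 := q_inj hml (by omega) (by omega) e1
    have e4 : l - 2 + 1 = l - 1 := by omega
    rw [e3, e4] at e2
    exact hwa e2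
  -- (5)
  have hd : ∀ u v, Lp' u v → ¬ Lm u v := by
    intro u v h3 h4
    rw [eLp'] at h3
    rw [eLm] at h4
    rcases h3.2 with h5 | h5 | h5
    · exact hml.1.dis u v h5.1 h4.2 h3.1
    · rw [h5.1, h5.2] at h3
      exact c4 h3.1
    · rw [h5.1, h5.2] at h4
      exact c5 h4.2
  have stepp : ∀ u v, I.Gp u v → PA k p (q (l - 2)) u v → (I.lab Lp' Lm).R u →
      (I.lab Lp' Lm).R v := by
    intro u v h3 h4 h5
    refine Inst.RL.rp h5 ⟨h3, fun hh => ?_⟩ (fun hh => ?_)
    · exact hd u v ((eLp' _ _).2 ⟨((eLm _ _).1 hh).1, h4⟩) hh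
    · rw [Inst.lab_Cf] at hh
      exact hh.2.1 ((eLp' _ _).2 ⟨hh.1, h4⟩)
  have p0R' : (I.lab Lp' Lm).R (p 0) := Inst.RL.s hml.1.p0
  have p1R' : (I.lab Lp' Lm).R (p 1) := by
    refine stepp _ _ hsx (Or.inl ⟨⟨0, by omega, rfl, rfl⟩, fun hh => ?_⟩) p0R'
    have := p_inj hml (by omega) (by omega) hh.1
    omega
  have bR' : (I.lab Lp' Lm).R (q (l - 2)) :=
    stepp _ _ c1.1 (Or.inr (Or.inl ⟨rfl, rfl⟩)) p1R'
  have p2R' : (I.lab Lp' Lm).R (p 2) :=
    stepp _ _ c3.1 (Or.inr (Or.inr ⟨rfl, rfl⟩)) bR'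
  have pmR' : ∀ m, m + 2 ≤ k → (I.lab Lp' Lm).R (p (m + 2)) := by
    intro m
    induction m with
    | zero => exact fun _ => p2R'
    | succ m ih =>
      intro hm
      have hgp : I.Gp (p (m + 2)) (p (m + 1 + 2)) := hml.1.pw (m + 2) (by omega)
      refine stepp _ _ hgp (Or.inl ⟨⟨m + 2, by omega, rfl, rfl⟩, fun hh => ?_⟩) (ih (by omega))
      have := p_inj hml (by omega) (by omega) hh.1
      omega
  have qL' : ∀ m, m ≤ l → (I.lab Lp' Lm).L (q (l - m)) := by
    intro m
    induction m with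
    | zero => exact fun _ => Inst.RL.t hml.1.ql
    | succ m ih =>
      intro hm
      have e1 : l - (m + 1) + 1 = l - m := by omega
      have hgm : I.Gm (q (l - (m + 1))) (q (l - m)) := by
        have := hml.1.qw (l - (m + 1)) (by omega)
        rwa [e1] at this
      have harc : Arcs l q (q (l - (m + 1))) (q (l - m)) :=
        ⟨l - (m + 1), by omega, rfl, by rw [e1]⟩
      refine Inst.RL.lm (ih (by omega)) ⟨hgm, fun hh => ?_⟩ (fun hh => ?_)
      · exact hd _ _ hh ((eLm _ _).2 ⟨((eLp' _ _).1 hh).1, harc⟩)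
      · rw [Inst.lab_Cf] at hh
        exact hh.2.2 ((eLm _ _).2 ⟨hh.1, harc⟩)
  have bL' : (I.lab Lp' Lm).L (q (l - 2)) := qL' 2 (by omega)
  -- (6)
  have hGm : ∀ u v, (I.lab Lp Lm).Gm u v → u = q (l - 2) ∨ (I.lab Lp' Lm).Gm u v := by
    intro u v h3
    by_cases h4 : Lp' u v
    · left
      rw [eLp'] at h4
      rcases h4.2 with h5 | h5 | h5
      · exact absurd ((eLp _ _).2 ⟨h4.1, h5.1⟩) h3.2
      · rw [h5.1, h5.2] at h4
        exact absurd h4.1 c4
      · exact h5.1
    · exact Or.inr ⟨h3.1, h4⟩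
  have h6 : (∀ v, (I.lab Lp Lm).R v → (I.lab Lp' Lm).R v) ∧
      (∀ v, (I.lab Lp Lm).L v → (I.lab Lp' Lm).L v) := by
    apply Inst.RL_ind
    · exact fun v hv => Inst.RL.s hv
    · exact fun v hv => Inst.RL.t hv
    · intro u v hu hv hu' h3 h4
      by_cases h5 : (I.lab Lp' Lm).Cf u v
      · rw [Inst.lab_Cf] at h5
        by_cases h7 : Lp u v
        · by_cases h8 : u = p 1 ∧ v = p 2
          · rw [h8.2]; exact p2R'
          · exfalso
            rw [eLp] at h7
            exact h5.2.1 ((eLp' _ _).2 ⟨h7.1, Or.inl ⟨h7.2, h8⟩⟩)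
        · exfalso
          apply h4
          rw [Inst.lab_Cf]
          exact ⟨h5.1, h7, h5.2.2⟩
      · exact Inst.RL.rp hu' h3 h5
    · intro u v hu huL hv hu' huL' h3
      exact Inst.RL.rc hu' huL' h3
    · intro u v hv hu hv' h3 h4
      rcases hGm u v h3 with h5 | h5
      · rw [h5]; exact bL'
      · refine Inst.RL.lm hv' h5 (fun h7 => ?_)
        rw [Inst.lab_Cf] at h7
        apply h4
        rw [Inst.lab_Cf]
        exact ⟨h7.1, h3.2, h7.2.2⟩
    · intro u v hv hvR hu hv' hvR' h3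
      rcases hGm u v h3 with h5 | h5
      · rw [h5]; exact bL'
      · exact Inst.RL.lc hv' hvR' h5
  obtain ⟨hRR, hLL⟩ := h6
  have hdone : ∀ n, (I.lab Lp Lm).R n ∨ (I.lab Lp Lm).L n := by
    refine Inst.norm_done hI ?_ ?_ (pR k le_rfl) (Inst.RL.t hml.1.pk)
    · intro u v huv
      obtain ⟨i, hi, e1, _⟩ := ((eLp _ _).1 huv).2
      rw [← e1]; exact pR i (by omega)
    · intro u v huv
      obtain ⟨i, hi, _, e1⟩ := ((eLm _ _).1 huv).2
      rw [← e1]; exact qL (i + 1) (by omega)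
  -- (7)
  have hlost : ∀ u v, I.Lost Lp' Lm u v → u = q (l - 2) ∧ v = q (l - 1) := by
    intro u v h7
    rcases h7 with ⟨h7, h8⟩ | ⟨h7, h8⟩
    · exfalso
      have h9 : ¬ (I.lab Lp Lm).L u := fun hh => h8 (hLL u hh)
      rw [eLp'] at h7
      rcases h7.2 with h10 | h10 | h10
      · obtain ⟨⟨i, hi, e1, e2⟩, h11⟩ := h10
        rcases Nat.eq_zero_or_pos i with h12 | h12
        · rw [h12, h.s] at e1
          rw [← e1] at h9
          exact h9 (qL 0 (by omega))
        · have hN : I.N (p i) := ⟨p_notS hml h12 (by omega), p_notT hml hi⟩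
          rw [← e1] at h9
          have h13 := idxL hI hml (i := i) (by omega) hN (by rw [hpl]; exact h9)
          rw [h13] at e1 e2
          exact h11 ⟨e1.symm, e2.symm⟩
      · rw [h10.1, h10.2] at h7
        exact c4 h7.1
      · rw [h10.1] at h9
        exact h9 bL
    · have h9 : ¬ (I.lab Lp Lm).R v := fun hh => h8 (hRR v hh)
      obtain ⟨j, hj, e1, e2⟩ := ((eLm _ _).1 h7).2
      rw [← e2] at h9
      rcases Nat.lt_or_ge (j + 1) l with h10 | h10
      · have hN : I.N (q (j + 1)) := ⟨q_notS hml (by omega) (by omega), q_notT hml h10⟩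
        have h11 := idxR hI hml (j := j + 1) (by omega) hN (by rw [hpl]; exact h9)
        have h12 : j = l - 2 := by omega
        have h13 : j + 1 = l - 1 := by omega
        rw [← e1, ← e2, h13, h12]
        exact ⟨rfl, rfl⟩
      · exfalso
        have h11 : j + 1 = l := by omega
        rw [h11, ← h.y] at h9
        exact h9 (pR k le_rfl)
  refine Inst.hall_one hI.toClosed (Lp := Lp') (Lm := Lm) (fun u v huv => ((eLp' _ _).1 huv).1)
    (fun u v huv => ((eLm _ _).1 huv).1) hd ?_ ?_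
  · intro v
    rcases hdone v with hv | hv
    · exact Or.inl (hRR v hv)
    · exact Or.inr (hLL v hv)
  · intro u v u' v' h7 h8
    obtain ⟨e1, e2⟩ := hlost u v h7
    obtain ⟨e3, e4⟩ := hlost u' v' h8
    exact ⟨e1.trans e3.symm, e2.trans e4.symm⟩

end Pool.Agent.Lib.AB474
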