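import Pool.Agent.Lib.AB474.Facts
import Pool.Agent.Lib.AB474.Done

/-!
# MODULE OptA: configuration with an arc q (l-2) -> p 1 of Gm (about 1.2 h)

STATEMENT.  I.Norm, ConfE I k p l q J Q, Gm (q (l-2)) (p 1)  =>  I.Solvable.

NOTATION.  s' = p 0 = q 0, x = p 1, w = q (l-1), y = p k = q l, b = q (l-2), I' = pl I k p l q,
Lp = Cf and Arcs k p, Lm = Cf and Arcs l q.  l >= 3, so b in N, b /= s'.

PROOF.  q' : q 0, ..., q (l-2) = b, x, w, y (length l + 1).  New labels: Lp (unchanged) and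
Lm' = Cf and Arcs (l+1) q'.  I'' = I.lab Lp Lm'.  The arcs of q' are the arcs of q except (b,w), and (b,x), (x,w).
(0) Lp, Lm' disjoint: arcs of q: by Linked.dis.  (b,x) is not an arc of p: x = p 1 is only p at index 1
   (p_inj), the tail would be p 0 = s' = q 0, but b = q (l-2) /= q 0 (q_inj).  (x,w) is not an arc of p (np).
(1) all q j in I''.L, x in I''.L, and all p i in I''.R.
(2) I'.R v -> I''.R v, and I'.L v -> I''.L v: by RL_ind for I'.
   rule rp, u -> v (Gp u v, not Lm u v, not I'.Cf u v, I''.R u, also I'.R v): if Lm' u v then (u,v) = (b,x):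
    v = x in I''.R by (1); or (u,v) = (x,w): I'.R w is false (Qsub, Qw).  Otherwise I''.Gp u v; not I''.Cf u v:
    not I'.Cf and not Lm means not Cf or Lp.  rp.
   rule rc: the same, using rc.
   rule lm (Gm u v, not Lp u v, not I'.Cf u v, I''.L v): I''.Gm u v.  If not I''.Cf u v use lm.  If I''.Cf u v then Cf and
    not Lp, so Lm u v, u = q j is in I''.L by (1).
   rule lc: I''.Gm u v, lc.
(3) everything is in I''.L: v in I'.L by (2).  Otherwise JL: a walk from v to x of I'.Gm arcs outside I'.L.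
   Backwards: x in I''.L; a -> b' with I''.L b', b' not in I'.L, hence I'.R b' (norm_done for I', as p k is in I'.R and
   I'.L), hence I''.R b'; I''.Gm a b' (the same Lp), rule lc: I''.L a.
(4) everything is in I''.R: v in I'.R by (2).  Otherwise QR: a walk from w to v of I'.Gp arcs outside I'.R.
   w in I''.R: Gp b w, (b,w) is not an arc of q' (q_inj; w /= x since x in I'.R, w not), so I''.Gp b w; b in I'.R
   by idxR (l - 2 + 1 /= l), so I''.R b; I''.L b; rc.  Step a -> c: Gp a c, not Lm a c; if Lm' a c then (a,c) = (b,x) or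
   (x,w), but a, c are outside I'.R and x is inside.  So I''.Gp a c, I''.R a, I''.L a by (3), rc.
(5) hall_one for I, Lp, Lm': there is no Lost arc.  So solvable.
optB is the dual statement (ConfE.toDual; rev l q 1 = q (l-1), rev k p (k-2) = p 2).
-/

namespace Pool.Agent.Lib.AB474

open Relation

variable {V : Type*} [Fintype V] [DecidableEq V]

namespace OptAAux

/-- the arcs of the new minus walk -/
def NA (l : ℕ) (q : ℕ → V) (x : V) (u v : V) : Prop :=
  (Arcs l q u v ∧ ¬ (u = q (l - 2) ∧ v = q (l - 1))) ∨ (u = q (l - 2) ∧ v = x) ∨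
    (u = x ∧ v = q (l - 1))

end OptAAux

open OptAAux in
theorem optA {I : Inst V} {k : ℕ} {p : ℕ → V} {l : ℕ} {q : ℕ → V} {J Q : V → Prop}
    (hI : I.Norm) (h : ConfE I k p l q J Q) (hb : I.Gm (q (l - 2)) (p 1)) : I.Solvable := by
  have k3 := h.k3
  have l3 := h.l3
  have hml := h.ml
  obtain ⟨Lp, hLp⟩ : ∃ Lp : V → V → Prop, Lp = fun u v => I.Cf u v ∧ Arcs k p u v := ⟨_, rfl⟩
  obtain ⟨Lm, hLm⟩ : ∃ Lm : V → V → Prop, Lm = fun u v => I.Cf u v ∧ Arcs l q u v := ⟨_, rfl⟩
  obtain ⟨Lm', hLm'⟩ : ∃ Lm' : V → V → Prop, Lm' = fun u v => I.Cf u v ∧ NA l q (p 1) u v :=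
    ⟨_, rfl⟩
  have hpl : pl I k p l q = I.lab Lp Lm := by rw [hLp, hLm]; rfl
  have eLp : ∀ u v, Lp u v ↔ I.Cf u v ∧ Arcs k p u v := fun u v => by rw [hLp]
  have eLm : ∀ u v, Lm u v ↔ I.Cf u v ∧ Arcs l q u v := fun u v => by rw [hLm]
  have eLm' : ∀ u v, Lm' u v ↔ I.Cf u v ∧ NA l q (p 1) u v := fun u v => by rw [hLm']
  -- facts on I'
  have pR : ∀ i ≤ k, (I.lab Lp Lm).R (p i) := fun i hi => by rw [← hpl]; exact p_R hml hi
  have qL : ∀ j ≤ l, (I.lab Lp Lm).L (q j) := fun j hj => by rw [← hpl]; exact q_L hml hj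
  have xL : ¬ (I.lab Lp Lm).L (p 1) := by rw [← hpl]; exact h.Jsub _ h.Jx
  have wR : ¬ (I.lab Lp Lm).R (q (l - 1)) := by rw [← hpl]; exact h.Qsub _ h.Qw
  have bx : ¬ Arcs k p (q (l - 2)) (p 1) := by
    rintro ⟨i, hi, h1, h2⟩
    have h3 : i + 1 = 1 := p_inj hml (by omega) (by omega) h2
    have h4 : i = 0 := by omega
    rw [h4, h.s] at h1
    have h5 : 0 = l - 2 := q_inj hml (by omega) (by omega) h1
    omega
  -- (0)
  have hd : ∀ u v, Lp u v → ¬ Lm' u v := by
    intro u v h1 h2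
    rw [eLp] at h1
    rw [eLm'] at h2
    rcases h2.2 with h3 | h3 | h3
    · exact hml.1.dis u v h1.2 h3.1 h1.1
    · rw [h3.1, h3.2] at h1
      exact bx h1.2
    · rw [h3.1, h3.2] at h1
      exact h.np h1.2
  -- (1)
  have pR' : ∀ i ≤ k, (I.lab Lp Lm').R (p i) := by
    intro i
    induction i with
    | zero => exact fun _ => Inst.RL.s hml.1.p0
    | succ i ih =>
      intro hi
      have hgp : I.Gp (p i) (p (i + 1)) := hml.1.pw i (by omega)
      have harc : Arcs k p (p i) (p (i + 1)) := ⟨i, by omega, rfl, rfl⟩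
      refine Inst.RL.rp (ih (by omega)) ⟨hgp, fun hh => ?_⟩ (fun hh => ?_)
      · exact hd _ _ ((eLp _ _).2 ⟨((eLm' _ _).1 hh).1, harc⟩) hh
      · rw [Inst.lab_Cf] at hh
        exact hh.2.1 ((eLp _ _).2 ⟨hh.1, harc⟩)
  have yL' : (I.lab Lp Lm').L (q l) := Inst.RL.t hml.1.ql
  have step : ∀ u v, I.Gm u v → ¬ Arcs k p u v ∨ Arcs l q u v → NA l q (p 1) u v →
      (I.lab Lp Lm').L v → (I.lab Lp Lm').L u := by
    intro u v h1 h2 h3 h4
    refine Inst.RL.lm h4 ⟨h1, fun hh => ?_⟩ (fun hh => ?_)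
    · rw [eLp] at hh
      rcases h2 with h2 | h2
      · exact h2 hh.2
      · exact hml.1.dis u v hh.2 h2 hh.1
    · rw [Inst.lab_Cf] at hh
      exact hh.2.2 ((eLm' _ _).2 ⟨hh.1, h3⟩)
  have el1 : l - 1 + 1 = l := by omega
  have wL' : (I.lab Lp Lm').L (q (l - 1)) := by
    have hgm : I.Gm (q (l - 1)) (q l) := h.wy.2.1
    have harc : Arcs l q (q (l - 1)) (q l) := ⟨l - 1, by omega, rfl, by rw [el1]⟩
    refine step _ _ hgm (Or.inr harc) (Or.inl ⟨harc, fun hh => ?_⟩) yL'
    have := q_inj hml (by omega) (by omega) hh.1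
    omega
  have xL' : (I.lab Lp Lm').L (p 1) :=
    step _ _ h.cf.2.1 (Or.inl h.np) (Or.inr (Or.inr ⟨rfl, rfl⟩)) wL'
  have bL' : (I.lab Lp Lm').L (q (l - 2)) :=
    step _ _ hb (Or.inl bx) (Or.inr (Or.inl ⟨rfl, rfl⟩)) xL'
  have qL'' : ∀ m, m ≤ l - 2 → (I.lab Lp Lm').L (q (l - 2 - m)) := by
    intro m
    induction m with
    | zero => exact fun _ => bL'
    | succ m ih =>
      intro hm
      have e1 : l - 2 - (m + 1) + 1 = l - 2 - m := by omega
      have hgm : I.Gm (q (l - 2 - (m + 1))) (q (l - 2 - m)) := by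
        have := hml.1.qw (l - 2 - (m + 1)) (by omega)
        rwa [e1] at this
      have harc : Arcs l q (q (l - 2 - (m + 1))) (q (l - 2 - m)) :=
        ⟨l - 2 - (m + 1), by omega, rfl, by rw [e1]⟩
      refine step _ _ hgm (Or.inr harc) (Or.inl ⟨harc, fun hh => ?_⟩) (ih (by omega))
      have := q_inj hml (by omega) (by omega) hh.1
      omega
  have qL' : ∀ j ≤ l, (I.lab Lp Lm').L (q j) := by
    intro j hj
    rcases Nat.lt_or_ge (l - 2) j with h1 | h1
    · rcases Nat.lt_or_ge (l - 1) j with h2 | h2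
      · have : j = l := by omega
        rw [this]; exact yL'
      · have : j = l - 1 := by omega
        rw [this]; exact wL'
    · have := qL'' (l - 2 - j) (by omega)
      have e : l - 2 - (l - 2 - j) = j := by omega
      rwa [e] at this
  -- (2)
  have hGp : ∀ u v, (I.lab Lp Lm).Gp u v → ((u = q (l - 2) ∧ v = p 1) ∨ (u = p 1 ∧ v = q (l - 1)))
      ∨ (I.lab Lp Lm').Gp u v := by
    intro u v h1
    by_cases h2 : Lm' u v
    · left
      rw [eLm'] at h2
      rcases h2.2 with h3 | h3 | h3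
      · exact absurd ((eLm _ _).2 ⟨h2.1, h3.1⟩) h1.2
      · exact Or.inl h3
      · exact Or.inr h3
    · exact Or.inr ⟨h1.1, h2⟩
  have h2RL : (∀ v, (I.lab Lp Lm).R v → (I.lab Lp Lm').R v) ∧
      (∀ v, (I.lab Lp Lm).L v → (I.lab Lp Lm').L v) := by
    apply Inst.RL_ind
    · exact fun v hv => Inst.RL.s hv
    · exact fun v hv => Inst.RL.t hv
    · intro u v hu hv hu' h1 h2
      rcases hGp u v h1 with (h3 | h3) | h3
      · rw [h3.2]; exact pR' 1 (by omega)
      · rw [h3.2] at hv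
        exact absurd hv wR
      · refine Inst.RL.rp hu' h3 (fun h4 => ?_)
        rw [Inst.lab_Cf] at h4
        apply h2
        rw [Inst.lab_Cf]
        exact ⟨h4.1, h4.2.1, h1.2⟩
    · intro u v hu huL hv hu' huL' h1
      rcases hGp u v h1 with (h3 | h3) | h3
      · rw [h3.2]; exact pR' 1 (by omega)
      · rw [h3.2] at hv
        exact absurd hv wR
      · exact Inst.RL.rc hu' huL' h3
    · intro u v hv hu hv' h1 h2
      by_cases h3 : (I.lab Lp Lm').Cf u v
      · rw [Inst.lab_Cf] at h3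
        by_cases h4 : Lm u v
        · obtain ⟨j, hj, h5, _⟩ := ((eLm _ _).1 h4).2
          rw [← h5]; exact qL' j (by omega)
        · exfalso
          apply h2
          rw [Inst.lab_Cf]
          exact ⟨h3.1, h3.2.1, h4⟩
      · exact Inst.RL.lm hv' h1 h3
    · intro u v hv hvR hu hv' hvR' h1
      exact Inst.RL.lc hv' hvR' h1
  obtain ⟨hRR, hLL⟩ := h2RL
  have hdone : ∀ n, (I.lab Lp Lm).R n ∨ (I.lab Lp Lm).L n := by
    refine Inst.norm_done hI ?_ ?_ (pR k le_rfl) (Inst.RL.t hml.1.pk)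
    · intro u v huv
      obtain ⟨i, hi, h1, _⟩ := ((eLp _ _).1 huv).2
      rw [← h1]; exact pR i (by omega)
    · intro u v huv
      obtain ⟨i, hi, _, h1⟩ := ((eLm _ _).1 huv).2
      rw [← h1]; exact qL (i + 1) (by omega)
  -- (3)
  have allL : ∀ v, (I.lab Lp Lm').L v := by
    intro v
    by_cases hv : (I.lab Lp Lm).L v
    · exact hLL v hv
    · have hJL := h.JL v (by rw [hpl]; exact hv)
      rw [hpl] at hJL
      induction hJL using ReflTransGen.head_induction_on with
      | refl => exact xL'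
      | head hab _ ih =>
        obtain ⟨h1, _, h3⟩ := hab
        have h4 := (hdone _).resolve_right h3
        exact Inst.RL.lc (ih h3) (hRR _ h4) h1
  -- (4)
  have bR : (I.lab Lp Lm).R (q (l - 2)) := by
    by_contra hcon
    have hN : I.N (q (l - 2)) := ⟨q_notS hml (by omega) (by omega), q_notT hml (by omega)⟩
    have := idxR hI hml (j := l - 2) (by omega) hN (by rw [hpl]; exact hcon)
    omega
  have wR' : (I.lab Lp Lm').R (q (l - 1)) := by
    refine Inst.RL.rc (hRR _ bR) bL' ⟨h.bw.1, fun hh => ?_⟩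
    rw [eLm'] at hh
    rcases hh.2 with h1 | h1 | h1
    · exact h1.2 ⟨rfl, rfl⟩
    · exact wR (by rw [h1.2]; exact pR 1 (by omega))
    · exact xL (by rw [← h1.1]; exact qL (l - 2) (by omega))
  have allR : ∀ v, (I.lab Lp Lm').R v := by
    intro v
    by_cases hv : (I.lab Lp Lm).R v
    · exact hRR v hv
    · have hQR := h.QR v (by rw [hpl]; exact hv)
      rw [hpl] at hQR
      clear hv
      induction hQR with
      | refl => exact wR'
      | tail _ hab ih =>
        obtain ⟨h1, h2, h3⟩ := hab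
        rcases hGp _ _ h1 with (h4 | h4) | h4
        · rw [h4.1] at h2
          exact absurd bR h2
        · rw [h4.1] at h2
          exact absurd (pR 1 (by omega)) h2
        · exact Inst.RL.rc ih (allL _) h4
  -- (5)
  refine Inst.hall_one hI.toClosed (Lp := Lp) (Lm := Lm') (fun u v huv => ((eLp _ _).1 huv).1)
    (fun u v huv => ((eLm' _ _).1 huv).1) hd (fun v => Or.inl (allR v)) ?_
  intro u v u' v' h1 _
  rcases h1 with h1 | h1
  · exact absurd (allL u) h1.2
  · exact absurd (allR v) h1.2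

theorem optB {I : Inst V} {k : ℕ} {p : ℕ → V} {l : ℕ} {q : ℕ → V} {J Q : V → Prop}
    (hI : I.Norm) (h : ConfE I k p l q J Q) (hb : I.Gp (q (l - 1)) (p 2)) : I.Solvable := by
  have k3 := h.k3
  rw [← Inst.dual_Solvable]
  refine optA hI.toDual h.toDual ?_
  have e1 : rev k p (k - 2) = p 2 := by
    simp only [rev]
    congr 1
    omega
  rw [e1]
  exact hb

end Pool.Agent.Lib.AB474
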