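import Pool.Agent.Lib.AB474.StepD
import Pool.Agent.Lib.AB474.Link
import Pool.Agent.Lib.AB474.OptA
import Pool.Agent.Lib.AB474.Neq
import Pool.Agent.Lib.AB474.Long
import Pool.Agent.Lib.AB474.Fix
import Pool.Agent.Lib.AB474.Last

/-!
# The solvability theorem for closed instances
-/

namespace Pool.Agent.Lib.AB474

open Relation

variable {V : Type*} [Fintype V] [DecidableEq V]

namespace Inst

theorem thin_of_norm {I : Inst V} (hI : I.Norm) (h4 : Four I.N) (hns : ¬ I.Solvable) :
    Thin I := by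
  refine ⟨thin_p1 hI hns, thin_m1 hI hns, fun s n t hs hn ht h1 h2 => ?_,
    fun s n t hs hn ht h1 h2 => ?_⟩
  · obtain ⟨h3, h5⟩ := thin_cf hI hns s n t hs hn ht h1 h2
    exact hns (stepD hI h4 hs hn ht h3 h5)
  · have hns' : ¬ I.dual.Solvable := fun h => hns (dual_Solvable.1 h)
    obtain ⟨h3, h5⟩ := thin_cf hI.toDual hns' t n s ht (dual_N.2 hn) hs h2 h1
    exact hns (stepD hI h4 hs hn ht (dual_Cf.1 h5) (dual_Cf.1 h3))

theorem solvable_norm {I : Inst V} (hI : I.Norm) (h4 : Four I.N) : I.Solvable := by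
  by_contra hns
  have hth := thin_of_norm hI h4 hns
  have : Nonempty V := by
    obtain ⟨a, _⟩ := h4
    exact ⟨a⟩
  obtain ⟨k, p, l, q, h⟩ := exists_minLinked hI
  obtain ⟨J, Q, hE⟩ := conf hI hth h hns
  have ha : ¬ I.Gm (q (l - 2)) (p 1) := fun hh => hns (optA hI hE hh)
  have hb : ¬ I.Gp (q (l - 1)) (p 2) := fun hh => hns (optB hI hE hh)
  have he : p 2 = q (l - 2) := by
    by_contra hne
    exact hns (neq hI hE ha hb hne)
  have hk : k = 3 := by
    have := hE.k3
    by_contra hne
    exact hns (long_p hI hth hE he (by omega))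
  have hl : l = 3 := by
    have := hE.l3
    by_contra hne
    exact hns (long_q hI hth hE he (by omega))
  subst hk hl
  have e1 : q (3 - 2) = q 1 := rfl
  have e2 : q (3 - 1) = q 2 := rfl
  rw [e1] at he
  have hc1 : ¬ I.Cf (p 2) (p 3) := fun hh => hns (fix_p hI hE he hh)
  have hc2 : ¬ I.Cf (q 0) (q 1) := fun hh => hns (fix_q hI hE he hh)
  have hxR : (pl I 3 p 3 q).R (p 1) := p_R hE.ml (by omega)
  have hxL := hE.Jsub _ hE.Jx
  have hwL : (pl I 3 p 3 q).L (q 2) := q_L hE.ml (by omega)
  have hwR := hE.Qsub _ hE.Qw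
  rw [e2] at hwR
  have hmN : I.N (p 2) := ⟨p_notS hE.ml (by omega) (by omega), p_notT hE.ml (by omega)⟩
  refine hns (last hI h4 (s := p 0) (x := p 1) (m := p 2) (w := q 2) (y := q 3)
    hE.ml.1.p0 hE.ml.1.ql hE.xN hmN hE.wN ?_ ?_ ?_ hE.sx hE.xa ?_ ?_ hE.wy ?_ ?_ ?_ ?_)
  · intro e
    have := p_inj hE.ml (by omega) (by omega) e
    omega
  · rw [he]
    intro e
    have := q_inj hE.ml (by omega) (by omega) e
    omega
  · intro e
    rw [e] at hxR
    exact hwR hxR
  · have := hE.cf
    rwa [e2] at this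
  · have := hE.bw
    rw [e1, e2] at this
    rwa [he]
  · have := hE.ml.1.pw 2 (by omega)
    rw [← hE.y]
    exact this
  · rw [← hE.y]
    exact hc1
  · rw [he, hE.s]
    exact hE.ml.1.qw 0 (by omega)
  · rw [he, hE.s]
    exact hc2

/-- The solvability theorem: a closed instance, in which every vertex outside `R` and `L` is joined to
every other vertex by a good arc, and in which there are none or at least four such vertices, is
solvable. -/
theorem wplus {I : Inst V} (hI : I.Closed)
    (hgood : ∀ n v, ¬ I.R n → ¬ I.L n → v ≠ n → I.Good n v ∨ I.Good v n)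
    (h4 : (∀ v, I.R v ∨ I.L v) ∨ Four (fun v => ¬ I.R v ∧ ¬ I.L v)) : I.Solvable := by
  have e0 : I.lab (fun _ _ => False) (fun _ _ => False) = I := by
    simp only [lab, not_false_eq_true, and_true]
  rcases h4 with h4 | h4
  · refine hall_one (Lp := fun _ _ => False) (Lm := fun _ _ => False) hI (by simp) (by simp)
      (by simp) ?_ ?_
    · rw [e0]
      exact h4
    · rintro u v u' v' (h | h) _
      · exact absurd h.1 (by simp)
      · exact absurd h.1 (by simp)
  · have hdj : ∀ v, I.R v → ¬ I.L v := by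
      intro v hR hL
      obtain ⟨a, _, _, _, ha, _⟩ := h4
      have := done (I := I) (Lp := fun _ _ => False) (Lm := fun _ _ => False) (by simp) (by simp)
        (by rw [e0]; exact hgood) (v := v) (by rw [e0]; exact hR) (by rw [e0]; exact hL) a
      rw [e0] at this
      rcases this with h | h
      · exact ha.1 h
      · exact ha.2 h
    let I1 : Inst V := { I with S := I.R, T := I.L }
    have hcf : ∀ u v, I1.Cf u v ↔ I.Cf u v := fun u v => Iff.rfl
    have hn : I1.Norm := by
      refine ⟨⟨fun v => (hI.rp v).mono (fun _ _ h => h) (fun s hs => RL.s hs),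
        fun v => (hI.cm v).mono (fun _ _ h => h) (fun s hs => RL.t hs),
        fun u v huv w => (hI.np u v huv w).mono (fun _ _ h => h) (fun s hs => RL.s hs),
        fun u v huv w => (hI.nm u v huv w).mono (fun _ _ h => h) (fun s hs => RL.t hs)⟩,
        hdj, fun u v hu h1 h2 => RL.rp hu h1 h2, fun u v hv h1 h2 => RL.lm hv h1 h2, ?_⟩
      intro n v hn hv
      have key : ∀ u v, (¬ I.R v ∨ ¬ I.R u) → ¬ Rch (Del I.Gp u v) I.S v →
          ¬ Rch (Del I.Gp u v) I.R v := by
        intro u v h1 h2 h3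
        by_cases hv : I.R v
        · rcases h1 with h1 | h1
          · exact h1 hv
          · exact h2 (rch_del_of_R hv (Or.inl h1))
        · obtain ⟨s, hs, h⟩ := h3
          refine h2 (Rch.steps ?_ h)
          exact rch_del_of_R hs (Or.inr hv)
      have key' : ∀ u v, (¬ I.L v ∨ ¬ I.L u) → ¬ Col (Del I.Gm u v) I.T u →
          ¬ Col (Del I.Gm u v) I.L u := by
        intro u v h1 h2 h3
        by_cases hv : I.L u
        · rcases h1 with h1 | h1
          · exact h2 (col_del_of_L hv (Or.inr h1))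
          · exact h1 hv
        · obtain ⟨s, hs, h⟩ := h3
          refine h2 (Col.steps ?_ h)
          exact col_del_of_L hs (Or.inl hv)
      have hgl : ∀ u v, (¬ I.R v ∨ ¬ I.R u) → (¬ I.L v ∨ ¬ I.L u) → I.Good u v → I1.Good u v := by
        intro u v h1 h2 h3
        rcases h3 with h3 | h3 | h3
        · exact Or.inl h3
        · exact Or.inr (Or.inl ⟨h3.1, key u v h1 h3.2⟩)
        · exact Or.inr (Or.inr ⟨h3.1, key' u v h2 h3.2⟩)
      rcases hgood n v hn.1 hn.2 hv with h | h
      · exact Or.inl (hgl _ _ (Or.inr hn.1) (Or.inr hn.2) h)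
      · exact Or.inr (hgl _ _ (Or.inl hn.1) (Or.inl hn.2) h)
    obtain ⟨X, h1, h2⟩ := solvable_norm hn h4
    have hsame : ∀ u v, (I.Gp u v ∧ ¬ I.Cf u v → I.Gp u v ∧ (I.K u v → (X u v ∨ ¬ I.Gm u v))) := by
      intro u v h
      refine ⟨h.1, fun hk => ?_⟩
      right
      intro hm
      exact h.2 ⟨h.1, hm, hk⟩
    refine ⟨fun u v => (X u v ∧ I.Gp u v) ∨ ¬ I.Gm u v, fun v => ?_, fun v => ?_⟩
    · -- vertices of `R` are reached by arcs not in conflict since `R` and `L` are disjoint
      have hR : ∀ v, I.R v → Rch (fun a b => I.Gp a b ∧ (I.K a b → (X a b ∧ I.Gp a b) ∨ ¬ I.Gm a b))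
          I.S v := by
        refine (RL_ind (I := I) _ (fun _ => True) (fun v hv => Rch.base hv) (fun _ _ => trivial) ?_ ?_
          (fun _ _ _ _ _ _ _ => trivial) (fun _ _ _ _ _ _ _ _ => trivial)).1
        · intro u v _ _ hu h3 h5
          exact hu.step ⟨h3, fun hk => Or.inr (fun hm => h5 ⟨h3, hm, hk⟩)⟩
        · intro u v hu hu' _ _ _ _
          exact absurd hu' (hdj u hu)
      obtain ⟨s, hs, h⟩ := h1 v
      refine (hR s hs).steps (rtmono h (fun a b hab => ⟨hab.1, fun hk => Or.inl ⟨hab.2 hk, hab.1⟩⟩))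
    · have hL : ∀ v, I.L v → Col (fun a b => I.Gm a b ∧
          (I.K a b → ¬ ((X a b ∧ I.Gp a b) ∨ ¬ I.Gm a b))) I.T v := by
        refine (RL_ind (I := I) (fun _ => True) _ (fun _ _ => trivial) (fun v hv => Col.base hv)
          (fun _ _ _ _ _ _ _ => trivial) (fun _ _ _ _ _ _ _ _ => trivial) ?_ ?_).2
        · intro u v _ _ hu h3 h5
          refine hu.step ⟨h3, fun hk hh => ?_⟩
          rcases hh with hh | hh
          · exact h5 ⟨hh.2, h3, hk⟩
          · exact hh h3
        · intro u v hu hu' _ _ _ _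
          exact absurd hu (hdj v hu')
      obtain ⟨s, hs, h⟩ := h2 v
      refine (hL s hs).steps (rtmono h (fun a b hab => ⟨hab.1, fun hk hh => ?_⟩))
      rcases hh with hh | hh
      · exact hab.2 hk hh.1
      · exact hh hab.1

end Inst

end Pool.Agent.Lib.AB474
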