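import Pool.Agent.Lib.AB474.ADefs
import Pool.Agent.Lib.AB474.Wplus

/-!
# MODULE ResSound: an instance passing the test after the closure is solvable (about 1.5 h)

(1) clos_fix.  The number of pairs in Gp plus the number of pairs in Gm is at most 2 (card V)^2 and
   drops by at least one in every round which changes something; once a round changes nothing all
   further rounds change nothing.  So `clos X m` is a fixed point of `step X` for m >= 2 (card V)^2.
(2) Let J = I.clos X m, step J = J.  J has the same S, T, K as I, Gp, Gm contained in those of I, hence J is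
   Inside X.  If J.Cf u v then for every w in X Rch (Del J.Gp u v) J.S w: otherwise (u,v) is removed from
   J.Gm in the step, but J.Gm u v and step J = J.  The same for Col.
(3) Restriction to the subtype {v // X v}: res J.  For relations A with A u v -> X u /\ X v and X w:
   Rch A S w iff Rch (A on the subtype) (S on the subtype) w (if S is inside X).  Same for Col, and
   RL J b v iff RL (res J) b v for v in X (RL vertices are in X), Good the same, Four the same.
   So Pass gives Closed and the other hypotheses of `Inst.wplus` for res J; hence (res J).Solvable,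
   hence J.SolvX X (extend the set of labels by False), hence I.SolvX X as Gp, Gm of J are contained in
   those of I.
-/

namespace Pool.Agent.Lib.AB474

open Relation

variable {V : Type*} [Fintype V]

namespace Inst

section ResAux

omit [Fintype V]

/-- restriction of an instance to a vertex set -/
def res (J : Inst V) (X : V → Prop) : Inst {v // X v} where
  S v := J.S v
  T v := J.T v
  Gp u v := J.Gp u v
  Gm u v := J.Gm u v
  K u v := J.K u v

theorem res_rch {X : V → Prop} {A : V → V → Prop} {S : V → Prop}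
    (hA : ∀ u v, A u v → X u ∧ X v) (hS : ∀ v, S v → X v) (w : {v // X v}) :
    Rch (fun a b : {v // X v} => A a b) (fun a => S a) w ↔ Rch A S w := by
  constructor
  · rintro ⟨s, hs, h⟩
    exact ⟨s, hs, h.lift Subtype.val (fun _ _ h => h)⟩
  · rintro ⟨s, hs, h⟩
    have key : ∀ v, ReflTransGen A s v → ∀ hv : X v,
        ReflTransGen (fun a b : {v // X v} => A a b) ⟨s, hS s hs⟩ ⟨v, hv⟩ := by
      intro v h
      induction h with
      | refl => intro _; exact ReflTransGen.refl
      | @tail b c _ hbc ih =>
        intro hc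
        exact (ih (hA _ _ hbc).1).tail hbc
    exact ⟨⟨s, hS s hs⟩, hs, key w h w.2⟩

theorem res_col {X : V → Prop} {A : V → V → Prop} {T : V → Prop}
    (hA : ∀ u v, A u v → X u ∧ X v) (hT : ∀ v, T v → X v) (w : {v // X v}) :
    Col (fun a b : {v // X v} => A a b) (fun a => T a) w ↔ Col A T w := by
  rw [col_iff_rch, col_iff_rch]
  exact res_rch (A := fun a b => A b a) (fun u v h => (hA v u h).symm) hT w

theorem res_del {X : V → Prop} (A : V → V → Prop) (u v : {v // X v}) :
    Del (fun a b : {v // X v} => A a b) u v = fun a b : {v // X v} => Del A u v a b := by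
  funext a b
  simp only [Del, Subtype.ext_iff]

theorem RL_X {J : Inst V} {X : V → Prop} (hJ : J.Inside X) {b : Bool} {v : V} (h : J.RL b v) :
    X v := by
  induction h with
  | s h => exact hJ.S _ h
  | t h => exact hJ.T _ h
  | rp _ h _ _ => exact (hJ.Gp _ _ h).2
  | rc _ _ h _ _ => exact (hJ.Gp _ _ h).2
  | lm _ h _ _ => exact (hJ.Gm _ _ h).1
  | lc _ _ h _ _ => exact (hJ.Gm _ _ h).1

theorem res_RL {J : Inst V} {X : V → Prop} (hJ : J.Inside X) (b : Bool) (v : {v // X v}) :
    (J.res X).RL b v ↔ J.RL b v := by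
  constructor
  · intro h
    induction h with
    | s h => exact RL.s h
    | t h => exact RL.t h
    | rp _ h1 h2 ih => exact RL.rp ih h1 h2
    | rc _ _ h1 ih1 ih2 => exact RL.rc ih1 ih2 h1
    | lm _ h1 h2 ih => exact RL.lm ih h1 h2
    | lc _ _ h1 ih1 ih2 => exact RL.lc ih1 ih2 h1
  · intro h
    have key : ∀ b v, J.RL b v → ∀ hv : X v, (J.res X).RL b ⟨v, hv⟩ := by
      intro b v h
      induction h with
      | s h => intro hv; exact RL.s h
      | t h => intro hv; exact RL.t h
      | rp h0 h1 h2 ih =>
        intro hv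
        exact RL.rp (ih (RL_X hJ h0)) h1 h2
      | rc h0 h0' h1 ih1 ih2 =>
        intro hv
        exact RL.rc (ih1 (RL_X hJ h0)) (ih2 (RL_X hJ h0)) h1
      | lm h0 h1 h2 ih =>
        intro hv
        exact RL.lm (ih (RL_X hJ h0)) h1 h2
      | lc h0 h0' h1 ih1 ih2 =>
        intro hv
        exact RL.lc (ih1 (RL_X hJ h0)) (ih2 (RL_X hJ h0)) h1
    exact key b v h v.2

theorem res_rch_del {J : Inst V} {X : V → Prop} (hJ : J.Inside X) (u v w : {v // X v}) :
    Rch (Del (J.res X).Gp u v) (J.res X).S w ↔ Rch (Del J.Gp u v) J.S w := by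
  have h := res_rch (A := Del J.Gp u v) (S := J.S) (fun a b h => hJ.Gp _ _ h.1) hJ.S w
  rw [← res_del] at h
  exact h

theorem res_col_del {J : Inst V} {X : V → Prop} (hJ : J.Inside X) (u v w : {v // X v}) :
    Col (Del (J.res X).Gm u v) (J.res X).T w ↔ Col (Del J.Gm u v) J.T w := by
  have h := res_col (A := Del J.Gm u v) (T := J.T) (fun a b h => hJ.Gm _ _ h.1) hJ.T w
  rw [← res_del] at h
  exact h

theorem res_good {J : Inst V} {X : V → Prop} (hJ : J.Inside X) (u v : {v // X v}) :
    (J.res X).Good u v ↔ J.Good u v := by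
  unfold Good
  rw [res_rch_del hJ, res_col_del hJ]
  rfl

theorem clos_S (I : Inst V) (X : V → Prop) (m : ℕ) : (I.clos X m).S = I.S := by
  induction m with
  | zero => rfl
  | succ m ih => exact ih

theorem clos_T (I : Inst V) (X : V → Prop) (m : ℕ) : (I.clos X m).T = I.T := by
  induction m with
  | zero => rfl
  | succ m ih => exact ih

theorem clos_K (I : Inst V) (X : V → Prop) (m : ℕ) : (I.clos X m).K = I.K := by
  induction m with
  | zero => rfl
  | succ m ih => exact ih

theorem clos_Gp (I : Inst V) (X : V → Prop) (m : ℕ) {u v : V} (h : (I.clos X m).Gp u v) :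
    I.Gp u v := by
  induction m with
  | zero => exact h
  | succ m ih => exact ih h.1

theorem clos_Gm (I : Inst V) (X : V → Prop) (m : ℕ) {u v : V} (h : (I.clos X m).Gm u v) :
    I.Gm u v := by
  induction m with
  | zero => exact h
  | succ m ih => exact ih h.1

theorem clos_of_fix (I : Inst V) (X : V → Prop) {k : ℕ} (h : (I.clos X k).step X = I.clos X k)
    (j : ℕ) : I.clos X (k + j) = I.clos X k := by
  induction j with
  | zero => rfl
  | succ j ih =>
    change (I.clos X (k + j)).step X = I.clos X k
    rw [ih, h]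

end ResAux

open scoped Classical in
/-- number of arcs -/
noncomputable def arcs (J : Inst V) : ℕ :=
  (Finset.univ.filter (fun p : V × V => J.Gp p.1 p.2)).card +
    (Finset.univ.filter (fun p : V × V => J.Gm p.1 p.2)).card

theorem arcs_le (J : Inst V) : J.arcs ≤ 2 * Fintype.card V ^ 2 := by
  classical
  have h : ∀ p : V × V → Prop, (Finset.univ.filter p).card ≤ Fintype.card V ^ 2 := by
    intro p
    refine (Finset.card_le_univ _).trans ?_
    rw [Fintype.card_prod, sq]
  unfold arcs
  have h1 := h (fun p => J.Gp p.1 p.2)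
  have h2 := h (fun p => J.Gm p.1 p.2)
  omega

theorem arcs_step (J : Inst V) (X : V → Prop) (h : J.step X ≠ J) : (J.step X).arcs < J.arcs := by
  classical
  have s1 : Finset.univ.filter (fun p : V × V => (J.step X).Gp p.1 p.2) ⊆
      Finset.univ.filter (fun p : V × V => J.Gp p.1 p.2) := by
    intro p hp
    rw [Finset.mem_filter] at hp ⊢
    exact ⟨hp.1, hp.2.1⟩
  have s2 : Finset.univ.filter (fun p : V × V => (J.step X).Gm p.1 p.2) ⊆
      Finset.univ.filter (fun p : V × V => J.Gm p.1 p.2) := by
    intro p hp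
    rw [Finset.mem_filter] at hp ⊢
    exact ⟨hp.1, hp.2.1⟩
  by_contra hlt
  apply h
  have c1 := Finset.card_le_card s1
  have c2 := Finset.card_le_card s2
  have hlt' : J.arcs ≤ (J.step X).arcs := not_lt.1 hlt
  unfold arcs at hlt'
  have e1 := Finset.eq_of_subset_of_card_le s1 (by omega)
  have e2 := Finset.eq_of_subset_of_card_le s2 (by omega)
  have g1 : (J.step X).Gp = J.Gp := by
    funext u v
    apply propext
    have := Finset.ext_iff.1 e1 (u, v)
    simpa only [Finset.mem_filter, Finset.mem_univ, true_and] using this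
  have g2 : (J.step X).Gm = J.Gm := by
    funext u v
    apply propext
    have := Finset.ext_iff.1 e2 (u, v)
    simpa only [Finset.mem_filter, Finset.mem_univ, true_and] using this
  have e : J.step X = { J with Gp := (J.step X).Gp, Gm := (J.step X).Gm } := rfl
  rw [e, g1, g2]

theorem clos_fix (I : Inst V) (X : V → Prop) {m : ℕ} (hm : 2 * Fintype.card V ^ 2 ≤ m) :
    (I.clos X m).step X = I.clos X m := by
  by_contra hne
  have hk : ∀ k ≤ m, (I.clos X k).step X ≠ I.clos X k := by
    intro k hk he
    apply hne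
    obtain ⟨j, rfl⟩ := Nat.exists_eq_add_of_le hk
    rw [I.clos_of_fix X he j, he]
  have hdec : ∀ k ≤ m + 1, (I.clos X k).arcs + k ≤ I.arcs := by
    intro k
    induction k with
    | zero => intro _; exact le_rfl
    | succ k ih =>
      intro hkm
      have h1 := ih (by omega)
      have h2 := arcs_step (I.clos X k) X (hk k (by omega))
      change ((I.clos X k).step X).arcs + (k + 1) ≤ I.arcs
      omega
  have h3 := hdec (m + 1) le_rfl
  have h4 := I.arcs_le
  omega

theorem pass_sound {I : Inst V} {X : V → Prop} (hI : I.Inside X) {m : ℕ}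
    (hm : 2 * Fintype.card V ^ 2 ≤ m) (h : (I.clos X m).Pass X) : I.SolvX X := by
  classical
  set J := I.clos X m with hJdef
  have hfix : J.step X = J := I.clos_fix X hm
  have hJ : J.Inside X := by
    refine ⟨fun v hv => ?_, fun v hv => ?_, fun u v huv => ?_, fun u v huv => ?_⟩
    · rw [hJdef, clos_S] at hv
      exact hI.S v hv
    · rw [hJdef, clos_T] at hv
      exact hI.T v hv
    · exact hI.Gp u v (clos_Gp I X m huv)
    · exact hI.Gm u v (clos_Gm I X m huv)
  have hnp : ∀ u v, J.Cf u v → ∀ w, X w → Rch (Del J.Gp u v) J.S w := by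
    intro u v huv w hw
    by_contra hcon
    have h1 : (J.step X).Gm u v := by
      rw [hfix]
      exact huv.2.1
    exact h1.2 ⟨huv, w, hw, hcon⟩
  have hnm : ∀ u v, J.Cf u v → ∀ w, X w → Col (Del J.Gm u v) J.T w := by
    intro u v huv w hw
    by_contra hcon
    have h1 : (J.step X).Gp u v := by
      rw [hfix]
      exact huv.1
    exact h1.2 ⟨huv, w, hw, hcon⟩
  have hclosed : (J.res X).Closed := by
    refine ⟨fun v => ?_, fun v => ?_, fun u v huv w => ?_, fun u v huv w => ?_⟩
    · exact (res_rch (A := J.Gp) (S := J.S) hJ.Gp hJ.S v).2 (h.rp v v.2)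
    · exact (res_col (A := J.Gm) (T := J.T) hJ.Gm hJ.T v).2 (h.cm v v.2)
    · exact (res_rch_del hJ u v w).2 (hnp u v huv w w.2)
    · exact (res_col_del hJ u v w).2 (hnm u v huv w w.2)
  have hsol : (J.res X).Solvable := by
    refine wplus hclosed (fun n v hR hL hne => ?_) ?_
    · rw [res_good hJ, res_good hJ]
      refine h.good n v n.2 v.2 (fun h' => hR ((res_RL hJ true n).2 h'))
        (fun h' => hL ((res_RL hJ false n).2 h')) (fun h' => hne (Subtype.ext h'))
    · rcases h.cov with hc | hc
      · left
        intro v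
        rcases hc v v.2 with h' | h'
        · exact Or.inl ((res_RL hJ true v).2 h')
        · exact Or.inr ((res_RL hJ false v).2 h')
      · right
        obtain ⟨a, b, c, d, ha, hb, hc, hd, h1, h2, h3, h4, h5, h6⟩ := hc
        have key : ∀ x : {v // X v}, ¬ J.R x → ¬ J.L x → ¬ (J.res X).R x ∧ ¬ (J.res X).L x :=
          fun x hR hL => ⟨fun h' => hR ((res_RL hJ true x).1 h'),
            fun h' => hL ((res_RL hJ false x).1 h')⟩
        exact ⟨⟨a, ha.1⟩, ⟨b, hb.1⟩, ⟨c, hc.1⟩, ⟨d, hd.1⟩, key ⟨a, ha.1⟩ ha.2.1 ha.2.2,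
          key ⟨b, hb.1⟩ hb.2.1 hb.2.2, key ⟨c, hc.1⟩ hc.2.1 hc.2.2, key ⟨d, hd.1⟩ hd.2.1 hd.2.2,
          fun e => h1 (congrArg Subtype.val e), fun e => h2 (congrArg Subtype.val e),
          fun e => h3 (congrArg Subtype.val e), fun e => h4 (congrArg Subtype.val e),
          fun e => h5 (congrArg Subtype.val e), fun e => h6 (congrArg Subtype.val e)⟩
  obtain ⟨Y, h1, h2⟩ := hsol
  refine ⟨fun u v => ∃ (hu : X u) (hv : X v), Y ⟨u, hu⟩ ⟨v, hv⟩, fun v hv => ?_, fun v hv => ?_⟩
  · obtain ⟨s, hs, hsv⟩ := h1 ⟨v, hv⟩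
    refine ⟨s, ?_, hsv.lift Subtype.val ?_⟩
    · have : J.S s := hs
      rwa [hJdef, clos_S] at this
    · rintro a b ⟨hab, hK⟩
      refine ⟨clos_Gp I X m hab, fun hk => ⟨a.2, b.2, hK ?_⟩⟩
      change J.K a b
      rw [hJdef, clos_K]
      exact hk
  · obtain ⟨s, hs, hsv⟩ := h2 ⟨v, hv⟩
    refine ⟨s, ?_, hsv.lift Subtype.val ?_⟩
    · have : J.T s := hs
      rwa [hJdef, clos_T] at this
    · rintro a b ⟨hab, hK⟩
      refine ⟨clos_Gm I X m hab, fun hk => ?_⟩
      rintro ⟨_, _, hY⟩
      refine hK ?_ hY
      change J.K a b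
      rw [hJdef, clos_K]
      exact hk

end Inst

end Pool.Agent.Lib.AB474
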