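import Pool.Agent.Lib.AB474.ADefs
import Pool.Agent.Lib.AB474.ResSound

/-!
# MODULE PassComp: a solvable instance passes the test after labelling at most 4 arcs (about 2 h)

Write J <= I if S, T, K agree, J.Gp contained in I.Gp, J.Gm contained in I.Gm.  Everything relative to X.
(L1) I.SolvX X with Y => (I.step X).SolvX X with the same Y: if I.Cf u v and some w in X is not
   reached in Del I.Gp u v, then Y u v (otherwise the plus arcs avoid (u,v)); so the minus arcs (K -> not Y)
   avoid (u,v).  Dually.  So all (I.clos X m).SolvX X, and then rp, cm of Pass hold.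
(L3) J <= I, J.SolvX X => J.step X <= I.step X.  Let J.Gp u v, not removed in J.  Suppose it is removed in I:
   I.Cf u v and some w in X with not Col (Del I.Gm u v) T w.  Then not Col (Del J.Gm u v) T w.  If J.Gm u v, then J.Cf u v
   (K is the same), so it would be removed in J.  If not J.Gm u v then J.Gm is contained in Del I.Gm u v, but
   Col J.Gm T w by solvability.  Dually.  So J.clos X m <= I.clos X m for all m (with L1).
(L5) I.Gp u v and not (I.clos X m).Gp u v => there is i < m with (I.clos X i).Cf u v and some w in X with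
   not Col (Del (I.clos X i).Gm u v) T w.  Then also not Col (Del (I.clos X m).Gm u v) T w; if I.SolvX X then
   (I.clos X m).Gm u v (otherwise (clos m).Gm is contained in Del ..), and not Col (Del (clos m).Gm u v) T u
   (w leads to T, if u leads to T avoiding (u,v) then w too).  Dually.
(L6) I.SolvX X, I.Gp u v, I.Gm u v => (I.clos X m).Good u v.  By (L5).
MAIN PROOF.  Let M = 2 card^2 + 1, J = I.clos X m for m >= 2 card^2.  All these J are equal (clos is
 stationary from 2 card^2 on: Inst.clos_fix of module ResSound; import it or reprove it).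
 Case 1: all of X is in J.R u J.L, or Four holds.  Take the empty list.  (I.lab (lrel []) none = I.)
   good of Pass: n, v in X, n outside R, L; n is not in S, T; hgood and (L6).
 Case 2: there is n0 in X outside J.R u J.L, and not Four.  Then J.R, J.L are disjoint: let v in both.
   hgood for n0, v: (v,n0) or (n0,v) in both I.Gp, I.Gm.  (v,n0): J.Good by (L6): if J.Gp v n0: rule rc: R n0.
   Otherwise it is in J.Gm, critical for v (L5): but v in J.L (Inst.col_del_of_L).  (n0,v) similarly.
   Y a solution (L1).  There is t in T, and a walk from S to t of arcs J.Gp a b with (K a b -> Y a b); t in J.L, its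
   start in J.R.  Choose a walk z 0, ..., z r of such arcs with z 0 in J.R, z r in J.L of minimal length r.  z i for
   0 < i < r are outside J.R u J.L, in X, and distinct, so r - 1 <= 3.
   L := list of the pairs (z i, z (i+1)), i < r, with K (z i) (z (i+1)).  Length <= 4.  I1 := I.lab (lrel L) none.
   I1 <= I, I1.SolvX X by Y: pairs in L have K and Y, so are not minus arcs.  Let J1 = I1.clos X m; J1 <= J by (L3).
   (a) J.R v -> J1.R v, J.L v -> J1.L v: RL_ind for J; rules rc, lc do not occur since R, L are disjoint.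
     rp: J.Gp u v, not J.Cf u v: if not J1.Gp u v then by (L5) for I1 K u v and J1.Gm u v, hence J.Gm u v and
     J.Cf u v: no.  not J1.Cf u v as J1 <= J.   lm: the same (a pair (u,v) of J.Gm not J.Cf in L: then K u v and
     J.Gp u v, so J.Cf u v, no; so it is in I1.Gm).
   (b) z i in J1.R: (z i, z (i+1)): in I1.Gp; if not J1.Gp then by (L5) it was Cf at some stage, so K, so it is
     in L, so not in I1.Gm: no.  It is not J1.Cf: K would imply it is in L, not in I1.Gm.  rule rp.
   (c) v := z r in J1.R and J1.L.  Every n in X is in J1.R u J1.L: otherwise n outside J.R u J.L, n /= v,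
     hgood: (v,n) in both I.Gp, I.Gm: if J1.Gp v n: rc gives J1.R n.  Otherwise (L5) for I1: it is J1.Gm and
     critical at v: but v in J1.L (col_del_of_L).  (n,v) in both: if it is in L then n = z i in J1.R.  So it is in I1.Gm.
     If J1.Gm n v: lc gives J1.L n.  Otherwise critical: v in J1.R (rch_del_of_R): no.
   So J1 passes (cov, and good is vacuous).
-/

namespace Pool.Agent.Lib.AB474

open Relation

variable {V : Type*} [Fintype V]

namespace Inst

section PassCompAux

omit [Fintype V]

/-- `Y` is a solution relative to `X`. -/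
private def SolBy (I : Inst V) (X : V → Prop) (Y : V → V → Prop) : Prop :=
  (∀ v, X v → Rch (fun a b => I.Gp a b ∧ (I.K a b → Y a b)) I.S v) ∧
  (∀ v, X v → Col (fun a b => I.Gm a b ∧ (I.K a b → ¬ Y a b)) I.T v)

/-- smaller instances -/
private structure Le (J I : Inst V) : Prop where
  S : J.S = I.S
  T : J.T = I.T
  K : J.K = I.K
  Gp : ∀ u v, J.Gp u v → I.Gp u v
  Gm : ∀ u v, J.Gm u v → I.Gm u v

private theorem solBy_step {I : Inst V} {X : V → Prop} {Y : V → V → Prop} (h : SolBy I X Y) :
    SolBy (I.step X) X Y := by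
  constructor
  · intro v hv
    refine (h.1 v hv).mono ?_ (fun _ h => h)
    rintro a b ⟨h1, h2⟩
    refine ⟨⟨h1, ?_⟩, h2⟩
    rintro ⟨hc, w, hw, hn⟩
    apply hn
    refine (h.2 w hw).mono ?_ (fun _ h => h)
    rintro c d ⟨h3, h4⟩
    refine ⟨h3, ?_⟩
    rintro ⟨rfl, rfl⟩
    exact h4 hc.2.2 (h2 hc.2.2)
  · intro v hv
    refine (h.2 v hv).mono ?_ (fun _ h => h)
    rintro a b ⟨h1, h2⟩
    refine ⟨⟨h1, ?_⟩, h2⟩
    rintro ⟨hc, w, hw, hn⟩
    apply hn
    refine (h.1 w hw).mono ?_ (fun _ h => h)
    rintro c d ⟨h3, h4⟩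
    refine ⟨h3, ?_⟩
    rintro ⟨rfl, rfl⟩
    exact h2 hc.2.2 (h4 hc.2.2)

private theorem solBy_clos {I : Inst V} {X : V → Prop} {Y : V → V → Prop} (h : SolBy I X Y)
    (m : ℕ) : SolBy (I.clos X m) X Y := by
  induction m with
  | zero => exact h
  | succ m ih => exact solBy_step ih

private theorem SolBy.rch {I : Inst V} {X : V → Prop} {Y : V → V → Prop} (h : SolBy I X Y)
    {v : V} (hv : X v) : Rch I.Gp I.S v :=
  (h.1 v hv).mono (fun _ _ h => h.1) (fun _ h => h)

private theorem SolBy.col {I : Inst V} {X : V → Prop} {Y : V → V → Prop} (h : SolBy I X Y)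
    {v : V} (hv : X v) : Col I.Gm I.T v :=
  (h.2 v hv).mono (fun _ _ h => h.1) (fun _ h => h)

private theorem le_step {J I : Inst V} {X : V → Prop} {Y : V → V → Prop} (h : Le J I)
    (hs : SolBy J X Y) : Le (J.step X) (I.step X) := by
  refine ⟨h.S, h.T, h.K, ?_, ?_⟩
  · rintro u v ⟨h1, h2⟩
    refine ⟨h.Gp u v h1, ?_⟩
    rintro ⟨hc, w, hw, hn⟩
    by_cases hm : J.Gm u v
    · apply h2
      refine ⟨⟨h1, hm, ?_⟩, w, hw, ?_⟩
      · rw [h.K]
        exact hc.2.2
      · intro hcol
        apply hn
        refine hcol.mono ?_ ?_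
        · rintro a b ⟨h3, h4⟩
          exact ⟨h.Gm a b h3, h4⟩
        · intro s hs
          rw [h.T] at hs
          exact hs
    · apply hn
      refine (hs.col hw).mono ?_ ?_
      · intro a b h3
        refine ⟨h.Gm a b h3, ?_⟩
        rintro ⟨rfl, rfl⟩
        exact hm h3
      · intro s hs
        rw [h.T] at hs
        exact hs
  · rintro u v ⟨h1, h2⟩
    refine ⟨h.Gm u v h1, ?_⟩
    rintro ⟨hc, w, hw, hn⟩
    by_cases hm : J.Gp u v
    · apply h2
      refine ⟨⟨hm, h1, ?_⟩, w, hw, ?_⟩
      · rw [h.K]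
        exact hc.2.2
      · intro hcol
        apply hn
        refine hcol.mono ?_ ?_
        · rintro a b ⟨h3, h4⟩
          exact ⟨h.Gp a b h3, h4⟩
        · intro s hs
          rw [h.S] at hs
          exact hs
    · apply hn
      refine (hs.rch hw).mono ?_ ?_
      · intro a b h3
        refine ⟨h.Gp a b h3, ?_⟩
        rintro ⟨rfl, rfl⟩
        exact hm h3
      · intro s hs
        rw [h.S] at hs
        exact hs

private theorem le_clos {J I : Inst V} {X : V → Prop} {Y : V → V → Prop} (h : Le J I)
    (hs : SolBy J X Y) (m : ℕ) : Le (J.clos X m) (I.clos X m) := by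
  induction m with
  | zero => exact h
  | succ m ih => exact le_step ih (solBy_clos hs m)

private theorem col_del_all {A : V → V → Prop} {T : V → Prop} {u v w : V}
    (hw : Col A T w) (hu : Col (Del A u v) T u) : Col (Del A u v) T w := by
  obtain ⟨t, ht, h⟩ := hw
  induction h using ReflTransGen.head_induction_on with
  | refl => exact Col.base ht
  | @head a c hac _ ih =>
    by_cases he : a = u ∧ c = v
    · rw [he.1]
      exact hu
    · exact ih.step ⟨hac, he⟩

private theorem rch_del_all {A : V → V → Prop} {S : V → Prop} {u v w : V}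
    (hw : Rch A S w) (hv : Rch (Del A u v) S v) : Rch (Del A u v) S w := by
  obtain ⟨s, hs, h⟩ := hw
  induction h with
  | refl => exact Rch.base hs
  | @tail a c _ hac ih =>
    by_cases he : a = u ∧ c = v
    · rw [he.2]
      exact hv
    · exact ih.step ⟨hac, he⟩

private theorem lost_plus {I : Inst V} {X : V → Prop} {Y : V → V → Prop} (hI : I.Inside X)
    (hs : SolBy I X Y) {u v : V} (m : ℕ) (h : I.Gp u v) (hn : ¬ (I.clos X m).Gp u v) :
    I.K u v ∧ (I.clos X m).Gm u v ∧ ¬ Col (Del (I.clos X m).Gm u v) (I.clos X m).T u := by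
  induction m with
  | zero => exact absurd h hn
  | succ m ih =>
    have hsol' := solBy_clos hs (m + 1)
    have hsub : ∀ a b, (I.clos X (m + 1)).Gm a b → (I.clos X m).Gm a b := fun a b hab => hab.1
    by_cases h1 : (I.clos X m).Gp u v
    · have h2 : (I.clos X m).Cf u v ∧
          ∃ w, X w ∧ ¬ Col (Del (I.clos X m).Gm u v) (I.clos X m).T w := by
        by_contra hcon
        exact hn ⟨h1, hcon⟩
      obtain ⟨hc, w, hw, hnw⟩ := h2
      have hnw' : ¬ Col (Del (I.clos X (m + 1)).Gm u v) (I.clos X (m + 1)).T w := by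
        intro hcol
        apply hnw
        exact hcol.mono (fun a b hab => ⟨hsub a b hab.1, hab.2⟩) (fun _ h => h)
      refine ⟨?_, ?_, ?_⟩
      · have := hc.2.2
        rw [clos_K] at this
        exact this
      · by_contra hm
        apply hnw'
        refine (hsol'.col hw).mono ?_ (fun _ h => h)
        intro a b hab
        refine ⟨hab, ?_⟩
        rintro ⟨rfl, rfl⟩
        exact hm hab
      · intro hcol
        exact hnw' (col_del_all (hsol'.col hw) hcol)
    · obtain ⟨h2, h3, h4⟩ := ih h1
      refine ⟨h2, ?_, ?_⟩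
      · by_contra hm
        apply h4
        refine (hsol'.col (hI.Gp u v h).1).mono ?_ (fun _ h => h)
        intro a b hab
        refine ⟨hsub a b hab, ?_⟩
        rintro ⟨rfl, rfl⟩
        exact hm hab
      · intro hcol
        apply h4
        exact hcol.mono (fun a b hab => ⟨hsub a b hab.1, hab.2⟩) (fun _ h => h)

private theorem lost_minus {I : Inst V} {X : V → Prop} {Y : V → V → Prop} (hI : I.Inside X)
    (hs : SolBy I X Y) {u v : V} (m : ℕ) (h : I.Gm u v) (hn : ¬ (I.clos X m).Gm u v) :
    I.K u v ∧ (I.clos X m).Gp u v ∧ ¬ Rch (Del (I.clos X m).Gp u v) (I.clos X m).S v := by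
  induction m with
  | zero => exact absurd h hn
  | succ m ih =>
    have hsol' := solBy_clos hs (m + 1)
    have hsub : ∀ a b, (I.clos X (m + 1)).Gp a b → (I.clos X m).Gp a b := fun a b hab => hab.1
    by_cases h1 : (I.clos X m).Gm u v
    · have h2 : (I.clos X m).Cf u v ∧
          ∃ w, X w ∧ ¬ Rch (Del (I.clos X m).Gp u v) (I.clos X m).S w := by
        by_contra hcon
        exact hn ⟨h1, hcon⟩
      obtain ⟨hc, w, hw, hnw⟩ := h2
      have hnw' : ¬ Rch (Del (I.clos X (m + 1)).Gp u v) (I.clos X (m + 1)).S w := by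
        intro hcol
        apply hnw
        exact hcol.mono (fun a b hab => ⟨hsub a b hab.1, hab.2⟩) (fun _ h => h)
      refine ⟨?_, ?_, ?_⟩
      · have := hc.2.2
        rw [clos_K] at this
        exact this
      · by_contra hm
        apply hnw'
        refine (hsol'.rch hw).mono ?_ (fun _ h => h)
        intro a b hab
        refine ⟨hab, ?_⟩
        rintro ⟨rfl, rfl⟩
        exact hm hab
      · intro hcol
        exact hnw' (rch_del_all (hsol'.rch hw) hcol)
    · obtain ⟨h2, h3, h4⟩ := ih h1
      refine ⟨h2, ?_, ?_⟩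
      · by_contra hm
        apply h4
        refine (hsol'.rch (hI.Gm u v h).2).mono ?_ (fun _ h => h)
        intro a b hab
        refine ⟨hsub a b hab, ?_⟩
        rintro ⟨rfl, rfl⟩
        exact hm hab
      · intro hcol
        apply h4
        exact hcol.mono (fun a b hab => ⟨hsub a b hab.1, hab.2⟩) (fun _ h => h)

private theorem clos_good {I : Inst V} {X : V → Prop} {Y : V → V → Prop} (hI : I.Inside X)
    (hs : SolBy I X Y) {u v : V} (m : ℕ) (h1 : I.Gp u v) (h2 : I.Gm u v) :
    (I.clos X m).Good u v := by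
  by_cases h3 : (I.clos X m).Gp u v
  · by_cases h4 : (I.clos X m).Gm u v
    · exact Or.inl ⟨h3, h4⟩
    · exact Or.inr (Or.inl ⟨h3, (lost_minus hI hs m h2 h4).2.2⟩)
  · have := lost_plus hI hs m h1 h3
    exact Or.inr (Or.inr ⟨this.2.1, this.2.2⟩)

private theorem no_out {I : Inst V} {X : V → Prop} {Y : V → V → Prop} (hI : I.Inside X)
    (hs : SolBy I X Y) {n v : V} (m : ℕ) (hR : (I.clos X m).R v) (hL : (I.clos X m).L v)
    (hnR : ¬ (I.clos X m).R n) (hnL : ¬ (I.clos X m).L n) : ¬ I.Gp v n := by
  intro h
  by_cases h1 : (I.clos X m).Gp v n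
  · exact hnR (RL.rc hR hL h1)
  · exact (lost_plus hI hs m h h1).2.2 (col_del_of_L hL (Or.inr hnL))

private theorem no_in {I : Inst V} {X : V → Prop} {Y : V → V → Prop} (hI : I.Inside X)
    (hs : SolBy I X Y) {n v : V} (m : ℕ) (hR : (I.clos X m).R v) (hL : (I.clos X m).L v)
    (hnR : ¬ (I.clos X m).R n) (hnL : ¬ (I.clos X m).L n) : ¬ I.Gm n v := by
  intro h
  by_cases h1 : (I.clos X m).Gm n v
  · exact hnL (RL.lc hL hR h1)
  · exact (lost_minus hI hs m h h1).2.2 (rch_del_of_R hR (Or.inl hnR))

/-- a walk as a sequence -/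
private theorem walk_seq {A : V → V → Prop} {a b : V} (h : ReflTransGen A a b) :
    ∃ (r : ℕ) (z : ℕ → V), z 0 = a ∧ z r = b ∧ ∀ i < r, A (z i) (z (i + 1)) := by
  induction h with
  | refl => exact ⟨0, fun _ => a, rfl, rfl, fun i hi => absurd hi (Nat.not_lt_zero i)⟩
  | @tail b c _ hbc ih =>
    obtain ⟨r, z, h0, h1, h2⟩ := ih
    refine ⟨r + 1, fun i => if i ≤ r then z i else c, ?_, ?_, ?_⟩
    · simp [h0]
    · simp
    · intro i hi
      have e1 : i ≤ r := by omega
      by_cases h3 : i = r
      · have e2 : ¬ i + 1 ≤ r := by omega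
        simp only [e1, e2, if_true, if_false]
        rw [h3, h1]
        exact hbc
      · have e2 : i + 1 ≤ r := by omega
        simp only [e1, e2, if_true]
        exact h2 i (by omega)

private theorem short_walk {A : V → V → Prop} {P Q : V → Prop} {a b : V}
    (h : ReflTransGen A a b) (ha : P a) (hb : Q b) :
    ∃ (r : ℕ) (z : ℕ → V), P (z 0) ∧ Q (z r) ∧ (∀ i < r, A (z i) (z (i + 1))) ∧
      (∀ i, 0 < i → i ≤ r → ¬ P (z i)) ∧ (∀ i, i < r → ¬ Q (z i)) ∧
      (∀ i j, i < j → j < r → z i ≠ z j) := by
  classical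
  have hex : ∃ r : ℕ, ∃ z : ℕ → V, P (z 0) ∧ Q (z r) ∧ ∀ i < r, A (z i) (z (i + 1)) := by
    obtain ⟨r, z, h0, h1, h2⟩ := walk_seq h
    exact ⟨r, z, by rwa [h0], by rwa [h1], h2⟩
  obtain ⟨z, h0, h1, h2⟩ := Nat.find_spec hex
  have hmin : ∀ k, k < Nat.find hex →
      ¬ ∃ z : ℕ → V, P (z 0) ∧ Q (z k) ∧ ∀ i < k, A (z i) (z (i + 1)) :=
    fun k hk => Nat.find_min hex hk
  generalize Nat.find hex = r at h0 h1 h2 hmin
  refine ⟨r, z, h0, h1, h2, ?_, ?_, ?_⟩
  · intro i hi hir hP
    refine hmin (r - i) (by omega) ⟨fun j => z (i + j), hP, ?_, ?_⟩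
    · have : i + (r - i) = r := by omega
      simp only [this]
      exact h1
    · intro j hj
      exact h2 (i + j) (by omega)
  · intro i hi hQ
    exact hmin i hi ⟨z, h0, hQ, fun j hj => h2 j (by omega)⟩
  · intro i j hij hj he
    refine hmin (r - (j - i)) (by omega)
      ⟨fun k => if k ≤ i then z k else z (k + (j - i)), ?_, ?_, ?_⟩
    · simpa using h0
    · have h3 : ¬ r - (j - i) ≤ i := by omega
      have h4 : r - (j - i) + (j - i) = r := by omega
      simp only [h3, if_false, h4]
      exact h1
    · intro k hk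
      by_cases h3 : k < i
      · simp only [h3.le, if_true, Nat.succ_le_iff.2 h3]
        exact h2 k (by omega)
      · by_cases h4 : k = i
        · subst h4
          have h5 : ¬ k + 1 ≤ k := by omega
          have h6 : k + 1 + (j - k) = j + 1 := by omega
          simp only [le_refl, if_true, h5, if_false, h6]
          rw [he]
          exact h2 j hj
        · have h5 : ¬ k ≤ i := by omega
          have h6 : ¬ k + 1 ≤ i := by omega
          have h7 : k + 1 + (j - i) = k + (j - i) + 1 := by omega
          simp only [h5, if_false, h6, h7]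
          exact h2 (k + (j - i)) (by omega)

end PassCompAux

theorem pass_complete {I : Inst V} {X : V → Prop} (hI : I.Inside X) (hs : I.SolvX X)
    (hgood : ∀ n v, X n → X v → v ≠ n → ¬ I.S n → ¬ I.T n →
      (I.Gp n v ∧ I.Gm n v) ∨ (I.Gp v n ∧ I.Gm v n)) :
    ∃ L : List (V × V), L.length ≤ 4 ∧ ∀ m, 2 * Fintype.card V ^ 2 ≤ m →
      ((I.lab (lrel L) (fun _ _ => False)).clos X m).Pass X := by
  classical
  obtain ⟨Y, hY⟩ := hs
  have hY : SolBy I X Y := hY
  obtain ⟨M, hM⟩ : ∃ M, M = 2 * Fintype.card V ^ 2 := ⟨_, rfl⟩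
  have hstat : ∀ m, 2 * Fintype.card V ^ 2 ≤ m → I.clos X m = I.clos X M := by
    intro m hm
    have h1 := I.clos_of_fix X (I.clos_fix X (m := M) (by omega)) (m - M)
    have h2 : M + (m - M) = m := by omega
    rwa [h2] at h1
  by_cases hcov : (∀ v, X v → (I.clos X M).R v ∨ (I.clos X M).L v) ∨
      Four (fun v => X v ∧ ¬ (I.clos X M).R v ∧ ¬ (I.clos X M).L v)
  · refine ⟨[], by simp, fun m hm => ?_⟩
    have e : I.lab (lrel []) (fun _ _ => False) = I := by
      have e1 : (I.lab (lrel []) (fun _ _ => False)).Gp = I.Gp := by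
        funext u v
        simp [lab]
      have e2 : (I.lab (lrel []) (fun _ _ => False)).Gm = I.Gm := by
        funext u v
        simp [lab, lrel]
      have e3 : I.lab (lrel []) (fun _ _ => False) =
        { I with
          Gp := (I.lab (lrel []) (fun _ _ => False)).Gp
          Gm := (I.lab (lrel []) (fun _ _ => False)).Gm } := rfl
      rw [e3, e1, e2]
    rw [e, hstat m hm]
    have hs' := solBy_clos hY M
    refine ⟨fun v hv => hs'.rch hv, fun v hv => hs'.col hv, hcov, ?_⟩
    intro n v hn hv hnR hnL hne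
    have hnS : ¬ I.S n := by
      intro h
      apply hnR
      apply RL.s
      rw [clos_S]
      exact h
    have hnT : ¬ I.T n := by
      intro h
      apply hnL
      apply RL.t
      rw [clos_T]
      exact h
    rcases hgood n v hn hv hne hnS hnT with h | h
    · exact Or.inl (clos_good hI hY M h.1 h.2)
    · exact Or.inr (clos_good hI hY M h.1 h.2)
  · rw [not_or] at hcov
    obtain ⟨hc1, hc2⟩ := hcov
    have hJ : (I.clos X M).Inside X := by
      refine ⟨fun v hv => ?_, fun v hv => ?_, fun u v huv => ?_, fun u v huv => ?_⟩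
      · rw [clos_S] at hv
        exact hI.S v hv
      · rw [clos_T] at hv
        exact hI.T v hv
      · exact hI.Gp u v (clos_Gp I X M huv)
      · exact hI.Gm u v (clos_Gm I X M huv)
    have hNS : ∀ n, ¬ (I.clos X M).R n → ¬ I.S n := by
      intro n hn h
      apply hn
      apply RL.s
      rw [clos_S]
      exact h
    have hNT : ∀ n, ¬ (I.clos X M).L n → ¬ I.T n := by
      intro n hn h
      apply hn
      apply RL.t
      rw [clos_T]
      exact h
    obtain ⟨n0, hn0, hn0R, hn0L⟩ : ∃ n0, X n0 ∧ ¬ (I.clos X M).R n0 ∧ ¬ (I.clos X M).L n0 := by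
      by_contra hcon
      apply hc1
      intro v hv
      by_contra h
      rw [not_or] at h
      exact hcon ⟨v, hv, h.1, h.2⟩
    have hdis : ∀ v, (I.clos X M).R v → (I.clos X M).L v → False := by
      intro v hR hL
      have hne : v ≠ n0 := by
        rintro rfl
        exact hn0R hR
      rcases hgood n0 v hn0 (RL_X hJ hR) hne (hNS n0 hn0R) (hNT n0 hn0L) with h | h
      · exact no_in hI hY M hR hL hn0R hn0L h.2
      · exact no_out hI hY M hR hL hn0R hn0L h.1
    have hYJ := solBy_clos hY M
    obtain ⟨t, ht, -⟩ := hYJ.2 n0 hn0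
    obtain ⟨s, hs, hst⟩ := hYJ.1 t (hJ.T t ht)
    obtain ⟨r, z, h0, h1, h2, h3, h4, h5⟩ :=
      short_walk (P := (I.clos X M).R) (Q := (I.clos X M).L) hst (RL.s hs) (RL.t ht)
    have hr : r ≤ 4 := by
      by_contra hcon
      apply hc2
      have key : ∀ i, 0 < i → i < r →
          X (z i) ∧ ¬ (I.clos X M).R (z i) ∧ ¬ (I.clos X M).L (z i) := by
        intro i hi hir
        refine ⟨?_, h3 i hi hir.le, h4 i hir⟩
        have := (h2 (i - 1) (by omega)).1
        have e : i - 1 + 1 = i := by omega
        rw [e] at this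
        exact (hJ.Gp _ _ this).2
      exact ⟨z 1, z 2, z 3, z 4, key 1 (by omega) (by omega), key 2 (by omega) (by omega),
        key 3 (by omega) (by omega), key 4 (by omega) (by omega),
        h5 1 2 (by omega) (by omega), h5 1 3 (by omega) (by omega), h5 1 4 (by omega) (by omega),
        h5 2 3 (by omega) (by omega), h5 2 4 (by omega) (by omega), h5 3 4 (by omega) (by omega)⟩
    obtain ⟨L, hL⟩ : ∃ L, L = ((List.range r).filter (fun i => I.K (z i) (z (i + 1)))).map
      (fun i => (z i, z (i + 1))) := ⟨_, rfl⟩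
    have hLlen : L.length ≤ 4 := by
      rw [hL, List.length_map]
      refine (List.length_filter_le _ _).trans ?_
      rw [List.length_range]
      exact hr
    have hLmem : ∀ u v, lrel L u v ↔ ∃ i, i < r ∧ I.K u v ∧ z i = u ∧ z (i + 1) = v := by
      intro u v
      unfold lrel
      rw [hL]
      simp only [List.mem_map, List.mem_filter, List.mem_range, decide_eq_true_eq,
        Prod.mk.injEq]
      constructor
      · rintro ⟨i, ⟨hi, hK⟩, rfl, rfl⟩
        exact ⟨i, hi, hK, rfl, rfl⟩
      · rintro ⟨i, hi, hK, rfl, rfl⟩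
        exact ⟨i, ⟨hi, hK⟩, rfl, rfl⟩
    refine ⟨L, hLlen, fun m hm => ?_⟩
    obtain ⟨I1, hI1⟩ : ∃ I1, I1 = I.lab (lrel L) (fun _ _ => False) := ⟨_, rfl⟩
    rw [← hI1]
    have g1 : ∀ u v, I.Gp u v → I1.Gp u v := by
      intro u v h
      rw [hI1]
      exact ⟨h, fun h => h⟩
    have g2 : ∀ u v, I1.Gm u v → ¬ lrel L u v := by
      intro u v h
      rw [hI1] at h
      exact h.2
    have g3 : ∀ u v, I.Gm u v → ¬ lrel L u v → I1.Gm u v := by
      intro u v h h'
      rw [hI1]
      exact ⟨h, h'⟩
    have hle : Le I1 I := by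
      rw [hI1]
      exact ⟨rfl, rfl, rfl, fun u v h => h.1, fun u v h => h.1⟩
    have hI1X : I1.Inside X := by
      refine ⟨fun v hv => ?_, fun v hv => ?_, fun u v huv => hI.Gp u v (hle.Gp u v huv),
        fun u v huv => hI.Gm u v (hle.Gm u v huv)⟩
      · rw [hle.S] at hv
        exact hI.S v hv
      · rw [hle.T] at hv
        exact hI.T v hv
    have hYK : ∀ i < r, I.K (z i) (z (i + 1)) → Y (z i) (z (i + 1)) := by
      intro i hi hK
      apply (h2 i hi).2
      rw [clos_K]
      exact hK
    have hY1 : SolBy I1 X Y := by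
      constructor
      · intro v hv
        refine (hY.1 v hv).mono ?_ ?_
        · rintro a b ⟨h6, h7⟩
          refine ⟨g1 a b h6, ?_⟩
          rw [hle.K]
          exact h7
        · intro s hs
          rw [hle.S]
          exact hs
      · intro v hv
        refine (hY.2 v hv).mono ?_ ?_
        · rintro a b ⟨h6, h7⟩
          refine ⟨g3 a b h6 ?_, ?_⟩
          · intro h8
            obtain ⟨i, hi, hK, rfl, rfl⟩ := (hLmem a b).1 h8
            exact h7 hK (hYK i hi hK)
          · rw [hle.K]
            exact h7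
        · intro s hs
          rw [hle.T]
          exact hs
    have hleJ : Le (I1.clos X m) (I.clos X M) := by
      rw [← hstat m hm]
      exact le_clos hle hY1 m
    have hCf : ∀ u v, (I1.clos X m).Cf u v → (I.clos X M).Cf u v := by
      rintro u v ⟨h6, h7, h8⟩
      refine ⟨hleJ.Gp _ _ h6, hleJ.Gm _ _ h7, ?_⟩
      rw [← hleJ.K]
      exact h8
    have hKJ : ∀ u v, I1.K u v → (I.clos X M).K u v := by
      intro u v h
      rw [clos_K, ← hle.K]
      exact h
    -- (a)
    have ha := RL_ind (I := I.clos X M) (fun v => (I1.clos X m).R v) (fun v => (I1.clos X m).L v)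
      (by
        intro v hv
        apply RL.s
        rw [hleJ.S]
        exact hv)
      (by
        intro v hv
        apply RL.t
        rw [hleJ.T]
        exact hv)
      (by
        intro u v _ _ hu huv hnc
        refine RL.rp hu ?_ (fun h => hnc (hCf u v h))
        by_contra hcon
        have h6 := lost_plus hI1X hY1 m (g1 u v (clos_Gp I X M huv)) hcon
        exact hnc ⟨huv, hleJ.Gm _ _ h6.2.1, hKJ _ _ h6.1⟩)
      (by
        intro u v h6 h7 _ _ _ _
        exact (hdis u h6 h7).elim)
      (by
        intro u v _ _ hv huv hnc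
        refine RL.lm hv ?_ (fun h => hnc (hCf u v h))
        by_contra hcon
        have h7 : ¬ lrel L u v := by
          intro h8
          obtain ⟨i, hi, hK, rfl, rfl⟩ := (hLmem u v).1 h8
          refine hnc ⟨(h2 i hi).1, huv, ?_⟩
          rw [clos_K]
          exact hK
        have h6 := lost_minus hI1X hY1 m (g3 u v (clos_Gm I X M huv) h7) hcon
        exact hnc ⟨hleJ.Gp _ _ h6.2.1, huv, hKJ _ _ h6.1⟩)
      (by
        intro u v h6 h7 _ _ _ _
        exact (hdis v h7 h6).elim)
    -- (b)
    have hb : ∀ i, i ≤ r → (I1.clos X m).R (z i) := by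
      intro i
      induction i with
      | zero => exact fun _ => ha.1 _ h0
      | succ i ih =>
        intro hi
        have h6 := ih (by omega)
        have h7 := (h2 i (by omega)).1
        have h8 : I1.K (z i) (z (i + 1)) → (I1.clos X m).Gm (z i) (z (i + 1)) → False := by
          intro h9 h10
          refine g2 _ _ (clos_Gm I1 X m h10) ((hLmem _ _).2 ⟨i, by omega, ?_, rfl, rfl⟩)
          rw [← hle.K]
          exact h9
        refine RL.rp h6 ?_ ?_
        · by_contra hcon
          have h9 := lost_plus hI1X hY1 m (g1 _ _ (clos_Gp I X M h7)) hcon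
          exact h8 h9.1 h9.2.1
        · rintro ⟨_, h10, h11⟩
          rw [clos_K] at h11
          exact h8 h11 h10
    -- (c)
    have hzR := hb r le_rfl
    have hzL : (I1.clos X m).L (z r) := ha.2 _ h1
    have hcov : ∀ n, X n → (I1.clos X m).R n ∨ (I1.clos X m).L n := by
      intro n hn
      by_contra hcon
      rw [not_or] at hcon
      obtain ⟨hnR, hnL⟩ := hcon
      have hnR' : ¬ (I.clos X M).R n := fun h => hnR (ha.1 n h)
      have hnL' : ¬ (I.clos X M).L n := fun h => hnL (ha.2 n h)
      have hne : z r ≠ n := by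
        rintro rfl
        exact hnR hzR
      rcases hgood n (z r) hn (RL_X hJ h1) hne (hNS n hnR') (hNT n hnL') with h | h
      · refine no_in hI1X hY1 m hzR hzL hnR hnL (g3 _ _ h.2 ?_)
        intro h6
        obtain ⟨i, hi, _, h7, _⟩ := (hLmem _ _).1 h6
        rw [← h7] at hnR
        exact hnR (hb i hi.le)
      · exact no_out hI1X hY1 m hzR hzL hnR hnL (g1 _ _ h.1)
    have hs' := solBy_clos hY1 m
    refine ⟨fun v hv => hs'.rch hv, fun v hv => hs'.col hv, Or.inl hcov, ?_⟩
    intro n v hn _ hnR hnL _
    rcases hcov n hn with h | h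
    · exact absurd h hnR
    · exact absurd h hnL

end Inst

end Pool.Agent.Lib.AB474
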