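import Pool.Agent.Lib.AB474.PT3
import Pool.Agent.Lib.AB474.CT3
import Pool.Agent.Lib.AB474.CT4
import Pool.Agent.Lib.AB474.CT5
import Pool.Agent.Lib.AB474.BranchEq
import Pool.Agent.Lib.AB474.ResSound
import Pool.Agent.Lib.AB474.PassComp
import Pool.Agent.Lib.AB474.Elim
import Pool.Agent.Lib.AB474.Hub
import Pool.Agent.Lib.AB474.Cases

/-!
# The decision procedure is correct and runs in polynomial time
-/

namespace Pool.Agent.Lib.AB474.Tab

open Relation Pool.Agent.Lib.PolyTime

theorem solvX_of_lab {V : Type*} {I : Inst V} {X : V → Prop} {Lp Lm : V → V → Prop}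
    (h : (I.lab Lp Lm).SolvX X) : I.SolvX X := by
  obtain ⟨Y, h1, h2⟩ := h
  refine ⟨fun u v => Y u v ∧ ¬ Lm u v, fun v hv => (h1 v hv).mono (fun a b hab => ?_)
    (fun _ h => h), fun v hv => (h2 v hv).mono (fun a b hab => ?_) (fun _ h => h)⟩
  · exact ⟨hab.1.1, fun hk => ⟨hab.2 hk, hab.1.2⟩⟩
  · exact ⟨hab.1.1, fun hk hh => hab.2 hk hh.1⟩

theorem inside_lab {V : Type*} {I : Inst V} {X : V → Prop} {Lp Lm : V → V → Prop}
    (h : I.Inside X) : (I.lab Lp Lm).Inside X :=
  ⟨h.S, h.T, fun u v huv => h.Gp u v huv.1, fun u v huv => h.Gm u v huv.1⟩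

theorem two_mul_card (n : ℕ) : 2 * Fintype.card (Fin n) ^ 2 ≤ 2 * (n * n) := by
  rw [Fintype.card_fin, sq]

theorem sound_E {n : ℕ} {A gs : List Bool} (h : guessE n A gs = true) :
    ∃ s t, GoodPair (relT n A) s t := by
  unfold guessE at h
  obtain ⟨hs, ht, h1, h2⟩ := elimT_iff.1 h
  have h3 := Inst.pass_sound (inside_lab (elim_inside _ _ _ _ _ _)) (two_mul_card n) h2
  exact ⟨_, _, elim_sound h1 (solvX_of_lab h3)⟩

theorem sound_H {n : ℕ} {A gs : List Bool} (h : guessH n A gs = true) :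
    ∃ s t, GoodPair (relT n A) s t := by
  unfold guessH hubT at h
  rw [Bool.and_eq_true] at h
  obtain ⟨h1, h2⟩ := h
  obtain ⟨ha, hb, hc, hd, h4⟩ := k4T_iff.1 h1
  obtain ⟨hK, ka, kb, kc, kd⟩ := greedy_spec h4
  have h3 := Inst.pass_sound (inside_lab (hub_inside _ _)) (two_mul_card n) (hubK_iff.1 h2)
  exact hub_sound hK.1 ⟨_, _, _, _, ka, kb, kc, kd, h4.ab, h4.ac, h4.ad, h4.bc, h4.bd, h4.cd⟩
    (solvX_of_lab h3)

theorem complete_guess {n : ℕ} {A : List Bool} (hα : Alpha2 (relT n A))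
    (hg : ∃ s t, GoodPair (relT n A) s t) :
    search n (guessE n A) 128 [] = true ∨ search n (guessH n A) 12 [] = true := by
  rcases complete_cases hα hg with ⟨s, t, h1, b, c, d, h2, h3⟩ | ⟨s, t, f, g, h1, E, h2, hs, ht, h3⟩
  · right
    obtain ⟨hK, ks, kb, kc, kd⟩ := greedy_spec h2
    have kt : setT n (greedy n A (quadV n s b c d) n) t := by
      rcases h3 with rfl | rfl
      · exact ks
      · exact kb
    obtain ⟨L, hL, hp⟩ := Inst.pass_complete (hub_inside _ _) (hub_complete h1 ks kt)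
      (fun x v hx hv hne hS hT => by
        rcases hub_adj hα hK hx hv hne hS hT with h | h
        · exact Or.inl ⟨⟨hx, hv, h⟩, ⟨hx, hv, h⟩⟩
        · exact Or.inr ⟨⟨hv, hx, h⟩, ⟨hv, hx, h⟩⟩)
    obtain ⟨l, hl, hln, d0, d1, d2, d3, hgl⟩ := guess_hub (a := s) (b := b) (c := c) (d := d) hL
    rw [search_iff]
    refine ⟨l, hl, hln, ?_⟩
    rw [List.append_nil]
    unfold guessH hubT
    rw [d0, d1, d2, d3, Bool.and_eq_true]
    refine ⟨k4T_iff.2 ⟨s.2, b.2, c.2, d.2, h2⟩, ?_⟩
    rw [hubK_iff]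
    have e : relT n (gL n (code l) 4) = lrel L := by
      funext u v
      exact propext (hgl u v)
    rw [e]
    exact hp _ (two_mul_card n)
  · left
    obtain ⟨h4, h5⟩ := elim_complete (E := fun v => v ∈ E) h1 hs ht
    obtain ⟨L, hL, hp⟩ := Inst.pass_complete (elim_inside _ _ _ _ _ _) h5
      (fun x v hx hv hne hS hT => by
        rcases h3 x v hx hv hne hS hT with h | h
        · exact Or.inl ⟨⟨hx, hv, Or.inl h⟩, ⟨hx, hv, Or.inl h⟩⟩
        · exact Or.inr ⟨⟨hv, hx, Or.inl h⟩, ⟨hv, hx, Or.inl h⟩⟩)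
    obtain ⟨l, hl, hln, d0, d1, hE, hP, hM, hgl⟩ := guess_elim (f := f) (g := g) h2 hs ht hL
    rw [search_iff]
    refine ⟨l, hl, hln, ?_⟩
    rw [List.append_nil]
    unfold guessE
    rw [d0, d1, elimT_iff]
    have e1 : relT n (gL n (code l) 120) = lrel L := by
      funext u v
      exact propext (hgl u v)
    have e2 : relT n (gP n (code l)) = FpOf (fun v => v ∈ E) s f := by
      funext u v
      exact propext (hP u v)
    have e3 : relT n (gM n (code l)) = FmOf (fun v => v ∈ E) t g := by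
      funext u v
      exact propext (hM u v)
    have e4 : setT n (gE n (code l)) = (fun v => v ∈ E) := by
      funext v
      exact propext (hE v)
    rw [e1, e2, e3, e4]
    exact ⟨s.2, t.2, h4, hp _ (two_mul_card n)⟩

theorem search_correct {n : ℕ} {A : List Bool} (hα : Alpha2 (relT n A)) :
    (search n (guessE n A) 128 [] || search n (guessH n A) 12 []) = true ↔
      ∃ s t, GoodPair (relT n A) s t := by
  rw [Bool.or_eq_true]
  constructor
  · rintro (h | h)
    · obtain ⟨l, _, _, h⟩ := search_iff.1 h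
      exact sound_E h
    · obtain ⟨l, _, _, h⟩ := search_iff.1 h
      exact sound_H h
  · intro h
    exact complete_guess hα h

theorem decide_iff (w : List Bool) : decide474 w = true ↔ w ∈ BranchLanguage := by
  have key : ∀ D : DG, decide474 D.encode = true ↔ D.AlphaTwo ∧ D.HasPair := by
    intro D
    unfold decide474
    rw [Bool.and_eq_true, Bool.and_eq_true, enc_nOf, alpha_iff, decide_eq_true_eq]
    have hrel : relT D.n (aOf D.encode) = D.Arc := by
      funext u v
      exact propext (enc_arc D u v)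
    constructor
    · rintro ⟨⟨_, h1⟩, h2⟩
      have hα : Alpha2 (relT D.n (aOf D.encode)) := alphaT_alpha ((alpha_iff D).2 h1)
      refine ⟨h1, ?_⟩
      rw [hasPair_iff, ← hrel]
      exact (search_correct hα).1 h2
    · rintro ⟨h1, h2⟩
      have hα : Alpha2 (relT D.n (aOf D.encode)) := alphaT_alpha ((alpha_iff D).2 h1)
      refine ⟨⟨enc_length D, h1⟩, ?_⟩
      rw [hasPair_iff, ← hrel] at h2
      exact (search_correct hα).2 h2
  constructor
  · intro h
    have h' := h
    unfold decide474 at h'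
    rw [Bool.and_eq_true, Bool.and_eq_true, decide_eq_true_eq] at h'
    obtain ⟨D, rfl⟩ := exists_enc w h'.1.1 (alphaT_loop h'.1.2)
    exact ⟨D, ((key D).1 h).1, ((key D).1 h).2, rfl⟩
  · rintro ⟨D, h1, h2, rfl⟩
    exact (key D).2 ⟨h1, h2⟩

/-- The decision problem is in P. -/
theorem main : InP BranchLanguage := by
  classical
  have h := PolyC.toTM2 (α := List Bool) (γ := Bool) id (D := fun _ => True) decide474
    Computability.encodeBool
    ((poly_decide474 (D := fun _ => True) (ctx := [id]) (w := id) (PolyC.var (by simp))).congr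
      (fun _ _ => rfl))
  obtain ⟨⟨tm, time, hout⟩⟩ := h
  refine ⟨⟨tm, time, fun w => ?_⟩⟩
  have e : decide (w ∈ BranchLanguage) = decide474 w := by
    rw [Bool.eq_iff_iff, decide_eq_true_eq, decide_iff]
  rw [e]
  exact hout ⟨w, trivial⟩

end Pool.Agent.Lib.AB474.Tab
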