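import Pool.Agent.Lib.AB474.PTBasic

/-!
# Polynomial-time computability of the test `testT`
-/

namespace Pool.Agent.Lib.AB474.Tab

open Pool.Agent.Lib.PolyTime

variable {α : Type*} {D : α → Prop} {ctx : List (α → List Bool)}

theorem poly_critP {n : α → ℕ} {X S Gp : α → List Bool} {u v : α → ℕ} (hn : PolyN D ctx n)
    (hX : PolyC D ctx X) (hS : PolyC D ctx S) (hGp : PolyC D ctx Gp) (hu : PolyN D ctx u)
    (hv : PolyN D ctx v) : PolyB D ctx (fun a => critP (n a) (X a) (S a) (Gp a) (u a) (v a)) := by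
  unfold critP
  exact (poly_allIn hn hX (poly_reach hn (poly_delM hn hGp hu hv) hS)).not

theorem poly_critM {n : α → ℕ} {X T Gm : α → List Bool} {u v : α → ℕ} (hn : PolyN D ctx n)
    (hX : PolyC D ctx X) (hT : PolyC D ctx T) (hGm : PolyC D ctx Gm) (hu : PolyN D ctx u)
    (hv : PolyN D ctx v) : PolyB D ctx (fun a => critM (n a) (X a) (T a) (Gm a) (u a) (v a)) := by
  unfold critM
  exact (poly_allIn hn hX (poly_reach hn (poly_trM hn (poly_delM hn hGm hu hv)) hT)).not

theorem poly_cf {n : α → ℕ} {K Gp Gm : α → List Bool} {u v : α → ℕ} (hn : PolyN D ctx n)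
    (hK : PolyC D ctx K) (hGp : PolyC D ctx Gp) (hGm : PolyC D ctx Gm) (hu : PolyN D ctx u)
    (hv : PolyN D ctx v) : PolyB D ctx (fun a => cf (n a) (K a) (Gp a) (Gm a) (u a) (v a)) := by
  unfold cf
  exact (poly_b2 hn hGp hu hv).and ((poly_b2 hn hGm hu hv).and (poly_b2 hn hK hu hv))

theorem poly_stepGp {n : α → ℕ} {X T K Gp Gm : α → List Bool} (hn : PolyN D ctx n)
    (hX : PolyC D ctx X) (hT : PolyC D ctx T) (hK : PolyC D ctx K) (hGp : PolyC D ctx Gp)
    (hGm : PolyC D ctx Gm) :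
    PolyC D ctx (fun a => stepGp (n a) (X a) (T a) (K a) (Gp a) (Gm a)) := by
  unfold stepGp
  exact poly_mat (f := fun a u v => b2 (n a) (Gp a) u v &&
    !(cf (n a) (K a) (Gp a) (Gm a) u v && critM (n a) (X a) (T a) (Gm a) u v)) hn
    ((poly_b2 (up2N hn) (up2 hGp) l2a l2b).and
      ((poly_cf (up2N hn) (up2 hK) (up2 hGp) (up2 hGm) l2a l2b).and
        (poly_critM (up2N hn) (up2 hX) (up2 hT) (up2 hGm) l2a l2b)).not)

theorem poly_stepGm {n : α → ℕ} {X S K Gp Gm : α → List Bool} (hn : PolyN D ctx n)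
    (hX : PolyC D ctx X) (hS : PolyC D ctx S) (hK : PolyC D ctx K) (hGp : PolyC D ctx Gp)
    (hGm : PolyC D ctx Gm) :
    PolyC D ctx (fun a => stepGm (n a) (X a) (S a) (K a) (Gp a) (Gm a)) := by
  unfold stepGm
  exact poly_mat (f := fun a u v => b2 (n a) (Gm a) u v &&
    !(cf (n a) (K a) (Gp a) (Gm a) u v && critP (n a) (X a) (S a) (Gp a) u v)) hn
    ((poly_b2 (up2N hn) (up2 hGm) l2a l2b).and
      ((poly_cf (up2N hn) (up2 hK) (up2 hGp) (up2 hGm) l2a l2b).and
        (poly_critP (up2N hn) (up2 hX) (up2 hS) (up2 hGp) l2a l2b)).not)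

theorem poly_closStep {n : α → ℕ} {X S T K st : α → List Bool} (hn : PolyN D ctx n)
    (hX : PolyC D ctx X) (hS : PolyC D ctx S) (hT : PolyC D ctx T) (hK : PolyC D ctx K)
    (hst : PolyC D ctx st) :
    PolyC D ctx (fun a => closStep (n a) (X a) (S a) (T a) (K a) (st a)) := by
  unfold closStep
  exact (poly_stepGp hn hX hT hK hst (hst.drop (hn.mul hn))).append
    (poly_stepGm hn hX hS hK hst (hst.drop (hn.mul hn)))

theorem poly_closT {n : α → ℕ} {X S T K Gp Gm : α → List Bool} (hn : PolyN D ctx n)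
    (hX : PolyC D ctx X) (hS : PolyC D ctx S) (hT : PolyC D ctx T) (hK : PolyC D ctx K)
    (hGp : PolyC D ctx Gp) (hGm : PolyC D ctx Gm) :
    PolyC D ctx (fun a => closT (n a) (X a) (S a) (T a) (K a) (Gp a) (Gm a)) := by
  unfold closT
  obtain ⟨pn, hpn⟩ := PolyC.length_le hn
  refine poly_iter (F := fun a => closStep (n a) (X a) (S a) (T a) (K a))
    ((PolyN.const 2).mul (hn.mul hn)) (hGp.append hGm) ?_ ⟨2 * (pn * pn), fun a ha l => ?_⟩
  · have L : ∀ {t : α → List Bool}, PolyC D ctx t →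
        PolyC (fun p : α × ℕ => D p.1 ∧ p.2 < 2 * (n p.1 * n p.1))
          (PolyTime.lift ctx ++ [fun p => un p.2,
            fun p => (closStep (n p.1) (X p.1) (S p.1) (T p.1) (K p.1))^[p.2] (Gp p.1 ++ Gm p.1)])
          (fun p => t p.1) := fun h => (PolyC.lift h (fun _ hp => hp.1)).weakenRight _
    exact poly_closStep (L hn) (L hX) (L hS) (L hT) (L hK) (PolyC.var (by simp))
  · unfold closStep stepGp stepGm
    rw [List.length_append, mat_length, mat_length]
    have := hpn a ha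
    simp only [un_length] at this
    have h2 := Nat.mul_le_mul this this
    simp only [Polynomial.eval_mul, Polynomial.eval_ofNat]
    omega

theorem poly_rIn {n : α → ℕ} {K Gp Gm r l : α → List Bool} {v : α → ℕ} (hn : PolyN D ctx n)
    (hK : PolyC D ctx K) (hGp : PolyC D ctx Gp) (hGm : PolyC D ctx Gm) (hr : PolyC D ctx r)
    (hl : PolyC D ctx l) (hv : PolyN D ctx v) :
    PolyB D ctx (fun a => rIn (n a) (K a) (Gp a) (Gm a) (r a) (l a) (v a)) := by
  unfold rIn
  exact PolyB.exists_lt (φ := fun p : α × ℕ => b1 (r p.1) p.2 &&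
    (b2 (n p.1) (Gp p.1) p.2 (v p.1) && (b1 (l p.1) p.2 ||
      !cf (n p.1) (K p.1) (Gp p.1) (Gm p.1) p.2 (v p.1)))) hn
    ((poly_b1 (up hr) last).and ((poly_b2 (upN hn) (up hGp) last (upN hv)).and
      ((poly_b1 (up hl) last).or
        (poly_cf (upN hn) (up hK) (up hGp) (up hGm) last (upN hv)).not)))

theorem poly_lIn {n : α → ℕ} {K Gp Gm r l : α → List Bool} {u : α → ℕ} (hn : PolyN D ctx n)
    (hK : PolyC D ctx K) (hGp : PolyC D ctx Gp) (hGm : PolyC D ctx Gm) (hr : PolyC D ctx r)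
    (hl : PolyC D ctx l) (hu : PolyN D ctx u) :
    PolyB D ctx (fun a => lIn (n a) (K a) (Gp a) (Gm a) (r a) (l a) (u a)) := by
  unfold lIn
  exact PolyB.exists_lt (φ := fun p : α × ℕ => b1 (l p.1) p.2 &&
    (b2 (n p.1) (Gm p.1) (u p.1) p.2 && (b1 (r p.1) p.2 ||
      !cf (n p.1) (K p.1) (Gp p.1) (Gm p.1) (u p.1) p.2))) hn
    ((poly_b1 (up hl) last).and ((poly_b2 (upN hn) (up hGm) (upN hu) last).and
      ((poly_b1 (up hr) last).or
        (poly_cf (upN hn) (up hK) (up hGp) (up hGm) (upN hu) last).not)))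

theorem poly_rlStep {n : α → ℕ} {K Gp Gm st : α → List Bool} (hn : PolyN D ctx n)
    (hK : PolyC D ctx K) (hGp : PolyC D ctx Gp) (hGm : PolyC D ctx Gm) (hst : PolyC D ctx st) :
    PolyC D ctx (fun a => rlStep (n a) (K a) (Gp a) (Gm a) (st a)) := by
  unfold rlStep
  have hd := hst.drop hn
  refine (poly_vec (f := fun a v => b1 (st a) v ||
      rIn (n a) (K a) (Gp a) (Gm a) (st a) ((st a).drop (n a)) v) hn ?_).append
    (poly_vec (f := fun a v => b1 ((st a).drop (n a)) v ||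
      lIn (n a) (K a) (Gp a) (Gm a) (st a) ((st a).drop (n a)) v) hn ?_)
  · exact (poly_b1 (up hst) last).or
      (poly_rIn (upN hn) (up hK) (up hGp) (up hGm) (up hst) (up hd) last)
  · exact (poly_b1 (up hd) last).or
      (poly_lIn (upN hn) (up hK) (up hGp) (up hGm) (up hst) (up hd) last)

theorem poly_rlT {n : α → ℕ} {S T K Gp Gm : α → List Bool} (hn : PolyN D ctx n)
    (hS : PolyC D ctx S) (hT : PolyC D ctx T) (hK : PolyC D ctx K)
    (hGp : PolyC D ctx Gp) (hGm : PolyC D ctx Gm) :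
    PolyC D ctx (fun a => rlT (n a) (S a) (T a) (K a) (Gp a) (Gm a)) := by
  unfold rlT
  obtain ⟨pn, hpn⟩ := PolyC.length_le hn
  refine poly_iter (F := fun a => rlStep (n a) (K a) (Gp a) (Gm a))
    ((PolyN.const 2).mul hn) (hS.append hT) ?_ ⟨2 * pn, fun a ha l => ?_⟩
  · have L : ∀ {t : α → List Bool}, PolyC D ctx t →
        PolyC (fun p : α × ℕ => D p.1 ∧ p.2 < 2 * n p.1)
          (PolyTime.lift ctx ++ [fun p => un p.2,
            fun p => (rlStep (n p.1) (K p.1) (Gp p.1) (Gm p.1))^[p.2] (S p.1 ++ T p.1)])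
          (fun p => t p.1) := fun h => (PolyC.lift h (fun _ hp => hp.1)).weakenRight _
    exact poly_rlStep (L hn) (L hK) (L hGp) (L hGm) (PolyC.var (by simp))
  · unfold rlStep
    rw [List.length_append, vec_length, vec_length]
    have := hpn a ha
    simp only [un_length] at this
    simp only [Polynomial.eval_mul, Polynomial.eval_ofNat]
    omega

theorem poly_outV {n : α → ℕ} {X rl : α → List Bool} (hn : PolyN D ctx n)
    (hX : PolyC D ctx X) (hrl : PolyC D ctx rl) :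
    PolyC D ctx (fun a => outV (n a) (X a) (rl a)) := by
  unfold outV
  exact poly_vec (f := fun a v => b1 (X a) v && !(b1 (rl a) v || b1 ((rl a).drop (n a)) v)) hn
    ((poly_b1 (up hX) last).and
      ((poly_b1 (up hrl) last).or (poly_b1 (up (hrl.drop hn)) last)).not)

theorem poly_goodT {n : α → ℕ} {S T Gp Gm : α → List Bool} {u v : α → ℕ} (hn : PolyN D ctx n)
    (hS : PolyC D ctx S) (hT : PolyC D ctx T) (hGp : PolyC D ctx Gp) (hGm : PolyC D ctx Gm)
    (hu : PolyN D ctx u) (hv : PolyN D ctx v) :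
    PolyB D ctx (fun a => goodT (n a) (S a) (T a) (Gp a) (Gm a) (u a) (v a)) := by
  unfold goodT
  have h1 := poly_b2 hn hGp hu hv
  have h2 := poly_b2 hn hGm hu hv
  exact (h1.and h2).or ((h1.and (poly_b1 (poly_reach hn (poly_delM hn hGp hu hv) hS) hv).not).or
    (h2.and (poly_b1 (poly_reach hn (poly_trM hn (poly_delM hn hGm hu hv)) hT) hu).not))

theorem poly_goodM {n : α → ℕ} {S T Gp Gm : α → List Bool} (hn : PolyN D ctx n)
    (hS : PolyC D ctx S) (hT : PolyC D ctx T) (hGp : PolyC D ctx Gp) (hGm : PolyC D ctx Gm) :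
    PolyC D ctx (fun a => goodM (n a) (S a) (T a) (Gp a) (Gm a)) := by
  unfold goodM
  exact poly_mat (f := fun a u v => goodT (n a) (S a) (T a) (Gp a) (Gm a) u v) hn
    (poly_goodT (up2N hn) (up2 hS) (up2 hT) (up2 hGp) (up2 hGm) l2a l2b)

theorem poly_ex1 {n : α → ℕ} {X : α → List Bool} {x y z : α → ℕ} (hn : PolyN D ctx n)
    (hX : PolyC D ctx X) (hx : PolyN D ctx x) (hy : PolyN D ctx y) (hz : PolyN D ctx z) :
    PolyB D ctx (fun a => ex1 (n a) (X a) (x a) (y a) (z a)) := by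
  unfold ex1
  exact PolyB.exists_lt (φ := fun p : α × ℕ => b1 (X p.1) p.2 && (!decide (x p.1 = p.2) &&
    (!decide (y p.1 = p.2) && !decide (z p.1 = p.2)))) hn
    ((poly_b1 (up hX) last).and ((PolyB.natEq (upN hx) last).not.and
      ((PolyB.natEq (upN hy) last).not.and (PolyB.natEq (upN hz) last).not)))

theorem poly_ex2 {n : α → ℕ} {X : α → List Bool} {x y : α → ℕ} (hn : PolyN D ctx n)
    (hX : PolyC D ctx X) (hx : PolyN D ctx x) (hy : PolyN D ctx y) :
    PolyB D ctx (fun a => ex2 (n a) (X a) (x a) (y a)) := by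
  unfold ex2
  exact PolyB.exists_lt (φ := fun p : α × ℕ => b1 (X p.1) p.2 && (!decide (x p.1 = p.2) &&
    (!decide (y p.1 = p.2) && ex1 (n p.1) (X p.1) (x p.1) (y p.1) p.2))) hn
    ((poly_b1 (up hX) last).and ((PolyB.natEq (upN hx) last).not.and
      ((PolyB.natEq (upN hy) last).not.and
        (poly_ex1 (upN hn) (up hX) (upN hx) (upN hy) last))))

theorem poly_ex3 {n : α → ℕ} {X : α → List Bool} {x : α → ℕ} (hn : PolyN D ctx n)
    (hX : PolyC D ctx X) (hx : PolyN D ctx x) :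
    PolyB D ctx (fun a => ex3 (n a) (X a) (x a)) := by
  unfold ex3
  exact PolyB.exists_lt (φ := fun p : α × ℕ => b1 (X p.1) p.2 && (!decide (x p.1 = p.2) &&
    ex2 (n p.1) (X p.1) (x p.1) p.2)) hn
    ((poly_b1 (up hX) last).and ((PolyB.natEq (upN hx) last).not.and
      (poly_ex2 (upN hn) (up hX) (upN hx) last)))

theorem poly_ex4 {n : α → ℕ} {X : α → List Bool} (hn : PolyN D ctx n)
    (hX : PolyC D ctx X) : PolyB D ctx (fun a => ex4 (n a) (X a)) := by
  unfold ex4
  exact PolyB.exists_lt (φ := fun p : α × ℕ => b1 (X p.1) p.2 && ex3 (n p.1) (X p.1) p.2) hn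
    ((poly_b1 (up hX) last).and (poly_ex3 (upN hn) (up hX) last))

theorem poly_emptyT {n : α → ℕ} {X : α → List Bool} (hn : PolyN D ctx n)
    (hX : PolyC D ctx X) : PolyB D ctx (fun a => emptyT (n a) (X a)) := by
  unfold emptyT
  exact PolyB.forall_lt (φ := fun p : α × ℕ => !b1 (X p.1) p.2) hn (poly_b1 (up hX) last).not

theorem poly_goodAll {n : α → ℕ} {X G : α → List Bool} {x : α → ℕ} (hn : PolyN D ctx n)
    (hX : PolyC D ctx X) (hG : PolyC D ctx G) (hx : PolyN D ctx x) :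
    PolyB D ctx (fun a => goodAll (n a) (X a) (G a) (x a)) := by
  unfold goodAll
  exact PolyB.forall_lt (φ := fun p : α × ℕ => !b1 (X p.1) p.2 || (decide (p.2 = x p.1) ||
    (b2 (n p.1) (G p.1) (x p.1) p.2 || b2 (n p.1) (G p.1) p.2 (x p.1)))) hn
    ((poly_b1 (up hX) last).not.or ((PolyB.natEq last (upN hx)).or
      ((poly_b2 (upN hn) (up hG) (upN hx) last).or (poly_b2 (upN hn) (up hG) last (upN hx)))))

theorem poly_goodTest {n : α → ℕ} {X Y G : α → List Bool} (hn : PolyN D ctx n)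
    (hX : PolyC D ctx X) (hY : PolyC D ctx Y) (hG : PolyC D ctx G) :
    PolyB D ctx (fun a => goodTest (n a) (X a) (Y a) (G a)) := by
  unfold goodTest
  exact PolyB.forall_lt (φ := fun p : α × ℕ => !b1 (Y p.1) p.2 ||
    goodAll (n p.1) (X p.1) (G p.1) p.2) hn
    ((poly_b1 (up hY) last).not.or (poly_goodAll (upN hn) (up hX) (up hG) last))

theorem poly_passT {n : α → ℕ} {X S T K Gp Gm : α → List Bool} (hn : PolyN D ctx n)
    (hX : PolyC D ctx X) (hS : PolyC D ctx S) (hT : PolyC D ctx T) (hK : PolyC D ctx K)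
    (hGp : PolyC D ctx Gp) (hGm : PolyC D ctx Gm) :
    PolyB D ctx (fun a => passT (n a) (X a) (S a) (T a) (K a) (Gp a) (Gm a)) := by
  unfold passT
  have h1 := poly_outV hn hX (poly_rlT hn hS hT hK hGp hGm)
  exact ((poly_allIn hn hX (poly_reach hn hGp hS)).and
    (poly_allIn hn hX (poly_reach hn (poly_trM hn hGm) hT))).and
    (((poly_emptyT hn h1).or (poly_ex4 hn h1)).and
      (poly_goodTest hn hX h1 (poly_goodM hn hS hT hGp hGm)))

theorem poly_testT {n : α → ℕ} {X S T K Gp Gm : α → List Bool} (hn : PolyN D ctx n)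
    (hX : PolyC D ctx X) (hS : PolyC D ctx S) (hT : PolyC D ctx T) (hK : PolyC D ctx K)
    (hGp : PolyC D ctx Gp) (hGm : PolyC D ctx Gm) :
    PolyB D ctx (fun a => testT (n a) (X a) (S a) (T a) (K a) (Gp a) (Gm a)) := by
  unfold testT
  have h1 := poly_closT hn hX hS hT hK hGp hGm
  exact poly_passT hn hX hS hT hK h1 (h1.drop (hn.mul hn))

end Pool.Agent.Lib.AB474.Tab
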