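import Pool.Agent.Lib.AB474.PT1

/-!
# MODULE PT2: polynomial-time computability of `elimT` and `hubT` (about 1.2 h)

Same style as PTBasic / PT1 (black box: poly_testT).  Closure lemmas for the definitions in Tab.lean
from `unitV` to `hubT`.  `greedy n A K n`: use PolyC.natRec with F a k = greedy (n a) (A a) (K a) k
(length of greedyStep is n by vec_length; greedy .. 0 = K).
-/

namespace Pool.Agent.Lib.AB474.Tab

open Pool.Agent.Lib.PolyTime

variable {α : Type*} {D : α → Prop} {ctx : List (α → List Bool)}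

section elim

theorem poly_unitV {n s : α → ℕ} (hn : PolyN D ctx n) (hs : PolyN D ctx s) :
    PolyC D ctx (fun a => unitV (n a) (s a)) := by
  unfold unitV
  exact poly_vec (f := fun a v => decide (v = s a)) hn (PolyB.natEq last (upN hs))

theorem poly_rowV {n u : α → ℕ} {F : α → List Bool} (hn : PolyN D ctx n) (hF : PolyC D ctx F)
    (hu : PolyN D ctx u) : PolyC D ctx (fun a => rowV (n a) (F a) (u a)) := by
  unfold rowV
  exact poly_vec (f := fun a x => b2 (n a) (F a) (u a) x) hn
    (poly_b2 (upN hn) (up hF) (upN hu) last)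

theorem poly_colV {n v : α → ℕ} {F : α → List Bool} (hn : PolyN D ctx n) (hF : PolyC D ctx F)
    (hv : PolyN D ctx v) : PolyC D ctx (fun a => colV (n a) (F a) (v a)) := by
  unfold colV
  exact poly_vec (f := fun a x => b2 (n a) (F a) x (v a)) hn
    (poly_b2 (upN hn) (up hF) last (upN hv))

theorem poly_viaP {n v : α → ℕ} {A E M r : α → List Bool} (hn : PolyN D ctx n)
    (hA : PolyC D ctx A) (hE : PolyC D ctx E) (hM : PolyC D ctx M) (hr : PolyC D ctx r)
    (hv : PolyN D ctx v) :
    PolyB D ctx (fun a => viaP (n a) (A a) (E a) (M a) (r a) (v a)) := by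
  unfold viaP
  exact PolyB.exists_lt (φ := fun p : α × ℕ => b1 (E p.1) p.2 && (b1 (r p.1) p.2 &&
      (b2 (n p.1) (A p.1) p.2 (v p.1) && !b2 (n p.1) (M p.1) p.2 (v p.1)))) hn
    ((poly_b1 (up hE) last).and ((poly_b1 (up hr) last).and
      ((poly_b2 (upN hn) (up hA) last (upN hv)).and
        (poly_b2 (upN hn) (up hM) last (upN hv)).not)))

theorem poly_viaM {n u : α → ℕ} {A E P r : α → List Bool} (hn : PolyN D ctx n)
    (hA : PolyC D ctx A) (hE : PolyC D ctx E) (hP : PolyC D ctx P) (hr : PolyC D ctx r)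
    (hu : PolyN D ctx u) :
    PolyB D ctx (fun a => viaM (n a) (A a) (E a) (P a) (r a) (u a)) := by
  unfold viaM
  exact PolyB.exists_lt (φ := fun p : α × ℕ => b1 (E p.1) p.2 && (b1 (r p.1) p.2 &&
      (b2 (n p.1) (A p.1) (u p.1) p.2 && !b2 (n p.1) (P p.1) (u p.1) p.2))) hn
    ((poly_b1 (up hE) last).and ((poly_b1 (up hr) last).and
      ((poly_b2 (upN hn) (up hA) (upN hu) last).and
        (poly_b2 (upN hn) (up hP) (upN hu) last).not)))

theorem poly_peT {n : α → ℕ} {A E P M : α → List Bool} (hn : PolyN D ctx n)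
    (hA : PolyC D ctx A) (hE : PolyC D ctx E) (hP : PolyC D ctx P) (hM : PolyC D ctx M) :
    PolyC D ctx (fun a => peT (n a) (A a) (E a) (P a) (M a)) := by
  unfold peT
  exact poly_mat (f := fun a u v => viaP (n a) (A a) (E a) (M a)
      (reach (n a) (P a) (rowV (n a) (P a) u)) v) hn
    (poly_viaP (up2N hn) (up2 hA) (up2 hE) (up2 hM)
      (poly_reach (up2N hn) (up2 hP) (poly_rowV (up2N hn) (up2 hP) l2a)) l2b)

theorem poly_meT {n : α → ℕ} {A E P M : α → List Bool} (hn : PolyN D ctx n)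
    (hA : PolyC D ctx A) (hE : PolyC D ctx E) (hP : PolyC D ctx P) (hM : PolyC D ctx M) :
    PolyC D ctx (fun a => meT (n a) (A a) (E a) (P a) (M a)) := by
  unfold meT
  exact poly_mat (f := fun a u v => viaM (n a) (A a) (E a) (P a)
      (reach (n a) (trM (n a) (M a)) (colV (n a) (M a) v)) u) hn
    (poly_viaM (up2N hn) (up2 hA) (up2 hE) (up2 hP)
      (poly_reach (up2N hn) (poly_trM (up2N hn) (up2 hM))
        (poly_colV (up2N hn) (up2 hM) l2b)) l2a)

theorem poly_notV {n : α → ℕ} {E : α → List Bool} (hn : PolyN D ctx n) (hE : PolyC D ctx E) :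
    PolyC D ctx (fun a => notV (n a) (E a)) := by
  unfold notV
  exact poly_vec (f := fun a v => !b1 (E a) v) hn (poly_b1 (up hE) last).not

theorem poly_elS {n s : α → ℕ} {A E P M : α → List Bool} (hn : PolyN D ctx n)
    (hA : PolyC D ctx A) (hE : PolyC D ctx E) (hP : PolyC D ctx P) (hM : PolyC D ctx M)
    (hs : PolyN D ctx s) :
    PolyC D ctx (fun a => elS (n a) (A a) (E a) (P a) (M a) (s a)) := by
  unfold elS
  exact poly_vec (f := fun a v => !b1 (E a) v && viaP (n a) (A a) (E a) (M a)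
      (reach (n a) (P a) (unitV (n a) (s a))) v) hn
    ((poly_b1 (up hE) last).not.and (poly_viaP (upN hn) (up hA) (up hE) (up hM)
      (up (poly_reach hn hP (poly_unitV hn hs))) last))

theorem poly_elT {n t : α → ℕ} {A E P M : α → List Bool} (hn : PolyN D ctx n)
    (hA : PolyC D ctx A) (hE : PolyC D ctx E) (hP : PolyC D ctx P) (hM : PolyC D ctx M)
    (ht : PolyN D ctx t) :
    PolyC D ctx (fun a => elT (n a) (A a) (E a) (P a) (M a) (t a)) := by
  unfold elT
  exact poly_vec (f := fun a v => !b1 (E a) v && viaM (n a) (A a) (E a) (P a)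
      (reach (n a) (trM (n a) (M a)) (unitV (n a) (t a))) v) hn
    ((poly_b1 (up hE) last).not.and (poly_viaM (upN hn) (up hA) (up hE) (up hP)
      (up (poly_reach hn (poly_trM hn hM) (poly_unitV hn ht))) last))

theorem poly_elGp {n : α → ℕ} {A E Q : α → List Bool} (hn : PolyN D ctx n)
    (hA : PolyC D ctx A) (hE : PolyC D ctx E) (hQ : PolyC D ctx Q) :
    PolyC D ctx (fun a => elGp (n a) (A a) (E a) (Q a)) := by
  unfold elGp
  exact poly_mat (f := fun a u v => !b1 (E a) u && (!b1 (E a) v && (b2 (n a) (A a) u v ||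
      b2 (n a) (Q a) u v))) hn
    ((poly_b1 (up2 hE) l2a).not.and ((poly_b1 (up2 hE) l2b).not.and
      ((poly_b2 (up2N hn) (up2 hA) l2a l2b).or (poly_b2 (up2N hn) (up2 hQ) l2a l2b))))

theorem poly_elGm {n : α → ℕ} {A E Q L : α → List Bool} (hn : PolyN D ctx n)
    (hA : PolyC D ctx A) (hE : PolyC D ctx E) (hQ : PolyC D ctx Q) (hL : PolyC D ctx L) :
    PolyC D ctx (fun a => elGm (n a) (A a) (E a) (Q a) (L a)) := by
  unfold elGm
  exact poly_mat (f := fun a u v => (!b1 (E a) u && (!b1 (E a) v && (b2 (n a) (A a) u v ||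
      b2 (n a) (Q a) u v))) && !b2 (n a) (L a) u v) hn
    (((poly_b1 (up2 hE) l2a).not.and ((poly_b1 (up2 hE) l2b).not.and
      ((poly_b2 (up2N hn) (up2 hA) l2a l2b).or (poly_b2 (up2N hn) (up2 hQ) l2a l2b)))).and
      (poly_b2 (up2N hn) (up2 hL) l2a l2b).not)

theorem poly_elK {n : α → ℕ} {A Q Q' : α → List Bool} (hn : PolyN D ctx n)
    (hA : PolyC D ctx A) (hQ : PolyC D ctx Q) (hQ' : PolyC D ctx Q') :
    PolyC D ctx (fun a => elK (n a) (A a) (Q a) (Q' a)) := by
  unfold elK
  exact poly_mat (f := fun a u v => b2 (n a) (A a) u v && (!b2 (n a) (Q a) u v &&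
      !b2 (n a) (Q' a) u v)) hn
    ((poly_b2 (up2N hn) (up2 hA) l2a l2b).and ((poly_b2 (up2N hn) (up2 hQ) l2a l2b).not.and
      (poly_b2 (up2N hn) (up2 hQ') l2a l2b).not))

theorem poly_okFrom {n e : α → ℕ} {E P r : α → List Bool} (hn : PolyN D ctx n)
    (hE : PolyC D ctx E) (hP : PolyC D ctx P) (hr : PolyC D ctx r) (he : PolyN D ctx e) :
    PolyB D ctx (fun a => okFrom (n a) (E a) (P a) (r a) (e a)) := by
  unfold okFrom
  refine (poly_b1 hr he).or ?_
  exact PolyB.exists_lt (φ := fun p : α × ℕ => !b1 (E p.1) p.2 &&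
      b1 (reach (n p.1) (P p.1) (rowV (n p.1) (P p.1) p.2)) (e p.1)) hn
    ((poly_b1 (up hE) last).not.and (poly_b1 (poly_reach (upN hn) (up hP)
      (poly_rowV (upN hn) (up hP) last)) (upN he)))

theorem poly_okR {n : α → ℕ} {E P r : α → List Bool} (hn : PolyN D ctx n)
    (hE : PolyC D ctx E) (hP : PolyC D ctx P) (hr : PolyC D ctx r) :
    PolyB D ctx (fun a => okR (n a) (E a) (P a) (r a)) := by
  unfold okR
  exact PolyB.forall_lt (φ := fun p : α × ℕ => !b1 (E p.1) p.2 ||
      okFrom (n p.1) (E p.1) (P p.1) (r p.1) p.2) hn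
    ((poly_b1 (up hE) last).not.or (poly_okFrom (upN hn) (up hE) (up hP) (up hr) last))

theorem poly_okRow {n u : α → ℕ} {A E P M : α → List Bool} (hn : PolyN D ctx n)
    (hA : PolyC D ctx A) (hE : PolyC D ctx E) (hP : PolyC D ctx P) (hM : PolyC D ctx M)
    (hu : PolyN D ctx u) :
    PolyB D ctx (fun a => okRow (n a) (A a) (E a) (P a) (M a) (u a)) := by
  unfold okRow
  exact PolyB.forall_lt (φ := fun p : α × ℕ =>
      (!b2 (n p.1) (P p.1) (u p.1) p.2 || (b2 (n p.1) (A p.1) (u p.1) p.2 &&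
        (b1 (E p.1) p.2 && !b2 (n p.1) (M p.1) (u p.1) p.2))) &&
      (!b2 (n p.1) (M p.1) (u p.1) p.2 || (b2 (n p.1) (A p.1) (u p.1) p.2 &&
        b1 (E p.1) (u p.1)))) hn
    (((poly_b2 (upN hn) (up hP) (upN hu) last).not.or
        ((poly_b2 (upN hn) (up hA) (upN hu) last).and ((poly_b1 (up hE) last).and
          (poly_b2 (upN hn) (up hM) (upN hu) last).not))).and
      ((poly_b2 (upN hn) (up hM) (upN hu) last).not.or
        ((poly_b2 (upN hn) (up hA) (upN hu) last).and (poly_b1 (up hE) (upN hu)))))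

theorem poly_okT {n s t : α → ℕ} {A E P M : α → List Bool} (hn : PolyN D ctx n)
    (hA : PolyC D ctx A) (hE : PolyC D ctx E) (hP : PolyC D ctx P) (hM : PolyC D ctx M)
    (hs : PolyN D ctx s) (ht : PolyN D ctx t) :
    PolyB D ctx (fun a => okT (n a) (A a) (E a) (P a) (M a) (s a) (t a)) := by
  unfold okT
  refine (((PolyB.lt hs hn).and (PolyB.lt ht hn)).and
    ((poly_b1 hE hs).and (poly_b1 hE ht))).and (PolyB.and ?_ (PolyB.and ?_ ?_))
  · exact PolyB.forall_lt (φ := fun p : α × ℕ => okRow (n p.1) (A p.1) (E p.1) (P p.1) (M p.1)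
      p.2) hn (poly_okRow (upN hn) (up hA) (up hE) (up hP) (up hM) last)
  · exact poly_okR hn hE hP (poly_reach hn hP (poly_unitV hn hs))
  · exact poly_okR hn hE (poly_trM hn hM) (poly_reach hn (poly_trM hn hM) (poly_unitV hn ht))

end elim

theorem poly_elimT {n s t : α → ℕ} {A E P M L : α → List Bool} (hn : PolyN D ctx n)
    (hA : PolyC D ctx A) (hE : PolyC D ctx E) (hP : PolyC D ctx P) (hM : PolyC D ctx M)
    (hL : PolyC D ctx L) (hs : PolyN D ctx s) (ht : PolyN D ctx t) :
    PolyB D ctx (fun a => elimT (n a) (A a) (E a) (P a) (M a) (L a) (s a) (t a)) := by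
  unfold elimT
  have hpe := poly_peT hn hA hE hP hM
  have hme := poly_meT hn hA hE hP hM
  exact (poly_okT hn hA hE hP hM hs ht).and (poly_testT hn (poly_notV hn hE)
    (poly_elS hn hA hE hP hM hs) (poly_elT hn hA hE hP hM ht) (poly_elK hn hA hpe hme)
    (poly_elGp hn hA hE hpe) (poly_elGm hn hA hE hme hL))

section hub

theorem poly_huS {n : α → ℕ} {A K : α → List Bool} (hn : PolyN D ctx n)
    (hA : PolyC D ctx A) (hK : PolyC D ctx K) :
    PolyC D ctx (fun a => huS (n a) (A a) (K a)) := by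
  unfold huS
  exact poly_vec (f := fun a v => !b1 (K a) v && orStep (n a) (A a) (K a) v) hn
    ((poly_b1 (up hK) last).not.and (poly_orStep (upN hn) (up hA) (up hK) last))

theorem poly_huG {n : α → ℕ} {A K : α → List Bool} (hn : PolyN D ctx n)
    (hA : PolyC D ctx A) (hK : PolyC D ctx K) :
    PolyC D ctx (fun a => huG (n a) (A a) (K a)) := by
  unfold huG
  exact poly_mat (f := fun a u v => !b1 (K a) u && (!b1 (K a) v && b2 (n a) (A a) u v)) hn
    ((poly_b1 (up2 hK) l2a).not.and ((poly_b1 (up2 hK) l2b).not.and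
      (poly_b2 (up2N hn) (up2 hA) l2a l2b)))

theorem poly_huGm {n : α → ℕ} {A K L : α → List Bool} (hn : PolyN D ctx n)
    (hA : PolyC D ctx A) (hK : PolyC D ctx K) (hL : PolyC D ctx L) :
    PolyC D ctx (fun a => huGm (n a) (A a) (K a) (L a)) := by
  unfold huGm
  exact poly_mat (f := fun a u v => (!b1 (K a) u && (!b1 (K a) v && b2 (n a) (A a) u v)) &&
      !b2 (n a) (L a) u v) hn
    (((poly_b1 (up2 hK) l2a).not.and ((poly_b1 (up2 hK) l2b).not.and
      (poly_b2 (up2N hn) (up2 hA) l2a l2b))).and (poly_b2 (up2N hn) (up2 hL) l2a l2b).not)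

theorem poly_fullM {n : α → ℕ} (hn : PolyN D ctx n) :
    PolyC D ctx (fun a => fullM (n a)) := by
  unfold fullM
  exact poly_mat (f := fun _ _ _ => true) hn (PolyB.const true)

theorem poly_adjAll {n k : α → ℕ} {A K : α → List Bool} (hn : PolyN D ctx n)
    (hA : PolyC D ctx A) (hK : PolyC D ctx K) (hk : PolyN D ctx k) :
    PolyB D ctx (fun a => adjAll (n a) (A a) (K a) (k a)) := by
  unfold adjAll
  exact PolyB.forall_lt (φ := fun p : α × ℕ => !b1 (K p.1) p.2 || (decide (p.2 = k p.1) ||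
      (b2 (n p.1) (A p.1) p.2 (k p.1) || b2 (n p.1) (A p.1) (k p.1) p.2))) hn
    ((poly_b1 (up hK) last).not.or ((PolyB.natEq last (upN hk)).or
      ((poly_b2 (upN hn) (up hA) last (upN hk)).or (poly_b2 (upN hn) (up hA) (upN hk) last))))

theorem poly_greedyStep {n k : α → ℕ} {A K : α → List Bool} (hn : PolyN D ctx n)
    (hA : PolyC D ctx A) (hK : PolyC D ctx K) (hk : PolyN D ctx k) :
    PolyC D ctx (fun a => greedyStep (n a) (A a) (K a) (k a)) := by
  unfold greedyStep
  exact poly_vec (f := fun a v => b1 (K a) v || (decide (v = k a) &&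
      adjAll (n a) (A a) (K a) (k a))) hn
    ((poly_b1 (up hK) last).or ((PolyB.natEq last (upN hk)).and
      (up (t := fun a => [adjAll (n a) (A a) (K a) (k a)]) (poly_adjAll hn hA hK hk))))

theorem poly_greedy {n : α → ℕ} {A K : α → List Bool} (hn : PolyN D ctx n)
    (hA : PolyC D ctx A) (hK : PolyC D ctx K) :
    PolyC D ctx (fun a => greedy (n a) (A a) (K a) (n a)) := by
  obtain ⟨pn, hpn⟩ := PolyC.length_le hn
  obtain ⟨pK, hpK⟩ := hK.length_le
  refine PolyC.natRec (fun a k => greedy (n a) (A a) (K a) k) hn hK ?_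
    ⟨pn + pK, fun a ha k _ => ?_⟩
  · have h1 : PolyC (fun p : α × ℕ => D p.1 ∧ p.2 < n p.1)
        (PolyTime.lift ctx ++ [fun p => un p.2, fun p => greedy (n p.1) (A p.1) (K p.1) p.2])
        (fun p => greedy (n p.1) (A p.1) (K p.1) p.2) := PolyC.var (by simp)
    have h2 : PolyN (fun p : α × ℕ => D p.1 ∧ p.2 < n p.1)
        (PolyTime.lift ctx ++ [fun p => un p.2, fun p => greedy (n p.1) (A p.1) (K p.1) p.2])
        (fun p => p.2) := PolyC.var (by simp)
    have hn' : PolyN (fun p : α × ℕ => D p.1 ∧ p.2 < n p.1)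
        (PolyTime.lift ctx ++ [fun p => un p.2, fun p => greedy (n p.1) (A p.1) (K p.1) p.2])
        (fun p => n p.1) := (PolyC.lift hn (fun _ hp => hp.1)).weakenRight _
    have hA' : PolyC (fun p : α × ℕ => D p.1 ∧ p.2 < n p.1)
        (PolyTime.lift ctx ++ [fun p => un p.2, fun p => greedy (n p.1) (A p.1) (K p.1) p.2])
        (fun p => A p.1) := (PolyC.lift hA (fun _ hp => hp.1)).weakenRight _
    exact poly_greedyStep hn' hA' h1 h2
  · rw [Polynomial.eval_add]
    cases k with
    | zero =>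
      have := hpK a ha
      show (K a).length ≤ _
      omega
    | succ k =>
      show (greedyStep (n a) (A a) (greedy (n a) (A a) (K a) k) k).length ≤ _
      unfold greedyStep
      rw [vec_length]
      have := hpn a ha
      simp only [un, List.length_replicate] at this
      omega

theorem poly_quadV {n x y z w : α → ℕ} (hn : PolyN D ctx n)
    (hx : PolyN D ctx x) (hy : PolyN D ctx y) (hz : PolyN D ctx z) (hw : PolyN D ctx w) :
    PolyC D ctx (fun a => quadV (n a) (x a) (y a) (z a) (w a)) := by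
  unfold quadV
  exact poly_vec (f := fun a v => (decide (v = x a) || decide (v = y a)) ||
      (decide (v = z a) || decide (v = w a))) hn
    (((PolyB.natEq last (upN hx)).or (PolyB.natEq last (upN hy))).or
      ((PolyB.natEq last (upN hz)).or (PolyB.natEq last (upN hw))))

theorem poly_adjT {n x y : α → ℕ} {A : α → List Bool} (hn : PolyN D ctx n)
    (hA : PolyC D ctx A) (hx : PolyN D ctx x) (hy : PolyN D ctx y) :
    PolyB D ctx (fun a => adjT (n a) (A a) (x a) (y a)) := by
  unfold adjT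
  exact (PolyB.natEq hx hy).not.and ((poly_b2 hn hA hx hy).or (poly_b2 hn hA hy hx))

theorem poly_k4T {n x y z w : α → ℕ} {A : α → List Bool} (hn : PolyN D ctx n)
    (hA : PolyC D ctx A) (hx : PolyN D ctx x) (hy : PolyN D ctx y) (hz : PolyN D ctx z)
    (hw : PolyN D ctx w) :
    PolyB D ctx (fun a => k4T (n a) (A a) (x a) (y a) (z a) (w a)) := by
  unfold k4T
  exact (((PolyB.lt hx hn).and (PolyB.lt hy hn)).and ((PolyB.lt hz hn).and (PolyB.lt hw hn))).and
    (((poly_adjT hn hA hx hy).and ((poly_adjT hn hA hx hz).and (poly_adjT hn hA hx hw))).and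
      ((poly_adjT hn hA hy hz).and ((poly_adjT hn hA hy hw).and (poly_adjT hn hA hz hw))))

theorem poly_hubK {n : α → ℕ} {A K L : α → List Bool} (hn : PolyN D ctx n)
    (hA : PolyC D ctx A) (hK : PolyC D ctx K) (hL : PolyC D ctx L) :
    PolyB D ctx (fun a => hubK (n a) (A a) (K a) (L a)) := by
  unfold hubK
  exact poly_testT hn (poly_notV hn hK) (poly_huS hn hA hK) (poly_huS hn (poly_trM hn hA) hK)
    (poly_fullM hn) (poly_huG hn hA hK) (poly_huGm hn hA hK hL)

end hub

theorem poly_hubT {n x y z w : α → ℕ} {A L : α → List Bool} (hn : PolyN D ctx n)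
    (hA : PolyC D ctx A) (hL : PolyC D ctx L) (hx : PolyN D ctx x) (hy : PolyN D ctx y)
    (hz : PolyN D ctx z) (hw : PolyN D ctx w) :
    PolyB D ctx (fun a => hubT (n a) (A a) (L a) (x a) (y a) (z a) (w a)) := by
  unfold hubT
  exact (poly_k4T hn hA hx hy hz hw).and (poly_hubK hn hA
    (poly_greedy hn hA (poly_quadV hn hx hy hz hw)) hL)

end Pool.Agent.Lib.AB474.Tab
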