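import Pool.Agent.Lib.AB474.PT2

/-!
# Polynomial-time computability of the decision procedure
-/

namespace Pool.Agent.Lib.AB474.Tab

open Pool.Agent.Lib.PolyTime

namespace PT3

variable {α : Type*} {D : α → Prop} {ctx : List (α → List Bool)}

theorem afterTrue_le (l : List Bool) : (PolyTime.afterTrue l).length ≤ l.length := by
  induction l with
  | nil => simp [PolyTime.afterTrue]
  | cons b l ih =>
    cases b
    · simp [PolyTime.afterTrue]
    · simp only [PolyTime.afterTrue, List.length_cons]; omega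

theorem iter_afterTrue_le (k : ℕ) (l : List Bool) :
    ((PolyTime.afterTrue)^[k] l).length ≤ l.length := by
  induction k with
  | zero => simp
  | succ k ih =>
    rw [Function.iterate_succ_apply']
    exact (afterTrue_le _).trans ih

theorem poly_iterAfter {gs : α → List Bool} {i : α → ℕ} (hgs : PolyC D ctx gs)
    (hi : PolyN D ctx i) : PolyC D ctx (fun a => (PolyTime.afterTrue)^[i a] (gs a)) := by
  obtain ⟨pt, hpt⟩ := hgs.length_le
  refine PolyC.natRec (fun a k => (PolyTime.afterTrue)^[k] (gs a)) hi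
    (hgs.congr (fun a _ => by simp)) ?_ ⟨pt, fun a ha k _ => ?_⟩
  · have h1 : PolyC (fun p : α × ℕ => D p.1 ∧ p.2 < i p.1)
        (PolyTime.lift ctx ++ [fun p => un p.2, fun p => (PolyTime.afterTrue)^[p.2] (gs p.1)])
        (fun p => (PolyTime.afterTrue)^[p.2] (gs p.1)) := PolyC.var (by simp)
    exact (PolyC.afterTrue h1).congr (fun p _ => by rw [Function.iterate_succ_apply'])
  · exact (iter_afterTrue_le k (gs a)).trans (hpt a ha)

theorem poly_dg {gs : α → List Bool} {i : α → ℕ} (hgs : PolyC D ctx gs)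
    (hi : PolyN D ctx i) : PolyN D ctx (fun a => dg (gs a) (i a)) := by
  unfold dg
  exact PolyN.length (PolyC.takeTrue (poly_iterAfter hgs hi))

theorem poly_mem1 {m v : α → ℕ} {gs : α → List Bool} (hm : PolyN D ctx m)
    (hgs : PolyC D ctx gs) (hv : PolyN D ctx v) :
    PolyB D ctx (fun a => mem1 (m a) (gs a) (v a)) := by
  unfold mem1
  exact PolyB.exists_lt (φ := fun p : α × ℕ => decide (dg (gs p.1) p.2 = v p.1)) hm
    (PolyB.natEq (poly_dg (up hgs) last) (upN hv))

theorem poly_mem2 {m a' b' u v : α → ℕ} {gs : α → List Bool} (hm : PolyN D ctx m)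
    (hgs : PolyC D ctx gs) (ha : PolyN D ctx a') (hb : PolyN D ctx b')
    (hu : PolyN D ctx u) (hv : PolyN D ctx v) :
    PolyB D ctx (fun a => mem2 (m a) (gs a) (a' a) (b' a) (u a) (v a)) := by
  unfold mem2
  exact PolyB.exists_lt (φ := fun p : α × ℕ => decide (dg (gs p.1) (a' p.1 + p.2) = u p.1) &&
      decide (dg (gs p.1) (b' p.1 + p.2) = v p.1)) hm
    ((PolyB.natEq (poly_dg (up hgs) ((upN ha).add last)) (upN hu)).and
      (PolyB.natEq (poly_dg (up hgs) ((upN hb).add last)) (upN hv)))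

theorem poly_gE {n : α → ℕ} {gs : α → List Bool} (hn : PolyN D ctx n)
    (hgs : PolyC D ctx gs) : PolyC D ctx (fun a => gE (n a) (gs a)) := by
  unfold gE
  exact poly_vec (f := fun a v => mem1 40 (gs a) v) hn
    (poly_mem1 (PolyN.const 40) (up hgs) last)

theorem poly_gP {n : α → ℕ} {gs : α → List Bool} (hn : PolyN D ctx n)
    (hgs : PolyC D ctx gs) : PolyC D ctx (fun a => gP (n a) (gs a)) := by
  unfold gP
  exact poly_mat (f := fun a u v => mem2 40 (gs a) 40 0 u v && !decide (dg (gs a) 0 = v)) hn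
    ((poly_mem2 (PolyN.const 40) (up2 hgs) (PolyN.const 40) (PolyN.const 0) l2a l2b).and
      (PolyB.natEq (poly_dg (up2 hgs) (PolyN.const 0)) l2b).not)

theorem poly_gM {n : α → ℕ} {gs : α → List Bool} (hn : PolyN D ctx n)
    (hgs : PolyC D ctx gs) : PolyC D ctx (fun a => gM (n a) (gs a)) := by
  unfold gM
  exact poly_mat (f := fun a u v => mem2 40 (gs a) 0 80 u v && !decide (dg (gs a) 1 = u)) hn
    ((poly_mem2 (PolyN.const 40) (up2 hgs) (PolyN.const 0) (PolyN.const 80) l2a l2b).and
      (PolyB.natEq (poly_dg (up2 hgs) (PolyN.const 1)) l2a).not)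

theorem poly_gL {n : α → ℕ} {gs : α → List Bool} (c : ℕ) (hn : PolyN D ctx n)
    (hgs : PolyC D ctx gs) : PolyC D ctx (fun a => gL (n a) (gs a) c) := by
  unfold gL
  exact poly_mat (f := fun a u v => mem2 4 (gs a) c (c + 4) u v) hn
    (poly_mem2 (PolyN.const 4) (up2 hgs) (PolyN.const c) (PolyN.const (c + 4)) l2a l2b)

theorem poly_guessE {n : α → ℕ} {A gs : α → List Bool} (hn : PolyN D ctx n)
    (hA : PolyC D ctx A) (hgs : PolyC D ctx gs) :
    PolyB D ctx (fun a => guessE (n a) (A a) (gs a)) := by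
  unfold guessE
  exact poly_elimT hn hA (poly_gE hn hgs) (poly_gP hn hgs) (poly_gM hn hgs)
    (poly_gL 120 hn hgs) (poly_dg hgs (PolyN.const 0)) (poly_dg hgs (PolyN.const 1))

theorem poly_guessH {n : α → ℕ} {A gs : α → List Bool} (hn : PolyN D ctx n)
    (hA : PolyC D ctx A) (hgs : PolyC D ctx gs) :
    PolyB D ctx (fun a => guessH (n a) (A a) (gs a)) := by
  unfold guessH
  exact poly_hubT hn hA (poly_gL 4 hn hgs) (poly_dg hgs (PolyN.const 0))
    (poly_dg hgs (PolyN.const 1)) (poly_dg hgs (PolyN.const 2)) (poly_dg hgs (PolyN.const 3))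

/-- Exhaustive search keeps polynomial time. -/
theorem poly_search (G : ℕ → List Bool → List Bool → Bool)
    (hG : ∀ {α : Type} {D : α → Prop} {ctx : List (α → List Bool)} {n : α → ℕ}
      {A gs : α → List Bool}, PolyN D ctx n → PolyC D ctx A → PolyC D ctx gs →
      PolyB D ctx (fun a => G (n a) (A a) (gs a))) (k : ℕ) :
    ∀ {α : Type} {D : α → Prop} {ctx : List (α → List Bool)} {n : α → ℕ}
      {A gs : α → List Bool}, PolyN D ctx n → PolyC D ctx A → PolyC D ctx gs →
      PolyB D ctx (fun a => search (n a) (G (n a) (A a)) k (gs a)) := by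
  induction k with
  | zero => intro α D ctx n A gs hn hA hgs; exact hG hn hA hgs
  | succ k ih =>
    intro α D ctx n A gs hn hA hgs
    have h0 : PolyC (fun p : α × ℕ => D p.1 ∧ p.2 < n p.1 + 1)
        (PolyTime.lift ctx ++ [fun p => un p.2]) (fun p => un p.2) := PolyC.var (by simp)
    have h2 : PolyC (fun p : α × ℕ => D p.1 ∧ p.2 < n p.1 + 1)
        (PolyTime.lift ctx ++ [fun p => un p.2]) (fun p => false :: gs p.1) :=
      PolyC.cons false (up (n := fun a => n a + 1) hgs)
    have h1 := PolyB.exists_lt (n := fun a => n a + 1)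
      (φ := fun p : α × ℕ => search (n p.1) (G (n p.1) (A p.1)) k (un p.2 ++ false :: gs p.1))
      (PolyN.succ hn)
      (ih (upN (n := fun a => n a + 1) hn) (up (n := fun a => n a + 1) hA) (h0.append h2))
    exact h1

theorem poly_triT {n : α → ℕ} {A : α → List Bool} {u v : α → ℕ} (hn : PolyN D ctx n)
    (hA : PolyC D ctx A) (hu : PolyN D ctx u) (hv : PolyN D ctx v) :
    PolyB D ctx (fun a => triT (n a) (A a) (u a) (v a)) := by
  unfold triT
  exact PolyB.forall_lt (φ := fun p : α × ℕ => decide (u p.1 = v p.1) ||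
      (decide (u p.1 = p.2) || (decide (v p.1 = p.2) ||
      ((b2 (n p.1) (A p.1) (u p.1) (v p.1) || b2 (n p.1) (A p.1) (v p.1) (u p.1)) ||
      ((b2 (n p.1) (A p.1) (u p.1) p.2 || b2 (n p.1) (A p.1) p.2 (u p.1)) ||
      (b2 (n p.1) (A p.1) (v p.1) p.2 || b2 (n p.1) (A p.1) p.2 (v p.1))))))) hn
    ((PolyB.natEq (upN hu) (upN hv)).or ((PolyB.natEq (upN hu) last).or
      ((PolyB.natEq (upN hv) last).or
      (((poly_b2 (upN hn) (up hA) (upN hu) (upN hv)).or
          (poly_b2 (upN hn) (up hA) (upN hv) (upN hu))).or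
        (((poly_b2 (upN hn) (up hA) (upN hu) last).or
            (poly_b2 (upN hn) (up hA) last (upN hu))).or
          ((poly_b2 (upN hn) (up hA) (upN hv) last).or
            (poly_b2 (upN hn) (up hA) last (upN hv))))))))

theorem poly_triRow {n : α → ℕ} {A : α → List Bool} {u : α → ℕ} (hn : PolyN D ctx n)
    (hA : PolyC D ctx A) (hu : PolyN D ctx u) :
    PolyB D ctx (fun a => triRow (n a) (A a) (u a)) := by
  unfold triRow
  exact PolyB.forall_lt (φ := fun p : α × ℕ => triT (n p.1) (A p.1) (u p.1) p.2) hn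
    (poly_triT (upN hn) (up hA) (upN hu) last)

theorem poly_nonadj {n : α → ℕ} {A : α → List Bool} {u : α → ℕ} (hn : PolyN D ctx n)
    (hA : PolyC D ctx A) (hu : PolyN D ctx u) :
    PolyB D ctx (fun a => nonadj (n a) (A a) (u a)) := by
  unfold nonadj
  exact PolyB.exists_lt (φ := fun p : α × ℕ => !decide (u p.1 = p.2) &&
      !(b2 (n p.1) (A p.1) (u p.1) p.2 || b2 (n p.1) (A p.1) p.2 (u p.1))) hn
    ((PolyB.natEq (upN hu) last).not.and
      ((poly_b2 (upN hn) (up hA) (upN hu) last).or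
        (poly_b2 (upN hn) (up hA) last (upN hu))).not)

theorem poly_alphaT {n : α → ℕ} {A : α → List Bool} (hn : PolyN D ctx n)
    (hA : PolyC D ctx A) : PolyB D ctx (fun a => alphaT (n a) (A a)) := by
  unfold alphaT
  exact ((PolyB.forall_lt (φ := fun p : α × ℕ => !b2 (n p.1) (A p.1) p.2 p.2) hn
      (poly_b2 (upN hn) (up hA) last last).not).and
    (PolyB.forall_lt (φ := fun p : α × ℕ => triRow (n p.1) (A p.1) p.2) hn
      (poly_triRow (upN hn) (up hA) last))).and
    (PolyB.exists_lt (φ := fun p : α × ℕ => nonadj (n p.1) (A p.1) p.2) hn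
      (poly_nonadj (upN hn) (up hA) last))

theorem poly_nOf {w : α → List Bool} (hw : PolyC D ctx w) :
    PolyN D ctx (fun a => nOf (w a)) := PolyN.length (PolyC.takeTrue hw)

theorem poly_aOf {w : α → List Bool} (hw : PolyC D ctx w) :
    PolyC D ctx (fun a => aOf (w a)) := PolyC.afterTrue hw

end PT3

open PT3

theorem poly_decide474 {α : Type} {D : α → Prop} {ctx : List (α → List Bool)}
    {w : α → List Bool} (hw : PolyC D ctx w) : PolyB D ctx (fun a => decide474 (w a)) := by
  unfold decide474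
  have hn := poly_nOf hw
  have hA := poly_aOf hw
  exact ((PolyB.natEq (PolyN.length hw) ((hn.add (PolyN.const 1)).add (hn.mul hn))).and
    (poly_alphaT hn hA)).and
    ((poly_search guessE (fun h1 h2 h3 => poly_guessE h1 h2 h3) 128 hn hA PolyC.nil).or
      (poly_search guessH (fun h1 h2 h3 => poly_guessH h1 h2 h3) 12 hn hA PolyC.nil))

end Pool.Agent.Lib.AB474.Tab
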