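import Pool.Agent.Lib.AB474.Tab

/-!
# Polynomial-time computability of the basic string functions
-/

namespace Pool.Agent.Lib.AB474.Tab

open Pool.Agent.Lib.PolyTime

/-! ### Lifting to one more bound variable -/

section helpers

variable {α : Type*} {D : α → Prop} {ctx : List (α → List Bool)}

theorem up {t : α → List Bool} {n : α → ℕ} (h : PolyC D ctx t) :
    PolyC (fun p : α × ℕ => D p.1 ∧ p.2 < n p.1) (PolyTime.lift ctx ++ [fun p => un p.2])
      (fun p => t p.1) := (PolyC.lift h (fun _ hp => hp.1)).weakenRight _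

theorem upN {t : α → ℕ} {n : α → ℕ} (h : PolyN D ctx t) :
    PolyN (fun p : α × ℕ => D p.1 ∧ p.2 < n p.1) (PolyTime.lift ctx ++ [fun p => un p.2])
      (fun p => t p.1) := up h

theorem upB {t : α → Bool} {n : α → ℕ} (h : PolyB D ctx t) :
    PolyB (fun p : α × ℕ => D p.1 ∧ p.2 < n p.1) (PolyTime.lift ctx ++ [fun p => un p.2])
      (fun p => t p.1) := up h

theorem last {n : α → ℕ} :
    PolyN (fun p : α × ℕ => D p.1 ∧ p.2 < n p.1) (PolyTime.lift ctx ++ [fun p => un p.2])
      (fun p => p.2) := PolyC.var (by simp)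

/-! Two nested bound variables below the same bound `n`. -/

theorem up2 {t : α → List Bool} {n : α → ℕ} (h : PolyC D ctx t) :
    PolyC (fun q : (α × ℕ) × ℕ => (D q.1.1 ∧ q.1.2 < n q.1.1) ∧ q.2 < n q.1.1)
      (PolyTime.lift (PolyTime.lift ctx ++ [fun p : α × ℕ => un p.2]) ++ [fun q => un q.2])
      (fun q => t q.1.1) := up (n := fun p : α × ℕ => n p.1) (up (n := n) h)

theorem up2N {t : α → ℕ} {n : α → ℕ} (h : PolyN D ctx t) :
    PolyN (fun q : (α × ℕ) × ℕ => (D q.1.1 ∧ q.1.2 < n q.1.1) ∧ q.2 < n q.1.1)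
      (PolyTime.lift (PolyTime.lift ctx ++ [fun p : α × ℕ => un p.2]) ++ [fun q => un q.2])
      (fun q => t q.1.1) := up2 h

theorem l2a {n : α → ℕ} :
    PolyN (fun q : (α × ℕ) × ℕ => (D q.1.1 ∧ q.1.2 < n q.1.1) ∧ q.2 < n q.1.1)
      (PolyTime.lift (PolyTime.lift ctx ++ [fun p : α × ℕ => un p.2]) ++ [fun q => un q.2])
      (fun q => q.1.2) :=
  upN (n := fun p : α × ℕ => n p.1) (last (D := D) (ctx := ctx) (n := n))

theorem l2b {n : α → ℕ} :
    PolyN (fun q : (α × ℕ) × ℕ => (D q.1.1 ∧ q.1.2 < n q.1.1) ∧ q.2 < n q.1.1)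
      (PolyTime.lift (PolyTime.lift ctx ++ [fun p : α × ℕ => un p.2]) ++ [fun q => un q.2])
      (fun q => q.2) := PolyC.var (by simp)

end helpers

section poly

variable {α : Type*} {D : α → Prop} {ctx : List (α → List Bool)}

theorem poly_b1 {t : α → List Bool} {v : α → ℕ} (ht : PolyC D ctx t) (hv : PolyN D ctx v) :
    PolyB D ctx (fun a => b1 (t a) (v a)) := PolyB.getD ht hv

theorem poly_b2 {n : α → ℕ} {t : α → List Bool} {u v : α → ℕ} (hn : PolyN D ctx n)
    (ht : PolyC D ctx t) (hu : PolyN D ctx u) (hv : PolyN D ctx v) :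
    PolyB D ctx (fun a => b2 (n a) (t a) (u a) (v a)) := PolyB.getD ht ((hu.mul hn).add hv)

theorem poly_vec {n : α → ℕ} {f : α → ℕ → Bool} (hn : PolyN D ctx n)
    (hf : PolyB (fun p : α × ℕ => D p.1 ∧ p.2 < n p.1) (PolyTime.lift ctx ++ [fun p => un p.2])
      (fun p => f p.1 p.2)) :
    PolyC D ctx (fun a => vec (n a) (f a)) :=
  PolyC.map_range (φ := fun p : α × ℕ => f p.1 p.2) hn hf

theorem poly_mat {n : α → ℕ} {f : α → ℕ → ℕ → Bool} (hn : PolyN D ctx n)
    (hf : PolyB (fun q : (α × ℕ) × ℕ => (D q.1.1 ∧ q.1.2 < n q.1.1) ∧ q.2 < n q.1.1)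
      (PolyTime.lift (PolyTime.lift ctx ++ [fun p : α × ℕ => un p.2]) ++ [fun q => un q.2])
      (fun q => f q.1.1 q.1.2 q.2)) :
    PolyC D ctx (fun a => mat (n a) (f a)) :=
  PolyC.flatMap_range (t := fun p : α × ℕ => vec (n p.1) (f p.1 p.2)) hn
    (poly_vec (f := fun p : α × ℕ => f p.1 p.2) (upN hn) hf)

theorem poly_orStep {n : α → ℕ} {G r : α → List Bool} {v : α → ℕ} (hn : PolyN D ctx n)
    (hG : PolyC D ctx G) (hr : PolyC D ctx r) (hv : PolyN D ctx v) :
    PolyB D ctx (fun a => orStep (n a) (G a) (r a) (v a)) := by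
  unfold orStep
  exact PolyB.exists_lt (φ := fun p : α × ℕ => b1 (r p.1) p.2 && b2 (n p.1) (G p.1) p.2 (v p.1)) hn
    ((poly_b1 (up hr) last).and (poly_b2 (upN hn) (up hG) last (upN hv)))

theorem poly_reachStep {n : α → ℕ} {G r : α → List Bool} (hn : PolyN D ctx n)
    (hG : PolyC D ctx G) (hr : PolyC D ctx r) :
    PolyC D ctx (fun a => reachStep (n a) (G a) (r a)) := by
  unfold reachStep
  exact poly_vec (f := fun a v => b1 (r a) v || orStep (n a) (G a) (r a) v) hn
    ((poly_b1 (up hr) last).or (poly_orStep (upN hn) (up hG) (up hr) last))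

theorem vec_length (n : ℕ) (f : ℕ → Bool) : (vec n f).length = n := by simp [vec]

theorem mat_length (n : ℕ) (f : ℕ → ℕ → Bool) : (mat n f).length = n * n := by
  unfold mat
  rw [List.length_flatMap]
  simp [vec_length]

/-- Iteration of a string function with bounded output. -/
theorem poly_iter {m : α → ℕ} {F : α → List Bool → List Bool} {x : α → List Bool}
    (hm : PolyN D ctx m) (hx : PolyC D ctx x)
    (hF : PolyC (fun p : α × ℕ => D p.1 ∧ p.2 < m p.1)
      (PolyTime.lift ctx ++ [fun p => un p.2, fun p => (F p.1)^[p.2] (x p.1)])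
      (fun p => F p.1 ((F p.1)^[p.2] (x p.1))))
    (hB : ∃ B : Polynomial ℕ, ∀ a, D a → ∀ l, (F a l).length ≤ B.eval (total (vals ctx a))) :
    PolyC D ctx (fun a => (F a)^[m a] (x a)) := by
  obtain ⟨B, hB⟩ := hB
  obtain ⟨px, hpx⟩ := hx.length_le
  refine PolyC.natRec (fun a k => (F a)^[k] (x a)) hm hx ?_ ⟨B + px, fun a ha k _ => ?_⟩
  · refine hF.congr (fun p _ => ?_)
    rw [Function.iterate_succ_apply']
  · rw [Polynomial.eval_add]
    cases k with
    | zero =>
      have := hpx a ha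
      simp only [Function.iterate_zero, id_eq]
      omega
    | succ k =>
      rw [Function.iterate_succ_apply']
      have := hB a ha ((F a)^[k] (x a))
      omega

theorem poly_reach {n : α → ℕ} {G S : α → List Bool} (hn : PolyN D ctx n)
    (hG : PolyC D ctx G) (hS : PolyC D ctx S) :
    PolyC D ctx (fun a => reach (n a) (G a) (S a)) := by
  unfold reach
  obtain ⟨pn, hpn⟩ := PolyC.length_le hn
  refine poly_iter (F := fun a => reachStep (n a) (G a)) hn hS ?_ ⟨pn, fun a ha l => ?_⟩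
  · have h1 : PolyC (fun p : α × ℕ => D p.1 ∧ p.2 < n p.1)
        (PolyTime.lift ctx ++ [fun p => un p.2,
          fun p => (reachStep (n p.1) (G p.1))^[p.2] (S p.1)])
        (fun p => (reachStep (n p.1) (G p.1))^[p.2] (S p.1)) := PolyC.var (by simp)
    have hn' : PolyN (fun p : α × ℕ => D p.1 ∧ p.2 < n p.1)
        (PolyTime.lift ctx ++ [fun p => un p.2,
          fun p => (reachStep (n p.1) (G p.1))^[p.2] (S p.1)])
        (fun p => n p.1) := (PolyC.lift hn (fun _ hp => hp.1)).weakenRight _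
    have hG' : PolyC (fun p : α × ℕ => D p.1 ∧ p.2 < n p.1)
        (PolyTime.lift ctx ++ [fun p => un p.2,
          fun p => (reachStep (n p.1) (G p.1))^[p.2] (S p.1)])
        (fun p => G p.1) := (PolyC.lift hG (fun _ hp => hp.1)).weakenRight _
    exact poly_reachStep hn' hG' h1
  · unfold reachStep
    rw [vec_length]
    have := hpn a ha
    simpa using this

theorem poly_trM {n : α → ℕ} {G : α → List Bool} (hn : PolyN D ctx n) (hG : PolyC D ctx G) :
    PolyC D ctx (fun a => trM (n a) (G a)) := by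
  unfold trM
  exact poly_mat (f := fun a u v => b2 (n a) (G a) v u) hn
    (poly_b2 (up2N hn) (up2 hG) l2b l2a)

theorem poly_delM {n : α → ℕ} {G : α → List Bool} {x y : α → ℕ} (hn : PolyN D ctx n)
    (hG : PolyC D ctx G) (hx : PolyN D ctx x) (hy : PolyN D ctx y) :
    PolyC D ctx (fun a => delM (n a) (G a) (x a) (y a)) := by
  unfold delM
  exact poly_mat (f := fun a u v => b2 (n a) (G a) u v &&
      !(decide (u = x a) && decide (v = y a))) hn
    ((poly_b2 (up2N hn) (up2 hG) l2a l2b).and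
      ((PolyB.natEq l2a (up2N hx)).and (PolyB.natEq l2b (up2N hy))).not)

theorem poly_allIn {n : α → ℕ} {X r : α → List Bool} (hn : PolyN D ctx n)
    (hX : PolyC D ctx X) (hr : PolyC D ctx r) :
    PolyB D ctx (fun a => allIn (n a) (X a) (r a)) := by
  unfold allIn
  exact PolyB.forall_lt (φ := fun p : α × ℕ => !b1 (X p.1) p.2 || b1 (r p.1) p.2) hn
    ((poly_b1 (up hX) last).not.or (poly_b1 (up hr) last))

end poly

end Pool.Agent.Lib.AB474.Tab
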