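import Pool.Agent.Lib.AB474.Tab
import Pool.Agent.Lib.AB474.ADefs

/-!
# Semantics of the bit strings
-/

namespace Pool.Agent.Lib.AB474.Tab

open Relation

theorem flat_getD {n : ℕ} (L : List (List Bool)) (hL : ∀ r ∈ L, r.length = n) :
    ∀ (u v : ℕ), v < n → L.flatten.getD (u * n + v) false = (L.getD u []).getD v false := by
  induction L with
  | nil => intro u v _; simp
  | cons r L ih =>
    intro u v hv
    have hr : r.length = n := hL r (by simp)
    rcases u with _ | u
    · simp only [Nat.zero_mul, Nat.zero_add, List.flatten_cons, List.getD_cons_zero]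
      rw [List.getD_append _ _ _ _ (by omega)]
    · rw [List.flatten_cons, List.getD_append_right _ _ _ _ (by rw [hr]; nlinarith),
        List.getD_cons_succ, hr, ← ih (fun r hr => hL r (by simp [hr])) u v hv]
      congr 1
      rw [Nat.succ_mul]
      omega

theorem b1_vec {n : ℕ} {f : ℕ → Bool} {v : ℕ} (hv : v < n) : b1 (vec n f) v = f v := by
  unfold b1 vec
  rw [List.getD_eq_getElem _ _ (by simpa using hv)]
  simp

theorem b1_vec_ge {n : ℕ} {f : ℕ → Bool} {v : ℕ} (hv : n ≤ v) : b1 (vec n f) v = false := by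
  unfold b1 vec
  rw [List.getD_eq_default _ _ (by simpa using hv)]

theorem b2_mat {n : ℕ} {f : ℕ → ℕ → Bool} {u v : ℕ} (hu : u < n) (hv : v < n) :
    b2 n (mat n f) u v = f u v := by
  unfold b2 mat
  rw [List.flatMap_def, flat_getD _ _ _ _ hv]
  · simp only [vec, List.getD_eq_getElem?_getD, List.getElem?_map]
    simp [hu, hv]
  · intro r hr
    simp only [List.mem_map, List.mem_range] at hr
    obtain ⟨h, _, rfl⟩ := hr
    simp [vec]

/-- the set of vertices given by a bit string -/
def setT (n : ℕ) (S : List Bool) (v : Fin n) : Prop := b1 S v = true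

/-- the relation given by a bit string -/
def relT (n : ℕ) (G : List Bool) (u v : Fin n) : Prop := b2 n G u v = true

/-- the instance given by bit strings -/
def instT (n : ℕ) (S T K Gp Gm : List Bool) : Inst (Fin n) :=
  ⟨setT n S, setT n T, relT n Gp, relT n Gm, relT n K⟩

theorem setT_vec {n : ℕ} {f : ℕ → Bool} {v : Fin n} : setT n (vec n f) v ↔ f v = true := by
  unfold setT
  rw [b1_vec v.2]

theorem relT_mat {n : ℕ} {f : ℕ → ℕ → Bool} {u v : Fin n} :
    relT n (mat n f) u v ↔ f u v = true := by
  unfold relT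
  rw [b2_mat u.2 v.2]

theorem relT_append {n : ℕ} {G H : List Bool} (h : G.length = n * n) {u v : Fin n} :
    relT n (G ++ H) u v ↔ relT n G u v := by
  unfold relT b2
  rw [List.getD_append]
  rw [h]
  have h1 := u.2
  have h2 := v.2
  calc (u : ℕ) * n + v < u * n + n := by omega
    _ = (u + 1) * n := by ring
    _ ≤ n * n := Nat.mul_le_mul_right _ h1

theorem ex_fin {n : ℕ} {φ : ℕ → Bool} : (decide (∃ u < n, φ u = true)) = true ↔
    ∃ u : Fin n, φ u = true := by
  rw [decide_eq_true_eq]
  constructor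
  · rintro ⟨u, hu, h⟩
    exact ⟨⟨u, hu⟩, h⟩
  · rintro ⟨u, h⟩
    exact ⟨u, u.2, h⟩

theorem all_fin {n : ℕ} {φ : ℕ → Bool} : (decide (∀ u < n, φ u = true)) = true ↔
    ∀ u : Fin n, φ u = true := by
  rw [decide_eq_true_eq]
  constructor
  · intro h u
    exact h u u.2
  · intro h u hu
    exact h ⟨u, hu⟩

end Pool.Agent.Lib.AB474.Tab
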