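import Pool.Agent.Lib.AB474.ADefs

/-!
# MODULE Semi: a semicomplete digraph on at least four vertices has a good pair (about 1.5 h)

PROOF.  Induction on the number of vertices of K (a finite set, pairwise adjacent, at least four).
BASE |K| = 4, K = {a,b,c,d}.  Choose for each of the six pairs one arc of D: this gives a tournament on four
vertices.  All 64 tournaments on Fin 4 have s, t and a division of the six arcs: this can be checked by
`decide` for a function  w : (Fin 6 -> Bool) -> (s, t, labels)  or by a computable test: for a tournament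
given by six bits there are s, t and six label bits such that 3 rounds of propagation reach
everything (on Fin 4 with Nat.testBit masks), then transfer to a, b, c, d.  (By hand: a tournament on 4
vertices has a Hamiltonian path v1 v2 v3 v4; the plus class = the three arcs of that path works if the other
three arcs form an in-branching; in general there are 8 cases for the other three arcs.)
STEP |K| > 4.  Remove v in K: K' = K minus v has a good pair (s,t) with labels X.
  If v has an in-arc (u,v) and an out-arc (v,w) with u, w in K': label (u,v) plus, (v,w) minus.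
  If v has no out-arc to K': then all u in K' have (u,v) in D.  New t' := v: label (t,v) minus, and all
  other (u,v) plus (K' has another vertex u /= t); s' = s.
  If v has no in-arc from K': dual: s' := v, (v,s) plus, all others minus.
-/

namespace Pool.Agent.Lib.AB474

open Relation

namespace SemiAux

/-- arcs of the tournament on `Fin 4` given by six bits -/
def arc (b0 b1 b2 b3 b4 b5 : Bool) : Fin 4 → Fin 4 → Bool
  | 0, 1 => b0
  | 1, 0 => !b0
  | 0, 2 => b1
  | 2, 0 => !b1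
  | 0, 3 => b2
  | 3, 0 => !b2
  | 1, 2 => b3
  | 2, 1 => !b3
  | 1, 3 => b4
  | 3, 1 => !b4
  | 2, 3 => b5
  | 3, 2 => !b5
  | _, _ => false

/-- the index of a pair -/
def pidx : Fin 4 → Fin 4 → ℕ
  | 0, 1 => 0
  | 1, 0 => 0
  | 0, 2 => 1
  | 2, 0 => 1
  | 0, 3 => 2
  | 3, 0 => 2
  | 1, 2 => 3
  | 2, 1 => 3
  | 1, 3 => 4
  | 3, 1 => 4
  | 2, 3 => 5
  | 3, 2 => 5
  | _, _ => 6

/-- the witnesses -/
def tbl : List (Fin 4 × Fin 4 × ℕ) :=
  [(3, 0, 44), (3, 1, 44), (3, 0, 22), (3, 1, 22), (2, 0, 22), (2, 1, 22), (3, 1, 19), (0, 1,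
    22), (3, 0, 28), (3, 1, 28), (3, 2, 28), (3, 2, 22), (3, 2, 26), (2, 2, 22), (3, 2, 19),
    (0, 2, 22), (2, 0, 28), (2, 1, 28), (1, 0, 22), (3, 2, 14), (2, 0, 13), (2, 2, 14), (2, 2,
    13), (0, 2, 14), (1, 0, 28), (3, 0, 13), (1, 2, 28), (3, 2, 13), (1, 0, 13), (0, 0, 13),
    (1, 2, 13), (0, 2, 13), (2, 0, 44), (2, 1, 44), (3, 0, 14), (3, 1, 14), (2, 0, 14), (2, 1,
    14), (2, 1, 13), (0, 1, 14), (3, 0, 26), (3, 1, 26), (3, 0, 19), (3, 1, 13), (1, 0, 14),
    (1, 1, 14), (1, 1, 13), (0, 1, 13), (2, 0, 26), (2, 1, 26), (0, 0, 26), (3, 3, 14), (2, 3,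
    26), (2, 3, 14), (2, 3, 13), (0, 3, 14), (1, 0, 26), (2, 0, 19), (1, 0, 19), (3, 3, 13),
    (1, 3, 26), (1, 3, 14), (1, 3, 13), (0, 3, 13)]

/-- reachability in at most `k` steps -/
def reachB (R : Fin 4 → Fin 4 → Bool) : ℕ → Fin 4 → Fin 4 → Bool
  | 0, s, v => decide (s = v)
  | k + 1, s, v => reachB R k s v || ((reachB R k s 0 && R 0 v) || ((reachB R k s 1 && R 1 v) ||
      ((reachB R k s 2 && R 2 v) || (reachB R k s 3 && R 3 v))))

theorem reachB_sound {R : Fin 4 → Fin 4 → Bool} {k : ℕ} {s v : Fin 4}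
    (h : reachB R k s v = true) : ReflTransGen (fun a b => R a b = true) s v := by
  induction k generalizing v with
  | zero =>
    simp only [reachB, decide_eq_true_eq] at h
    rw [h]
  | succ k ih =>
    simp only [reachB, Bool.or_eq_true, Bool.and_eq_true] at h
    rcases h with h | h | h | h | h
    · exact ih h
    · exact (ih h.1).tail h.2
    · exact (ih h.1).tail h.2
    · exact (ih h.1).tail h.2
    · exact (ih h.1).tail h.2

/-- the witness of a tournament -/
def wit (b0 b1 b2 b3 b4 b5 : Bool) : Fin 4 × Fin 4 × ℕ :=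
  tbl.getD (b0.toNat + 2 * b1.toNat + 4 * b2.toNat + 8 * b3.toNat + 16 * b4.toNat +
    32 * b5.toNat) (0, 0, 0)

/-- plus arcs -/
def pl (b0 b1 b2 b3 b4 b5 : Bool) (i j : Fin 4) : Bool :=
  arc b0 b1 b2 b3 b4 b5 i j && (wit b0 b1 b2 b3 b4 b5).2.2.testBit (pidx i j)

/-- minus arcs -/
def mi (b0 b1 b2 b3 b4 b5 : Bool) (i j : Fin 4) : Bool :=
  arc b0 b1 b2 b3 b4 b5 i j && !(wit b0 b1 b2 b3 b4 b5).2.2.testBit (pidx i j)

theorem chk : ∀ b0 b1 b2 b3 b4 b5 : Bool, ∀ v : Fin 4,
    (reachB (pl b0 b1 b2 b3 b4 b5) 3 (wit b0 b1 b2 b3 b4 b5).1 v &&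
      reachB (mi b0 b1 b2 b3 b4 b5) 3 v (wit b0 b1 b2 b3 b4 b5).2.1) = true := by
  decide

end SemiAux

variable {V : Type*}

theorem SemiAux.base {D : V → V → Prop} {K : V → Prop} (hK : Clq D K) {a b c d : V}
    (ha : K a) (hb : K b) (hc : K c) (hd : K d) (hab : a ≠ b) (hac : a ≠ c) (had : a ≠ d)
    (hbc : b ≠ c) (hbd : b ≠ d) (hcd : c ≠ d) (hall : ∀ v, K v → v = a ∨ v = b ∨ v = c ∨ v = d) :
    ∃ s t, K s ∧ K t ∧ ∃ X : V → V → Prop,
      (∀ v, K v → ReflTransGen (fun a b => K a ∧ K b ∧ D a b ∧ X a b) s v) ∧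
      (∀ v, K v → ReflTransGen (fun a b => K a ∧ K b ∧ D a b ∧ ¬ X a b) v t) := by
  classical
  let e : Fin 4 → V := ![a, b, c, d]
  have he : ∀ i, K (e i) := by
    intro i
    fin_cases i
    · exact ha
    · exact hb
    · exact hc
    · exact hd
  have hinj : Function.Injective e := by
    intro i j hij
    fin_cases i <;> fin_cases j <;> simp [e] at hij ⊢ <;>
      first
        | exact hab hij | exact hac hij | exact had hij | exact hbc hij | exact hbd hij
        | exact hcd hij | exact hab hij.symm | exact hac hij.symm | exact had hij.symm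
        | exact hbc hij.symm | exact hbd hij.symm | exact hcd hij.symm
  have hsurj : ∀ v, K v → ∃ i, e i = v := by
    intro v hv
    rcases hall v hv with h | h | h | h
    · exact ⟨0, h.symm⟩
    · exact ⟨1, h.symm⟩
    · exact ⟨2, h.symm⟩
    · exact ⟨3, h.symm⟩
  let b0 : Bool := decide (D a b)
  let b1 : Bool := decide (D a c)
  let b2 : Bool := decide (D a d)
  let b3 : Bool := decide (D b c)
  let b4 : Bool := decide (D b d)
  let b5 : Bool := decide (D c d)
  have hback : ∀ u v, K u → K v → u ≠ v → (!decide (D u v)) = true → D v u := by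
    intro u v hu hv huv h
    rw [Bool.not_eq_true', decide_eq_false_iff_not] at h
    exact (hK u v hu hv huv).resolve_left h
  have harc : ∀ i j, SemiAux.arc b0 b1 b2 b3 b4 b5 i j = true → D (e i) (e j) := by
    intro i j h
    fin_cases i <;> fin_cases j
    · exact absurd h (by simp [SemiAux.arc])
    · exact of_decide_eq_true h
    · exact of_decide_eq_true h
    · exact of_decide_eq_true h
    · exact hback a b ha hb hab h
    · exact absurd h (by simp [SemiAux.arc])
    · exact of_decide_eq_true h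
    · exact of_decide_eq_true h
    · exact hback a c ha hc hac h
    · exact hback b c hb hc hbc h
    · exact absurd h (by simp [SemiAux.arc])
    · exact of_decide_eq_true h
    · exact hback a d ha hd had h
    · exact hback b d hb hd hbd h
    · exact hback c d hc hd hcd h
    · exact absurd h (by simp [SemiAux.arc])
  let w := SemiAux.wit b0 b1 b2 b3 b4 b5
  let X : V → V → Prop := fun u v => ∃ i j, e i = u ∧ e j = v ∧
    w.2.2.testBit (SemiAux.pidx i j) = true
  refine ⟨e w.1, e w.2.1, he _, he _, X, ?_, ?_⟩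
  · intro v hv
    obtain ⟨i, rfl⟩ := hsurj v hv
    have h := SemiAux.chk b0 b1 b2 b3 b4 b5 i
    rw [Bool.and_eq_true] at h
    refine ReflTransGen.lift e ?_ _ _ (SemiAux.reachB_sound h.1)
    intro p q hpq
    rw [SemiAux.pl, Bool.and_eq_true] at hpq
    exact ⟨he p, he q, harc p q hpq.1, p, q, rfl, rfl, hpq.2⟩
  · intro v hv
    obtain ⟨i, rfl⟩ := hsurj v hv
    have h := SemiAux.chk b0 b1 b2 b3 b4 b5 i
    rw [Bool.and_eq_true] at h
    refine ReflTransGen.lift e ?_ _ _ (SemiAux.reachB_sound h.2)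
    intro p q hpq
    rw [SemiAux.mi, Bool.and_eq_true, Bool.not_eq_true'] at hpq
    refine ⟨he p, he q, harc p q hpq.1, ?_⟩
    rintro ⟨i', j', hi', hj', hbit⟩
    have e1 := hinj hi'
    have e2 := hinj hj'
    rw [e1, e2] at hbit
    exact absurd hbit (by rw [hpq.2]; exact Bool.false_ne_true)

theorem SemiAux.step {D : V → V → Prop} {K : V → Prop} (hK : Clq D K) {v : V} (hv : K v)
    {s t : V} (hs : K s ∧ s ≠ v) (ht : K t ∧ t ≠ v)
    (hother : ∀ x : V, ∃ u, K u ∧ u ≠ v ∧ u ≠ x)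
    {X : V → V → Prop}
    (hP : ∀ u, K u ∧ u ≠ v → ReflTransGen
      (fun a b => (K a ∧ a ≠ v) ∧ (K b ∧ b ≠ v) ∧ D a b ∧ X a b) s u)
    (hM : ∀ u, K u ∧ u ≠ v → ReflTransGen
      (fun a b => (K a ∧ a ≠ v) ∧ (K b ∧ b ≠ v) ∧ D a b ∧ ¬ X a b) u t) :
    ∃ s t, K s ∧ K t ∧ ∃ X : V → V → Prop,
      (∀ v, K v → ReflTransGen (fun a b => K a ∧ K b ∧ D a b ∧ X a b) s v) ∧
      (∀ v, K v → ReflTransGen (fun a b => K a ∧ K b ∧ D a b ∧ ¬ X a b) v t) := by
  classical
  by_cases hin : ∃ u, K u ∧ u ≠ v ∧ D u v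
  · by_cases hout : ∃ w, K w ∧ w ≠ v ∧ D v w
    · obtain ⟨u, hu, huv, hD1⟩ := hin
      obtain ⟨w, hw, hwv, hD2⟩ := hout
      refine ⟨s, t, hs.1, ht.1, fun a b => b = v ∨ (a ≠ v ∧ X a b), ?_, ?_⟩
      · have hall : ∀ x, K x ∧ x ≠ v → ReflTransGen
            (fun a b => K a ∧ K b ∧ D a b ∧ (b = v ∨ (a ≠ v ∧ X a b))) s x := by
          intro x hx
          refine ReflTransGen.mono ?_ _ _ (hP x hx)
          rintro a b ⟨ha, hb, hD, hX⟩
          exact ⟨ha.1, hb.1, hD, Or.inr ⟨ha.2, hX⟩⟩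
        intro x hx
        by_cases hxv : x = v
        · rw [hxv]
          exact (hall u ⟨hu, huv⟩).tail ⟨hu, hv, hD1, Or.inl rfl⟩
        · exact hall x ⟨hx, hxv⟩
      · have hall : ∀ x, K x ∧ x ≠ v → ReflTransGen
            (fun a b => K a ∧ K b ∧ D a b ∧ ¬ (b = v ∨ (a ≠ v ∧ X a b))) x t := by
          intro x hx
          refine ReflTransGen.mono ?_ _ _ (hM x hx)
          rintro a b ⟨ha, hb, hD, hX⟩
          exact ⟨ha.1, hb.1, hD, fun h => h.elim hb.2 fun h => hX h.2⟩
        intro x hx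
        by_cases hxv : x = v
        · rw [hxv]
          exact ReflTransGen.head ⟨hv, hw, hD2, fun h => h.elim hwv fun h => h.1 rfl⟩
            (hall w ⟨hw, hwv⟩)
        · exact hall x ⟨hx, hxv⟩
    · -- no out-arc of v
      have hinall : ∀ u, K u → u ≠ v → D u v := by
        intro u hu huv
        rcases hK u v hu hv huv with h | h
        · exact h
        · exact absurd ⟨u, hu, huv, h⟩ hout
      obtain ⟨u, hu, huv, hut⟩ := hother t
      refine ⟨s, v, hs.1, hv, fun a b => (b = v ∧ a ≠ t) ∨ (b ≠ v ∧ X a b), ?_, ?_⟩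
      · have hall : ∀ x, K x ∧ x ≠ v → ReflTransGen
            (fun a b => K a ∧ K b ∧ D a b ∧ ((b = v ∧ a ≠ t) ∨ (b ≠ v ∧ X a b))) s x := by
          intro x hx
          refine ReflTransGen.mono ?_ _ _ (hP x hx)
          rintro a b ⟨ha, hb, hD, hX⟩
          exact ⟨ha.1, hb.1, hD, Or.inr ⟨hb.2, hX⟩⟩
        intro x hx
        by_cases hxv : x = v
        · rw [hxv]
          exact (hall u ⟨hu, huv⟩).tail ⟨hu, hv, hinall u hu huv, Or.inl ⟨rfl, hut⟩⟩
        · exact hall x ⟨hx, hxv⟩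
      · have hall : ∀ x, K x ∧ x ≠ v → ReflTransGen
            (fun a b => K a ∧ K b ∧ D a b ∧ ¬ ((b = v ∧ a ≠ t) ∨ (b ≠ v ∧ X a b))) x t := by
          intro x hx
          refine ReflTransGen.mono ?_ _ _ (hM x hx)
          rintro a b ⟨ha, hb, hD, hX⟩
          exact ⟨ha.1, hb.1, hD, fun h => h.elim (fun h => hb.2 h.1) fun h => hX h.2⟩
        intro x hx
        by_cases hxv : x = v
        · rw [hxv]
        · refine (hall x ⟨hx, hxv⟩).tail ⟨ht.1, hv, hinall t ht.1 ht.2, ?_⟩
          rintro (h | h)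
          · exact h.2 rfl
          · exact h.1 rfl
  · -- no in-arc of v
    have houtall : ∀ u, K u → u ≠ v → D v u := by
      intro u hu huv
      rcases hK u v hu hv huv with h | h
      · exact absurd ⟨u, hu, huv, h⟩ hin
      · exact h
    obtain ⟨u, hu, huv, hus⟩ := hother s
    refine ⟨v, t, hv, ht.1, fun a b => (a = v ∧ b = s) ∨ (a ≠ v ∧ X a b), ?_, ?_⟩
    · have hall : ∀ x, K x ∧ x ≠ v → ReflTransGen
          (fun a b => K a ∧ K b ∧ D a b ∧ ((a = v ∧ b = s) ∨ (a ≠ v ∧ X a b))) s x := by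
        intro x hx
        refine ReflTransGen.mono ?_ _ _ (hP x hx)
        rintro a b ⟨ha, hb, hD, hX⟩
        exact ⟨ha.1, hb.1, hD, Or.inr ⟨ha.2, hX⟩⟩
      intro x hx
      by_cases hxv : x = v
      · rw [hxv]
      · exact ReflTransGen.head ⟨hv, hs.1, houtall s hs.1 hs.2, Or.inl ⟨rfl, rfl⟩⟩
          (hall x ⟨hx, hxv⟩)
    · have hall : ∀ x, K x ∧ x ≠ v → ReflTransGen
          (fun a b => K a ∧ K b ∧ D a b ∧ ¬ ((a = v ∧ b = s) ∨ (a ≠ v ∧ X a b))) x t := by
        intro x hx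
        refine ReflTransGen.mono ?_ _ _ (hM x hx)
        rintro a b ⟨ha, hb, hD, hX⟩
        exact ⟨ha.1, hb.1, hD, fun h => h.elim (fun h => ha.2 h.1) fun h => hX h.2⟩
      intro x hx
      by_cases hxv : x = v
      · rw [hxv]
        refine ReflTransGen.head ⟨hv, hu, houtall u hu huv, ?_⟩ (hall u ⟨hu, huv⟩)
        rintro (h | h)
        · exact hus h.2
        · exact h.1 rfl
      · exact hall x ⟨hx, hxv⟩

variable [Finite V]

theorem semi_good {D : V → V → Prop} {K : V → Prop} (hK : Clq D K) (h4 : Inst.Four K) :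
    ∃ s t, K s ∧ K t ∧ ∃ X : V → V → Prop,
      (∀ v, K v → ReflTransGen (fun a b => K a ∧ K b ∧ D a b ∧ X a b) s v) ∧
      (∀ v, K v → ReflTransGen (fun a b => K a ∧ K b ∧ D a b ∧ ¬ X a b) v t) := by
  classical
  obtain ⟨n, hn⟩ : ∃ n, n = Set.ncard {v | K v} := ⟨_, rfl⟩
  induction n using Nat.strong_induction_on generalizing K with
  | _ n ih =>
    obtain ⟨a, b, c, d, ha, hb, hc, hd, hab, hac, had, hbc, hbd, hcd⟩ := h4
    by_cases hall : ∀ v, K v → v = a ∨ v = b ∨ v = c ∨ v = d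
    · exact SemiAux.base hK ha hb hc hd hab hac had hbc hbd hcd hall
    · push Not at hall
      obtain ⟨v, hv, hva, hvb, hvc, hvd⟩ := hall
      have hlt : Set.ncard {u | K u ∧ u ≠ v} < n := by
        rw [hn]
        refine Set.ncard_lt_ncard ?_ (Set.toFinite _)
        refine ⟨fun u hu => hu.1, fun h => ?_⟩
        exact (h hv).2 rfl
      have hK' : Clq D (fun u => K u ∧ u ≠ v) := fun u w hu hw huw => hK u w hu.1 hw.1 huw
      have h4' : Inst.Four (fun u => K u ∧ u ≠ v) :=
        ⟨a, b, c, d, ⟨ha, hva.symm⟩, ⟨hb, hvb.symm⟩, ⟨hc, hvc.symm⟩, ⟨hd, hvd.symm⟩,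
          hab, hac, had, hbc, hbd, hcd⟩
      obtain ⟨s, t, hs, ht, X, hP, hM⟩ := ih _ hlt hK' h4' rfl
      refine SemiAux.step hK hv hs ht ?_ hP hM
      intro x
      by_cases hxa : x = a
      · exact ⟨b, hb, hvb.symm, fun h => hab (hxa.symm.trans h.symm)⟩
      · exact ⟨a, ha, hva.symm, fun h => hxa h.symm⟩

end Pool.Agent.Lib.AB474
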