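import Pool.Agent.Lib.AB474.Done

/-!
# MODULE StepD: a path s -> n -> t of conflict arcs (about 1.5 h)

STATEMENT: I.Norm, at least four vertices in N, S s, N n, T t, Cf s n, Cf n t => Solvable.

PROOF.  (A) half.  Label (s,n), (n,t) plus: Lp, Lm = none, I' = I.lab Lp Lm.  s, n, t in I'.R (the
labelled arcs are Gp' and not Cf'), t in I'.L.  norm_done: I'.R u I'.L = V.  If not solvable, hall_pp
(u1 = s, u2 = n, v2 = t) gives disjoint tight sets J1 (contains s, not n) and J2 (contains n, not t).
 (A1) N u, u /= n, J1 u is impossible.  Suppose J1 u.  u is not in I'.L.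
   Gp t u: by Norm.good there is a good arc between u and t.  I.Good u t with Gm u t: (u,t) is Cf (else
     u in T by tm); it is not labelled (u /= n, t /= n), so lc: t in I'.R, I'.L gives I'.L u: no.
     I.Good u t by criticality in Gp: not Rch (Del Gp u t) S t, but s -> n -> t avoids (u,t) as
     u /= n, u /= s: no.  I.Good t u: Gp t u, fine, or Gm t u with not Col .. T t: no, T t.
   Now a good arc between n and u.  Good n u with Gm n u: not labelled as u /= t (N u, T t), so
     I'.Gm n u, and u not in I'.L, so J2 u by closedness; but J1, J2 are disjoint.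
     Good n u critical in Gp: s -> n -> t -> u avoids (n,u): no.
     Good u n with Gm u n: (u,n) is not labelled (u is not s, not n), n not in I'.L (J2 n, Tight.sub),
     so J1 n by closedness: no.  Good u n critical in Gp: s -> n avoids it: no.
 (A2) there is w1 such that for all c in N, c /= n, c /= w1: not Gm s c.  [J1 s; c not in J1 by (A1); so
     (s,c) is an exit of J1; exits are (s,n) and one other arc (a,b); put w1 := b.]
 (A3) for c in N with c /= n, Gm c s and Gp t c: not Good n c.  [Gm n c: I'.Gm n c.  If c is not in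
     I'.L then J2 c; I'.Gm c s, s not in I'.L, so J2 s, against J1 s.  If c in I'.L: I'.R c by rc from t.
     Then not Cf' n c gives I'.L n by lm; Cf' n c gives I'.L n by lc.  n is not in I'.L.  Contradiction.
     Good n c by criticality in Gp: s -> n -> t -> c avoids (n,c): contradiction.]
 (A4) c in N, c /= n, not Gm s c => Gm c s.  [good arc between c and s: Good s c with Gp s c, critical:
     not Cf as not Gm; sp gives S c: no.  Good c s with Gp c s critical: S s: no.  Others give Gm.]
(B) The dual statements (apply (A) to I.dual, with s and t exchanged): there is w0 such that for all c in N,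
   c /= n, c /= w0: not Gp c t, hence Gp t c; and for such c with Gp t c and Gm c s: not Good c n.
(C) N has at least four vertices, so there is c in N different from n, w0, w1.  Then Gm c s, Gp t c,
   not Good n c, not Good c n: against Norm.good.
-/

namespace Pool.Agent.Lib.AB474

open Relation

variable {V : Type*} [Fintype V] [DecidableEq V]

namespace Inst

variable {I : Inst V}

theorem stepD_half (hI : I.Norm) (hns : ¬ I.Solvable) {s n t : V} (hs : I.S s) (hn : I.N n)
    (ht : I.T t) (hsn : I.Cf s n) (hnt : I.Cf n t) :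
    ∃ w1, ∀ c, I.N c → c ≠ n → (c ≠ w1 → ¬ I.Gm s c) ∧
      (I.Gm c s → I.Gp t c → ¬ I.Good n c) ∧ (¬ I.Gm s c → I.Gm c s) := by
  have hsn' : s ≠ n := by rintro rfl; exact hn.1 hs
  have htn' : t ≠ n := by rintro rfl; exact hn.2 ht
  have hst' : s ≠ t := by rintro rfl; exact hI.dj s hs ht
  have hN_s : ∀ u, I.N u → u ≠ s := by rintro u hu rfl; exact hu.1 hs
  have hN_t : ∀ u, I.N u → u ≠ t := by rintro u hu rfl; exact hu.2 ht
  let Lp : V → V → Prop := fun u v => (u = s ∧ v = n) ∨ (u = n ∧ v = t)
  let Lm : V → V → Prop := fun _ _ => False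
  have hRs : (I.lab Lp Lm).R s := RL.s hs
  have hRn : (I.lab Lp Lm).R n := by
    refine RL.rp hRs ⟨hsn.1, fun h => h⟩ ?_
    rw [lab_Cf]
    exact fun h => h.2.1 (Or.inl ⟨rfl, rfl⟩)
  have hRt : (I.lab Lp Lm).R t := by
    refine RL.rp hRn ⟨hnt.1, fun h => h⟩ ?_
    rw [lab_Cf]
    exact fun h => h.2.1 (Or.inr ⟨rfl, rfl⟩)
  have hLt : (I.lab Lp Lm).L t := RL.t ht
  have hcov := norm_done hI (Lp := Lp) (Lm := Lm) (fun u v h => by
    rcases h with ⟨rfl, _⟩ | ⟨rfl, _⟩
    · exact hRs
    · exact hRn) (fun _ _ h => h.elim) hRt hLt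
  obtain ⟨J1, J2, hJ1, hJ2, hdis⟩ := hall_pp hI.toClosed hsn hnt (Lp := Lp) (Lm := Lm)
    (fun _ _ => Iff.rfl) (fun _ _ h => h) hcov hns
  have hnL : ¬ (I.lab Lp Lm).L n := hJ2.sub n hJ2.mem
  have hsL : ¬ (I.lab Lp Lm).L s := hJ1.sub s hJ1.mem
  -- walks
  have rn : ∀ a b, a ≠ s ∨ b ≠ n → Rch (Del I.Gp a b) I.S n := by
    intro a b hab
    refine (Rch.base hs).step ⟨hsn.1, ?_⟩
    rintro ⟨rfl, rfl⟩
    rcases hab with h | h <;> exact h rfl
  have rt : ∀ a b, (a ≠ s ∨ b ≠ n) → (a ≠ n ∨ b ≠ t) → Rch (Del I.Gp a b) I.S t := by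
    intro a b hab hab'
    refine (rn a b hab).step ⟨hnt.1, ?_⟩
    rintro ⟨rfl, rfl⟩
    rcases hab' with h | h <;> exact h rfl
  have A1 : ∀ u, I.N u → u ≠ n → ¬ J1 u := by
    intro u hu hun hJu
    have hus := hN_s u hu
    have hut := hN_t u hu
    have huL := hJ1.sub u hJu
    have hGm : ¬ I.Gm u t := by
      intro h
      refine huL (RL.lc hLt hRt ⟨h, ?_⟩)
      rintro (⟨h1, _⟩ | ⟨h1, _⟩)
      · exact hus h1
      · exact hun h1
    have hGp : I.Gp t u := by
      rcases hI.good u t hu hut.symm with h | h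
      · rcases h with h | h | h
        · exact absurd h.2 hGm
        · exact absurd (rt u t (Or.inl hus) (Or.inl hun)) h.2
        · exact absurd h.1 hGm
      · rcases h with h | h | h
        · exact h.1
        · exact h.1
        · exact absurd (Col.base ht) h.2
    rcases hI.good n u hn hun with h | h
    · have hno : ¬ I.Gm n u := by
        intro hm
        have h1 : J2 u := hJ2.cl n u hJ2.mem ⟨hm, by
          rintro (⟨h1, _⟩ | ⟨_, h1⟩)
          · exact hsn' h1.symm
          · exact hut h1⟩ huL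
        exact hdis u hJu h1
      rcases h with h | h | h
      · exact hno h.2
      · refine h.2 ((rt n u (Or.inl hsn'.symm) (Or.inr hut)).step ⟨hGp, ?_⟩)
        rintro ⟨h1, _⟩
        exact htn' h1
      · exact hno h.1
    · have hno : ¬ I.Gm u n := by
        intro hm
        refine hJ1.nmem (hJ1.cl u n hJu ⟨hm, ?_⟩ hnL)
        rintro (⟨h1, _⟩ | ⟨h1, _⟩)
        · exact hus h1
        · exact hun h1
      rcases h with h | h | h
      · exact hno h.2
      · exact h.2 (rn u n (Or.inl hus))
      · exact hno h.1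
  obtain ⟨c0, d0, hex⟩ := hJ1.ex
  refine ⟨d0, fun c hc hcn => ⟨fun hcd hG => ?_, fun hcs htc hgood => ?_, fun hG => ?_⟩⟩
  · rcases hex s c hJ1.mem (A1 c hc hcn) hG with ⟨_, h⟩ | ⟨_, h⟩
    · exact hcn h
    · exact hcd h
  · have hcs' := hN_s c hc
    have hct' := hN_t c hc
    have hno : ¬ I.Gm n c := by
      intro hm
      have hm' : (I.lab Lp Lm).Gm n c := ⟨hm, by
        rintro (⟨h1, _⟩ | ⟨_, h1⟩)
        · exact hsn' h1.symm
        · exact hct' h1⟩
      by_cases hL : (I.lab Lp Lm).L c
      · have hRc : (I.lab Lp Lm).R c := RL.rc hRt hLt ⟨htc, fun h => h⟩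
        exact hnL (RL.lc hL hRc hm')
      · have hJc : J2 c := hJ2.cl n c hJ2.mem hm' hL
        have hJs : J2 s := hJ2.cl c s hJc ⟨hcs, by
          rintro (⟨h1, _⟩ | ⟨h1, _⟩)
          · exact hcs' h1
          · exact hcn h1⟩ hsL
        exact hdis s hJ1.mem hJs
    rcases hgood with h | h | h
    · exact hno h.2
    · refine h.2 ((rt n c (Or.inl hsn'.symm) (Or.inr hct')).step ⟨htc, ?_⟩)
      rintro ⟨h1, _⟩
      exact htn' h1
    · exact hno h.1
  · rcases hI.good c s hc (hN_s c hc).symm with h | h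
    · rcases h with h | h | h
      · exact h.2
      · exact absurd (Rch.base hs) h.2
      · exact h.1
    · rcases h with h | h | h
      · exact absurd h.2 hG
      · exact absurd (hI.sp s c hs h.1 (fun hc' => hG hc'.2.1)) hc.1
      · exact absurd h.1 hG

theorem stepD (hI : I.Norm) (h4 : Four I.N) {s n t : V} (hs : I.S s) (hn : I.N n) (ht : I.T t)
    (hsn : I.Cf s n) (hnt : I.Cf n t) : I.Solvable := by
  classical
  by_contra hns
  obtain ⟨w1, h1⟩ := stepD_half hI hns hs hn ht hsn hnt
  obtain ⟨w0, h0⟩ := stepD_half (I := I.dual) hI.toDual (fun h => hns (dual_Solvable.1 h))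
    (s := t) (n := n) (t := s) ht (dual_N.2 hn) hs (dual_Cf.2 hnt) (dual_Cf.2 hsn)
  obtain ⟨c, hc, hcn, hcw1, hcw0⟩ : ∃ c, I.N c ∧ c ≠ n ∧ c ≠ w1 ∧ c ≠ w0 := by
    obtain ⟨a, b, c, d, ha, hb, hc, hd, hab, hac, had, hbc, hbd, hcd⟩ := h4
    by_contra hcon
    push Not at hcon
    have hsub : ({a, b, c, d} : Finset V) ⊆ {n, w1, w0} := by
      have key : ∀ x, I.N x → x ∈ ({n, w1, w0} : Finset V) := by
        intro x hx
        rw [Finset.mem_insert, Finset.mem_insert, Finset.mem_singleton]
        by_cases h1 : x = n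
        · exact Or.inl h1
        · by_cases h2 : x = w1
          · exact Or.inr (Or.inl h2)
          · exact Or.inr (Or.inr (hcon x hx h1 h2))
      intro x hx
      simp only [Finset.mem_insert, Finset.mem_singleton] at hx
      rcases hx with rfl | rfl | rfl | rfl
      · exact key _ ha
      · exact key _ hb
      · exact key _ hc
      · exact key _ hd
    have h5 := Finset.card_le_card hsub
    have h6 : ({a, b, c, d} : Finset V).card = 4 := by
      rw [Finset.card_insert_of_notMem (by simp [hab, hac, had]),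
        Finset.card_insert_of_notMem (by simp [hbc, hbd]),
        Finset.card_insert_of_notMem (by simp [hcd]), Finset.card_singleton]
    have h7 : ({n, w1, w0} : Finset V).card ≤ 3 := Finset.card_le_three
    omega
  obtain ⟨a1, a2, a3⟩ := h1 c hc hcn
  obtain ⟨b1, b2, b3⟩ := h0 c (dual_N.2 hc) hcn
  have e1 : I.Gm c s := a3 (a1 hcw1)
  have e2 : I.Gp t c := b3 (b1 hcw0)
  rcases hI.good n c hn hcn with h | h
  · exact a2 e1 e2 h
  · exact b2 e2 e1 (dual_Good.2 h)

end Inst

end Pool.Agent.Lib.AB474
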