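import Pool.Agent.Lib.PolyTime.Comb

/-!
# The algorithm on bit strings

Sets of vertices `0, …, n-1` are bit strings of length `n`, relations are bit strings of length
`n * n` (row by row).
-/

namespace Pool.Agent.Lib.AB474.Tab

open Pool.Agent.Lib.PolyTime

/-- bit of a vector -/
def b1 (t : List Bool) (v : ℕ) : Bool := t.getD v false

/-- bit of a matrix -/
def b2 (n : ℕ) (t : List Bool) (u v : ℕ) : Bool := t.getD (u * n + v) false

/-- vector with given entries -/
def vec (n : ℕ) (f : ℕ → Bool) : List Bool := (List.range n).map f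

/-- matrix with given entries -/
def mat (n : ℕ) (f : ℕ → ℕ → Bool) : List Bool := (List.range n).flatMap (fun u => vec n (f u))

/-- some `u` in `r` has an arc to `v` -/
def orStep (n : ℕ) (G r : List Bool) (v : ℕ) : Bool :=
  decide (∃ u < n, (b1 r u && b2 n G u v) = true)

/-- one round of reachability -/
def reachStep (n : ℕ) (G r : List Bool) : List Bool := vec n (fun v => b1 r v || orStep n G r v)

/-- vertices reached from `S` -/
def reach (n : ℕ) (G S : List Bool) : List Bool := (reachStep n G)^[n] S

/-- delete an arc -/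
def delM (n : ℕ) (G : List Bool) (a b : ℕ) : List Bool :=
  mat n (fun u v => b2 n G u v && !(decide (u = a) && decide (v = b)))

/-- transpose -/
def trM (n : ℕ) (G : List Bool) : List Bool := mat n (fun u v => b2 n G v u)

/-- all elements of `X` are in `r` -/
def allIn (n : ℕ) (X r : List Bool) : Bool := decide (∀ w < n, (!b1 X w || b1 r w) = true)

/-- plus criticality -/
def critP (n : ℕ) (X S Gp : List Bool) (u v : ℕ) : Bool :=
  !allIn n X (reach n (delM n Gp u v) S)

/-- minus criticality -/
def critM (n : ℕ) (X T Gm : List Bool) (u v : ℕ) : Bool :=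
  !allIn n X (reach n (trM n (delM n Gm u v)) T)

/-- conflict arcs -/
def cf (n : ℕ) (K Gp Gm : List Bool) (u v : ℕ) : Bool :=
  b2 n Gp u v && (b2 n Gm u v && b2 n K u v)

/-- new plus arcs after one round of the closure -/
def stepGp (n : ℕ) (X T K Gp Gm : List Bool) : List Bool :=
  mat n (fun u v => b2 n Gp u v && !(cf n K Gp Gm u v && critM n X T Gm u v))

/-- new minus arcs after one round of the closure -/
def stepGm (n : ℕ) (X S K Gp Gm : List Bool) : List Bool :=
  mat n (fun u v => b2 n Gm u v && !(cf n K Gp Gm u v && critP n X S Gp u v))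

/-- one round of the closure on the state `Gp ++ Gm` -/
def closStep (n : ℕ) (X S T K st : List Bool) : List Bool :=
  stepGp n X T K st (st.drop (n * n)) ++ stepGm n X S K st (st.drop (n * n))

/-- the closure: state after `2 n^2` rounds -/
def closT (n : ℕ) (X S T K Gp Gm : List Bool) : List Bool :=
  (closStep n X S T K)^[2 * (n * n)] (Gp ++ Gm)

/-- a new vertex for `R` -/
def rIn (n : ℕ) (K Gp Gm r l : List Bool) (v : ℕ) : Bool :=
  decide (∃ u < n, (b1 r u && (b2 n Gp u v && (b1 l u || !cf n K Gp Gm u v))) = true)

/-- a new vertex for `L` -/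
def lIn (n : ℕ) (K Gp Gm r l : List Bool) (u : ℕ) : Bool :=
  decide (∃ v < n, (b1 l v && (b2 n Gm u v && (b1 r v || !cf n K Gp Gm u v))) = true)

/-- one round of the fixpoint on the state `r ++ l` -/
def rlStep (n : ℕ) (K Gp Gm st : List Bool) : List Bool :=
  vec n (fun v => b1 st v || rIn n K Gp Gm st (st.drop n) v) ++
    vec n (fun v => b1 (st.drop n) v || lIn n K Gp Gm st (st.drop n) v)

/-- the fixpoint: state `r ++ l` -/
def rlT (n : ℕ) (S T K Gp Gm : List Bool) : List Bool := (rlStep n K Gp Gm)^[2 * n] (S ++ T)

/-- vertices of `X` outside `R` and `L` -/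
def outV (n : ℕ) (X rl : List Bool) : List Bool :=
  vec n (fun v => b1 X v && !(b1 rl v || b1 (rl.drop n) v))

/-- good arcs -/
def goodT (n : ℕ) (S T Gp Gm : List Bool) (u v : ℕ) : Bool :=
  (b2 n Gp u v && b2 n Gm u v) ||
    ((b2 n Gp u v && !b1 (reach n (delM n Gp u v) S) v) ||
      (b2 n Gm u v && !b1 (reach n (trM n (delM n Gm u v)) T) u))

/-- matrix of the good arcs -/
def goodM (n : ℕ) (S T Gp Gm : List Bool) : List Bool := mat n (goodT n S T Gp Gm)

/-- there is a fourth element different from `a`, `b`, `c` -/
def ex1 (n : ℕ) (X : List Bool) (a b c : ℕ) : Bool :=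
  decide (∃ d < n, (b1 X d && (!decide (a = d) && (!decide (b = d) && !decide (c = d)))) = true)

/-- there are two more elements -/
def ex2 (n : ℕ) (X : List Bool) (a b : ℕ) : Bool :=
  decide (∃ c < n, (b1 X c && (!decide (a = c) && (!decide (b = c) && ex1 n X a b c))) = true)

/-- there are three more elements -/
def ex3 (n : ℕ) (X : List Bool) (a : ℕ) : Bool :=
  decide (∃ b < n, (b1 X b && (!decide (a = b) && ex2 n X a b)) = true)

/-- there are four elements -/
def ex4 (n : ℕ) (X : List Bool) : Bool := decide (∃ a < n, (b1 X a && ex3 n X a) = true)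

/-- no elements -/
def emptyT (n : ℕ) (X : List Bool) : Bool := decide (∀ v < n, (!b1 X v) = true)

/-- vertex `x` is joined to all others by good arcs -/
def goodAll (n : ℕ) (X G : List Bool) (x : ℕ) : Bool :=
  decide (∀ v < n, (!b1 X v || (decide (v = x) || (b2 n G x v || b2 n G v x))) = true)

/-- all elements of `Y` are joined to all others by good arcs -/
def goodTest (n : ℕ) (X Y G : List Bool) : Bool :=
  decide (∀ x < n, (!b1 Y x || goodAll n X G x) = true)

/-- the test -/
def passT (n : ℕ) (X S T K Gp Gm : List Bool) : Bool :=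
  (allIn n X (reach n Gp S) && allIn n X (reach n (trM n Gm) T)) &&
    ((emptyT n (outV n X (rlT n S T K Gp Gm)) || ex4 n (outV n X (rlT n S T K Gp Gm))) &&
      goodTest n X (outV n X (rlT n S T K Gp Gm)) (goodM n S T Gp Gm))

/-- the test after the closure -/
def testT (n : ℕ) (X S T K Gp Gm : List Bool) : Bool :=
  passT n X S T K (closT n X S T K Gp Gm) ((closT n X S T K Gp Gm).drop (n * n))

/-! ### Building the elimination instance

`A` arc matrix, `E` eliminated set, `P` and `M` the arcs `Fp`, `Fm`, `s`, `t` roots, `L` labelled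
arcs. -/

/-- the set `{s}` -/
def unitV (n s : ℕ) : List Bool := vec n (fun v => decide (v = s))

/-- row of a matrix -/
def rowV (n : ℕ) (F : List Bool) (u : ℕ) : List Bool := vec n (fun x => b2 n F u x)

/-- column of a matrix -/
def colV (n : ℕ) (F : List Bool) (v : ℕ) : List Bool := vec n (fun x => b2 n F x v)

/-- some `e` in `E` and `r` has an arc to `v` not in `M` -/
def viaP (n : ℕ) (A E M r : List Bool) (v : ℕ) : Bool :=
  decide (∃ e < n, (b1 E e && (b1 r e && (b2 n A e v && !b2 n M e v))) = true)

/-- some `e` in `E` and `r` has an arc from `u` not in `P` -/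
def viaM (n : ℕ) (A E P r : List Bool) (u : ℕ) : Bool :=
  decide (∃ e < n, (b1 E e && (b1 r e && (b2 n A u e && !b2 n P u e))) = true)

/-- plus arcs through `E` -/
def peT (n : ℕ) (A E P M : List Bool) : List Bool :=
  mat n (fun u v => viaP n A E M (reach n P (rowV n P u)) v)

/-- minus arcs through `E` -/
def meT (n : ℕ) (A E P M : List Bool) : List Bool :=
  mat n (fun u v => viaM n A E P (reach n (trM n M) (colV n M v)) u)

/-- complement of `E` -/
def notV (n : ℕ) (E : List Bool) : List Bool := vec n (fun v => !b1 E v)

/-- sources -/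
def elS (n : ℕ) (A E P M : List Bool) (s : ℕ) : List Bool :=
  vec n (fun v => !b1 E v && viaP n A E M (reach n P (unitV n s)) v)

/-- sinks -/
def elT (n : ℕ) (A E P M : List Bool) (t : ℕ) : List Bool :=
  vec n (fun v => !b1 E v && viaM n A E P (reach n (trM n M) (unitV n t)) v)

/-- plus arcs -/
def elGp (n : ℕ) (A E Q : List Bool) : List Bool :=
  mat n (fun u v => !b1 E u && (!b1 E v && (b2 n A u v || b2 n Q u v)))

/-- minus arcs -/
def elGm (n : ℕ) (A E Q L : List Bool) : List Bool :=
  mat n (fun u v => (!b1 E u && (!b1 E v && (b2 n A u v || b2 n Q u v))) && !b2 n L u v)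

/-- conflict pairs -/
def elK (n : ℕ) (A Q Q' : List Bool) : List Bool :=
  mat n (fun u v => b2 n A u v && (!b2 n Q u v && !b2 n Q' u v))

/-- all elements of `E` are reached from `s` or from some `u` outside `E` -/
def okFrom (n : ℕ) (E P r : List Bool) (e : ℕ) : Bool :=
  b1 r e || decide (∃ u < n, (!b1 E u && b1 (reach n P (rowV n P u)) e) = true)

/-- first admissibility test -/
def okR (n : ℕ) (E P r : List Bool) : Bool :=
  decide (∀ e < n, (!b1 E e || okFrom n E P r e) = true)

/-- second admissibility test: row `u` -/
def okRow (n : ℕ) (A E P M : List Bool) (u : ℕ) : Bool :=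
  decide (∀ v < n, ((!b2 n P u v || (b2 n A u v && (b1 E v && !b2 n M u v))) &&
    (!b2 n M u v || (b2 n A u v && b1 E u))) = true)

/-- admissibility of the elimination data -/
def okT (n : ℕ) (A E P M : List Bool) (s t : ℕ) : Bool :=
  ((decide (s < n) && decide (t < n)) && (b1 E s && b1 E t)) &&
    (decide (∀ u < n, okRow n A E P M u = true) &&
      (okR n E P (reach n P (unitV n s)) &&
        okR n E (trM n M) (reach n (trM n M) (unitV n t))))

/-- the test for elimination data -/
def elimT (n : ℕ) (A E P M L : List Bool) (s t : ℕ) : Bool :=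
  okT n A E P M s t &&
    testT n (notV n E) (elS n A E P M s) (elT n A E P M t)
      (elK n A (peT n A E P M) (meT n A E P M)) (elGp n A E (peT n A E P M))
      (elGm n A E (meT n A E P M) L)

/-! ### Building the hub instance -/

/-- sources -/
def huS (n : ℕ) (A K : List Bool) : List Bool :=
  vec n (fun v => !b1 K v && orStep n A K v)

/-- arcs -/
def huG (n : ℕ) (A K : List Bool) : List Bool :=
  mat n (fun u v => !b1 K u && (!b1 K v && b2 n A u v))

/-- minus arcs -/
def huGm (n : ℕ) (A K L : List Bool) : List Bool :=
  mat n (fun u v => (!b1 K u && (!b1 K v && b2 n A u v)) && !b2 n L u v)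

/-- full matrix -/
def fullM (n : ℕ) : List Bool := mat n (fun _ _ => true)

/-- `k` is adjacent to all elements of `K` other than `k` -/
def adjAll (n : ℕ) (A K : List Bool) (k : ℕ) : Bool :=
  decide (∀ u < n, (!b1 K u || (decide (u = k) || (b2 n A u k || b2 n A k u))) = true)

/-- step `k` of the greedy maximal clique -/
def greedyStep (n : ℕ) (A K : List Bool) (k : ℕ) : List Bool :=
  vec n (fun v => b1 K v || (decide (v = k) && adjAll n A K k))

/-- greedy maximal clique: first `k` steps -/
def greedy (n : ℕ) (A K : List Bool) : ℕ → List Bool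
  | 0 => K
  | k + 1 => greedyStep n A (greedy n A K k) k

/-- the set of four vertices -/
def quadV (n a b c d : ℕ) : List Bool :=
  vec n (fun v => (decide (v = a) || decide (v = b)) || (decide (v = c) || decide (v = d)))

/-- different and adjacent -/
def adjT (n : ℕ) (A : List Bool) (a b : ℕ) : Bool :=
  !decide (a = b) && (b2 n A a b || b2 n A b a)

/-- a 4-clique -/
def k4T (n : ℕ) (A : List Bool) (a b c d : ℕ) : Bool :=
  ((decide (a < n) && decide (b < n)) && (decide (c < n) && decide (d < n))) &&
    ((adjT n A a b && (adjT n A a c && adjT n A a d)) &&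
      (adjT n A b c && (adjT n A b d && adjT n A c d)))

/-- the test for a clique -/
def hubK (n : ℕ) (A K L : List Bool) : Bool :=
  testT n (notV n K) (huS n A K) (huS n (trM n A) K) (fullM n) (huG n A K) (huGm n A K L)

/-- the test for a 4-clique -/
def hubT (n : ℕ) (A L : List Bool) (a b c d : ℕ) : Bool :=
  k4T n A a b c d && hubK n A (greedy n A (quadV n a b c d) n) L

/-! ### Guesses

A guess is a list of numbers at most `n`, written in unary, each followed by a zero. -/

/-- number `i` of the guess -/
def dg (gs : List Bool) (i : ℕ) : ℕ := (((afterTrue)^[i] gs).takeWhile id).length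

/-- code of a list of numbers -/
def code : List ℕ → List Bool
  | [] => []
  | x :: l => un x ++ false :: code l

/-- `v` is one of the numbers `0, …, m-1` -/
def mem1 (m : ℕ) (gs : List Bool) (v : ℕ) : Bool :=
  decide (∃ i < m, (decide (dg gs i = v)) = true)

/-- `(u,v)` is one of the pairs (number `a + i`, number `b + i`), `i < m` -/
def mem2 (m : ℕ) (gs : List Bool) (a b u v : ℕ) : Bool :=
  decide (∃ i < m, (decide (dg gs (a + i) = u) && decide (dg gs (b + i) = v)) = true)

/-- the set given by numbers `0, …, 39` -/
def gE (n : ℕ) (gs : List Bool) : List Bool := vec n (fun v => mem1 40 gs v)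

/-- arcs from number `40 + i` to number `i`, except those entering `s` -/
def gP (n : ℕ) (gs : List Bool) : List Bool :=
  mat n (fun u v => mem2 40 gs 40 0 u v && !decide (dg gs 0 = v))

/-- arcs from number `i` to number `80 + i`, except those leaving `t` -/
def gM (n : ℕ) (gs : List Bool) : List Bool :=
  mat n (fun u v => mem2 40 gs 0 80 u v && !decide (dg gs 1 = u))

/-- arcs from number `a + i` to number `a + 4 + i`, `i < 4` -/
def gL (n : ℕ) (gs : List Bool) (a : ℕ) : List Bool :=
  mat n (fun u v => mem2 4 gs a (a + 4) u v)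

/-- elimination test for a guess of 128 numbers; numbers 0 and 1 are the roots -/
def guessE (n : ℕ) (A gs : List Bool) : Bool :=
  elimT n A (gE n gs) (gP n gs) (gM n gs) (gL n gs 120) (dg gs 0) (dg gs 1)

/-- hub test for a guess of 12 numbers -/
def guessH (n : ℕ) (A gs : List Bool) : Bool :=
  hubT n A (gL n gs 4) (dg gs 0) (dg gs 1) (dg gs 2) (dg gs 3)

/-- exhaustive search over guesses of `k` further numbers -/
def search (n : ℕ) (φ : List Bool → Bool) : ℕ → List Bool → Bool
  | 0, gs => φ gs
  | k + 1, gs => decide (∃ x < n + 1, search n φ k (un x ++ false :: gs) = true)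

/-! ### The decision procedure -/

/-- number of vertices -/
def nOf (w : List Bool) : ℕ := (w.takeWhile id).length

/-- arc matrix -/
def aOf (w : List Bool) : List Bool := afterTrue w

/-- no loop at `u` and no independent triple `u`, `v`, `x` -/
def triT (n : ℕ) (A : List Bool) (u v : ℕ) : Bool :=
  decide (∀ x < n, (decide (u = v) || (decide (u = x) || (decide (v = x) ||
    ((b2 n A u v || b2 n A v u) || ((b2 n A u x || b2 n A x u) || (b2 n A v x || b2 n A x v))))))
      = true)

/-- row of the independence test -/
def triRow (n : ℕ) (A : List Bool) (u : ℕ) : Bool :=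
  decide (∀ v < n, (triT n A u v) = true)

/-- `u` has a non-neighbour -/
def nonadj (n : ℕ) (A : List Bool) (u : ℕ) : Bool :=
  decide (∃ v < n, (!decide (u = v) && !(b2 n A u v || b2 n A v u)) = true)

/-- loopless with independence number two -/
def alphaT (n : ℕ) (A : List Bool) : Bool :=
  (decide (∀ u < n, (!b2 n A u u) = true) && decide (∀ u < n, (triRow n A u) = true)) &&
    decide (∃ u < n, (nonadj n A u) = true)

/-- the decision procedure -/
def decide474 (w : List Bool) : Bool :=
  (decide (w.length = nOf w + 1 + nOf w * nOf w) && alphaT (nOf w) (aOf w)) &&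
    (search (nOf w) (guessE (nOf w) (aOf w)) 128 [] ||
      search (nOf w) (guessH (nOf w) (aOf w)) 12 [])

end Pool.Agent.Lib.AB474.Tab
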