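import Pool.Agent.Lib.AB474.BrMove

/-!
# MODULE U1A: minimal nonadjacent good pairs: basic facts (about 1.2 h)

NOTATION.  a i = f^[i] t for i <= k: a 0 = t, a k = s, f (a i) = a (i+1): the plus path read backwards.
b i = g^[i] s for i <= l: b 0 = s, b l = t.
(1) a_inj: if a i = a j with i < j <= k then f^[k - (j - i)] t = s: a shorter k, against `min` (with the same
   s, t, f, g, l).  (f^[k-(j-i)] t = f^[k-j] (f^[i] t) = f^[k-j] (f^[j] t) = f^[k] t.)  b_inj the same.
(2) chord: i <= k, j + 2 <= i, D (a i) (a j): then g (a i) = a j.  Suppose not.  Reparent v := a j to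
   u := a i: a j /= s (a_inj, j < k); u's ancestors are a i, a (i+1), ..., a k = s, s, ...: not a j.  So
   Br D s t (update f v u) g; in f' = update f v u: f'^[j] t = a j, f'^[j+1] t = a i,
   f'^[j + 1 + (k - i)] t = s; j + 1 + (k - i) < k.  Against min (s, t nonadjacent as before).
(3) move_t: 2 <= j < k, D t (a j).  v := a j, f v = a (j+1) /= t = a 0 (a_inj).  Br.rootT: Br D s v f g' with
   g' = update (update g t v) v v.  f^[k-j] v = s.  For some l' <= l + 1: g'^[l'] s = v (the g walk from s
   reaches t after l steps, t goes to v; or it meets v before).  If not Adj D s v then (s /= v by a_inj) min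
   gives k + l <= (k - j) + (l + 1), so j <= 1: no.  So Adj D s v.
   If D v s: apply Br.rootT to Br D s v f g' and the vertex s: s /= v, D v s, left alternative s = s: Br D s s f g'',
   so GoodPair D s s.
-/

namespace Pool.Agent.Lib.AB474

open Relation

variable {V : Type*}

/-- A nonadjacent good pair with branchings such that the sum of the lengths of the two paths from `s`
to `t` is minimal. -/
structure MinNA (D : V → V → Prop) (s t : V) (f g : V → V) (k l : ℕ) : Prop where
  br : Br D s t f g
  hk : f^[k] t = s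
  hl : g^[l] s = t
  ne : s ≠ t
  na : ¬ Adj D s t
  min : ∀ s' t' f' g' k' l', Br D s' t' f' g' → f'^[k'] t' = s' → g'^[l'] s' = t' → s' ≠ t' →
    ¬ Adj D s' t' → k + l ≤ k' + l'

variable {D : V → V → Prop} {s t : V} {f g : V → V} {k l : ℕ}

theorem MinNA.rev (h : MinNA D s t f g k l) : MinNA (fun a b => D b a) t s g f l k := by
  refine ⟨h.br.rev, h.hl, h.hk, h.ne.symm, fun hh => h.na hh, fun s' t' f' g' k' l' h1 h2 h3 h4 h5 => ?_⟩
  have := h.min t' s' g' f' l' k' h1.rev h3 h2 h4.symm (fun hh => h5 hh)
  omega

theorem U1Aaux.iter_update [DecidableEq V] {f : V → V} {v u : V} {n : ℕ} {x : V}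
    (h : ∀ m < n, f^[m] x ≠ v) : (Function.update f v u)^[n] x = f^[n] x := by
  induction n with
  | zero => rfl
  | succ n ih =>
    rw [Function.iterate_succ_apply', Function.iterate_succ_apply',
      ih (fun m hm => h m (by omega)), Function.update_of_ne (h n (by omega))]

theorem MinNA.past (h : MinNA D s t f g k l) {n : ℕ} (hn : k ≤ n) : f^[n] t = s := by
  induction n, hn using Nat.le_induction with
  | base => exact h.hk
  | succ n hn ih => rw [Function.iterate_succ_apply', ih, h.br.fs]

theorem MinNA.a_lt (h : MinNA D s t f g k l) {i j : ℕ} (hij : i < j) (hj : j ≤ k)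
    (e : f^[i] t = f^[j] t) : False := by
  have h1 : f^[k - (j - i)] t = s := by
    have e1 : k - (j - i) = (k - j) + i := by omega
    have e2 : k = (k - j) + j := by omega
    have h2 := h.hk
    rw [e2, Function.iterate_add_apply] at h2
    rw [e1, Function.iterate_add_apply, e]
    exact h2
  have := h.min s t f g (k - (j - i)) l h.br h1 h.hl h.ne h.na
  omega

theorem MinNA.a_inj (h : MinNA D s t f g k l) {i j : ℕ} (hi : i ≤ k) (hj : j ≤ k)
    (e : f^[i] t = f^[j] t) : i = j := by
  rcases lt_trichotomy i j with hlt | heq | hgt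
  · exact (h.a_lt hlt hj e).elim
  · exact heq
  · exact (h.a_lt hgt hi e.symm).elim

theorem MinNA.b_inj (h : MinNA D s t f g k l) {i j : ℕ} (hi : i ≤ l) (hj : j ≤ l)
    (e : g^[i] s = g^[j] s) : i = j :=
  h.rev.a_inj hi hj e

theorem MinNA.chord (h : MinNA D s t f g k l) {i j : ℕ} (hi : i ≤ k) (hij : j + 2 ≤ i)
    (hD : D (f^[i] t) (f^[j] t)) : g (f^[i] t) = f^[j] t := by
  classical
  by_contra hne
  have hvs : f^[j] t ≠ s := by
    intro e
    have := h.a_inj (i := j) (j := k) (by omega) le_rfl (e.trans h.hk.symm)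
    omega
  have hanc : ∀ n, f^[n] (f^[i] t) ≠ f^[j] t := by
    intro n e
    rw [← Function.iterate_add_apply] at e
    by_cases hn : n + i ≤ k
    · have := h.a_inj hn (by omega) e
      omega
    · rw [h.past (by omega)] at e
      exact hvs e.symm
  have hbr := h.br.reparentF hvs hD (Or.inr hne) hanc
  set f' := Function.update f (f^[j] t) (f^[i] t) with hf'
  have h1 : f'^[j] t = f^[j] t := U1Aaux.iter_update (fun m hm e => by
    have := h.a_inj (i := m) (j := j) (by omega) (by omega) e
    omega)
  have h2 : f'^[j + 1] t = f^[i] t := by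
    rw [Function.iterate_succ_apply', h1, hf', Function.update_self]
  have h3 : f'^[(k - i) + (j + 1)] t = s := by
    rw [Function.iterate_add_apply, h2,
      U1Aaux.iter_update (f := f) (fun m _ => hanc m), ← Function.iterate_add_apply,
      Nat.sub_add_cancel hi]
    exact h.hk
  have := h.min s t f' g _ l hbr h3 h.hl h.ne h.na
  omega

theorem MinNA.move_t (h : MinNA D s t f g k l) {j : ℕ} (h2 : 2 ≤ j) (hj : j < k)
    (hD : D t (f^[j] t)) : Adj D s (f^[j] t) ∧ (D (f^[j] t) s → GoodPair D s s) := by
  classical
  have hvt : f^[j] t ≠ t := by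
    intro e
    have := h.a_inj (i := j) (j := 0) (by omega) (by omega) e
    omega
  have hfv : f (f^[j] t) ≠ t := by
    intro e
    have e' : f^[j + 1] t = t := (Function.iterate_succ_apply' f j t).trans e
    have := h.a_inj (i := j + 1) (j := 0) (by omega) (by omega) e'
    omega
  have hvs : s ≠ f^[j] t := by
    intro e
    have := h.a_inj (i := j) (j := k) (by omega) le_rfl (e.symm.trans h.hk.symm)
    omega
  have hbr := h.br.rootT hvt hD (Or.inr hfv)
  have hkv : f^[k - j] (f^[j] t) = s := by
    rw [← Function.iterate_add_apply, Nat.sub_add_cancel hj.le]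
    exact h.hk
  generalize hv : f^[j] t = v at hvt hfv hvs hbr hkv hD ⊢
  obtain ⟨l', hl', hg'⟩ : ∃ l' ≤ l + 1, (Function.update (Function.update g t v) v v)^[l'] s = v := by
    have hex : ∃ n, g^[n] s = t ∨ g^[n] s = v := ⟨l, Or.inl h.hl⟩
    have hfind := Nat.find_spec hex
    have hle : Nat.find hex ≤ l := Nat.find_min' hex (Or.inl h.hl)
    have hmin : ∀ m < Nat.find hex, ¬ (g^[m] s = t ∨ g^[m] s = v) := fun m hm => Nat.find_min hex hm
    generalize Nat.find hex = n at hfind hle hmin
    have h1 : (Function.update g t v)^[n] s = g^[n] s :=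
      U1Aaux.iter_update (fun m hm e => hmin m hm (Or.inl e))
    have h1' : ∀ m < n, (Function.update g t v)^[m] s = g^[m] s := fun m hm =>
      U1Aaux.iter_update (fun m' hm' e => hmin m' (by omega) (Or.inl e))
    have h3 : (Function.update (Function.update g t v) v v)^[n] s = g^[n] s := by
      rw [← h1]
      refine U1Aaux.iter_update (fun m hm e => hmin m hm (Or.inr ?_))
      rw [← h1' m hm]
      exact e
    rcases hfind with hf | hf
    · refine ⟨n + 1, by omega, ?_⟩
      rw [Function.iterate_succ_apply', h3, hf, Function.update_of_ne hvt.symm,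
        Function.update_self]
    · exact ⟨n, by omega, by rw [h3, hf]⟩
  have hadj : Adj D s v := by
    by_contra hna
    have := h.min s v f _ (k - j) l' hbr hkv hg' hvs hna
    omega
  refine ⟨hadj, fun hDv => ?_⟩
  exact (hbr.rootT hvs hDv (Or.inl rfl)).goodPair

end Pool.Agent.Lib.AB474
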