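import Pool.Agent.Lib.AB474.U1A
import Pool.Agent.Lib.AB474.Ramsey

/-!
# MODULE U1B: vertices of the plus path adjacent to t (about 1.5 h)

NOTATION as in U1A: a i = f^[i] t, b i = g^[i] s.  hK: no good pair lies in a common 4-clique.
(J1) the set of j in [2,k) with D t (a j) has at most 5 elements.
  By move_t every such a j is adjacent to s.  Case 1: D (a j) s for some such j.  Then GoodPair D s s, so
  not InK4 D s s, so by deg_le (the a j are different vertices adjacent to s, and /= s) at most 5.
  Case 2: otherwise D s (a j) = D (a k) (a j) for all of them.  For those with j + 2 <= k chord (i = k) gives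
  g s = a j, so there is at most one such j; besides j = k - 1.  So at most 2.
(J2) the set of j in [2,k) with D (a j) t has at most 5 elements.
  chord (i := j, j := 0): g (a j) = t for all such j.  Let J' be those with a j /= b (l-1).  At most one j is not in
  J' (a_inj).  CLAIM: i, j in J' with j + 2 <= i: a i, a j are not adjacent.
   D (a i) (a j): chord gives g (a i) = a j, but g (a i) = t = a 0: no (a_inj).
   D (a j) (a i): reparent in g: v := a j, u := a i: a j /= t; D v u; f u = a (i+1) /= a j (a_inj; i < k); the g-iterates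
   of a i are t, t, ...: never a j.  So Br D s t f g', g' = update g (a j) (a i).  The g-walk from s to t never uses
   a j: if b m = a j with m < l then b (m+1) = t = b l so m + 1 = l (b_inj), a j = b (l-1): no.  So g'^[l] s = t.
   Now reparent in f: v := t, u := a j: t /= s; D u t; g' u = a i /= t; f-iterates of a j are a (j+1), ...: never t = a 0
   (a_inj; after s = a k they stay at s /= t).  So Br D s t f' g' with f' = update f t (a j), f'^[k - j + 1] t = s (f' t =
   a j, then a (j+1), ..., a k).  k - j + 1 < k as j >= 2: against min.  (Here: i > j; both in [2,k).)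
  So J' does not contain three elements with pairwise differences >= 2 (Alpha2; the a i are different).
  A set of 5 natural numbers contains three such numbers (first, third, fifth).  So |J'| <= 4.
  (For the counting: a finset of naturals without three elements i, j, m with i + 2 <= j, j + 2 <= m has at
  most 4 elements.  E.g. by taking min, or use Finset.orderEmbOfFin.)
-/

namespace Pool.Agent.Lib.AB474

open Relation

variable {V : Type*} {D : V → V → Prop} {s t : V} {f g : V → V} {k l : ℕ}

/-- A finite set of naturals without three elements with gaps at least two has at most 4 elements. -/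
theorem gap3 (A : Finset ℕ) (h : ∀ i ∈ A, ∀ j ∈ A, ∀ m ∈ A, i + 2 ≤ j → ¬ j + 2 ≤ m) :
    A.card ≤ 4 := by
  by_contra hcon
  push Not at hcon
  have hne : A.Nonempty := Finset.card_pos.mp (by omega)
  set a := A.min' hne with ha
  have haA : a ∈ A := A.min'_mem hne
  have h1 : A ⊆ {a, a + 1} ∪ A.filter (fun x => a + 2 ≤ x) := by
    intro x hx
    have hax : a ≤ x := A.min'_le x hx
    simp only [Finset.mem_union, Finset.mem_insert, Finset.mem_singleton, Finset.mem_filter]
    by_cases h2 : a + 2 ≤ x
    · exact Or.inr ⟨hx, h2⟩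
    · left; omega
  have h2 := (Finset.card_le_card h1).trans (Finset.card_union_le _ _)
  have h3 : ({a, a + 1} : Finset ℕ).card ≤ 2 := Finset.card_le_two
  set A' := A.filter (fun x => a + 2 ≤ x) with hA'
  have hne' : A'.Nonempty := Finset.card_pos.mp (by omega)
  set b := A'.min' hne' with hb
  have hbA' : b ∈ A' := A'.min'_mem hne'
  have h4 : A' ⊆ {b, b + 1} ∪ A'.filter (fun x => b + 2 ≤ x) := by
    intro x hx
    have hax : b ≤ x := A'.min'_le x hx
    simp only [Finset.mem_union, Finset.mem_insert, Finset.mem_singleton, Finset.mem_filter]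
    by_cases h2 : b + 2 ≤ x
    · exact Or.inr ⟨hx, h2⟩
    · left; omega
  have h5 := (Finset.card_le_card h4).trans (Finset.card_union_le _ _)
  have h6 : ({b, b + 1} : Finset ℕ).card ≤ 2 := Finset.card_le_two
  have hne'' : (A'.filter (fun x => b + 2 ≤ x)).Nonempty := Finset.card_pos.mp (by omega)
  obtain ⟨m, hm⟩ := hne''
  have hm1 := Finset.mem_filter.mp hm
  have hm2 := Finset.mem_filter.mp hm1.1
  have hb2 := Finset.mem_filter.mp hbA'
  exact h a haA b hb2.1 m hm2.1 hb2.2 hm1.2

open Classical in
theorem MinNA.J1 (hα : Alpha2 D) (hK : ∀ s t, GoodPair D s t → ¬ InK4 D s t)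
    (h : MinNA D s t f g k l) :
    ((Finset.Ico 2 k).filter (fun j => D t (f^[j] t))).card ≤ 5 := by
  set F := (Finset.Ico 2 k).filter (fun j => D t (f^[j] t)) with hF
  have hmem : ∀ j ∈ F, 2 ≤ j ∧ j < k ∧ D t (f^[j] t) := by
    intro j hj
    have h1 := Finset.mem_filter.mp hj
    have h2 := Finset.mem_Ico.mp h1.1
    exact ⟨h2.1, h2.2, h1.2⟩
  have hinj : ∀ i ∈ F, ∀ j ∈ F, f^[i] t = f^[j] t → i = j := fun i hi j hj e =>
    h.a_inj (hmem i hi).2.1.le (hmem j hj).2.1.le e
  have hadj : ∀ j ∈ F, Adj D s (f^[j] t) ∧ (D (f^[j] t) s → GoodPair D s s) := fun j hj =>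
    h.move_t (hmem j hj).1 (hmem j hj).2.1 (hmem j hj).2.2
  have hnes : ∀ j ∈ F, f^[j] t ≠ s := by
    intro j hj e
    have := h.a_inj (hmem j hj).2.1.le le_rfl (e.trans h.hk.symm)
    have := (hmem j hj).2.1
    omega
  by_cases hc : ∃ j ∈ F, D (f^[j] t) s
  · obtain ⟨j, hj, hD⟩ := hc
    have hn : ¬ InK4 D s s := hK s s ((hadj j hj).2 hD)
    have hcard : (F.image (fun j => f^[j] t)).card = F.card :=
      Finset.card_image_of_injOn fun i hi j hj e => hinj i hi j hj e
    rw [← hcard]
    refine deg_le hα hn _ ?_
    intro v hv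
    obtain ⟨i, hi, rfl⟩ := Finset.mem_image.mp hv
    exact ⟨hnes i hi, (hadj i hi).1⟩
  · push Not at hc
    have hD : ∀ j ∈ F, D s (f^[j] t) := by
      intro j hj
      rcases (hadj j hj).1 with h1 | h1
      · exact h1
      · exact absurd h1 (hc j hj)
    have hg : ∀ j ∈ F, j + 2 ≤ k → g s = f^[j] t := by
      intro j hj h2
      have h3 := h.chord (i := k) (j := j) le_rfl h2 (by rw [h.hk]; exact hD j hj)
      rwa [h.hk] at h3
    have hsub : F ⊆ {k - 1} ∪ F.filter (fun j => j + 2 ≤ k) := by
      intro j hj
      have := (hmem j hj).2.1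
      simp only [Finset.mem_union, Finset.mem_singleton, Finset.mem_filter]
      by_cases h2 : j + 2 ≤ k
      · exact Or.inr ⟨hj, h2⟩
      · left; omega
    have h1 := (Finset.card_le_card hsub).trans (Finset.card_union_le _ _)
    have h2 : (F.filter (fun j => j + 2 ≤ k)).card ≤ 1 := by
      rw [Finset.card_le_one]
      intro i hi j hj
      have hi' := Finset.mem_filter.mp hi
      have hj' := Finset.mem_filter.mp hj
      exact hinj i hi'.1 j hj'.1 ((hg i hi'.1 hi'.2).symm.trans (hg j hj'.1 hj'.2))
    rw [Finset.card_singleton] at h1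
    omega

theorem U1BAux.iterate_fixed {W : Type*} {g : W → W} {t : W} (h : g t = t) (n : ℕ) :
    g^[n] t = t := Function.iterate_fixed h n

theorem U1BAux.nonadj (h : MinNA D s t f g k l) {x y : ℕ} (hy2 : 2 ≤ y) (hyk : y < k)
    (hxk : x < k) (hxy : y + 2 ≤ x) (hDx : D (f^[x] t) t) (hDy : D (f^[y] t) t)
    (hyl : f^[y] t ≠ g^[l - 1] s) : ¬ Adj D (f^[x] t) (f^[y] t) := by
  classical
  have hgx : g (f^[x] t) = t := h.chord (i := x) (j := 0) hxk.le (by omega) hDx
  have hgy : g (f^[y] t) = t := h.chord (i := y) (j := 0) hyk.le (by omega) hDy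
  have hyt : f^[y] t ≠ t := by
    intro e
    have := h.a_inj (i := y) (j := 0) hyk.le (Nat.zero_le _) e
    omega
  have hxt : f^[x] t ≠ t := by
    intro e
    have := h.a_inj (i := x) (j := 0) hxk.le (Nat.zero_le _) e
    omega
  have hxney : f^[x] t ≠ f^[y] t := by
    intro e
    have := h.a_inj hxk.le hyk.le e
    omega
  rintro (hD | hD)
  · have := h.chord hxk.le hxy hD
    rw [hgx] at this
    exact hyt this.symm
  · -- reparent in g
    have hbr1 : Br D s t f (Function.update g (f^[y] t) (f^[x] t)) := by
      refine h.br.reparentG hyt hD (Or.inr ?_) ?_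
      · intro e
        rw [← Function.iterate_succ_apply' f] at e
        have := h.a_inj (i := x + 1) (j := y) (by omega) hyk.le e
        omega
      · intro n
        rcases n with _ | n
        · exact hxney
        · rw [Function.iterate_succ_apply, hgx, U1BAux.iterate_fixed h.br.gt]
          exact hyt.symm
    have hnot : ∀ m, m < l → g^[m] s ≠ f^[y] t := by
      intro m hm e
      have h1 : g^[m + 1] s = t := by
        rw [Function.iterate_succ_apply', e, hgy]
      have h2 := h.b_inj (i := m + 1) (j := l) (by omega) le_rfl (h1.trans h.hl.symm)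
      apply hyl
      rw [← e]
      congr 2
      omega
    have hg' : ∀ m, m ≤ l → (Function.update g (f^[y] t) (f^[x] t))^[m] s = g^[m] s := by
      intro m
      induction m with
      | zero => intro _; rfl
      | succ m ih =>
        intro hm
        rw [Function.iterate_succ_apply', Function.iterate_succ_apply', ih (by omega),
          Function.update_of_ne (hnot m (by omega))]
    -- reparent in f
    have hfs : ∀ n, f^[n] s = s := fun n => U1BAux.iterate_fixed h.br.fs n
    have hanc : ∀ n, f^[n] (f^[y] t) ≠ t := by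
      intro n e
      rw [← Function.iterate_add_apply] at e
      by_cases hn : n + y ≤ k
      · have := h.a_inj (i := n + y) (j := 0) hn (Nat.zero_le _) e
        omega
      · have h1 : n + y = (n + y - k) + k := by omega
        rw [h1, Function.iterate_add_apply, h.hk, hfs] at e
        exact h.ne e
    have hbr2 : Br D s t (Function.update f t (f^[y] t))
        (Function.update g (f^[y] t) (f^[x] t)) := by
      refine hbr1.reparentF h.ne.symm hDy (Or.inr ?_) hanc
      rw [Function.update_self]
      exact hxt
    have hf' : ∀ m, (Function.update f t (f^[y] t))^[m] (f^[y] t) = f^[m] (f^[y] t) := by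
      intro m
      induction m with
      | zero => rfl
      | succ m ih =>
        rw [Function.iterate_succ_apply', Function.iterate_succ_apply', ih,
          Function.update_of_ne (hanc m)]
    have hf'' : (Function.update f t (f^[y] t))^[k - y + 1] t = s := by
      rw [Function.iterate_succ_apply, Function.update_self, hf',
        ← Function.iterate_add_apply]
      have : k - y + y = k := by omega
      rw [this, h.hk]
    have := h.min s t _ _ (k - y + 1) l hbr2 hf'' ((hg' l le_rfl).trans h.hl) h.ne h.na
    omega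

open Classical in
theorem MinNA.J2 (hα : Alpha2 D) (h : MinNA D s t f g k l) :
    ((Finset.Ico 2 k).filter (fun j => D (f^[j] t) t)).card ≤ 5 := by
  set F := (Finset.Ico 2 k).filter (fun j => D (f^[j] t) t) with hF
  have hmem : ∀ j ∈ F, 2 ≤ j ∧ j < k ∧ D (f^[j] t) t := by
    intro j hj
    have h1 := Finset.mem_filter.mp hj
    have h2 := Finset.mem_Ico.mp h1.1
    exact ⟨h2.1, h2.2, h1.2⟩
  have hinj : ∀ i ∈ F, ∀ j ∈ F, f^[i] t = f^[j] t → i = j := fun i hi j hj e =>
    h.a_inj (hmem i hi).2.1.le (hmem j hj).2.1.le e
  have hsum := Finset.card_filter_add_card_filter_not (s := F)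
    (fun j => f^[j] t = g^[l - 1] s)
  have h1 : (F.filter (fun j => f^[j] t = g^[l - 1] s)).card ≤ 1 := by
    rw [Finset.card_le_one]
    intro i hi j hj
    have hi' := Finset.mem_filter.mp hi
    have hj' := Finset.mem_filter.mp hj
    exact hinj i hi'.1 j hj'.1 (hi'.2.trans hj'.2.symm)
  have h2 : (F.filter (fun j => ¬ f^[j] t = g^[l - 1] s)).card ≤ 4 := by
    refine gap3 _ ?_
    intro i hi j hj m hm hij hjm
    have hi' := Finset.mem_filter.mp hi
    have hj' := Finset.mem_filter.mp hj
    have hm' := Finset.mem_filter.mp hm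
    have fi := hmem i hi'.1
    have fj := hmem j hj'.1
    have fm := hmem m hm'.1
    have n1 : f^[m] t ≠ f^[j] t := fun e => by
      have := hinj m hm'.1 j hj'.1 e
      omega
    have n2 : f^[m] t ≠ f^[i] t := fun e => by
      have := hinj m hm'.1 i hi'.1 e
      omega
    have n3 : f^[j] t ≠ f^[i] t := fun e => by
      have := hinj j hj'.1 i hi'.1 e
      omega
    rcases hα _ _ _ n1 n2 n3 with h3 | h3 | h3
    · exact U1BAux.nonadj h fj.1 fj.2.1 fm.2.1 hjm fm.2.2 fj.2.2 hj'.2 h3
    · exact U1BAux.nonadj h fi.1 fi.2.1 fm.2.1 (by omega) fm.2.2 fi.2.2 hi'.2 h3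
    · exact U1BAux.nonadj h fi.1 fi.2.1 fj.2.1 hij fj.2.2 fi.2.2 hi'.2 h3
  omega

end Pool.Agent.Lib.AB474
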