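import Pool.Agent.Lib.AB474.Basic

/-!
# Linked pairs of walks
-/

namespace Pool.Agent.Lib.AB474

open Relation

variable {V : Type*}

/-- `p 0, …, p k` is a walk of length `k` in the relation `A`. -/
def Walk (A : V → V → Prop) (k : ℕ) (p : ℕ → V) : Prop := ∀ i < k, A (p i) (p (i + 1))

/-- The arcs of the walk `p 0, …, p k`. -/
def Arcs (k : ℕ) (p : ℕ → V) (u v : V) : Prop := ∃ i < k, p i = u ∧ p (i + 1) = v

/-- The reversed walk. -/
def rev (k : ℕ) (p : ℕ → V) : ℕ → V := fun i => p (k - i)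

/-- A plus walk `p` and a minus walk `q` from `S` to `T` without common conflict arc. -/
structure Linked (I : Inst V) (k : ℕ) (p : ℕ → V) (l : ℕ) (q : ℕ → V) : Prop where
  p0 : I.S (p 0)
  pk : I.T (p k)
  pw : Walk I.Gp k p
  q0 : I.S (q 0)
  ql : I.T (q l)
  qw : Walk I.Gm l q
  dis : ∀ u v, Arcs k p u v → Arcs l q u v → ¬ I.Cf u v

/-- A linked pair of minimal total length. -/
def MinLinked (I : Inst V) (k : ℕ) (p : ℕ → V) (l : ℕ) (q : ℕ → V) : Prop :=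
  Linked I k p l q ∧ ∀ k' p' l' q', Linked I k' p' l' q' → k + l ≤ k' + l'

/-- The instance in which the conflict arcs of `p` are labelled plus and those of `q` minus. -/
def pl (I : Inst V) (k : ℕ) (p : ℕ → V) (l : ℕ) (q : ℕ → V) : Inst V :=
  I.lab (fun u v => I.Cf u v ∧ Arcs k p u v) (fun u v => I.Cf u v ∧ Arcs l q u v)

/-- No walk of length one or two from `S` to `T` (the middle vertex outside `S` and `T`). -/
structure Thin (I : Inst V) : Prop where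
  p1 : ∀ s t, I.S s → I.T t → ¬ I.Gp s t
  m1 : ∀ s t, I.S s → I.T t → ¬ I.Gm s t
  p2 : ∀ s n t, I.S s → I.N n → I.T t → I.Gp s n → ¬ I.Gp n t
  m2 : ∀ s n t, I.S s → I.N n → I.T t → I.Gm s n → ¬ I.Gm n t

/-- The situation left over when the labels given by a minimal linked pair do not lead to a
solution. -/
structure FS (I : Inst V) (k : ℕ) (p : ℕ → V) (l : ℕ) (q : ℕ → V) (x w : V) (J Q : V → Prop) :
    Prop where
  xN : I.N x
  wN : I.N w
  cf : I.Cf x w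
  np : ¬ Arcs k p x w
  nm : ¬ Arcs l q x w
  sx : I.Cf (q 0) x
  wy : I.Cf w (p k)
  Jx : J x
  Qw : Q w
  Jsub : ∀ v, J v → ¬ (pl I k p l q).L v
  Qsub : ∀ v, Q v → ¬ (pl I k p l q).R v
  Jcl : ∀ u v, J u → (pl I k p l q).Gm u v → ¬ (pl I k p l q).L v → J v
  Qcl : ∀ u v, Q v → (pl I k p l q).Gp u v → ¬ (pl I k p l q).R u → Q u
  Jex : ∃ a b, I.Cf a b ∧ J a ∧ ¬ J b ∧ ((a = p 0 ∧ b = p 1) ∨ (a = p 1 ∧ b = p 2)) ∧
    ∀ u v, J u → ¬ J v → I.Gm u v → (u = x ∧ v = w) ∨ (u = a ∧ v = b)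
  Qex : ∃ a b, I.Cf a b ∧ ¬ Q a ∧ Q b ∧
    ((a = q (l - 1) ∧ b = q l) ∨ (a = q (l - 2) ∧ b = q (l - 1))) ∧
    ∀ u v, ¬ Q u → Q v → I.Gp u v → (u = x ∧ v = w) ∨ (u = a ∧ v = b)
  JL : ∀ v, ¬ (pl I k p l q).L v → ReflTransGen
    (fun a b => (pl I k p l q).Gm a b ∧ ¬ (pl I k p l q).L a ∧ ¬ (pl I k p l q).L b) v x
  QR : ∀ v, ¬ (pl I k p l q).R v → ReflTransGen
    (fun a b => (pl I k p l q).Gp a b ∧ ¬ (pl I k p l q).R a ∧ ¬ (pl I k p l q).R b) w v

/-- The configuration: the plus walk starts `s', x, p 2`, the minus walk ends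
`q (l-2), w, y`. -/
structure ConfE (I : Inst V) (k : ℕ) (p : ℕ → V) (l : ℕ) (q : ℕ → V) (J Q : V → Prop) :
    Prop where
  ml : MinLinked I k p l q
  k3 : 3 ≤ k
  l3 : 3 ≤ l
  s : p 0 = q 0
  y : p k = q l
  xN : I.N (p 1)
  wN : I.N (q (l - 1))
  cf : I.Cf (p 1) (q (l - 1))
  np : ¬ Arcs k p (p 1) (q (l - 1))
  nm : ¬ Arcs l q (p 1) (q (l - 1))
  sx : I.Cf (p 0) (p 1)
  wy : I.Cf (q (l - 1)) (q l)
  xa : I.Cf (p 1) (p 2)
  bw : I.Cf (q (l - 2)) (q (l - 1))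
  Jx : J (p 1)
  Qw : Q (q (l - 1))
  Jsub : ∀ v, J v → ¬ (pl I k p l q).L v
  Qsub : ∀ v, Q v → ¬ (pl I k p l q).R v
  Jcl : ∀ u v, J u → (pl I k p l q).Gm u v → ¬ (pl I k p l q).L v → J v
  Qcl : ∀ u v, Q v → (pl I k p l q).Gp u v → ¬ (pl I k p l q).R u → Q u
  Jex : ∀ u v, J u → ¬ J v → I.Gm u v → u = p 1 ∧ (v = q (l - 1) ∨ v = p 2)
  Qex : ∀ u v, ¬ Q u → Q v → I.Gp u v → v = q (l - 1) ∧ (u = p 1 ∨ u = q (l - 2))
  JL : ∀ v, ¬ (pl I k p l q).L v → ReflTransGen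
    (fun a b => (pl I k p l q).Gm a b ∧ ¬ (pl I k p l q).L a ∧ ¬ (pl I k p l q).L b) v (p 1)
  QR : ∀ v, ¬ (pl I k p l q).R v → ReflTransGen
    (fun a b => (pl I k p l q).Gp a b ∧ ¬ (pl I k p l q).R a ∧ ¬ (pl I k p l q).R b)
    (q (l - 1)) v

theorem rev_rev {k : ℕ} {p : ℕ → V} {i : ℕ} (h : i ≤ k) : rev k (rev k p) i = p i := by
  simp only [rev]
  congr 1
  omega

theorem arcs_rev {k : ℕ} {p : ℕ → V} {u v : V} : Arcs k (rev k p) u v ↔ Arcs k p v u := by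
  constructor
  · rintro ⟨i, hi, h1, h2⟩
    refine ⟨k - (i + 1), by omega, h2, ?_⟩
    rw [← h1]
    simp only [rev]
    congr 1
    omega
  · rintro ⟨i, hi, h1, h2⟩
    refine ⟨k - (i + 1), by omega, ?_, ?_⟩
    · rw [← h2]
      simp only [rev]
      congr 1
      omega
    · rw [← h1]
      simp only [rev]
      congr 1
      omega

theorem Walk.rev {A : V → V → Prop} {k : ℕ} {p : ℕ → V} (h : Walk A k p) :
    Walk (fun a b => A b a) k (AB474.rev k p) := by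
  intro i hi
  have := h (k - (i + 1)) (by omega)
  simp only [AB474.rev]
  have e : k - (i + 1) + 1 = k - i := by omega
  rw [e] at this
  exact this

theorem Linked.toDual {I : Inst V} {k : ℕ} {p : ℕ → V} {l : ℕ} {q : ℕ → V}
    (h : Linked I k p l q) : Linked I.dual l (rev l q) k (rev k p) := by
  refine ⟨?_, ?_, h.qw.rev, ?_, ?_, h.pw.rev, fun u v h1 h2 h3 => ?_⟩
  · simpa [rev] using h.ql
  · simpa [rev] using h.q0
  · simpa [rev] using h.pk
  · simpa [rev] using h.p0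
  · exact h.dis v u (arcs_rev.1 h2) (arcs_rev.1 h1) (Inst.dual_Cf.1 h3)

theorem MinLinked.toDual {I : Inst V} {k : ℕ} {p : ℕ → V} {l : ℕ} {q : ℕ → V}
    (h : MinLinked I k p l q) : MinLinked I.dual l (rev l q) k (rev k p) := by
  refine ⟨h.1.toDual, fun k' p' l' q' h' => ?_⟩
  have := h.2 _ _ _ _ h'.toDual
  omega

theorem Thin.toDual {I : Inst V} (h : Thin I) : Thin I.dual :=
  ⟨fun s t hs ht hst => h.m1 t s ht hs hst, fun s t hs ht hst => h.p1 t s ht hs hst,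
    fun s n t hs hn ht h1 h2 => h.m2 t n s ht (Inst.dual_N.1 hn) hs h2 h1,
    fun s n t hs hn ht h1 h2 => h.p2 t n s ht (Inst.dual_N.1 hn) hs h2 h1⟩

theorem pl_dual {I : Inst V} {k : ℕ} {p : ℕ → V} {l : ℕ} {q : ℕ → V} :
    (pl I k p l q).dual = pl I.dual l (rev l q) k (rev k p) := by
  simp only [pl, Inst.lab_dual]
  congr 1
  · funext u v
    rw [Inst.dual_Cf, arcs_rev]
  · funext u v
    rw [Inst.dual_Cf, arcs_rev]

theorem pl_dual_R {I : Inst V} {k : ℕ} {p : ℕ → V} {l : ℕ} {q : ℕ → V} {v : V} :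
    (pl I.dual l (rev l q) k (rev k p)).R v ↔ (pl I k p l q).L v := by
  rw [← pl_dual]
  exact Inst.dual_R

theorem pl_dual_L {I : Inst V} {k : ℕ} {p : ℕ → V} {l : ℕ} {q : ℕ → V} {v : V} :
    (pl I.dual l (rev l q) k (rev k p)).L v ↔ (pl I k p l q).R v := by
  rw [← pl_dual]
  exact Inst.dual_L

theorem pl_dual_Gp {I : Inst V} {k : ℕ} {p : ℕ → V} {l : ℕ} {q : ℕ → V} {u v : V} :
    (pl I.dual l (rev l q) k (rev k p)).Gp u v ↔ (pl I k p l q).Gm v u := by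
  rw [← pl_dual]
  exact Inst.dual_Gp

theorem pl_dual_Gm {I : Inst V} {k : ℕ} {p : ℕ → V} {l : ℕ} {q : ℕ → V} {u v : V} :
    (pl I.dual l (rev l q) k (rev k p)).Gm u v ↔ (pl I k p l q).Gp v u := by
  rw [← pl_dual]
  exact Inst.dual_Gm

theorem ConfE.toDual {I : Inst V} {k : ℕ} {p : ℕ → V} {l : ℕ} {q : ℕ → V} {J Q : V → Prop}
    (h : ConfE I k p l q J Q) : ConfE I.dual l (rev l q) k (rev k p) Q J := by
  have k3 := h.k3
  have l3 := h.l3
  have e0 : rev l q 0 = q l := by simp [rev]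
  have e1 : rev l q 1 = q (l - 1) := rfl
  have e2 : rev l q 2 = q (l - 2) := rfl
  have f0 : rev k p k = p 0 := by simp [rev]
  have f1 : rev k p (k - 1) = p 1 := by
    simp only [rev]
    congr 1
    omega
  have f2 : rev k p (k - 2) = p 2 := by
    simp only [rev]
    congr 1
    omega
  have g0 : rev k p 0 = p k := by simp [rev]
  have g1 : rev l q l = q 0 := by simp [rev]
  refine ⟨h.ml.toDual, l3, k3, ?_, ?_, ?_, ?_, ?_, ?_, ?_, ?_, ?_, ?_, ?_, ?_, ?_, ?_, ?_, ?_, ?_,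
    ?_, ?_, ?_, ?_⟩
  · rw [e0, g0, h.y]
  · rw [f0, g1, h.s]
  · rw [e1, Inst.dual_N]
    exact h.wN
  · rw [f1, Inst.dual_N]
    exact h.xN
  · rw [e1, f1, Inst.dual_Cf]
    exact h.cf
  · rw [e1, f1, arcs_rev]
    exact h.nm
  · rw [e1, f1, arcs_rev]
    exact h.np
  · rw [e0, e1, Inst.dual_Cf]
    exact h.wy
  · rw [f0, f1, Inst.dual_Cf]
    exact h.sx
  · rw [e1, e2, Inst.dual_Cf]
    exact h.bw
  · rw [f1, f2, Inst.dual_Cf]
    exact h.xa
  · rw [e1]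
    exact h.Qw
  · rw [f1]
    exact h.Jx
  · intro v hv
    rw [pl_dual_L]
    exact h.Qsub v hv
  · intro v hv
    rw [pl_dual_R]
    exact h.Jsub v hv
  · intro u v hu huv hv
    rw [pl_dual_Gm] at huv
    rw [pl_dual_L] at hv
    exact h.Qcl v u hu huv hv
  · intro u v hu huv hv
    rw [pl_dual_Gp] at huv
    rw [pl_dual_R] at hv
    exact h.Jcl v u hu huv hv
  · intro u v hu hv huv
    rw [e1, f1, e2]
    exact h.Qex v u hv hu huv
  · intro u v hu hv huv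
    rw [e1, f1, f2]
    exact h.Jex v u hv hu huv
  · intro v hv
    rw [pl_dual_L] at hv
    rw [e1]
    refine rtmono (h.QR v hv).swap ?_
    rintro a b ⟨h1, h2, h3⟩
    rw [pl_dual_Gm, pl_dual_L, pl_dual_L]
    exact ⟨h1, h3, h2⟩
  · intro v hv
    rw [pl_dual_R] at hv
    rw [f1]
    refine rtmono (h.JL v hv).swap ?_
    rintro a b ⟨h1, h2, h3⟩
    rw [pl_dual_Gp, pl_dual_R, pl_dual_R]
    exact ⟨h1, h3, h2⟩

theorem FS.toDual {I : Inst V} {k : ℕ} {p : ℕ → V} {l : ℕ} {q : ℕ → V} {x w : V}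
    {J Q : V → Prop} (h : FS I k p l q x w J Q) (k2 : 2 ≤ k) :
    FS I.dual l (rev l q) k (rev k p) w x Q J := by
  have e0 : rev l q 0 = q l := by simp [rev]
  have e1 : rev l q 1 = q (l - 1) := rfl
  have e2 : rev l q 2 = q (l - 2) := rfl
  have f0 : rev k p k = p 0 := by simp [rev]
  have f1 : rev k p (k - 1) = p 1 := by
    simp only [rev]
    congr 1
    omega
  have f2 : rev k p (k - 2) = p 2 := by
    simp only [rev]
    congr 1
    omega
  have g0 : rev k p 0 = p k := by simp [rev]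
  have g1 : rev l q l = q 0 := by simp [rev]
  refine ⟨Inst.dual_N.2 h.wN, Inst.dual_N.2 h.xN, Inst.dual_Cf.2 h.cf, ?_, ?_, ?_, ?_, h.Qw, h.Jx,
    ?_, ?_, ?_, ?_, ?_, ?_, ?_, ?_⟩
  · rw [arcs_rev]
    exact h.nm
  · rw [arcs_rev]
    exact h.np
  · rw [g0, Inst.dual_Cf]
    exact h.wy
  · rw [g1, Inst.dual_Cf]
    exact h.sx
  · intro v hv
    rw [pl_dual_L]
    exact h.Qsub v hv
  · intro v hv
    rw [pl_dual_R]
    exact h.Jsub v hv
  · intro u v hu huv hv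
    rw [pl_dual_Gm] at huv
    rw [pl_dual_L] at hv
    exact h.Qcl v u hu huv hv
  · intro u v hu huv hv
    rw [pl_dual_Gp] at huv
    rw [pl_dual_R] at hv
    exact h.Jcl v u hu huv hv
  · obtain ⟨a, b, h1, h2, h3, h4, h5⟩ := h.Qex
    refine ⟨b, a, Inst.dual_Cf.2 h1, h3, h2, ?_, fun u v hu hv huv => ?_⟩
    · rw [e0, e1, e2]
      tauto
    · have := h5 v u hv hu huv
      tauto
  · obtain ⟨a, b, h1, h2, h3, h4, h5⟩ := h.Jex
    refine ⟨b, a, Inst.dual_Cf.2 h1, h3, h2, ?_, fun u v hu hv huv => ?_⟩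
    · rw [f0, f1, f2]
      tauto
    · have := h5 v u hv hu huv
      tauto
  · intro v hv
    rw [pl_dual_L] at hv
    refine rtmono (h.QR v hv).swap ?_
    rintro a b ⟨h1, h2, h3⟩
    rw [pl_dual_Gm, pl_dual_L, pl_dual_L]
    exact ⟨h1, h3, h2⟩
  · intro v hv
    rw [pl_dual_R] at hv
    refine rtmono (h.JL v hv).swap ?_
    rintro a b ⟨h1, h2, h3⟩
    rw [pl_dual_Gp, pl_dual_R, pl_dual_R]
    exact ⟨h1, h3, h2⟩

end Pool.Agent.Lib.AB474
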